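import Mathlib

namespace Pool.Agent.Work.MP_eae946_nt.Full

theorem prime_ge_five {p : ℕ} (hp : p.Prime) (h4 : p % 4 = 1) : 5 ≤ p := by
  have := hp.two_le
  omega

theorem prime_ge_17 {p : ℕ} (hp : p.Prime) (h4 : p % 4 = 1) (h5 : p ≠ 5) (h13 : p ≠ 13) :
    17 ≤ p := by
  have := hp.two_le
  by_contra hcon
  push Not at hcon
  have h9 : p = 9 := by omega
  rw [h9] at hp
  exact absurd hp (by norm_num)

theorem prod_ge_four (P : Finset ℕ) (hP : ∀ p ∈ P, p.Prime ∧ p % 4 = 1) :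
    4 ^ P.card ≤ ∏ p ∈ P, p := by
  rw [← Finset.prod_const]
  exact Finset.prod_le_prod' fun p hp => by
    have := prime_ge_five (hP p hp).1 (hP p hp).2
    omega

theorem prod_gt_four (P : Finset ℕ) (hP : ∀ p ∈ P, p.Prime ∧ p % 4 = 1) (hne : P.Nonempty) :
    4 ^ P.card < ∏ p ∈ P, p := by
  rw [← Finset.prod_const]
  exact Finset.prod_lt_prod_of_nonempty (by simp) (fun p hp => by
    have := prime_ge_five (hP p hp).1 (hP p hp).2
    omega) hne

theorem arith65 (P : Finset ℕ) (hP : ∀ p ∈ P, p.Prime ∧ p % 4 = 1) :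
    65 * 16 ^ P.card ≤ 256 * ∏ p ∈ P, p := by
  classical
  have h1 : P.card = (P ∩ {5, 13}).card + (P \ {5, 13}).card := by
    rw [Finset.card_inter_add_card_sdiff]
  have h2 : ∏ p ∈ P, p = (∏ p ∈ P ∩ {5, 13}, p) * ∏ p ∈ P \ {5, 13}, p := by
    rw [Finset.prod_inter_mul_prod_sdiff]
  have h3 : 16 ^ (P \ {5, 13}).card ≤ ∏ p ∈ P \ {5, 13}, p := by
    rw [← Finset.prod_const]
    refine Finset.prod_le_prod' fun p hp => ?_
    rw [Finset.mem_sdiff] at hp
    have h4 := hP p hp.1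
    have h5 : p ≠ 5 := by rintro rfl; exact hp.2 (by simp)
    have h13 : p ≠ 13 := by rintro rfl; exact hp.2 (by simp)
    have := prime_ge_17 h4.1 h4.2 h5 h13
    omega
  have h4 : 65 * 16 ^ (P ∩ {5, 13}).card ≤ 256 * ∏ p ∈ P ∩ {5, 13}, p := by
    have hmem : P ∩ {5, 13} ∈ ({5, 13} : Finset ℕ).powerset := by
      rw [Finset.mem_powerset]; exact Finset.inter_subset_right
    generalize P ∩ {5, 13} = R at hmem
    revert R
    decide
  rw [h1, h2, pow_add]
  calc 65 * (16 ^ (P ∩ {5, 13}).card * 16 ^ (P \ {5, 13}).card)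
      = (65 * 16 ^ (P ∩ {5, 13}).card) * 16 ^ (P \ {5, 13}).card := by ring
    _ ≤ (256 * ∏ p ∈ P ∩ {5, 13}, p) * ∏ p ∈ P \ {5, 13}, p := Nat.mul_le_mul h4 h3
    _ = _ := by ring

theorem prod_ge_65 (P : Finset ℕ) (hP : ∀ p ∈ P, p.Prime ∧ p % 4 = 1) (h2 : 2 ≤ P.card) :
    65 ≤ ∏ p ∈ P, p := by
  have h1 := arith65 P hP
  have h3 : 16 ^ 2 ≤ 16 ^ P.card := Nat.pow_le_pow_right (by norm_num) h2
  omega

/-- the main arithmetic estimate. -/
theorem arith_main (P : Finset ℕ) (hP : ∀ p ∈ P, p.Prime ∧ p % 4 = 1) {m t N : ℕ}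
    (hm13 : 13 ≤ m) (hm : m ≤ ∏ p ∈ P, p) {p0 : ℕ} (hp0 : p0 ∈ P) (hp0m : p0 ∣ m)
    (ht : 5 ≤ t) (hodd : Odd t) (h1 : m + 4 * N = t ^ 2) (hN : N + 2 ≤ t)
    (hlow : (t - 2) ^ 2 < m) {n : ℝ} (hn : n ^ 2 = N) (hn0 : 0 ≤ n) :
    4 ^ P.card * ((t : ℝ) + 2 * n) < 4 * ((∏ p ∈ P, p : ℕ) : ℝ) := by
  set T := ∏ p ∈ P, p with hT
  have hNr : (N : ℝ) + 2 ≤ t := by exact_mod_cast hN
  have hmr : (m : ℝ) + 4 * N = t ^ 2 := by exact_mod_cast h1
  have hmT : (m : ℝ) ≤ T := by exact_mod_cast hm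
  have hlowr : ((t : ℝ) - 2) ^ 2 < m := by
    have : (((t - 2 : ℕ) : ℝ)) ^ 2 < m := by exact_mod_cast hlow
    rwa [Nat.cast_sub (by omega)] at this
  have htr : (5 : ℝ) ≤ t := by exact_mod_cast ht
  -- reduction to an inequality on `(t + 2 n)^2`
  have red : 16 * ((t : ℝ) + 2 * n) ^ 2 < 65 * T →
      4 ^ P.card * ((t : ℝ) + 2 * n) < 4 * (T : ℝ) := by
    intro h
    have h65 : (65 : ℝ) * 16 ^ P.card ≤ 256 * T := by exact_mod_cast arith65 P hP
    have hF : ((4 : ℝ) ^ P.card) ^ 2 = 16 ^ P.card := by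
      rw [← pow_mul, mul_comm, pow_mul]; norm_num
    set F : ℝ := 4 ^ P.card with hFdef
    have hFpos : 0 < F := by positivity
    have hm13r : (13 : ℝ) ≤ (m : ℝ) := by exact_mod_cast hm13
    have hTpos : (0 : ℝ) < T := by linarith
    have hx : 0 ≤ (t : ℝ) + 2 * n := by linarith
    apply lt_of_pow_lt_pow_left₀ 2 (by positivity)
    rw [mul_pow, mul_pow]
    rw [← hF] at h65
    have e1 : 65 * (F ^ 2 * ((t : ℝ) + 2 * n) ^ 2) ≤ 256 * T * ((t : ℝ) + 2 * n) ^ 2 := by
      have := mul_le_mul_of_nonneg_right h65 (sq_nonneg ((t : ℝ) + 2 * n))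
      linarith
    have e2 : 16 * T * (16 * ((t : ℝ) + 2 * n) ^ 2) < 16 * T * (65 * T) :=
      mul_lt_mul_of_pos_left h (by positivity)
    nlinarith
  by_cases h11 : 11 ≤ t
  · apply red
    have h11r : (11 : ℝ) ≤ t := by exact_mod_cast h11
    have e1 : n ≤ t / 2 - 2 := by
      apply le_of_sq_le_sq _ (by linarith)
      rw [hn]; nlinarith
    have e2 : ((t : ℝ) + 2 * n) ^ 2 ≤ (2 * ((t : ℝ) - 2)) ^ 2 := by
      apply pow_le_pow_left₀ (by linarith)
      linarith
    nlinarith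
  · have ht9 : t ≤ 9 := by
      obtain ⟨c, hc⟩ := hodd
      omega
    have hN7 : N ≤ 7 := by omega
    have hn7 : n ≤ 2.65 := by
      apply le_of_sq_le_sq _ (by norm_num)
      rw [hn]
      have : (N : ℝ) ≤ 7 := by exact_mod_cast hN7
      linarith
    have ht9r : (t : ℝ) ≤ 9 := by exact_mod_cast ht9
    by_cases hcard : 2 ≤ P.card
    · apply red
      have h65 : (65 : ℝ) ≤ T := by exact_mod_cast prod_ge_65 P hP hcard
      have e3 : ((t : ℝ) + 2 * n) ^ 2 ≤ 14.3 ^ 2 := by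
        apply pow_le_pow_left₀ (by linarith)
        linarith
      nlinarith
    · have hc1 : P.card = 1 := by
        have : 0 < P.card := Finset.card_pos.mpr ⟨p0, hp0⟩
        omega
      obtain ⟨p, hp⟩ := Finset.card_eq_one.mp hc1
      have hTp : T = p := by rw [hT, hp]; simp
      have hpp0 : p0 = p := by rw [hp] at hp0; simpa using hp0
      have hmp : m = T := by
        apply le_antisymm hm
        rw [hTp, ← hpp0]
        exact Nat.le_of_dvd (by omega) hp0m
      rw [hc1, pow_one]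
      have hTm : (T : ℝ) = m := by exact_mod_cast hmp.symm
      rw [hTm]
      apply mul_lt_mul_of_pos_left _ (by norm_num : (0 : ℝ) < 4)
      obtain ⟨c, hc⟩ := hodd
      have hc2 : c = 2 ∨ c = 3 ∨ c = 4 := by omega
      rcases hc2 with rfl | rfl | rfl
      · subst hc
        have hm' : (13 : ℝ) ≤ m := by exact_mod_cast hm13
        push_cast at *
        have : n ≤ 2 := by
          apply le_of_sq_le_sq _ (by norm_num)
          rw [hn]; linarith
        linarith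
      · subst hc
        have hm' : (26 : ℝ) ≤ m := by
          have : 26 ≤ m := by norm_num at hlow; omega
          exact_mod_cast this
        push_cast at *
        linarith
      · subst hc
        have hm' : (50 : ℝ) ≤ m := by
          have : 50 ≤ m := by norm_num at hlow; omega
          exact_mod_cast this
        push_cast at *
        linarith

end Pool.Agent.Work.MP_eae946_nt.Full
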