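import Pool.Agent.Work.MP_eae946_nt.Full.LatLem

namespace Pool.Agent.Work.MP_eae946_nt.Full

open NumberField

variable {K : Type*} [Field K] [NumberField K] [IsTotallyReal K]
variable {B : (Fin 3 → K) →ₗ[K] (Fin 3 → K) →ₗ[K] K}

omit [IsTotallyReal K] in
/-- integrality and positivity of `A = (t + s) / 2`. -/
theorem A_int (D : MinD K) {s : K} (hs : s ^ 2 = D.m) : IsIntegral ℤ (((D.t : K) + s) / 2) := by
  refine int_of_quadratic (a := (D.t : ℤ)) (b := -(D.N : ℤ)) ?_
  have h1 : (D.m : K) + 4 * D.N = (D.t : K) ^ 2 := by exact_mod_cast congrArg (Nat.cast : ℕ → K) D.hN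
  push_cast
  linear_combination (hs + h1) / 4

omit [IsTotallyReal K] in
theorem A_pos (D : MinD K) {s : K} (hs : s ^ 2 = D.m) (σ : K →+* ℝ) :
    0 < σ (((D.t : K) + s) / 2) := by
  have h1 : (D.m : ℝ) + 4 * D.N = (D.t : ℝ) ^ 2 := by exact_mod_cast D.hN
  have h2 : σ s ^ 2 = D.m := by rw [← map_pow, hs, map_natCast]
  have h3 : (1 : ℝ) ≤ D.N := by exact_mod_cast D.hN1
  have h4 : (5 : ℝ) ≤ D.t := by exact_mod_cast D.ht
  rw [map_div₀, map_add, map_natCast, map_ofNat]
  nlinarith

omit [IsTotallyReal K] in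
theorem A_fix2 (M : MQ K) (D : MinD K) {s : K} (hs : s ^ 2 = D.m) :
    M.sg 2 (((D.t : K) + s) / 2) = ((D.t : K) + s) / 2 := by
  have h1 : M.sg 2 s = s := M.sg_fix Nat.prime_two D.hm.sqf.ne_zero (by
    have := D.hm.odd
    rw [← Nat.not_even_iff_odd, even_iff_two_dvd] at this
    exact this) hs
  rw [map_div₀, map_add, map_natCast, h1, map_ofNat]

theorem pos_ne_zero {x : K} (h : ∀ σ : K →+* ℝ, 0 < σ x) : x ≠ 0 := by
  rintro rfl
  obtain ⟨σ⟩ := exists_real K
  have := h σ
  rw [map_zero] at this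
  exact lt_irrefl _ this

omit [NumberField K] [IsTotallyReal K] in
/-- no square roots of numbers divisible by a prime `3` modulo `4`. -/
theorem CaseB.no_root (hB : CaseB K) {T p : ℕ} (hT : Squarefree T) (hp : p.Prime) (hpT : p ∣ T)
    (h2 : p ≠ 2) (h4 : p % 4 ≠ 1) (x : K) (hx : x ^ 2 = T) : False := by
  rcases hB x T hT hx p hp hpT with h | h
  · exact h2 h
  · exact h4 h

omit [NumberField K] [IsTotallyReal K] in
theorem pm_of_sq {g : K} {x : K} (h : g ^ 2 = x ^ 2) : g = x ∨ g = -x :=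
  sq_eq_sq_iff_eq_or_eq_neg.mp h

theorem real_bound {q G0 G1 W W' : ℝ} (hq0 : 0 ≤ q) (hq3 : q ≤ 3) (hsum : W + W' = 2)
    (hprod : W * W' = -1) (hX : (G0 + G1 * W) ^ 2 ≤ q * (1 + W))
    (hY : (G0 + G1 * W') ^ 2 ≤ q * (1 + W')) :
    5 * G0 ^ 2 ≤ 13 ∧ 5 * G1 ^ 2 ≤ 13 := by
  have hW2 : W ^ 2 = 2 * W + 1 := by nlinarith
  have hW'2 : W' ^ 2 = 2 * W' + 1 := by nlinarith
  set X := G0 + G1 * W with hXd
  set Y := G0 + G1 * W' with hYd
  have h1W : 0 ≤ 1 + W := by nlinarith [sq_nonneg (1 + W), sq_nonneg W, sq_nonneg (W + 1)]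
  have h1W' : 0 ≤ 1 + W' := by nlinarith [sq_nonneg (1 + W'), sq_nonneg W']
  have h2 : (1 + W) * (1 + W') = 2 := by nlinarith
  have hXY2 : (X * Y) ^ 2 ≤ 2 * q ^ 2 := by
    calc (X * Y) ^ 2 = X ^ 2 * Y ^ 2 := by ring
      _ ≤ (q * (1 + W)) * (q * (1 + W')) :=
        mul_le_mul hX hY (sq_nonneg _) (mul_nonneg hq0 h1W)
      _ = q ^ 2 * ((1 + W) * (1 + W')) := by ring
      _ = 2 * q ^ 2 := by rw [h2]; ring
  have hXY : |X * Y| ≤ 1.4143 * q := by
    apply abs_le_of_sq_le_sq _ (by positivity)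
    nlinarith [sq_nonneg q]
  have hD : (W - W') ^ 2 = 8 := by nlinarith
  have h3 := abs_le.mp hXY
  constructor
  · have e1 : (W * Y - W' * X) ^ 2 = 8 * G0 ^ 2 := by
      have : W * Y - W' * X = G0 * (W - W') := by rw [hXd, hYd]; ring
      rw [this, mul_pow, hD]; ring
    have e2 : (W * Y - W' * X) ^ 2 = W ^ 2 * Y ^ 2 + W' ^ 2 * X ^ 2 + 2 * (X * Y) := by
      linear_combination (-2 * X * Y) * hprod
    have e3 : W ^ 2 * Y ^ 2 ≤ W ^ 2 * (q * (1 + W')) := mul_le_mul_of_nonneg_left hY (sq_nonneg _)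
    have e4 : W' ^ 2 * X ^ 2 ≤ W' ^ 2 * (q * (1 + W)) := mul_le_mul_of_nonneg_left hX (sq_nonneg _)
    have e5 : W ^ 2 * (q * (1 + W')) + W' ^ 2 * (q * (1 + W)) = 4 * q := by
      linear_combination q * hW2 + q * hW'2 + q * (W + W') * hprod + q * hsum
    linarith [h3.2]
  · have e1 : (X - Y) ^ 2 = 8 * G1 ^ 2 := by
      have : X - Y = G1 * (W - W') := by rw [hXd, hYd]; ring
      rw [this, mul_pow, hD]; ring
    have e2 : X ^ 2 + Y ^ 2 ≤ 4 * q := by nlinarith
    nlinarith [h3.1]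

theorem caseB1 (M : MQ K) (hB : CaseB K) (h : Lat K (Fin 3 → K) B (stdL K))
    (h2 : ∃ y : K, y ^ 2 = 2) : False := by
  obtain ⟨y, hy⟩ := h2
  obtain ⟨D⟩ := exists_MinD M hB
  obtain ⟨s, hs⟩ : ∃ s : K, s ^ 2 = D.m := ⟨D.s, D.hs⟩
  set A : K := ((D.t : K) + s) / 2 with hA
  have iA : IsIntegral ℤ A := A_int D hs
  have pA : ∀ σ : K →+* ℝ, 0 < σ A := A_pos D hs
  have hsy : M.sg 2 y = -y := M.sg_neg Nat.prime_two Nat.prime_two.squarefree dvd_rfl
    (by rw [hy]; norm_num)
  set I := idx2 M hB y hy with hI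
  have hIw : I.w = 1 + y := rfl
  have hIt : I.t = 2 := rfl
  have hIc : I.c = 1 := rfl
  have hIτ : ∀ x, I.τ x = M.sg 2 x := fun x => rfl
  have hIA : I.τ A = A := A_fix2 M D hs
  have hww : (1 + y) ^ 2 = 2 * (1 + y) + 1 := by linear_combination hy
  -- `PP`
  have PPA : PP A := by
    intro γ hγ hd
    obtain ⟨g0, g1, i0, i1, f0, f1, hg⟩ := I.decomp γ hγ
    have hred := fun σ => I.reduce (A := A) hIA f0 f1 (r := 0) (by
      rw [← hg]; simpa using hd) σ
    rw [hIc] at hred
    have z0 : g0 = 0 := PP1 M hB D hs i0 f0 fun σ => by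
      have := hred σ
      push_cast at this
      nlinarith [sq_nonneg (σ g1)]
    have z1 : g1 = 0 := PP1 M hB D hs i1 f1 fun σ => by
      have := hred σ
      push_cast at this
      nlinarith [sq_nonneg (σ g0)]
    rw [hg, z0, z1]; ring
  set l : K := 2 + y with hl
  have hlw : l = 1 + ((1 : ℤ) : K) * I.w := by rw [hl, hIw]; push_cast; ring
  have PPlA : PP (A * l) := by rw [hlw]; exact I.PP_mul hIA PPA 1
  have PPl : PP l := by
    rw [hlw]
    exact I.PP_one le_rfl (by intro _; rw [hIt]; norm_num)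
  have iy : IsIntegral ℤ y := int_of_sq (by rw [hy]; exact int_two)
  have il : IsIntegral ℤ l := int_two.add iy
  have σy : ∀ σ : K →+* ℝ, σ y ^ 2 = 2 := fun σ => by rw [← map_pow, hy, map_ofNat]
  have pl : ∀ σ : K →+* ℝ, 0 < σ l := by
    intro σ
    rw [hl, map_add, map_ofNat]
    have := σy σ
    nlinarith
  obtain ⟨σn, hσn⟩ : ∃ σ : K →+* ℝ, σ (1 + y) < 0 := by
    obtain ⟨σ, hσ⟩ := I.exists_neg
    exact ⟨σ, hσ⟩
  obtain ⟨σp, hσp⟩ : ∃ σ : K →+* ℝ, 0 < σ (1 + y) := by
    obtain ⟨σ, hσ⟩ := I.exists_pos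
    exact ⟨σ, hσ⟩
  -- vectors
  obtain ⟨e, he, he1⟩ := h.universal 1 isIntegral_one (fun σ => by simp)
  have e0 : e ≠ 0 := vec_ne_zero he1 one_ne_zero
  obtain ⟨v, hv, hvl⟩ := h.universal l il pl
  have v0 : v ≠ 0 := vec_ne_zero hvl (pos_ne_zero pl)
  have hev : B e v = 0 := h.orth he hv (by rw [he1, hvl, one_mul]; exact PPl)
  obtain ⟨u, hu, huA⟩ := h.universal A iA pA
  have heu : B e u = 0 := h.orth he hu (by rw [he1, huA, one_mul]; exact PPA)
  have hvu : B v u = 0 := h.orth hv hu (by rw [hvl, huA, mul_comm]; exact PPlA)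
  obtain ⟨z, hz, hz3⟩ := h.universal 3 (int_ofNat 3) (fun σ => by rw [map_ofNat]; norm_num)
  obtain ⟨ix, hzL, hez, hzz, hxle⟩ := split_one h he he1 hz
  set x := B e z with hx
  set z' := z - x • e with hz'
  rw [hz3] at hzz
  -- the vector `w`
  obtain ⟨w, q, hw, hew, hwq, hq⟩ : ∃ (w : Fin 3 → K) (q : ℕ), w ∈ stdL K ∧ B e w = 0 ∧
      B w w = q ∧ (q = 1 ∨ q = 2 ∨ q = 3) := by
    rcases t_le_three (ix.pow 2) (fun σ => by rw [map_pow]; exact sq_nonneg _) (fun σ => by
      have := hxle σ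
      rw [hz3, map_ofNat] at this
      rw [map_pow]; exact this) with h1 | h1 | h1 | h1 | h1
    · exact ⟨z', 3, hzL, hez, by push_cast; linear_combination -hzz - h1, by simp⟩
    · exact ⟨z', 2, hzL, hez, by push_cast; linear_combination -hzz - h1, by simp⟩
    · exact ⟨z', 1, hzL, hez, by push_cast; linear_combination -hzz - h1, by simp⟩
    · exfalso
      exact hB.no_root Nat.prime_three.squarefree Nat.prime_three dvd_rfl (by norm_num)
        (by norm_num) x (by rw [h1]; norm_num)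
    · refine ⟨x • z', 1, stdL_smul ix hzL, ?_, ?_, by simp⟩
      · rw [map_smul, hez, smul_zero]
      · rw [map_smul, map_smul, LinearMap.smul_apply, smul_eq_mul, smul_eq_mul]
        push_cast
        linear_combination -h1 - x ^ 2 * hzz
  have iq : (0 : ℝ) ≤ q ∧ (q : ℝ) ≤ 3 := by
    rcases hq with rfl | rfl | rfl <;> norm_num
  -- the relation
  have hrel : A * (l * q - B v w ^ 2) = l * B w u ^ 2 := by
    have h1 := gram3 h e0 v0 hev hew heu
    rw [hvl, hwq, huA, hvu] at h1
    have h2 : l * (A * (l * q - B v w ^ 2)) = l * (l * B w u ^ 2) := by linear_combination h1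
    exact mul_left_cancel₀ (pos_ne_zero pl) h2
  have ib : IsIntegral ℤ (B v w) := h.integral v hv w hw
  have ic : IsIntegral ℤ (B w u) := h.integral w hw u hu
  obtain ⟨g0, g1, i0, i1, f0, f1, hb⟩ := I.decomp (B v w) ib
  have hcs : ∀ σ : K →+* ℝ, σ (B v w) ^ 2 ≤ σ l * q := by
    intro σ
    have := h.cs v w σ
    rw [hvl, hwq, map_mul, map_natCast] at this
    exact this
  set b := B v w with hbdef
  set c := B w u with hcdef
  rw [hIw] at hb
  -- bounds for `g0`, `g1`
  have hgb : ∀ σ : K →+* ℝ, 5 * σ g0 ^ 2 ≤ 13 ∧ 5 * σ g1 ^ 2 ≤ 13 := by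
    intro σ
    obtain ⟨σ', hσ', -⟩ := I.flip σ
    have e1 := hcs σ
    have e2 := hcs σ'
    have f0' : σ' g0 = σ g0 := by rw [hσ', f0]
    have f1' : σ' g1 = σ g1 := by rw [hσ', f1]
    have fy' : σ' y = - σ y := by rw [hσ', hIτ, hsy, map_neg]
    rw [hb, hl] at e1 e2
    simp only [map_add, map_mul, map_one, map_ofNat] at e1 e2
    rw [f0', f1', fy'] at e2
    refine real_bound (W := 1 + σ y) (W' := 1 - σ y) iq.1 iq.2 (by ring) ?_ ?_ ?_
    · have := σy σ
      linear_combination -this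
    · linarith
    · have e3 : (σ g0 + σ g1 * (1 + -σ y)) ^ 2 = (σ g0 + σ g1 * (1 - σ y)) ^ 2 := by ring
      rw [← e3]; linarith
  have cls : ∀ g : K, IsIntegral ℤ g → I.τ g = g → (∀ σ : K →+* ℝ, 5 * σ g ^ 2 ≤ 13) →
      g = 0 ∨ g ^ 2 = 1 := by
    intro g ig fg hg
    rcases t_le_thirteen_five (ig.pow 2) (fun σ => by rw [map_pow]; exact sq_nonneg _)
      (fun σ => by rw [map_pow]; exact hg σ) with h1 | h1 | h1
    · left; exact pow_eq_zero_iff two_ne_zero |>.mp h1
    · right; exact h1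
    · exfalso
      have h3 : M.sg 2 g = -g := M.sg_neg Nat.prime_two Nat.prime_two.squarefree dvd_rfl
        (by rw [h1]; norm_num)
      rw [hIτ] at fg
      rw [fg] at h3
      have h4 : (2 : K) * g = 0 := by linear_combination h3
      have h5 := (mul_eq_zero.mp h4).resolve_left two_ne_zero
      rw [h5] at h1
      norm_num at h1
  have c0 := cls g0 i0 f0 fun σ => (hgb σ).1
  have c1 := cls g1 i1 f1 fun σ => (hgb σ).2
  -- the possibilities for `b ^ 2`
  have hb2 : b ^ 2 = 0 ∨ b ^ 2 = 1 ∨ b ^ 2 = (1 + y) ^ 2 := by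
    rcases c0 with h0 | h0 <;> rcases c1 with h1 | h1
    · left; rw [hb, h0, h1]; ring
    · right; right
      rw [hb, h0]; linear_combination (1 + y) ^ 2 * h1
    · right; left
      rw [hb, h1]; linear_combination h0
    · exfalso
      have h3 : (g0 * g1) ^ 2 = 1 ^ 2 := by rw [mul_pow, h0, h1]; ring
      rcases pm_of_sq h3 with h4 | h4
      · have h5 : b ^ 2 = 1 + 2 * (1 + y) + (1 + y) ^ 2 := by
          rw [hb]; linear_combination h0 + 2 * (1 + y) * h4 + (1 + y) ^ 2 * h1
        have h6 := hcs σp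
        rw [← map_pow, h5, hl] at h6
        simp only [map_add, map_mul, map_pow, map_one, map_ofNat] at h6
        rw [map_add, map_one] at hσp
        have h7 := σy σp
        nlinarith [iq.1, iq.2]
      · have h5 : b ^ 2 = 1 - 2 * (1 + y) + (1 + y) ^ 2 := by
          rw [hb]; linear_combination h0 + 2 * (1 + y) * h4 + (1 + y) ^ 2 * h1
        have h6 := hcs σn
        rw [← map_pow, h5, hl] at h6
        simp only [map_sub, map_add, map_mul, map_pow, map_one, map_ofNat] at h6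
        rw [map_add, map_one] at hσn
        have h7 := σy σn
        nlinarith [iq.1, iq.2]
  have lA0 : A * l ≠ 0 := mul_ne_zero (pos_ne_zero pA) (pos_ne_zero pl)
  have A0 : A ≠ 0 := pos_ne_zero pA
  have l0 : l ≠ 0 := pos_ne_zero pl
  -- the norm argument
  have norm14 : ∀ E E' : K, A * E = l * c ^ 2 → M.sg 2 E = E' → E * E' = 7 → False := by
    intro E E' hE hE' h7
    have h1 : A * E' = (2 - y) * (M.sg 2 c) ^ 2 := by
      have := congrArg (M.sg 2) hE
      rw [map_mul, map_mul, hE', map_pow, hl, map_add, map_ofNat, hsy] at this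
      have hA2 : M.sg 2 A = A := hIA
      rw [hA2] at this
      rw [this]; ring
    refine hB.no_root (T := 14) (p := 7) (by decide +kernel) (by norm_num) (by norm_num)
      (by norm_num) (by norm_num) (2 * c * M.sg 2 c / A) ?_
    rw [div_pow]
    rw [div_eq_iff (pow_ne_zero 2 A0)]
    push_cast
    have h3 : l * (2 - y) = 2 := by rw [hl]; linear_combination -hy
    linear_combination (-2 * (A * E')) * hE - 2 * (l * c ^ 2) * h1 + 2 * A ^ 2 * h7 - 2 * (c * M.sg 2 c) ^ 2 * h3
  rcases hb2 with hb2 | hb2 | hb2 <;> rw [hb2] at hrel <;> rcases hq with rfl | rfl | rfl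
  · -- `q = 1`, `b = 0`
    have h1 : A = c ^ 2 := by
      have : l * A = l * c ^ 2 := by push_cast at hrel; linear_combination hrel
      exact mul_left_cancel₀ l0 this
    refine A0 ?_
    have h2 := PPA c ic (fun σ => by rw [h1, map_pow])
    rw [h1, h2]; ring
  · have h1 : 2 * A = c ^ 2 := by
      have : l * (2 * A) = l * c ^ 2 := by push_cast at hrel; linear_combination hrel
      exact mul_left_cancel₀ l0 this
    have y0 : y ≠ 0 := by rintro rfl; norm_num at hy
    have h3 : (c / y) ^ 2 = A := by rw [div_pow, hy, ← h1]; ring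
    have h2 := PPA (c / y) (int_of_sq (by rw [h3]; exact iA)) (fun σ => by rw [← h3, map_pow])
    rw [h2] at h3
    exact A0 (by rw [← h3]; ring)
  · have h1 : 3 * A = c ^ 2 := by
      have : l * (3 * A) = l * c ^ 2 := by push_cast at hrel; linear_combination hrel
      exact mul_left_cancel₀ l0 this
    have h4 : IsIntegral ℤ (c / ((3 : ℕ) : K)) := by
      apply M.unram_odd Nat.prime_three (by norm_num) _ ic
      · rw [← h1]; push_cast
        have : 3 * A / 3 = A := by ring
        rw [this]; exact iA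
      · intro x T hT hx h3T
        exact hB.no_root hT Nat.prime_three h3T (by norm_num) (by norm_num) x hx
    push_cast at h4
    have h3 : (c / 3) ^ 2 = A / 3 := by rw [div_pow, ← h1]; ring
    have h2 := PPA (c / 3) h4 (fun σ => by
      rw [← map_pow, h3, map_div₀, map_ofNat]
      have := pA σ
      linarith)
    rw [h2] at h3
    exact A0 (by linear_combination -3 * h3)
  · -- `q = 1`, `b^2 = 1`
    have h1 := congrArg σn hrel
    rw [hl] at h1
    simp only [map_add, map_sub, map_mul, map_pow, map_one, map_ofNat, map_natCast] at h1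
    rw [map_add, map_one] at hσn
    have h2 := pA σn
    have h3 := pl σn
    rw [hl, map_add, map_ofNat] at h3
    push_cast at h1
    nlinarith [mul_nonneg h3.le (sq_nonneg (σn c)), mul_neg_of_pos_of_neg h2 hσn]
  · -- `q = 2`, `b^2 = 1`
    have h3 : (l * c * (y - 1)) ^ 2 = A * l := by
      push_cast at hrel
      linear_combination (-l * (y - 1) ^ 2) * hrel + A * l * (2 * y - 1) * hy
        + 2 * A * l * (y - 1) ^ 2 * hl
    have h2 := PPlA (l * c * (y - 1)) ((il.mul ic).mul (iy.sub isIntegral_one))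
      (fun σ => by rw [← map_pow, h3])
    rw [h2] at h3
    exact lA0 (by linear_combination -h3)
  · -- `q = 3`, `b^2 = 1`
    refine norm14 (5 + 3 * y) (5 - 3 * y) ?_ ?_ ?_
    · push_cast at hrel
      linear_combination hrel - 3 * A * hl
    · simp only [map_add, map_mul, map_ofNat, hsy]; ring
    · linear_combination -9 * hy
  · -- `q = 1`, `b^2 = w^2`
    have h1 := congrArg σp hrel
    rw [hl] at h1
    simp only [map_add, map_sub, map_mul, map_pow, map_one, map_ofNat, map_natCast] at h1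
    rw [map_add, map_one] at hσp
    have h2 := pA σp
    have h3 := pl σp
    have h4 := σy σp
    rw [hl, map_add, map_ofNat] at h3
    push_cast at h1
    nlinarith [mul_nonneg h3.le (sq_nonneg (σp c)), mul_pos h2 hσp]
  · -- `q = 2`, `b^2 = w^2`
    have h3 : (l * c) ^ 2 = A * l := by
      push_cast at hrel
      linear_combination (-l) * hrel - A * l * hy + 2 * A * l * hl
    have h2 := PPlA (l * c) (il.mul ic) (fun σ => by rw [← map_pow, h3])
    rw [h2] at h3
    exact lA0 (by linear_combination -h3)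
  · -- `q = 3`, `b^2 = w^2`
    refine norm14 (3 + y) (3 - y) ?_ ?_ ?_
    · push_cast at hrel
      linear_combination hrel - 3 * A * hl + A * hy
    · simp only [map_add, map_ofNat, hsy]; ring
    · linear_combination -hy

end Pool.Agent.Work.MP_eae946_nt.Full
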