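import Pool.Agent.Work.MP_eae946_nt.Full.B1

namespace Pool.Agent.Work.MP_eae946_nt.Full

open NumberField

variable {K : Type*} [Field K] [NumberField K]
variable {B : (Fin 3 → K) →ₗ[K] (Fin 3 → K) →ₗ[K] K}

/-- all `T` are odd -/
def VOdd (K : Type*) [Field K] : Prop :=
  ∀ (x : K) (T : ℕ), Squarefree T → x ^ 2 = T → Odd T

theorem VOdd.sg_two (hV : VOdd K) (M : MQ K) (x : K) : M.sg 2 x = x := by
  by_cases h : 2 ∈ M.primes
  · obtain ⟨y, T, hT, hy, h2⟩ := M.primes_spec 2 h
    have := hV y T hT hy
    rw [← Nat.not_even_iff_odd, even_iff_two_dvd] at this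
    exact absurd h2 this
  · exact M.sg_one 2 Nat.prime_two h x

theorem VOdd.reduced (hV : VOdd K) (M : MQ K) (hB : CaseB K) {a : K} (ha : IsIntegral ℤ a)
    (h : IsIntegral ℤ (a ^ 2 / 2)) : IsIntegral ℤ (a / 2) :=
  M.fixed_two (fun _ _ hT hx hodd => hB.mod_four hT hx hodd) ha (hV.sg_two M a) h

omit [NumberField K] in
theorem VOdd.no_root (hV : VOdd K) {T : ℕ} (hT : Squarefree T) (h2 : 2 ∣ T) (x : K)
    (hx : x ^ 2 = T) : False := by
  have := hV x T hT hx
  rw [← Nat.not_even_iff_odd, even_iff_two_dvd] at this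
  exact this h2

/-- the reduction lemma with real coefficients -/
theorem Idx.reduce_real (I : Idx K) {g0 g1 : K} (h0 : I.τ g0 = g0) (h1 : I.τ g1 = g1)
    {a b : ℝ} (h : ∀ σ : K →+* ℝ, σ (g0 + g1 * I.w) ^ 2 ≤ a + b * σ I.w) (σ : K →+* ℝ) :
    σ g0 ^ 2 + I.c * σ g1 ^ 2 ≤ a := by
  obtain ⟨σ', hσ', hσ⟩ := I.flip σ
  obtain ⟨-, hp⟩ := I.real_roots σ
  have ha := h σ
  have hb := h σ'
  simp only [map_add, map_mul] at ha hb
  have e1 : σ' g0 = σ g0 := by rw [hσ', h0]
  have e2 : σ' g1 = σ g1 := by rw [hσ', h1]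
  have e4 : σ' I.w = σ (I.τ I.w) := hσ' _
  rw [e1, e2, e4] at hb
  have key : ∀ {W W' : ℝ}, W * W' = -(I.c : ℝ) → 0 < W → W' < 0 →
      (σ g0 + σ g1 * W) ^ 2 ≤ a + b * W → (σ g0 + σ g1 * W') ^ 2 ≤ a + b * W' →
      σ g0 ^ 2 + I.c * σ g1 ^ 2 ≤ a := by
    intro W W' hWW hW hW' h3 h4
    have hc : (I.c : ℝ) = -(W * W') := by linarith
    have h5 := mul_le_mul_of_nonneg_left h3 (neg_nonneg.mpr hW'.le)
    have h6 := mul_le_mul_of_nonneg_left h4 hW.le
    have h7 : (W - W') * (σ g0 ^ 2 + I.c * σ g1 ^ 2) ≤ (W - W') * a := by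
      rw [hc]
      nlinarith
    exact le_of_mul_le_mul_left h7 (by linarith)
  rcases I.sign σ with ⟨h3, h4⟩ | ⟨h3, h4⟩
  · exact key hp h3 h4 ha hb
  · exact key (by rw [mul_comm]; exact hp) h4 h3 hb ha

variable [IsTotallyReal K]

theorem int_bound {g : K} {z : ℤ} (hz : g = z) {b : ℝ} (σ : K →+* ℝ) (h : σ g ^ 2 ≤ b) :
    (z : ℝ) ^ 2 ≤ b := by
  rw [hz, map_intCast] at h
  exact h

theorem caseB2 (M : MQ K) (hB : CaseB K) (hV : VOdd K) (h : Lat K (Fin 3 → K) B (stdL K))
    (h5 : ∃ y : K, y ^ 2 = 5) : False := by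
  obtain ⟨y, hy⟩ := h5
  obtain ⟨D⟩ := exists_MinD M hB
  obtain ⟨s, hs⟩ : ∃ s : K, s ^ 2 = D.m := ⟨D.s, D.hs⟩
  set A : K := ((D.t : K) + s) / 2 with hA
  have iA : IsIntegral ℤ A := A_int D hs
  have pA : ∀ σ : K →+* ℝ, 0 < σ A := A_pos D hs
  have A0 : A ≠ 0 := pos_ne_zero pA
  have hsy : M.sg 5 y = -y := M.sg_neg Nat.prime_five Nat.prime_five.squarefree dvd_rfl
    (by rw [hy]; norm_num)
  have hss : M.sg 5 s = s := M.sg_fix Nat.prime_five D.hm.sqf.ne_zero (D.hm.five ⟨y, hy⟩) hs
  have hsA : M.sg 5 A = A := by rw [hA, map_div₀, map_add, map_natCast, hss, map_ofNat]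
  set I := idx5 M y hy with hI
  set p : K := (1 + y) / 2 with hp
  have hpp : p ^ 2 = p + 1 := by rw [hp]; linear_combination hy / 4
  have hIw : I.w = p := rfl
  have hIc : I.c = 1 := rfl
  have hIτ : ∀ x, I.τ x = M.sg 5 x := fun x => rfl
  have hsp : M.sg 5 p = 1 - p := by
    rw [hp, map_div₀, map_add, map_one, hsy, map_ofNat]; ring
  have PPA : PP A := fun γ hγ hd => PP1 M hB D hs hγ (hV.sg_two M γ) hd
  have ip : IsIntegral ℤ p := golden_int hpp
  have σp2 : ∀ σ : K →+* ℝ, σ p ^ 2 = σ p + 1 := golden_real hpp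
  obtain ⟨σn, hσn⟩ : ∃ σ : K →+* ℝ, σ p < 0 := I.exists_neg
  obtain ⟨σp, hσp⟩ : ∃ σ : K →+* ℝ, 0 < σ p := I.exists_pos
  have hFx : ∀ g : K, I.τ g = g → Fx M g := fun g hg => ⟨hV.sg_two M g, fun _ => hg⟩
  -- the norm argument for `5` and `11`
  have norm5 : ∀ c : K, (2 + p) * A = c ^ 2 → False := by
    intro c hc
    have h1 : (3 - p) * A = (M.sg 5 c) ^ 2 := by
      have := congrArg (M.sg 5) hc
      rw [map_mul, map_pow, map_add, map_ofNat, hsp, hsA] at this
      rw [← this]; ring
    have h2 : (c * M.sg 5 c) ^ 2 = (y * A) ^ 2 := by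
      have h3 : (2 + p) * (3 - p) = 5 := by linear_combination -hpp
      rw [mul_pow, ← hc, ← h1, mul_pow, hy]
      linear_combination A ^ 2 * h3
    have h4 : M.sg 5 (c * M.sg 5 c) = c * M.sg 5 c := by rw [map_mul, M.invol]; ring
    have h5 : M.sg 5 (y * A) = -(y * A) := by rw [map_mul, hsy, hsA]; ring
    have y0 : y ≠ 0 := by rintro rfl; norm_num at hy
    have h6 : M.sg 5 (y * A) = y * A := by
      rcases pm_of_sq h2 with h7 | h7
      · rw [← h7, h4]
      · have : y * A = -(c * M.sg 5 c) := by rw [h7]; ring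
        rw [this, map_neg, h4]
    rw [h6] at h5
    have h8 : (2 : K) * (y * A) = 0 := by linear_combination h5
    exact (mul_ne_zero y0 A0) ((mul_eq_zero.mp h8).resolve_left two_ne_zero)
  have norm11 : ∀ c : K, (3 + p) * A = c ^ 2 → False := by
    intro c hc
    have h1 : (4 - p) * A = (M.sg 5 c) ^ 2 := by
      have := congrArg (M.sg 5) hc
      rw [map_mul, map_pow, map_add, map_ofNat, hsp, hsA] at this
      rw [← this]; ring
    refine hB.no_root (T := 11) (p := 11) (by norm_num : Nat.Prime 11).squarefree (by norm_num)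
      dvd_rfl (by norm_num) (by norm_num) (c * M.sg 5 c / A) ?_
    have h3 : (3 + p) * (4 - p) = 11 := by linear_combination -hpp
    rw [div_pow, div_eq_iff (pow_ne_zero 2 A0), mul_pow, ← hc, ← h1]
    push_cast
    linear_combination A ^ 2 * h3
  have two_A : ∀ c : K, IsIntegral ℤ c → 2 * A = c ^ 2 → False := by
    intro c ic hc
    have h1 : IsIntegral ℤ (c / 2) := hV.reduced M hB ic (by
      rw [← hc]
      have : 2 * A / 2 = A := by ring
      rw [this]; exact iA)
    have h3 : (c / 2) ^ 2 = A / 2 := by rw [div_pow, ← hc]; ring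
    have h2 := PPA (c / 2) h1 (fun σ => by
      rw [← map_pow, h3, map_div₀, map_ofNat]
      have := pA σ
      linarith)
    rw [h2] at h3
    exact A0 (by linear_combination -2 * h3)
  obtain ⟨e, he, he1⟩ := h.universal 1 isIntegral_one (fun σ => by simp)
  have e0 : e ≠ 0 := vec_ne_zero he1 one_ne_zero
  obtain ⟨u, hu, huA⟩ := h.universal A iA pA
  have heu : B e u = 0 := h.orth he hu (by rw [he1, huA, one_mul]; exact PPA)
  -- decomposition with integer coefficients
  have hdec : ∀ (x : K) (a b : ℝ), a ≤ 5 → IsIntegral ℤ x →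
      (∀ σ : K →+* ℝ, σ x ^ 2 ≤ a + b * σ p) →
      ∃ z0 z1 : ℤ, x = z0 + z1 * p ∧ (z0 : ℝ) ^ 2 + (z1 : ℝ) ^ 2 ≤ a := by
    intro x a b ha5 ix hx
    obtain ⟨g0, g1, i0, i1, f0, f1, hg⟩ := I.decomp x ix
    rw [hIw] at hg
    have hred := fun σ => Idx.reduce_real I (a := a) (b := b) f0 f1 (by rw [hIw, ← hg]; exact hx) σ
    rw [hIc] at hred
    obtain ⟨z0, hz0⟩ := rigid_sq_five M hB i0 (hFx _ f0) (fun σ => by
      have := hred σ
      push_cast at this
      nlinarith [sq_nonneg (σ g1)])
    obtain ⟨z1, hz1⟩ := rigid_sq_five M hB i1 (hFx _ f1) (fun σ => by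
      have := hred σ
      push_cast at this
      nlinarith [sq_nonneg (σ g0)])
    refine ⟨z0, z1, by rw [hg, hz0, hz1], ?_⟩
    have := hred σn
    rw [hz0, hz1, map_intCast, map_intCast] at this
    push_cast at this
    linarith
  by_cases hone : ∃ e2 ∈ stdL K, B e e2 = 0 ∧ B e2 e2 = 1
  · -- `L' ∋ 1`
    obtain ⟨e2, he2, hee, he21⟩ := hone
    have e20 : e2 ≠ 0 := vec_ne_zero he21 one_ne_zero
    have he2u : B e2 u = 0 := h.orth he2 hu (by rw [he21, huA, one_mul]; exact PPA)
    have pk : ∀ σ : K →+* ℝ, 0 < σ (3 + p) := by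
      intro σ
      rw [map_add, map_ofNat]
      have := σp2 σ
      nlinarith
    obtain ⟨z, hz, hzk⟩ := h.universal (3 + p) ((int_ofNat 3).add ip) pk
    obtain ⟨ix, hzL, hez, hzz, hxle⟩ := split_one h he he1 hz
    set x := B e z with hx
    set z' := z - x • e with hz'
    obtain ⟨ix2, hzL2, hez2, hzz2, hxle2⟩ := split_one h he2 he21 hzL
    set x2 := B e2 z' with hx2
    set r := z' - x2 • e2 with hr
    have her : B e r = 0 := by rw [hr, map_sub, map_smul, hez, hee]; simp
    have hrQ : B r r = 3 + p - x ^ 2 - x2 ^ 2 := by linear_combination hzk - hzz - hzz2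
    have hr0 : ∀ σ : K →+* ℝ, 0 ≤ σ (3 + p - x ^ 2 - x2 ^ 2) := fun σ => by
      rw [← hrQ]; exact h.nonneg r σ
    have hcls : ∀ x : K, IsIntegral ℤ x → (∀ σ : K →+* ℝ, σ x ^ 2 ≤ σ (3 + p)) →
        x ^ 2 = 0 ∨ x ^ 2 = 1 ∨ x ^ 2 = p + 1 := by
      intro x ix hx
      obtain ⟨z0, z1, hxz, hzb⟩ := hdec x 3 1 (by norm_num) ix (fun σ => by
        have := hx σ
        rw [map_add, map_ofNat] at this
        linarith)
      have hzb' : z0 ^ 2 + z1 ^ 2 ≤ 3 := by exact_mod_cast hzb
      have b0 : z0 = 0 ∨ z0 = 1 ∨ z0 = -1 := by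
        have h1 : z0 ≤ 1 := by nlinarith [sq_nonneg z1]
        have h2 : -1 ≤ z0 := by nlinarith [sq_nonneg z1]
        omega
      have b1 : z1 = 0 ∨ z1 = 1 ∨ z1 = -1 := by
        have h1 : z1 ≤ 1 := by nlinarith [sq_nonneg z0]
        have h2 : -1 ≤ z1 := by nlinarith [sq_nonneg z0]
        omega
      have exc1 : x ^ 2 = 2 + 3 * p → False := by
        intro h1
        have h2 := hx σp
        rw [← map_pow, h1] at h2
        simp only [map_add, map_mul, map_ofNat] at h2
        have h3 := σp2 σp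
        nlinarith
      have exc2 : x ^ 2 = 2 - p → False := by
        intro h1
        have h2 := hx σn
        rw [← map_pow, h1] at h2
        simp only [map_add, map_sub, map_ofNat] at h2
        have h3 := σp2 σn
        nlinarith
      rcases b0 with rfl | rfl | rfl <;> rcases b1 with rfl | rfl | rfl <;> push_cast at hxz
      · left; rw [hxz]; ring
      · right; right; rw [hxz]; linear_combination hpp
      · right; right; rw [hxz]; linear_combination hpp
      · right; left; rw [hxz]; ring
      · exfalso; apply exc1; rw [hxz]; linear_combination hpp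
      · exfalso; apply exc2; rw [hxz]; linear_combination hpp
      · right; left; rw [hxz]; ring
      · exfalso; apply exc2; rw [hxz]; linear_combination hpp
      · exfalso; apply exc1; rw [hxz]; linear_combination hpp
    have hpar : B r r * A = B r u ^ 2 := by
      have := par h e0 e20 hee her hez2 heu he2u
      rw [huA] at this
      exact this
    have ic : IsIntegral ℤ (B r u) := h.integral r hzL2 u hu
    set c := B r u with hc
    rw [hrQ] at hpar
    have x2le : ∀ σ : K →+* ℝ, σ x2 ^ 2 ≤ σ (3 + p) := by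
      intro σ
      have h1 := hxle2 σ
      have h2 : B z' z' = 3 + p - x ^ 2 := by linear_combination hzk - hzz
      rw [h2, map_sub, map_pow] at h1
      nlinarith [sq_nonneg (σ x)]
    have hxc := hcls x ix (fun σ => by have := hxle σ; rw [hzk] at this; exact this)
    have hx2c := hcls x2 ix2 x2le
    have sqA : A = c ^ 2 → False := fun hc1 => by
      have h2 := PPA c ic (fun σ => by rw [hc1, map_pow])
      rw [hc1, h2] at A0
      exact A0 (by ring)
    have sqpA : (1 + p) * A = c ^ 2 → False := fun hc1 => by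
      have h3 : (c * (p - 1)) ^ 2 = A := by
        rw [mul_pow, ← hc1]
        linear_combination A * (p * hpp + 0)
      have h2 := PPA (c * (p - 1)) (ic.mul (ip.sub isIntegral_one)) (fun σ => by
        rw [← map_pow, h3])
      rw [h2] at h3
      exact A0 (by rw [← h3]; ring)
    rcases hxc with h1 | h1 | h1 <;> rcases hx2c with h2 | h2 | h2 <;>
      rw [h1, h2] at hpar hr0
    · exact norm11 c (by linear_combination hpar)
    · exact norm5 c (by linear_combination hpar)
    · exact two_A c ic (by linear_combination hpar)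
    · exact norm5 c (by linear_combination hpar)
    · exact sqpA (by linear_combination hpar)
    · exact sqA (by linear_combination hpar)
    · exact two_A c ic (by linear_combination hpar)
    · exact sqA (by linear_combination hpar)
    · have h3 := hr0 σp
      have h4 : (3 + p - (p + 1) - (p + 1) : K) = 1 - p := by ring
      rw [h4, map_sub, map_one] at h3
      have h5 := σp2 σp
      nlinarith
  · push Not at hone
    -- the vector `v`
    obtain ⟨v, hv, hev, hv2⟩ : ∃ v ∈ stdL K, B e v = 0 ∧ B v v = 2 := by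
      obtain ⟨z, hz, hz2⟩ := h.universal 2 int_two (fun σ => by rw [map_ofNat]; norm_num)
      obtain ⟨ix, hzL, hez, hzz, hxle⟩ := split_one h he he1 hz
      rcases t_le_two (ix.pow 2) (fun σ => by rw [map_pow]; exact sq_nonneg _) (fun σ => by
        have := hxle σ
        rw [hz2, map_ofNat] at this
        rw [map_pow]; exact this) with h1 | h1 | h1
      · exact ⟨_, hzL, hez, by linear_combination hz2 - hzz - h1⟩
      · exact absurd (by linear_combination hz2 - hzz - h1) (hone _ hzL hez)
      · exact (hV.no_root Nat.prime_two.squarefree dvd_rfl _ (by rw [h1]; norm_num)).elim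
    have v0 : v ≠ 0 := vec_ne_zero hv2 two_ne_zero
    -- no vectors of norm a unit square
    have hone' : ∀ (a a' : K) (z : Fin 3 → K), IsIntegral ℤ a → a * a' = 1 → z ∈ stdL K →
        B e z = 0 → B z z = a' ^ 2 → False := by
      intro a a' z ia haa hz hez hzz
      refine hone (a • z) (stdL_smul ia hz) (by rw [map_smul, hez, smul_zero]) ?_
      rw [map_smul, map_smul, LinearMap.smul_apply, smul_eq_mul, smul_eq_mul, hzz]
      linear_combination (a * a' + 1) * haa
    have pη : ∀ σ : K →+* ℝ, 0 < σ (2 + p) := by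
      intro σ
      rw [map_add, map_ofNat]
      have := σp2 σ
      nlinarith
    obtain ⟨w, hw, hew, hwη⟩ : ∃ w ∈ stdL K, B e w = 0 ∧ B w w = 2 + p := by
      obtain ⟨z, hz, hz2⟩ := h.universal (2 + p) (int_two.add ip) pη
      obtain ⟨ix, hzL, hez, hzz, hxle⟩ := split_one h he he1 hz
      rcases golden_class hpp ix (fun σ => by have := hxle σ; rw [hz2] at this; exact this)
        with h1 | h1 | h1 | h1
      · exact ⟨_, hzL, hez, by linear_combination hz2 - hzz - h1⟩
      · exact (hone' (p - 1) p _ (ip.sub isIntegral_one) (by linear_combination hpp) hzL hez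
          (by linear_combination hz2 - hzz - h1 - hpp)).elim
      · exact absurd (by linear_combination hz2 - hzz - h1 - hpp) (hone _ hzL hez)
      · exfalso
        set x := B e z
        have h2 : (M.sg 5 x) ^ 2 = 3 - p := by
          have := congrArg (M.sg 5) h1
          rw [map_pow, map_add, map_ofNat, hsp] at this
          rw [this]; ring
        have h3 : (x * M.sg 5 x) ^ 2 = y ^ 2 := by
          rw [mul_pow, h1, h2, hy]; linear_combination -hpp
        have h4 : M.sg 5 (x * M.sg 5 x) = x * M.sg 5 x := by rw [map_mul, M.invol]; ring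
        have h6 : M.sg 5 y = y := by
          rcases pm_of_sq h3 with h7 | h7
          · rw [← h7, h4]
          · have : y = -(x * M.sg 5 x) := by rw [h7]; ring
            rw [this, map_neg, h4]
        rw [h6] at hsy
        have h8 : (2 : K) * y = 0 := by linear_combination hsy
        have h9 := (mul_eq_zero.mp h8).resolve_left two_ne_zero
        rw [h9] at hy
        norm_num at hy
    -- the relation
    have hrel := gram3 h e0 v0 hev hew heu
    rw [hv2, hwη, huA] at hrel
    have ib : IsIntegral ℤ (B v w) := h.integral v hv w hw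
    have ic1 : IsIntegral ℤ (B v u) := h.integral v hv u hu
    have ic2 : IsIntegral ℤ (B w u) := h.integral w hw u hu
    have hcs := h.cs v w
    have hcs1 := h.cs v u
    have hwv : B w v = B v w := h.symm _ _
    rw [hv2, hwη] at hcs
    rw [hv2, huA] at hcs1
    set b := B v w with hb
    set c1 := B v u with hc1
    set c2 := B w u with hc2
    obtain ⟨z0, z1, hbz, hzb⟩ := hdec b 4 2 (by norm_num) ib (fun σ => by
      have := hcs σ
      rw [map_mul, map_add, map_ofNat] at this
      linarith)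
    have hzb' : z0 ^ 2 + z1 ^ 2 ≤ 4 := by exact_mod_cast hzb
    have b0 : -2 ≤ z0 ∧ z0 ≤ 2 := ⟨by nlinarith [sq_nonneg z1], by nlinarith [sq_nonneg z1]⟩
    have b1 : -2 ≤ z1 ∧ z1 ≤ 2 := ⟨by nlinarith [sq_nonneg z0], by nlinarith [sq_nonneg z0]⟩
    have hcases : (z0 = 0 ∧ z1 = 0) ∨ (z1 = 0 ∧ (z0 = 1 ∨ z0 = -1)) ∨
        (z0 = 0 ∧ (z1 = 1 ∨ z1 = -1)) ∨ (z0 = z1 ∧ (z1 = 1 ∨ z1 = -1)) ∨
        (z0 = -z1 ∧ (z1 = 1 ∨ z1 = -1)) ∨ (z1 = 0 ∧ (z0 = 2 ∨ z0 = -2)) ∨
        (z0 = 0 ∧ (z1 = 2 ∨ z1 = -2)) := by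
      obtain ⟨h1, h2⟩ := b0
      obtain ⟨h3, h4⟩ := b1
      interval_cases z0 <;> interval_cases z1 <;> simp at hzb' ⊢
    -- the two final cases
    have fin : ∀ D D' f : K, D = 2 * (2 + p) - b ^ 2 → IsIntegral ℤ D' → D * D' = 11 →
        IsIntegral ℤ f → f ≠ 0 → 2 + p - b ^ 2 = f ^ 2 → False := by
      intro D D' f hD iD' hDD' if' hf0 hf
      have hD0 : D ≠ 0 := by
        rintro h0; rw [h0] at hDD'; norm_num at hDD'
      set g := 2 * c2 - b * c1 with hg
      have ig : IsIntegral ℤ g := (int_two.mul ic2).sub (ib.mul ic1)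
      have hrel' : D * (2 * A - c1 ^ 2) = g ^ 2 := by rw [hD]; linear_combination hrel
      have iY : IsIntegral ℤ (D' * g / ((11 : ℕ) : K)) := by
        apply M.unram_odd (by norm_num) (by norm_num) _ (iD'.mul ig)
        · have : (D' * g) ^ 2 / ((11 : ℕ) : K) = D' * (2 * A - c1 ^ 2) := by
            rw [mul_pow, ← hrel', div_eq_iff (by norm_num)]
            push_cast
            linear_combination (D' * (2 * A - c1 ^ 2)) * hDD'
          rw [this]
          exact iD'.mul ((int_two.mul iA).sub (ic1.pow 2))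
        · intro x T hT hx h11
          exact hB.no_root hT (by norm_num) h11 (by norm_num) (by norm_num) x hx
      set Y := D' * g / ((11 : ℕ) : K) with hY
      have hgY : g = D * Y := by
        rw [hY]; push_cast
        linear_combination (-g / 11) * hDD'
      have h2A : 2 * A - c1 ^ 2 = D * Y ^ 2 := by
        have : D * (2 * A - c1 ^ 2) = D * (D * Y ^ 2) := by rw [hrel', hgY]; ring
        exact mul_left_cancel₀ hD0 this
      have iX : IsIntegral ℤ ((c1 - b * Y) / 2) := by
        apply hV.reduced M hB (ic1.sub (ib.mul iY))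
        have : (c1 - b * Y) ^ 2 / 2 = A - (2 + p) * Y ^ 2 + b ^ 2 * Y ^ 2 - b * c1 * Y := by
          rw [hD] at h2A
          linear_combination -h2A / 2
        rw [this]
        exact ((iA.sub ((int_two.add ip).mul (iY.pow 2))).add ((ib.pow 2).mul (iY.pow 2))).sub
          ((ib.mul ic1).mul iY)
      set X := (c1 - b * Y) / 2 with hX
      have hAX : A = (X + b * Y) ^ 2 + X ^ 2 + (f * Y) ^ 2 := by
        rw [mul_pow, ← hf, hX]
        rw [hD] at h2A
        linear_combination h2A / 2
      have zX : X = 0 := PPA X iX (fun σ => by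
        have := congrArg σ hAX
        rw [map_add, map_add, map_pow, map_pow, map_pow] at this
        rw [this]
        nlinarith [sq_nonneg (σ (X + b * Y)), sq_nonneg (σ (f * Y))])
      have zY : f * Y = 0 := PPA (f * Y) (if'.mul iY) (fun σ => by
        have := congrArg σ hAX
        rw [map_add, map_add, map_pow, map_pow, map_pow] at this
        rw [this]
        nlinarith [sq_nonneg (σ (X + b * Y)), sq_nonneg (σ X)])
      have zY' := (mul_eq_zero.mp zY).resolve_left hf0
      apply A0
      rw [hAX, zX, zY']; ring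
    rcases hcases with ⟨h0, h1⟩ | ⟨h1, h0⟩ | ⟨h0, h1⟩ | ⟨h0, h1⟩ | ⟨h0, h1⟩ | ⟨h1, h0⟩ | ⟨h0, h1⟩
    · -- `b = 0`
      have hb0 : b = 0 := by rw [hbz, h0, h1]; push_cast; ring
      rw [hb0] at hrel
      have h3 : (2 + p) * (2 * A - c1 ^ 2) = 2 * c2 ^ 2 := by linear_combination hrel / 2
      have ic1' : IsIntegral ℤ (c1 / 2) := by
        apply hV.reduced M hB ic1
        have : c1 ^ 2 / 2 = (3 - p) * ((2 + p) * A - c2 ^ 2) - 2 * c1 ^ 2 := by
          linear_combination -(3 - p) * h3 / 2 + (c1 ^ 2 / 2) * hpp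
        rw [this]
        exact (((int_ofNat 3).sub ip).mul (((int_two.add ip).mul iA).sub (ic2.pow 2))).sub
          (int_two.mul (ic1.pow 2))
      have hc10 : c1 / 2 = 0 := PPA _ ic1' (fun σ => by
        have h4 := hcs1 σ
        rw [map_mul, map_ofNat] at h4
        rw [map_div₀, map_ofNat]
        have := pA σ
        nlinarith)
      have hc10' : c1 = 0 := by linear_combination 2 * hc10
      rw [hc10'] at h3
      exact norm5 c2 (by linear_combination h3 / 2)
    · have hb2 : b ^ 2 = 1 := by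
        rcases h0 with h0 | h0 <;> rw [hbz, h0, h1] <;> push_cast <;> ring
      refine fin (3 + 2 * p) (5 - 2 * p) p ?_ ?_ ?_ ip ?_ ?_
      · linear_combination hb2
      · exact (int_ofNat 5).sub (int_two.mul ip)
      · linear_combination -4 * hpp
      · rintro h4; rw [h4] at hpp; norm_num at hpp
      · linear_combination -hb2 - hpp
    · have hb2 : b ^ 2 = p + 1 := by
        rcases h1 with h1 | h1 <;> rw [hbz, h0, h1] <;> push_cast <;> linear_combination hpp
      refine fin (3 + p) (4 - p) 1 ?_ ?_ ?_ isIntegral_one one_ne_zero ?_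
      · linear_combination hb2
      · exact (int_ofNat 4).sub ip
      · linear_combination -hpp
      · linear_combination -hb2
    · -- `b = ± (1 + p)`
      have hQ : ∀ c : K, B (w + c • v) (w + c • v) = (2 + p) + 2 * c * b + 2 * c ^ 2 := by
        intro c
        simp only [map_add, map_smul, LinearMap.add_apply, LinearMap.smul_apply, smul_eq_mul]
        rw [hwv, ← hb, hwη, hv2]; ring
      have hO : ∀ c : K, B e (w + c • v) = 0 := by
        intro c
        rw [map_add, map_smul, hew, hev]; simp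
      rcases h1 with h1 | h1
      · have hb1 : b = 1 + p := by rw [hbz, h0, h1]; push_cast; ring
        refine hone' p (p - 1) (w + (-p) • v) ip (by linear_combination hpp)
          ((stdL K).add_mem hw (stdL_smul ip.neg hv)) (hO _) ?_
        rw [hQ, hb1]; linear_combination -hpp
      · have hb1 : b = -(1 + p) := by rw [hbz, h0, h1]; push_cast; ring
        refine hone' p (p - 1) (w + p • v) ip (by linear_combination hpp)
          ((stdL K).add_mem hw (stdL_smul ip hv)) (hO _) ?_
        rw [hQ, hb1]; linear_combination -hpp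
    · -- `b = ± (1 - p)`
      have hQ : ∀ c : K, B (w + c • v) (w + c • v) = (2 + p) + 2 * c * b + 2 * c ^ 2 := by
        intro c
        simp only [map_add, map_smul, LinearMap.add_apply, LinearMap.smul_apply, smul_eq_mul]
        rw [hwv, ← hb, hwη, hv2]; ring
      have hO : ∀ c : K, B e (w + c • v) = 0 := by
        intro c
        rw [map_add, map_smul, hew, hev]; simp
      rcases h1 with h1 | h1
      · have hb1 : b = p - 1 := by rw [hbz, h0, h1]; push_cast; ring
        refine hone' ((p - 1) ^ 2) (1 + p) (w + (-p) • v) ((ip.sub isIntegral_one).pow 2)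
          (by linear_combination p * hpp)
          ((stdL K).add_mem hw (stdL_smul ip.neg hv)) (hO _) ?_
        rw [hQ, hb1]; linear_combination -hpp
      · have hb1 : b = 1 - p := by rw [hbz, h0, h1]; push_cast; ring
        refine hone' ((p - 1) ^ 2) (1 + p) (w + p • v) ((ip.sub isIntegral_one).pow 2)
          (by linear_combination p * hpp)
          ((stdL K).add_mem hw (stdL_smul ip hv)) (hO _) ?_
        rw [hQ, hb1]; linear_combination -hpp
    · have hb2 : b ^ 2 = 4 := by
        rcases h0 with h0 | h0 <;> rw [hbz, h0, h1] <;> push_cast <;> ring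
      have h3 := hcs σn
      rw [← map_pow, hb2, map_mul, map_add, map_ofNat, map_ofNat] at h3
      linarith
    · have hb2 : b ^ 2 = 4 * (p + 1) := by
        rcases h1 with h1 | h1 <;> rw [hbz, h0, h1] <;> push_cast <;> linear_combination 4 * hpp
      have h3 := hcs σp
      rw [← map_pow, hb2] at h3
      simp only [map_mul, map_add, map_ofNat, map_one] at h3
      linarith

end Pool.Agent.Work.MP_eae946_nt.Full
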