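import Pool.Agent.Work.MP_eae946_nt.Full.B2

namespace Pool.Agent.Work.MP_eae946_nt.Full

open NumberField

variable {K : Type*} [Field K] [NumberField K] [IsTotallyReal K]
variable {B : (Fin 3 → K) →ₗ[K] (Fin 3 → K) →ₗ[K] K}

/-- integrality of the scalar products with `v`, when `m = 13, 17`. -/
theorem small_int (M : MQ K) (hB : CaseB K) (hF : ∀ g : K, Fx M g) {m : ℕ}
    (hm : m = 13 ∨ m = 17) {s : K} (hs : s ^ 2 = m) {g : K} (ig : IsIntegral ℤ g)
    (hg : ∀ σ : K →+* ℝ, σ g ^ 2 ≤ 5 + σ s) :
    ∃ z : ℤ, g = z ∧ (z : ℝ) ^ 2 < 1.4 ∧ (m = 17 → z = 0) := by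
  have hmp : m.Prime := by rcases hm with rfl | rfl <;> norm_num
  have hsσ : ∀ σ : K →+* ℝ, σ s ^ 2 = m := fun σ => by rw [← map_pow, hs, map_natCast]
  have hm13 : (13 : ℝ) ≤ m := by rcases hm with rfl | rfl <;> norm_num
  have hm17 : (m : ℝ) ≤ 17 := by rcases hm with rfl | rfl <;> norm_num
  obtain ⟨σ0⟩ := exists_real K
  obtain ⟨σn, hσn⟩ : ∃ σ : K →+* ℝ, σ s < 0 := by
    have hs0 : s ≠ 0 := MQ.root_ne_zero hmp.ne_zero hs
    rcases lt_or_gt_of_ne (fun h => hs0 ((map_eq_zero σ0).mp h) : σ0 s ≠ 0) with h | h
    · exact ⟨σ0, h⟩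
    · obtain ⟨σ', hσ', -⟩ := exists_sign M hmp hs σ0
      exact ⟨σ', by rw [hσ']; linarith⟩
  obtain ⟨σp, hσp, -⟩ := exists_sign M hmp hs σn
  have hn1 : σn s < -3.6 := by
    have := hsσ σn
    nlinarith
  have hbn := hg σn
  have hbp := hg σp
  rw [hσp] at hbp
  have hup : ∀ σ : K →+* ℝ, σ s ≤ 4.15 := fun σ => by
    have := hsσ σ
    nlinarith
  rcases rigid M hB (c := 36.6) (by norm_num) ig (hF g) (fun ρ σ => by
    have e1 := hg σ
    have e2 := hg (σ.comp (ρ : K →+* K))
    have e3 := hup σ
    have e4 := hup (σ.comp (ρ : K →+* K))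
    simp only [RingHom.comp_apply, RingHom.coe_coe] at e2 e4
    rw [map_sub]
    nlinarith [sq_nonneg (σ g + σ (ρ g))]) with ⟨z, hz⟩ | ⟨p, y, a, hp, hy, hpc, ha, hga⟩
  · refine ⟨z, hz, ?_, ?_⟩
    · rw [hz, map_intCast] at hbn
      linarith
    · rintro rfl
      rw [hz, map_intCast] at hbn
      have h1 := hsσ σn
      push_cast at h1
      have h2 : σn s < -4.1 := by nlinarith
      have h3 : (z : ℝ) ^ 2 < 1 := by linarith
      have h4 : z ^ 2 < 1 := by exact_mod_cast h3
      nlinarith [sq_nonneg z]
  exfalso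
  have hpp : p.Prime := by rcases hp with rfl | rfl | rfl | rfl <;> norm_num
  have hga' : 2 * g = a + y := by rw [hga]; ring
  by_cases hpm : p = m
  · -- `y = ± s`
    have h13 : (y : K) ^ 2 = s ^ 2 := by rw [hy, hs, hpm]
    have key : ∀ a : ℤ, Odd a → 2 * g = a + s → False := by
      intro a ha h2g
      have e1 : 2 * σn g = a + σn s := by
        have := congrArg σn h2g
        rwa [map_mul, map_add, map_ofNat, map_intCast] at this
      have e2 : 2 * σp g = a - σn s := by
        have := congrArg σp h2g
        rw [map_mul, map_add, map_ofNat, map_intCast, hσp] at this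
        linarith
      have f1 : (a + σn s) ^ 2 ≤ 4 * (5 + σn s) := by rw [← e1]; nlinarith
      have f2 : (a - σn s) ^ 2 ≤ 4 * (5 - σn s) := by rw [← e2]; nlinarith
      have h1 := hsσ σn
      set S := σn s with hS
      have l1 : (1 : ℝ) < a := by
        by_contra hcon
        push Not at hcon
        nlinarith
      have l2 : (a : ℝ) < 3 := by
        by_contra hcon
        push Not at hcon
        nlinarith
      have l1' : 1 < a := by exact_mod_cast l1
      have l2' : a < 3 := by exact_mod_cast l2
      obtain ⟨b, hb⟩ := ha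
      omega
    rcases pm_of_sq h13 with h | h
    · exact key a ha (by rw [hga', h])
    · -- replace `g` by `-g`
      have key' : ∀ a : ℤ, Odd a → 2 * g = a - s → False := by
        intro a ha h2g
        have e1 : 2 * σn g = a - σn s := by
          have := congrArg σn h2g
          rwa [map_mul, map_sub, map_ofNat, map_intCast] at this
        have e2 : 2 * σp g = a + σn s := by
          have := congrArg σp h2g
          rw [map_mul, map_sub, map_ofNat, map_intCast, hσp] at this
          linarith
        have f1 : (a - σn s) ^ 2 ≤ 4 * (5 + σn s) := by rw [← e1]; nlinarith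
        have f2 : (a + σn s) ^ 2 ≤ 4 * (5 - σn s) := by rw [← e2]; nlinarith
        have h1 := hsσ σn
        set S := σn s with hS
        have l1 : (a : ℝ) < -1 := by
          by_contra hcon
          push Not at hcon
          nlinarith
        have l2 : -3 < (a : ℝ) := by
          by_contra hcon
          push Not at hcon
          nlinarith
        have l1' : a < -1 := by exact_mod_cast l1
        have l2' : -3 < a := by exact_mod_cast l2
        obtain ⟨b, hb⟩ := ha
        omega
      exact key' a ha (by rw [hga', h]; ring)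
  · have hps : M.sg p s = s := M.sg_fix hpp hmp.ne_zero (by
      intro hd
      exact hpm ((Nat.prime_dvd_prime_iff_eq hpp hmp).mp hd)) hs
    obtain ⟨σ', hσ', hσ''⟩ := exists_sign M hpp hy σn
    have hbn' := hg σ'
    rw [hσ'' s, hps] at hbn'
    have e1 : 2 * σn g = a + σn y := by
      have := congrArg σn hga'
      rwa [map_mul, map_add, map_ofNat, map_intCast] at this
    have e2 : 2 * σ' g = a - σn y := by
      have := congrArg σ' hga'
      rw [map_mul, map_add, map_ofNat, map_intCast, hσ'] at this
      linarith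
    have h1 : σn y ^ 2 = p := by rw [← map_pow, hy, map_natCast]
    have h13 : (13 : ℝ) ≤ p := by
      rcases hp with rfl | rfl | rfl | rfl <;> norm_num
    have f1 : (a + σn y) ^ 2 ≤ 4 * (5 + σn s) := by rw [← e1]; nlinarith
    have f2 : (a - σn y) ^ 2 ≤ 4 * (5 + σn s) := by rw [← e2]; nlinarith
    nlinarith [sq_nonneg (a : ℝ)]

theorem caseB3 (M : MQ K) (hB : CaseB K) (hV : VOdd K) (h : Lat K (Fin 3 → K) B (stdL K))
    (h5 : ¬ ∃ y : K, y ^ 2 = 5) : False := by
  obtain ⟨D⟩ := exists_MinD M hB
  obtain ⟨s, hs⟩ : ∃ s : K, s ^ 2 = D.m := ⟨D.s, D.hs⟩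
  have hs' : (-s) ^ 2 = (D.m : K) := by rw [neg_sq, hs]
  set A : K := ((D.t : K) + s) / 2 with hA
  set A' : K := ((D.t : K) + -s) / 2 with hA'
  have iA : IsIntegral ℤ A := A_int D hs
  have pA : ∀ σ : K →+* ℝ, 0 < σ A := A_pos D hs
  have iA' : IsIntegral ℤ A' := A_int D hs'
  have pA' : ∀ σ : K →+* ℝ, 0 < σ A' := A_pos D hs'
  have A0 : A ≠ 0 := pos_ne_zero pA
  have hFx : ∀ g : K, Fx M g := fun g => ⟨hV.sg_two M g, fun h => absurd h h5⟩
  have PPA : PP A := fun γ hγ hd => PP0 M hB D hs hγ (hFx γ) hd
  have PPA' : PP A' := fun γ hγ hd => PP0 M hB D hs' hγ (hFx γ) hd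
  have two_A : ∀ c : K, IsIntegral ℤ c → 2 * A = c ^ 2 → False := by
    intro c ic hc
    have h1 : IsIntegral ℤ (c / 2) := hV.reduced M hB ic (by
      rw [← hc]
      have : 2 * A / 2 = A := by ring
      rw [this]; exact iA)
    have h3 : (c / 2) ^ 2 = A / 2 := by rw [div_pow, ← hc]; ring
    have h2 := PPA (c / 2) h1 (fun σ => by
      rw [← map_pow, h3, map_div₀, map_ofNat]
      have := pA σ
      linarith)
    rw [h2] at h3
    exact A0 (by linear_combination -2 * h3)
  have red3 : ∀ c : K, IsIntegral ℤ c → IsIntegral ℤ (c ^ 2 / 3) → IsIntegral ℤ (c / 3) := by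
    intro c ic hc
    have := M.unram_odd Nat.prime_three (by norm_num) (fun x T hT hx h3T =>
      hB.no_root hT Nat.prime_three h3T (by norm_num) (by norm_num) x hx) ic
      (by push_cast; exact hc)
    push_cast at this
    exact this
  have red7 : ∀ c : K, IsIntegral ℤ c → IsIntegral ℤ (c ^ 2 / 7) → IsIntegral ℤ (c / 7) := by
    intro c ic hc
    have := M.unram_odd (p := 7) (by norm_num) (by norm_num) (fun x T hT hx h3T =>
      hB.no_root hT (by norm_num) h3T (by norm_num) (by norm_num) x hx) ic
      (by push_cast; exact hc)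
    push_cast at this
    exact this
  have three_A : ∀ c : K, IsIntegral ℤ c → 3 * A = c ^ 2 → False := by
    intro c ic hc
    have h1 : IsIntegral ℤ (c / 3) := red3 c ic (by
      rw [← hc]
      have : 3 * A / 3 = A := by ring
      rw [this]; exact iA)
    have h3 : (c / 3) ^ 2 = A / 3 := by rw [div_pow, ← hc]; ring
    have h2 := PPA (c / 3) h1 (fun σ => by
      rw [← map_pow, h3, map_div₀, map_ofNat]
      have := pA σ
      linarith)
    rw [h2] at h3
    exact A0 (by linear_combination -3 * h3)
  obtain ⟨σ0⟩ := exists_real K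
  obtain ⟨e, he, he1⟩ := h.universal 1 isIntegral_one (fun σ => by simp)
  have e0 : e ≠ 0 := vec_ne_zero he1 one_ne_zero
  obtain ⟨u, hu, huA⟩ := h.universal A iA pA
  have heu : B e u = 0 := h.orth he hu (by rw [he1, huA, one_mul]; exact PPA)
  by_cases hone : ∃ e2 ∈ stdL K, B e e2 = 0 ∧ B e2 e2 = 1
  · -- `L' ∋ 1`
    obtain ⟨e2, he2, hee, he21⟩ := hone
    have e20 : e2 ≠ 0 := vec_ne_zero he21 one_ne_zero
    have he2u : B e2 u = 0 := h.orth he2 hu (by rw [he21, huA, one_mul]; exact PPA)
    obtain ⟨z, hz, hzk⟩ := h.universal 3 (int_ofNat 3) (fun σ => by rw [map_ofNat]; norm_num)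
    obtain ⟨ix, hzL, hez, hzz, hxle⟩ := split_one h he he1 hz
    set x := B e z with hx
    set z' := z - x • e with hz'
    obtain ⟨ix2, hzL2, hez2, hzz2, hxle2⟩ := split_one h he2 he21 hzL
    set x2 := B e2 z' with hx2
    set r := z' - x2 • e2 with hr
    have her : B e r = 0 := by rw [hr, map_sub, map_smul, hez, hee]; simp
    have hrQ : B r r = 3 - x ^ 2 - x2 ^ 2 := by linear_combination hzk - hzz - hzz2
    have hpar : B r r * A = B r u ^ 2 := by
      have := par h e0 e20 hee her hez2 heu he2u
      rw [huA] at this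
      exact this
    have ic : IsIntegral ℤ (B r u) := h.integral r hzL2 u hu
    set c := B r u with hc
    rw [hrQ] at hpar
    have hcls : ∀ x : K, IsIntegral ℤ x → (∀ σ : K →+* ℝ, σ x ^ 2 ≤ 3) →
        x ^ 2 = 0 ∨ x ^ 2 = 1 := by
      intro x ix hx
      obtain ⟨z, hz⟩ := rigid_sq_five M hB ix (hFx x) (fun σ => (hx σ).trans (by norm_num))
      have h1 := int_bound hz σ0 (hx σ0)
      have h2 : z ^ 2 ≤ 3 := by exact_mod_cast h1
      have h3 : z = 0 ∨ z = 1 ∨ z = -1 := by
        have h4 : z ≤ 1 := by nlinarith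
        have h5 : -1 ≤ z := by nlinarith
        omega
      rcases h3 with rfl | rfl | rfl
      · left; rw [hz]; push_cast; ring
      · right; rw [hz]; push_cast; ring
      · right; rw [hz]; push_cast; ring
    have hxc := hcls x ix (fun σ => by
      have := hxle σ; rw [hzk, map_ofNat] at this; exact this)
    have hx2c := hcls x2 ix2 (fun σ => by
      have h1 := hxle2 σ
      have h2 : B z' z' = 3 - x ^ 2 := by linear_combination hzk - hzz
      rw [h2, map_sub, map_pow, map_ofNat] at h1
      nlinarith [sq_nonneg (σ x)])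
    rcases hxc with h1 | h1 <;> rcases hx2c with h2 | h2 <;> rw [h1, h2] at hpar
    · exact three_A c ic (by linear_combination hpar)
    · exact two_A c ic (by linear_combination hpar)
    · exact two_A c ic (by linear_combination hpar)
    · have hc1 : A = c ^ 2 := by linear_combination hpar
      have h2 := PPA c ic (fun σ => by rw [hc1, map_pow])
      rw [hc1, h2] at A0
      exact A0 (by ring)
  push Not at hone
  -- the vector `v`
  obtain ⟨v, hv, hev, hv2⟩ : ∃ v ∈ stdL K, B e v = 0 ∧ B v v = 2 := by
    obtain ⟨z, hz, hz2⟩ := h.universal 2 int_two (fun σ => by rw [map_ofNat]; norm_num)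
    obtain ⟨ix, hzL, hez, hzz, hxle⟩ := split_one h he he1 hz
    rcases t_le_two (ix.pow 2) (fun σ => by rw [map_pow]; exact sq_nonneg _) (fun σ => by
      have := hxle σ
      rw [hz2, map_ofNat] at this
      rw [map_pow]; exact this) with h1 | h1 | h1
    · exact ⟨_, hzL, hez, by linear_combination hz2 - hzz - h1⟩
    · exact absurd (by linear_combination hz2 - hzz - h1) (hone _ hzL hez)
    · exact (hV.no_root Nat.prime_two.squarefree dvd_rfl _ (by rw [h1]; norm_num)).elim
  have v0 : v ≠ 0 := vec_ne_zero hv2 two_ne_zero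
  by_cases hsmall : D.m = 13 ∨ D.m = 17
  · -- `m = 13, 17`
    have ht5 : D.t = 5 := by
      have h1 := D.hlow
      have h2 := D.ht
      have h3 := D.hodd
      have h4 : D.t - 2 < 5 := by
        by_contra hcon
        push Not at hcon
        have : 5 ^ 2 ≤ (D.t - 2) ^ 2 := Nat.pow_le_pow_left hcon 2
        omega
      obtain ⟨c, hc⟩ := h3
      omega
    obtain ⟨u', hu', huA'⟩ := h.universal A' iA' pA'
    have heu' : B e u' = 0 := h.orth he hu' (by rw [he1, huA', one_mul]; exact PPA')
    have ht5' : (D.t : K) = 5 := by rw [ht5]; norm_num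
    have h2A : 2 * A = 5 + s := by rw [hA, ht5']; ring
    have h2A' : 2 * A' = 5 + -s := by rw [hA', ht5']; ring
    have ib : IsIntegral ℤ (B v u) := h.integral v hv u hu
    have ib' : IsIntegral ℤ (B v u') := h.integral v hv u' hu'
    have ic : IsIntegral ℤ (B u u') := h.integral u hu u' hu'
    obtain ⟨z, hz, hz1, hz17⟩ := small_int M hB hFx hsmall hs ib (fun σ => by
      have := h.cs v u σ
      rw [hv2, huA, h2A, map_add, map_ofNat] at this
      exact this)
    obtain ⟨z', hz', hz1', hz17'⟩ := small_int M hB hFx hsmall hs' ib' (fun σ => by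
      have := h.cs v u' σ
      rw [hv2, huA', h2A', map_add, map_ofNat] at this
      exact this)
    have h4AA : 4 * (A * A') = 25 - D.m := by
      have : 4 * (A * A') = (2 * A) * (2 * A') := by ring
      rw [this, h2A, h2A', ← hs]; ring
    obtain ⟨zc, hzc⟩ := rigid_sq_five M hB ic (hFx _) (fun σ => by
      have h1 := h.cs u u' σ
      rw [huA, huA'] at h1
      have h2 : 4 * σ (A * A') = 25 - D.m := by
        have := congrArg σ h4AA
        rw [map_mul, map_sub, map_natCast, map_ofNat, map_ofNat] at this
        exact this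
      have h3 : (13 : ℝ) ≤ D.m := by exact_mod_cast D.h13
      linarith)
    have hc0 : 4 * zc ^ 2 ≤ 25 - (D.m : ℤ) := by
      have h1 := h.cs u u' σ0
      rw [huA, huA', hzc, map_intCast] at h1
      have h2 : 4 * σ0 (A * A') = 25 - D.m := by
        have := congrArg σ0 h4AA
        rw [map_mul, map_sub, map_natCast, map_ofNat, map_ofNat] at this
        exact this
      have h3 : 4 * (zc : ℝ) ^ 2 ≤ 25 - D.m := by linarith
      exact_mod_cast h3
    have hrel := gram3 h e0 v0 hev heu heu'
    rw [hv2, huA, huA', hz, hz', hzc] at hrel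
    have hrel2 : (4 * (A * A')) - z ^ 2 * (2 * A') - z' ^ 2 * (2 * A) = 4 * zc ^ 2 - 4 * zc * z * z' := by
      linear_combination hrel
    rw [h4AA, h2A, h2A'] at hrel2
    have hz1i : z ^ 2 ≤ 1 := by
      have : (z : ℝ) ^ 2 < 2 := by linarith
      have : z ^ 2 < 2 := by exact_mod_cast this
      omega
    have hz1i' : z' ^ 2 ≤ 1 := by
      have : (z' : ℝ) ^ 2 < 2 := by linarith
      have : z' ^ 2 < 2 := by exact_mod_cast this
      omega
    have zc3 : z = 0 ∨ z = 1 ∨ z = -1 := by
      have h4 : z ≤ 1 := by nlinarith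
      have h5 : -1 ≤ z := by nlinarith
      omega
    have zc3' : z' = 0 ∨ z' = 1 ∨ z' = -1 := by
      have h4 : z' ≤ 1 := by nlinarith
      have h5 : -1 ≤ z' := by nlinarith
      omega
    have h13 := D.h13
    have zcc : zc = 0 ∨ zc = 1 ∨ zc = -1 := by
      have h4 : zc ≤ 1 := by nlinarith
      have h5 : -1 ≤ zc := by nlinarith
      omega
    -- a rational square root is impossible
    have srat : ∀ n : ℤ, s = n → False := by
      intro n hn
      have h1 : (n : ℤ) ^ 2 = D.m := by
        have : ((n : ℤ) : K) ^ 2 = D.m := by rw [← hn, hs]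
        exact_mod_cast this
      have h2 : n ≤ 4 := by rcases hsmall with h | h <;> rw [h] at h1 <;> push_cast at h1 <;> nlinarith
      have h3 : -4 ≤ n := by rcases hsmall with h | h <;> rw [h] at h1 <;> push_cast at h1 <;> nlinarith
      rcases hsmall with h | h <;> rw [h] at h1 <;> push_cast at h1 <;> interval_cases n <;> omega
    have srat' : ∀ n : ℤ, -s = n → False := fun n hn => srat (-n) (by
      push_cast; rw [← hn]; ring)
    rcases hsmall with hm | hm
    · rw [hm] at hrel2
      push_cast at hrel2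
      rcases zc3 with rfl | rfl | rfl <;> rcases zc3' with rfl | rfl | rfl <;>
        rcases zcc with rfl | rfl | rfl <;> push_cast at hrel2 <;>
        first
        | (exfalso; ring_nf at hrel2; norm_num at hrel2; done)
        | (exfalso; exact srat 7 (by push_cast; linear_combination -hrel2))
        | (exfalso; exact srat 3 (by push_cast; linear_combination -hrel2))
        | (exfalso; exact srat' 7 (by push_cast; linear_combination -hrel2))
        | (exfalso; exact srat' 3 (by push_cast; linear_combination -hrel2))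
    · rw [hm, hz17 hm, hz17' hm] at hrel2
      rcases zcc with rfl | rfl | rfl <;> push_cast at hrel2 <;> norm_num at hrel2
  · push Not at hsmall
    -- `√13, √17 ∉ K`
    have no13 : ¬ ∃ y : K, y ^ 2 = 13 := by
      rintro ⟨y, hy⟩
      have hV13 : V0 K 13 := ⟨(by norm_num : Nat.Prime 13).squarefree, by decide,
        ⟨y, by rw [hy]; norm_num⟩, fun h => absurd h h5⟩
      have := D.hmin 13 hV13 (by norm_num)
      have := D.h13
      exact hsmall.1 (by omega)
    have no17 : ¬ ∃ y : K, y ^ 2 = 17 := by
      rintro ⟨y, hy⟩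
      have hV17 : V0 K 17 := ⟨(by norm_num : Nat.Prime 17).squarefree, by decide,
        ⟨y, by rw [hy]; norm_num⟩, fun h => absurd h h5⟩
      have h1 := D.hmin 17 hV17 (by norm_num)
      have h2 := D.h13
      have h3 := hB.mod_four D.hm.sqf D.hs D.hm.odd
      have h4 : D.m = 13 ∨ D.m = 17 := by omega
      rcases h4 with h4 | h4
      · exact hsmall.1 h4
      · exact hsmall.2 h4
    have rig10 : ∀ g : K, IsIntegral ℤ g → (∀ σ : K →+* ℝ, σ g ^ 2 ≤ 10) → ∃ z : ℤ, g = z := by
      intro g ig hg
      rcases rigid_sq M hB le_rfl ig (hFx g) hg with h | ⟨h, -⟩ | ⟨h, -⟩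
      · exact h
      · exact absurd h no13
      · exact absurd h no17
    -- the vector `w`
    obtain ⟨w, q, hw, hew, hwq, hq⟩ : ∃ (w : Fin 3 → K) (q : ℤ), w ∈ stdL K ∧ B e w = 0 ∧
        B w w = q ∧ (q = 5 ∨ q = 4) := by
      obtain ⟨z, hz, hz5⟩ := h.universal 5 (int_ofNat 5) (fun σ => by rw [map_ofNat]; norm_num)
      obtain ⟨ix, hzL, hez, hzz, hxle⟩ := split_one h he he1 hz
      obtain ⟨n, hn⟩ := rigid_sq_five M hB ix (hFx _) (fun σ => by
        have := hxle σ
        rw [hz5, map_ofNat] at this
        exact this)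
      have h1 := int_bound hn σ0 (hxle σ0)
      rw [hz5, map_ofNat] at h1
      have h2 : n ^ 2 ≤ 5 := by exact_mod_cast h1
      have h3 : n ≤ 2 := by nlinarith
      have h4 : -2 ≤ n := by nlinarith
      have h5 : n = 0 ∨ (n = 1 ∨ n = -1) ∨ (n = 2 ∨ n = -2) := by omega
      rw [hn, hz5] at hzz
      rcases h5 with h5 | h5 | h5
      · refine ⟨_, 5, hzL, hez, ?_, Or.inl rfl⟩
        rw [h5] at hzz
        rw [hn, h5]
        push_cast at hzz ⊢
        linear_combination -hzz
      · refine ⟨_, 4, hzL, hez, ?_, Or.inr rfl⟩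
        rw [hn]
        rcases h5 with h5 | h5 <;> rw [h5] at hzz ⊢ <;> push_cast at hzz ⊢ <;>
          linear_combination -hzz
      · exfalso
        refine hone _ hzL hez ?_
        rw [hn]
        rcases h5 with h5 | h5 <;> rw [h5] at hzz ⊢ <;> push_cast at hzz ⊢ <;>
          linear_combination -hzz
    have hrel := gram3 h e0 v0 hev hew heu
    rw [hv2, hwq, huA] at hrel
    have ib : IsIntegral ℤ (B v w) := h.integral v hv w hw
    have ic1 : IsIntegral ℤ (B v u) := h.integral v hv u hu
    have ic2 : IsIntegral ℤ (B w u) := h.integral w hw u hu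
    have hcs := h.cs v w
    rw [hv2, hwq] at hcs
    obtain ⟨n, hn⟩ := rig10 (B v w) ib (fun σ => by
      have := hcs σ
      rw [map_mul, map_ofNat, map_intCast] at this
      rcases hq with rfl | rfl <;> push_cast at this <;> linarith)
    have hn2 : n ^ 2 ≤ 2 * q := by
      have := hcs σ0
      rw [map_mul, map_ofNat, map_intCast, hn, map_intCast] at this
      exact_mod_cast this
    rw [hn] at hrel
    set c1 := B v u with hc1
    set c2 := B w u with hc2
    set g : K := 2 * c2 - n * c1 with hg
    have ig : IsIntegral ℤ g := (int_two.mul ic2).sub ((int_int n).mul ic1)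
    have half : ∀ c : K, IsIntegral ℤ c → IsIntegral ℤ (c ^ 2 / 2) → IsIntegral ℤ (c / 2) :=
      fun c ic hc => hV.reduced M hB ic hc
    -- squares
    have casesq : ∀ k : K, k ≠ 0 → k ^ 2 * (2 * A - c1 ^ 2) = g ^ 2 → False := by
      intro k hk hkg
      have h1 : (g / k) ^ 2 = 2 * A - c1 ^ 2 := by
        rw [div_pow, ← hkg]; field_simp
      have ig1 : IsIntegral ℤ (g / k) := int_of_sq (by
        rw [h1]; exact (int_two.mul iA).sub (ic1.pow 2))
      set g1 := g / k with hg1
      have iX : IsIntegral ℤ ((g1 - c1) / 2) := half _ (ig1.sub ic1) (by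
        have : (g1 - c1) ^ 2 / 2 = A - g1 * c1 := by linear_combination h1 / 2
        rw [this]
        exact iA.sub (ig1.mul ic1))
      set X := (g1 - c1) / 2 with hX
      have iY : IsIntegral ℤ (X + c1) := iX.add ic1
      have hAX : A = X ^ 2 + (X + c1) ^ 2 := by
        rw [hX]; linear_combination -h1 / 2
      have zX : X = 0 := PPA X iX (fun σ => by
        rw [hAX, map_add, map_pow, map_pow]
        nlinarith [sq_nonneg (σ (X + c1))])
      have zY : X + c1 = 0 := PPA _ iY (fun σ => by
        have := congrArg σ hAX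
        rw [map_add, map_pow, map_pow] at this
        rw [this]
        nlinarith [sq_nonneg (σ X)])
      apply A0
      rw [hAX, zY, zX]; ring
    -- the even case
    have casee : ∀ (f : K) (k : K), IsIntegral ℤ f → IsIntegral ℤ k →
        (∀ σ : K →+* ℝ, 1 ≤ σ k) → 2 * A - c1 ^ 2 = 2 * k * f ^ 2 → False := by
      intro f k if' ik hk hkf
      have ic1' : IsIntegral ℤ (c1 / 2) := half _ ic1 (by
        have : c1 ^ 2 / 2 = A - k * f ^ 2 := by linear_combination -hkf / 2
        rw [this]
        exact iA.sub (ik.mul (if'.pow 2)))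
      set d := c1 / 2 with hd
      have hAX : A = 2 * d ^ 2 + k * f ^ 2 := by
        rw [hd]; linear_combination hkf / 2
      have zd : d = 0 := PPA d ic1' (fun σ => by
        rw [hAX, map_add, map_mul, map_mul, map_pow, map_pow, map_ofNat]
        nlinarith [mul_nonneg (zero_le_one.trans (hk σ)) (sq_nonneg (σ f)), sq_nonneg (σ d)])
      have zf : f = 0 := PPA f if' (fun σ => by
        rw [hAX, map_add, map_mul, map_mul, map_pow, map_pow, map_ofNat]
        nlinarith [mul_nonneg (sub_nonneg.mpr (hk σ)) (sq_nonneg (σ f)), sq_nonneg (σ d)])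
      apply A0
      rw [hAX, zd, zf]; ring
    have hnb : n ≤ 3 ∧ -3 ≤ n := by
      rcases hq with rfl | rfl <;> constructor <;> nlinarith
    have hncases : n ^ 2 = 0 ∨ n ^ 2 = 1 ∨ n ^ 2 = 4 ∨ n ^ 2 = 9 := by
      obtain ⟨h1, h2⟩ := hnb
      interval_cases n <;> simp
    have hnK : ∀ k : ℤ, n ^ 2 = k → (n : K) ^ 2 = k := fun k hk => by exact_mod_cast congrArg (Int.cast : ℤ → K) hk
    rcases hq with rfl | rfl
    · rcases hncases with h1 | h1 | h1 | h1
      · -- `D = 10`
        have hn0 : n = 0 := pow_eq_zero_iff two_ne_zero |>.mp h1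
        rw [hn0] at hn
        obtain ⟨z, hz, hz10⟩ := h.universal 10 (int_ofNat 10)
          (fun σ => by rw [map_ofNat]; norm_num)
        obtain ⟨ix, hzL, hez, hzz, hxle⟩ := split_one h he he1 hz
        set x := B e z with hx
        set z' := z - x • e with hz'
        rw [hz10] at hzz
        have hzQ : B z' z' = 10 - x ^ 2 := by linear_combination -hzz
        have hrel' := gram3 h e0 v0 hev hew hez
        rw [hv2, hwq, hzQ, hn] at hrel'
        have id1 : IsIntegral ℤ (B v z') := h.integral v hv z' hzL
        have id2 : IsIntegral ℤ (B w z') := h.integral w hw z' hzL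
        have hcsv := h.cs v z'
        rw [hv2, hzQ] at hcsv
        set d1 := B v z' with hd1
        set d2 := B w z' with hd2
        have h3 : 5 * (20 - 2 * x ^ 2 - d1 ^ 2) = 2 * d2 ^ 2 := by
          push_cast at hrel'
          linear_combination hrel' / 2
        have if1 : IsIntegral ℤ (d1 / 2) := half _ id1 (by
          have : d1 ^ 2 / 2 = 5 * (10 - x ^ 2) - d2 ^ 2 - 2 * d1 ^ 2 := by
            linear_combination -h3 / 2
          rw [this]
          exact (((int_ofNat 5).mul ((int_ofNat 10).sub (ix.pow 2))).sub (id2.pow 2)).sub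
            (int_two.mul (id1.pow 2)))
        set f := d1 / 2 with hf
        obtain ⟨a, ha⟩ := rig10 x ix (fun σ => by
          have := hxle σ
          rw [hz10, map_ofNat] at this
          exact this)
        obtain ⟨a', ha'⟩ := rig10 f if1 (fun σ => by
          have h4 := hcsv σ
          have h5 : d1 = 2 * f := by rw [hf]; ring
          rw [h5, map_mul, map_mul, map_sub, map_pow, map_ofNat, map_ofNat] at h4
          nlinarith [sq_nonneg (σ x)])
        have hfin : d2 ^ 2 = ((5 * (10 - a ^ 2 - 2 * a' ^ 2) : ℤ) : K) := by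
          push_cast
          rw [← ha, ← ha', hf]
          linear_combination -h3 / 2
        have hpos : 0 ≤ 5 * (10 - a ^ 2 - 2 * a' ^ 2) := by
          have h4 : (σ0 d2) ^ 2 = ((5 * (10 - a ^ 2 - 2 * a' ^ 2) : ℤ) : ℝ) := by
            rw [← map_pow, hfin, map_intCast]
          have h5 : (0 : ℝ) ≤ ((5 * (10 - a ^ 2 - 2 * a' ^ 2) : ℤ) : ℝ) := by
            rw [← h4]; positivity
          exact_mod_cast h5
        have ha3 : a ≤ 3 ∧ -3 ≤ a := by constructor <;> nlinarith [sq_nonneg a']
        have ha3' : a' ≤ 2 ∧ -2 ≤ a' := by constructor <;> nlinarith [sq_nonneg a]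
        have hacases : a ^ 2 = 0 ∨ a ^ 2 = 1 ∨ a ^ 2 = 4 ∨ a ^ 2 = 9 := by
          obtain ⟨h1, h2⟩ := ha3
          interval_cases a <;> simp
        have hacases' : a' ^ 2 = 0 ∨ a' ^ 2 = 1 ∨ a' ^ 2 = 4 := by
          obtain ⟨h1, h2⟩ := ha3'
          interval_cases a' <;> simp
        have nsq : ∀ (T c : ℕ), Squarefree T → c ≠ 0 → d2 ^ 2 = (c ^ 2 * T : ℕ) →
            ((2 ∣ T) ∨ (7 ∣ T)) → False := by
          intro T c hT hc hd hdiv
          have hc' : (c : K) ≠ 0 := by exact_mod_cast hc
          have h4 : (d2 / c) ^ 2 = T := by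
            rw [div_pow, hd]; push_cast; field_simp
          rcases hdiv with h5 | h5
          · exact hV.no_root hT h5 _ h4
          · exact hB.no_root hT (by norm_num : Nat.Prime 7) h5 (by norm_num) (by norm_num) _ h4
        have n5 : ∀ c : ℕ, c ≠ 0 → d2 ^ 2 = (c ^ 2 * 5 : ℕ) → False := by
          intro c hc hd
          have hc' : (c : K) ≠ 0 := by exact_mod_cast hc
          apply h5
          refine ⟨d2 / c, ?_⟩
          rw [div_pow, hd]; push_cast; field_simp
        rcases hacases with h6 | h6 | h6 | h6 <;> rcases hacases' with h7 | h7 | h7 <;>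
          rw [h6, h7] at hfin hpos
        · exact nsq 2 5 (by decide +kernel) (by norm_num) (by rw [hfin]; norm_num) (by norm_num)
        · exact nsq 10 2 (by decide +kernel) (by norm_num) (by rw [hfin]; norm_num) (by norm_num)
        · exact nsq 10 1 (by decide +kernel) (by norm_num) (by rw [hfin]; norm_num) (by norm_num)
        · exact n5 3 (by norm_num) (by rw [hfin]; norm_num)
        · exact nsq 35 1 (by decide +kernel) (by norm_num) (by rw [hfin]; norm_num) (by norm_num)
        · exact n5 1 (by norm_num) (by rw [hfin]; norm_num)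
        · exact nsq 30 1 (by decide +kernel) (by norm_num) (by rw [hfin]; norm_num) (by norm_num)
        · exact n5 2 (by norm_num) (by rw [hfin]; norm_num)
        · norm_num at hpos
        · exact n5 1 (by norm_num) (by rw [hfin]; norm_num)
        · norm_num at hpos
        · norm_num at hpos
      · -- `D = 9`
        have := hnK 1 h1
        refine casesq 3 (by norm_num) ?_
        push_cast at hrel this
        rw [hg]
        linear_combination hrel + (2 * A - c1 ^ 2) * this
      · -- `D = 6`
        have h2 := hnK 4 h1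
        have h3 : 6 * (2 * A - c1 ^ 2) = g ^ 2 := by
          push_cast at hrel h2
          rw [hg]
          linear_combination hrel + (2 * A - c1 ^ 2) * h2
        have i2A : IsIntegral ℤ (2 * A - c1 ^ 2) := (int_two.mul iA).sub (ic1.pow 2)
        have j2 : IsIntegral ℤ (g / 2) := half _ ig (by
          have : g ^ 2 / 2 = 3 * (2 * A - c1 ^ 2) := by rw [← h3]; ring
          rw [this]; exact (int_ofNat 3).mul i2A)
        have j3 : IsIntegral ℤ (g / 3) := red3 _ ig (by
          have : g ^ 2 / 3 = 2 * (2 * A - c1 ^ 2) := by rw [← h3]; ring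
          rw [this]; exact int_two.mul i2A)
        have j6 : IsIntegral ℤ (g / 2 - g / 3) := j2.sub j3
        refine casee (g / 2 - g / 3) 3 j6 (int_ofNat 3) (fun σ => by rw [map_ofNat]; norm_num) ?_
        linear_combination h3 / 6
      · -- `D = 1`
        have := hnK 9 h1
        refine casesq 1 (by norm_num) ?_
        push_cast at hrel this
        rw [hg]
        linear_combination hrel + (2 * A - c1 ^ 2) * this
    · rcases hncases with h1 | h1 | h1 | h1
      · -- `D = 8`
        have h2 := hnK 0 h1
        have h3 : 8 * (2 * A - c1 ^ 2) = g ^ 2 := by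
          push_cast at hrel h2
          rw [hg]
          linear_combination hrel + (2 * A - c1 ^ 2) * h2
        have i2A : IsIntegral ℤ (2 * A - c1 ^ 2) := (int_two.mul iA).sub (ic1.pow 2)
        have j2 : IsIntegral ℤ (g / 2) := int_of_sq (by
          have : (g / 2) ^ 2 = 2 * (2 * A - c1 ^ 2) := by rw [div_pow, ← h3]; ring
          rw [this]; exact int_two.mul i2A)
        have j4 : IsIntegral ℤ ((g / 2) / 2) := half _ j2 (by
          have : (g / 2) ^ 2 / 2 = (2 * A - c1 ^ 2) := by rw [div_pow, ← h3]; ring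
          rw [this]; exact i2A)
        refine casee ((g / 2) / 2) 1 j4 isIntegral_one (fun σ => by rw [map_one]) ?_
        linear_combination h3 / 8
      · -- `D = 7`
        have h2 := hnK 1 h1
        have h3 : 7 * (2 * A - c1 ^ 2) = g ^ 2 := by
          push_cast at hrel h2
          rw [hg]
          linear_combination hrel + (2 * A - c1 ^ 2) * h2
        have i2A : IsIntegral ℤ (2 * A - c1 ^ 2) := (int_two.mul iA).sub (ic1.pow 2)
        have j7 : IsIntegral ℤ (g / 7) := red7 _ ig (by
          have : g ^ 2 / 7 = (2 * A - c1 ^ 2) := by rw [← h3]; ring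
          rw [this]; exact i2A)
        set g1 := g / 7 with hg1
        have h4 : 7 * g1 ^ 2 = 2 * A - c1 ^ 2 := by
          rw [hg1]; linear_combination -h3 / 7
        have iX : IsIntegral ℤ ((g1 - c1) / 2) := half _ (j7.sub ic1) (by
          have : (g1 - c1) ^ 2 / 2 = A - 3 * g1 ^ 2 - g1 * c1 := by linear_combination h4 / 2
          rw [this]
          exact (iA.sub ((int_ofNat 3).mul (j7.pow 2))).sub (j7.mul ic1))
        set X := (g1 - c1) / 2 with hX
        have hAX : A = X ^ 2 + (X + c1) ^ 2 + 3 * g1 ^ 2 := by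
          rw [hX]; linear_combination -h4 / 2
        have zX : X = 0 := PPA X iX (fun σ => by
          rw [hAX, map_add, map_add, map_mul, map_pow, map_pow, map_pow, map_ofNat]
          nlinarith [sq_nonneg (σ (X + c1)), sq_nonneg (σ g1)])
        have zg : g1 = 0 := PPA g1 j7 (fun σ => by
          rw [hAX, map_add, map_add, map_mul, map_pow, map_pow, map_pow, map_ofNat]
          nlinarith [sq_nonneg (σ (X + c1)), sq_nonneg (σ g1), sq_nonneg (σ X)])
        have zY : X + c1 = 0 := PPA (X + c1) (iX.add ic1) (fun σ => by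
          have := congrArg σ hAX
          rw [map_add, map_add, map_mul, map_pow, map_pow, map_pow, map_ofNat] at this
          rw [this]
          nlinarith [sq_nonneg (σ X), sq_nonneg (σ g1)])
        apply A0
        rw [hAX, zY, zX, zg]; ring
      · -- `D = 4`
        have := hnK 4 h1
        refine casesq 2 (by norm_num) ?_
        push_cast at hrel this
        rw [hg]
        linear_combination hrel + (2 * A - c1 ^ 2) * this
      · exfalso
        rw [h1] at hn2
        norm_num at hn2

end Pool.Agent.Work.MP_eae946_nt.Full
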