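import Pool.Agent.Work.MP_eae946_nt.Full.B3

namespace Pool.Agent.Work.MP_eae946_nt.Full

open NumberField

variable {K : Type*} [Field K] [NumberField K]
variable {B : (Fin 3 → K) →ₗ[K] (Fin 3 → K) →ₗ[K] K}

/-- congruent modulo `2` to an integer fixed by `sg 2`. -/
def InS (M : MQ K) (α : K) : Prop :=
  ∃ a : K, IsIntegral ℤ a ∧ M.sg 2 a = a ∧ IsIntegral ℤ ((α - a) / 2)

namespace InS

variable {M : MQ K}

theorem of_fix {a : K} (ha : IsIntegral ℤ a) (h : M.sg 2 a = a) : InS M a :=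
  ⟨a, ha, h, by rw [sub_self, zero_div]; exact isIntegral_zero⟩

theorem of_cong {a b : K} (ha : InS M a) (h : IsIntegral ℤ ((b - a) / 2)) : InS M b := by
  obtain ⟨a', ia, fa, ha⟩ := ha
  refine ⟨a', ia, fa, ?_⟩
  have : (b - a') / 2 = (b - a) / 2 + (a - a') / 2 := by ring
  rw [this]; exact h.add ha

theorem add {a b : K} (ha : InS M a) (hb : InS M b) : InS M (a + b) := by
  obtain ⟨a', ia, fa, ha⟩ := ha
  obtain ⟨b', ib, fb, hb⟩ := hb
  refine ⟨a' + b', ia.add ib, by rw [map_add, fa, fb], ?_⟩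
  have : (a + b - (a' + b')) / 2 = (a - a') / 2 + (b - b') / 2 := by ring
  rw [this]; exact ha.add hb

theorem mul {a b : K} (ha : InS M a) (hb : InS M b) : InS M (a * b) := by
  obtain ⟨a', ia, fa, ha⟩ := ha
  obtain ⟨b', ib, fb, hb⟩ := hb
  refine ⟨a' * b', ia.mul ib, by rw [map_mul, fa, fb], ?_⟩
  have : (a * b - a' * b') / 2 = ((a - a') / 2) * (2 * ((b - b') / 2) + b') + a' * ((b - b') / 2) := by
    ring
  rw [this]; exact (ha.mul ((int_two.mul hb).add ib)).add (ia.mul hb)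

end InS

section

variable {M : MQ K} (hB : CaseB K) {x2 : K} {n : ℕ} (hn : Odd n)
  (hx2 : x2 ^ 2 = ((2 * n : ℕ) : K))
include hB hn hx2

/-- decomposition of an integer -/
theorem dec2 {γ : K} (hγ : IsIntegral ℤ γ) : ∃ g0 ge : K, IsIntegral ℤ g0 ∧ IsIntegral ℤ ge ∧
    M.sg 2 g0 = g0 ∧ M.sg 2 ge = -ge ∧ IsIntegral ℤ (ge ^ 2 / 2) ∧ γ = g0 + ge ∧
    M.sg 2 γ = g0 - ge := by
  obtain ⟨h1, h2⟩ := M.diff_two (fun x T hT hx hodd => hB.mod_four hT hx hodd) hn hx2 hγ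
  refine ⟨(γ + M.sg 2 γ) / 2, (γ - M.sg 2 γ) / 2, h2, ?_, ?_, ?_, ?_, by ring, by ring⟩
  · have : (γ - M.sg 2 γ) / 2 = γ - (γ + M.sg 2 γ) / 2 := by ring
    rw [this]; exact hγ.sub h2
  · rw [map_div₀, map_add, M.invol, map_ofNat]; ring
  · rw [map_div₀, map_sub, M.invol, map_ofNat]; ring
  · have : ((γ - M.sg 2 γ) / 2) ^ 2 / 2 = (γ - M.sg 2 γ) ^ 2 / 8 := by ring
    rw [this]; exact h1

theorem InS.sq {γ : K} (hγ : IsIntegral ℤ γ) : InS M (γ ^ 2) := by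
  obtain ⟨g0, ge, i0, ie, f0, fe, he, hg, -⟩ := dec2 (M := M) hB hn hx2 hγ
  refine ⟨g0 ^ 2, i0.pow 2, by rw [map_pow, f0], ?_⟩
  have : (γ ^ 2 - g0 ^ 2) / 2 = g0 * ge + ge ^ 2 / 2 := by rw [hg]; ring
  rw [this]; exact (i0.mul ie).add he

theorem fixed_half {a : K} (ha : IsIntegral ℤ a) (hf : M.sg 2 a = a)
    (h : IsIntegral ℤ (a ^ 2 / 2)) : IsIntegral ℤ (a / 2) :=
  M.fixed_two (fun x T hT hx hodd => hB.mod_four hT hx hodd) ha hf h

/-- structure of the integers `c` with `2 ∣ c ^ 2` -/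
theorem dec_c {c : K} (hc : IsIntegral ℤ c) (hc2 : IsIntegral ℤ (c ^ 2 / 2)) :
    ∃ c0 ce : K, IsIntegral ℤ c0 ∧ IsIntegral ℤ ce ∧
    M.sg 2 c0 = c0 ∧ M.sg 2 ce = -ce ∧ IsIntegral ℤ (ce ^ 2 / 2) ∧ c = 2 * c0 + ce ∧
    M.sg 2 c = 2 * c0 - ce := by
  obtain ⟨g0, ge, i0, ie, f0, fe, he, hg, hg'⟩ := dec2 (M := M) hB hn hx2 hc
  have h1 : IsIntegral ℤ (g0 ^ 2 / 2) := by
    have : g0 ^ 2 / 2 = c ^ 2 / 2 - ge ^ 2 / 2 - g0 * ge := by rw [hg]; ring
    rw [this]; exact (hc2.sub he).sub (i0.mul ie)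
  have h2 := fixed_half (M := M) hB hn hx2 i0 f0 h1
  refine ⟨g0 / 2, ge, h2, ie, by rw [map_div₀, f0, map_ofNat], fe, he, by rw [hg]; ring,
    by rw [hg']; ring⟩

theorem InS.half_sq {c : K} (hc : IsIntegral ℤ c) (hc2 : IsIntegral ℤ (c ^ 2 / 2)) :
    InS M (c ^ 2 / 2) := by
  obtain ⟨c0, ce, i0, ie, f0, fe, he, hcc, -⟩ := dec_c (M := M) hB hn hx2 hc hc2
  refine ⟨ce ^ 2 / 2, he, by rw [map_div₀, map_pow, fe, map_ofNat]; ring, ?_⟩
  have : (c ^ 2 / 2 - ce ^ 2 / 2) / 2 = c0 ^ 2 + c0 * ce := by rw [hcc]; ring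
  rw [this]; exact (i0.pow 2).add (i0.mul ie)

/-- the special element is not in `S` -/
theorem not_InS {k : K} (hk : IsIntegral ℤ k) : ¬ InS M (x2 + 2 * k) := by
  rintro ⟨a, ia, fa, ha⟩
  have hn0 : n ≠ 0 := by rintro rfl; exact absurd hn (by decide)
  have h2n : ¬ 2 ∣ n := by
    rw [← even_iff_two_dvd, Nat.not_even_iff_odd]; exact hn
  have hsx : M.sg 2 x2 = -x2 := by
    rw [M.sg_spec 2 Nat.prime_two x2 (2 * n) (by omega) hx2,
      Nat.factorization_mul (by norm_num) hn0]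
    simp [Nat.factorization_eq_zero_of_not_dvd h2n, Nat.prime_two.factorization]
  set b := (x2 + 2 * k - a) / 2 - k with hb
  have ib : IsIntegral ℤ b := ha.sub hk
  have hb2 : 2 * b = x2 - a := by rw [hb]; ring
  clear_value b
  have h1 : b - M.sg 2 b = x2 := by
    have h3 : 2 * M.sg 2 b = -x2 - a := by
      have := congrArg (M.sg 2) hb2
      rw [map_mul, map_ofNat, map_sub, hsx, fa] at this
      exact this
    linear_combination (hb2 - h3) / 2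
  have h4 := (M.diff_two (fun x T hT hx hodd => hB.mod_four hT hx hodd) hn hx2 ib).1
  rw [h1, hx2] at h4
  obtain ⟨z, hz⟩ := int_of_rat_integral (x := ((2 * n : ℕ) : K) / 8) (q := (n : ℚ) / 4)
    (by push_cast; ring) h4
  have h5 : (n : ℤ) = 4 * z := by
    have : (n : ℚ) = 4 * z := by rw [← hz]; ring
    exact_mod_cast this
  omega

variable [IsTotallyReal K]

/-- the bound for the components -/
theorem comp_bound {γ g0 ge : K} (h1 : γ = g0 + ge) (h2 : M.sg 2 γ = g0 - ge) {α : K}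
    {b : ℝ} (hα : ∀ σ : K →+* ℝ, σ α + σ (M.sg 2 α) ≤ 2 * b)
    (h : ∀ σ : K →+* ℝ, σ γ ^ 2 ≤ σ α) (σ : K →+* ℝ) : σ g0 ^ 2 + σ ge ^ 2 ≤ b := by
  have e1 := h σ
  have e2 := h (σ.comp (M.sg 2 : K →+* K))
  simp only [RingHom.comp_apply, RingHom.coe_coe] at e2
  rw [h2] at e2
  rw [h1] at e1
  rw [map_add] at e1
  rw [map_sub] at e2
  have := hα σ
  nlinarith

/-- elements `xe` with small squares vanish -/
theorem xe_zero (hno2 : ¬ ∃ y : K, y ^ 2 = 2) {xe : K} (fe : M.sg 2 xe = -xe)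
    (he : IsIntegral ℤ (xe ^ 2 / 2)) (hb : ∀ σ : K →+* ℝ, σ xe ^ 2 ≤ 5) : xe = 0 := by
  have anti : xe ^ 2 = 2 ^ 2 → xe = 0 := by
    intro h
    have h3 : M.sg 2 xe = xe := by
      rcases pm_of_sq h with h4 | h4
      · rw [h4, map_ofNat]
      · rw [h4, map_neg, map_ofNat]
    rw [h3] at fe
    have h5 : (2 : K) * xe = 0 := by linear_combination fe
    exact (mul_eq_zero.mp h5).resolve_left two_ne_zero
  rcases t_le_thirteen_five he (fun σ => by
      rw [map_div₀, map_pow, map_ofNat]; positivity) (fun σ => by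
      rw [map_div₀, map_pow, map_ofNat]
      have := hb σ
      linarith) with h | h | h
  · have : xe ^ 2 = 0 := by linear_combination 2 * h
    exact pow_eq_zero_iff two_ne_zero |>.mp this
  · exact absurd ⟨xe, by linear_combination 2 * h⟩ hno2
  · exact anti (by linear_combination 2 * h)

/-- the representations of `A` -/
theorem A_comp (M : MQ K) (D : MinD K) {s : K} (hs : s ^ 2 = D.m) {x : K} (ix : IsIntegral ℤ x)
    (hx : ∀ σ : K →+* ℝ, σ x ^ 2 ≤ σ (((D.t : K) + s) / 2)) : IsIntegral ℤ (x ^ 2 / 2) := by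
  obtain ⟨g0, ge, i0, ie, f0, fe, he, hg, hg'⟩ := dec2 (M := M) hB hn hx2 ix
  have hz : g0 = 0 := PP1 M hB D hs i0 f0 (fun σ => by
    have e1 := hx σ
    have e2 := hx (σ.comp (M.sg 2 : K →+* K))
    simp only [RingHom.comp_apply, RingHom.coe_coe] at e2
    rw [A_fix2 M D hs, hg', map_sub] at e2
    rw [hg, map_add] at e1
    nlinarith)
  rw [hg, hz, zero_add]; exact he

end

end Pool.Agent.Work.MP_eae946_nt.Full
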