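import Pool.Agent.Work.MP_eae946_nt.Full.B4a

namespace Pool.Agent.Work.MP_eae946_nt.Full

open NumberField

variable {K : Type*} [Field K] [NumberField K]
variable {B : (Fin 3 → K) →ₗ[K] (Fin 3 → K) →ₗ[K] K}

theorem val_add (x y : 𝓞 K) : ((x + y : 𝓞 K) : K) = (x : K) + y := rfl
theorem val_sub (x y : 𝓞 K) : ((x - y : 𝓞 K) : K) = (x : K) - y := rfl
theorem val_mul (x y : 𝓞 K) : ((x * y : 𝓞 K) : K) = (x : K) * y := rfl

theorem exists_shift (a : K) : ∃ M : ℕ, ∀ σ : K →+* ℝ, 0 < σ (a + 2 * M) := by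
  have : Finite (K →+* ℝ) := inferInstance
  obtain ⟨C, hC⟩ := (Set.finite_range (fun σ : K →+* ℝ => -σ a)).bddAbove
  obtain ⟨M, hM⟩ := exists_nat_gt C
  refine ⟨M, fun σ => ?_⟩
  have h1 : -σ a ≤ C := hC ⟨σ, rfl⟩
  have h2 : (0 : ℝ) ≤ M := Nat.cast_nonneg M
  rw [map_add, map_mul, map_natCast, map_ofNat]
  linarith

/-- basis vectors -/
theorem single_mem (i : Fin 3) : (Pi.single i 1 : Fin 3 → K) ∈ stdL K := by
  intro j
  by_cases h : j = i
  · subst h; simpa using isIntegral_one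
  · simpa [Pi.single_eq_of_ne h] using isIntegral_zero

theorem vec_eq (d : Fin 3 → K) : d = d 0 • (Pi.single 0 1 : Fin 3 → K) +
    d 1 • (Pi.single 1 1 : Fin 3 → K) + d 2 • (Pi.single 2 1 : Fin 3 → K) := by
  ext i
  fin_cases i <;> simp

/-- vectors with all coordinates in the ideal `𝔠`. -/
theorem small_vec (h : Lat K (Fin 3 → K) B (stdL K)) {d : Fin 3 → K} (hd : d ∈ stdL K)
    (hd2 : ∀ i, IsIntegral ℤ ((d i) ^ 2 / 2)) :
    IsIntegral ℤ (B d d / 2) ∧ ∀ z ∈ stdL K, IsIntegral ℤ ((B d z) ^ 2 / 2) := by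
  have key : ∀ z, B d z = d 0 * B (Pi.single 0 1) z + d 1 * B (Pi.single 1 1) z +
      d 2 * B (Pi.single 2 1) z := by
    intro z
    conv_lhs => rw [vec_eq d]
    simp only [map_add, map_smul, LinearMap.add_apply, LinearMap.smul_apply, smul_eq_mul]
  constructor
  · have e0 := key (Pi.single 0 1)
    have e1 := key (Pi.single 1 1)
    have e2 := key (Pi.single 2 1)
    have e : B d d = d 0 * B d (Pi.single 0 1) + d 1 * B d (Pi.single 1 1) +
        d 2 * B d (Pi.single 2 1) := by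
      rw [key d, h.symm _ d, h.symm _ d, h.symm _ d]
    have b00 := h.integral _ (single_mem (K := K) 0) _ (single_mem (K := K) 0)
    have b11 := h.integral _ (single_mem (K := K) 1) _ (single_mem (K := K) 1)
    have b22 := h.integral _ (single_mem (K := K) 2) _ (single_mem (K := K) 2)
    have b01 := h.integral _ (single_mem (K := K) 0) _ (single_mem (K := K) 1)
    have b02 := h.integral _ (single_mem (K := K) 0) _ (single_mem (K := K) 2)
    have b12 := h.integral _ (single_mem (K := K) 1) _ (single_mem (K := K) 2)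
    have s10 : B (Pi.single 1 1 : Fin 3 → K) (Pi.single 0 1) = B (Pi.single 0 1) (Pi.single 1 1) :=
      h.symm _ _
    have s20 : B (Pi.single 2 1 : Fin 3 → K) (Pi.single 0 1) = B (Pi.single 0 1) (Pi.single 2 1) :=
      h.symm _ _
    have s21 : B (Pi.single 2 1 : Fin 3 → K) (Pi.single 1 1) = B (Pi.single 1 1) (Pi.single 2 1) :=
      h.symm _ _
    have : B d d / 2 = ((d 0) ^ 2 / 2) * B (Pi.single 0 1) (Pi.single 0 1) +
        ((d 1) ^ 2 / 2) * B (Pi.single 1 1) (Pi.single 1 1) +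
        ((d 2) ^ 2 / 2) * B (Pi.single 2 1) (Pi.single 2 1) +
        d 0 * d 1 * B (Pi.single 0 1) (Pi.single 1 1) +
        d 0 * d 2 * B (Pi.single 0 1) (Pi.single 2 1) +
        d 1 * d 2 * B (Pi.single 1 1) (Pi.single 2 1) := by
      rw [e, e0, e1, e2, s10, s20, s21]; ring
    rw [this]
    exact ((((((hd2 0).mul b00).add ((hd2 1).mul b11)).add ((hd2 2).mul b22)).add
      (((hd 0).mul (hd 1)).mul b01)).add (((hd 0).mul (hd 2)).mul b02)).add
      (((hd 1).mul (hd 2)).mul b12)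
  · intro z hz
    have b0 := h.integral _ (single_mem (K := K) 0) _ hz
    have b1 := h.integral _ (single_mem (K := K) 1) _ hz
    have b2 := h.integral _ (single_mem (K := K) 2) _ hz
    have : (B d z) ^ 2 / 2 = ((d 0) ^ 2 / 2) * (B (Pi.single 0 1) z) ^ 2 +
        ((d 1) ^ 2 / 2) * (B (Pi.single 1 1) z) ^ 2 +
        ((d 2) ^ 2 / 2) * (B (Pi.single 2 1) z) ^ 2 +
        (d 0 * B (Pi.single 0 1) z) * (d 1 * B (Pi.single 1 1) z) +
        (d 0 * B (Pi.single 0 1) z) * (d 2 * B (Pi.single 2 1) z) +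
        (d 1 * B (Pi.single 1 1) z) * (d 2 * B (Pi.single 2 1) z) := by
      rw [key z]; ring
    rw [this]
    exact ((((((hd2 0).mul (b0.pow 2)).add ((hd2 1).mul (b1.pow 2))).add
      ((hd2 2).mul (b2.pow 2))).add (((hd 0).mul b0).mul ((hd 1).mul b1))).add
      (((hd 0).mul b0).mul ((hd 2).mul b2))).add (((hd 1).mul b1).mul ((hd 2).mul b2))

/-- the ideal `𝔠` -/
noncomputable def idealC (K : Type*) [Field K] [NumberField K] : Ideal (𝓞 K) where
  carrier := {a | IsIntegral ℤ ((a : K) ^ 2 / 2)}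
  zero_mem' := by
    change IsIntegral ℤ (((0 : 𝓞 K) : K) ^ 2 / 2)
    simpa using isIntegral_zero
  add_mem' := by
    intro a b ha hb
    change IsIntegral ℤ (((a + b : 𝓞 K) : K) ^ 2 / 2)
    have : ((a + b : 𝓞 K) : K) ^ 2 / 2 = (a : K) ^ 2 / 2 + (b : K) ^ 2 / 2 + a * b := by
      push_cast; ring
    rw [this]
    exact (IsIntegral.add ha hb).add (a.isIntegral_coe.mul b.isIntegral_coe)
  smul_mem' := by
    intro r a ha
    change IsIntegral ℤ (((r * a : 𝓞 K) : K) ^ 2 / 2)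
    have : ((r * a : 𝓞 K) : K) ^ 2 / 2 = (r : K) ^ 2 * ((a : K) ^ 2 / 2) := by
      push_cast; ring
    rw [this]
    exact (r.isIntegral_coe.pow 2).mul ha

theorem mem_idealC {a : 𝓞 K} : a ∈ idealC K ↔ IsIntegral ℤ ((a : K) ^ 2 / 2) := Iff.rfl

/-- the ideal `(2)` -/
noncomputable def ideal2 (K : Type*) [Field K] [NumberField K] : Ideal (𝓞 K) where
  carrier := {a | IsIntegral ℤ ((a : K) / 2)}
  zero_mem' := by
    change IsIntegral ℤ (((0 : 𝓞 K) : K) / 2)
    simpa using isIntegral_zero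
  add_mem' := by
    intro a b ha hb
    change IsIntegral ℤ (((a + b : 𝓞 K) : K) / 2)
    have : ((a + b : 𝓞 K) : K) / 2 = (a : K) / 2 + (b : K) / 2 := by
      push_cast; ring
    rw [this]
    exact IsIntegral.add ha hb
  smul_mem' := by
    intro r a ha
    change IsIntegral ℤ (((r * a : 𝓞 K) : K) / 2)
    have : ((r * a : 𝓞 K) : K) / 2 = (r : K) * ((a : K) / 2) := by
      push_cast; ring
    rw [this]
    exact r.isIntegral_coe.mul ha

theorem mem_ideal2 {a : 𝓞 K} : a ∈ ideal2 K ↔ IsIntegral ℤ ((a : K) / 2) := Iff.rfl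

instance : Finite (𝓞 K ⧸ idealC K) := by
  apply Ideal.finiteQuotientOfFreeOfNeBot
  intro h
  have h2 : (2 : 𝓞 K) ∈ idealC K := by
    rw [mem_idealC]
    have : (((2 : 𝓞 K) : K)) ^ 2 / 2 = 2 := by
      have : ((2 : 𝓞 K) : K) = 2 := map_ofNat (algebraMap (𝓞 K) K) 2
      rw [this]; norm_num
    rw [this]; exact int_two
  rw [h, Ideal.mem_bot] at h2
  exact two_ne_zero h2

instance : Finite (𝓞 K ⧸ ideal2 K) := by
  apply Ideal.finiteQuotientOfFreeOfNeBot
  intro h
  have h2 : (2 : 𝓞 K) ∈ ideal2 K := by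
    rw [mem_ideal2]
    have : (((2 : 𝓞 K) : K)) / 2 = 1 := by
      have : ((2 : 𝓞 K) : K) = 2 := map_ofNat (algebraMap (𝓞 K) K) 2
      rw [this]; norm_num
    rw [this]; exact isIntegral_one
  rw [h, Ideal.mem_bot] at h2
  exact two_ne_zero h2

theorem card_le {x2 : K} {n : ℕ} (hn : Odd n) (hx2 : x2 ^ 2 = ((2 * n : ℕ) : K)) :
    Nat.card (𝓞 K ⧸ idealC K) * Nat.card (𝓞 K ⧸ idealC K) ≤ Nat.card (𝓞 K ⧸ ideal2 K) := by
  have ix : IsIntegral ℤ x2 := int_of_sq (by rw [hx2]; exact int_nat _)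
  have h2n : ¬ 2 ∣ n := by
    rw [← even_iff_two_dvd, Nat.not_even_iff_odd]; exact hn
  rw [← Nat.card_prod]
  let X : 𝓞 K := ⟨x2, ix⟩
  have hX : (X : K) = x2 := rfl
  let G : (𝓞 K ⧸ idealC K) × (𝓞 K ⧸ idealC K) → 𝓞 K ⧸ ideal2 K := fun q =>
    Ideal.Quotient.mk (ideal2 K) (Quotient.out q.1 + Quotient.out q.2 * X)
  apply Nat.card_le_card_of_injective G
  rintro ⟨α, β⟩ ⟨α', β'⟩ hG
  simp only [G] at hG
  rw [Ideal.Quotient.eq, mem_ideal2] at hG
  set a := Quotient.out α
  set b := Quotient.out β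
  set a' := Quotient.out α'
  set b' := Quotient.out β'
  have hα : Ideal.Quotient.mk (idealC K) a = α := Quotient.out_eq _
  have hβ : Ideal.Quotient.mk (idealC K) b = β := Quotient.out_eq _
  have hα' : Ideal.Quotient.mk (idealC K) a' = α' := Quotient.out_eq _
  have hβ' : Ideal.Quotient.mk (idealC K) b' = β' := Quotient.out_eq _
  rw [val_sub, val_add, val_add, val_mul, val_mul, hX] at hG
  set g : K := ((a : K) + b * x2 - (a' + b' * x2)) / 2 with hg
  set u : K := (a : K) - a' with hu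
  set w : K := (b : K) - b' with hw
  have iu : IsIntegral ℤ u := a.isIntegral_coe.sub a'.isIntegral_coe
  have iw : IsIntegral ℤ w := b.isIntegral_coe.sub b'.isIntegral_coe
  have hx2' : x2 ^ 2 = 2 * n := by rw [hx2]; push_cast; ring
  have h1 : u = 2 * g - w * x2 := by rw [hu, hw, hg]; ring
  have h2 : IsIntegral ℤ (u ^ 2 / 2) := by
    have : u ^ 2 / 2 = 2 * g ^ 2 - 2 * g * w * x2 + w ^ 2 * n := by
      rw [h1]; linear_combination (w ^ 2 / 2) * hx2'
    rw [this]
    exact ((int_two.mul (hG.pow 2)).sub (((int_two.mul hG).mul iw).mul ix)).add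
      ((iw.pow 2).mul (int_nat n))
  have hαα : α = α' := by
    rw [← hα, ← hα', Ideal.Quotient.eq, mem_idealC, val_sub]
    exact h2
  have haa : u = 0 := by
    rw [hu]
    simp only [a, a', hαα, sub_self]
  have h3 : IsIntegral ℤ (w ^ 2 / 2) := by
    have h4 : w * x2 = 2 * g := by linear_combination h1 - haa
    have h5 : w ^ 2 * n = 2 * g ^ 2 := by
      linear_combination (w * x2 + 2 * g) * h4 / 2 - (w ^ 2 / 2) * hx2'
    have hcop : IsCoprime (n : ℤ) ((2 : ℕ) : ℤ) := by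
      rw [Nat.isCoprime_iff_coprime]
      exact (Nat.Coprime.symm ((Nat.Prime.coprime_iff_not_dvd Nat.prime_two).mpr h2n))
    have := int_div_of_coprime (p := 2) hcop (by norm_num : ((2 : ℕ) : K) ≠ 0) (iw.pow 2) (by
      push_cast
      have : (n : K) * w ^ 2 / 2 = g ^ 2 := by linear_combination h5 / 2
      rw [this]; exact hG.pow 2)
    exact_mod_cast this
  have hββ : β = β' := by
    rw [← hβ, ← hβ', Ideal.Quotient.eq, mem_idealC, val_sub]
    exact h3
  rw [hαα, hββ]

/-- the counting argument -/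
theorem coords_mem (h : Lat K (Fin 3 → K) B (stdL K)) {x2 : K} {n : ℕ} (hn : Odd n)
    (hx2 : x2 ^ 2 = ((2 * n : ℕ) : K)) {e zs : Fin 3 → K} (he : e ∈ stdL K)
    (he1 : B e e = 1) (hzs : zs ∈ stdL K) (hezs : B e zs = 0)
    (hzs1 : IsIntegral ℤ ((B zs zs - 1) / 2)) {v : Fin 3 → K} (hv : v ∈ stdL K)
    (hev : B e v = 0) (hv2 : IsIntegral ℤ (B v v / 2)) (i : Fin 3) :
    IsIntegral ℤ ((v i) ^ 2 / 2) := by
  classical
  let hat : (Fin 3 → 𝓞 K) → (Fin 3 → K) := fun x i => (x i : K)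
  have hhat : ∀ x, hat x ∈ stdL K := fun x i => (x i).isIntegral_coe
  let Qr : (Fin 3 → 𝓞 K) → 𝓞 K := fun x => ⟨B (hat x) (hat x), h.integral _ (hhat x) _ (hhat x)⟩
  let Br : (Fin 3 → 𝓞 K) → 𝓞 K := fun x => ⟨B e (hat x), h.integral _ he _ (hhat x)⟩
  have hQr : ∀ x, (Qr x : K) = B (hat x) (hat x) := fun x => rfl
  have hBr : ∀ x, (Br x : K) = B e (hat x) := fun x => rfl
  let F : (Fin 3 → 𝓞 K ⧸ idealC K) → (𝓞 K ⧸ ideal2 K) × (𝓞 K ⧸ idealC K) := fun ξ =>
    (Ideal.Quotient.mk _ (Qr fun i => Quotient.out (ξ i)),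
      Ideal.Quotient.mk _ (Br fun i => Quotient.out (ξ i)))
  have L1 : ∀ x y : Fin 3 → 𝓞 K, (∀ i, x i - y i ∈ idealC K) →
      Ideal.Quotient.mk (ideal2 K) (Qr x) = Ideal.Quotient.mk (ideal2 K) (Qr y) ∧
      Ideal.Quotient.mk (idealC K) (Br x) = Ideal.Quotient.mk (idealC K) (Br y) := by
    intro x y hxy
    set d : Fin 3 → K := hat x - hat y with hd
    have hdL : d ∈ stdL K := (stdL K).sub_mem (hhat x) (hhat y)
    have hd2 : ∀ i, IsIntegral ℤ ((d i) ^ 2 / 2) := by
      intro i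
      have := hxy i
      rw [mem_idealC, val_sub] at this
      exact this
    obtain ⟨s1, s2⟩ := small_vec h hdL hd2
    have hx : hat x = hat y + d := by rw [hd]; abel
    constructor
    · rw [Ideal.Quotient.eq, mem_ideal2, val_sub, hQr, hQr]
      have : (B (hat x) (hat x) - B (hat y) (hat y)) / 2 = B (hat y) d + B d d / 2 := by
        rw [hx]
        simp only [map_add, LinearMap.add_apply]
        rw [h.symm d (hat y)]; ring
      rw [this]
      exact (h.integral _ (hhat y) _ hdL).add s1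
    · rw [Ideal.Quotient.eq, mem_idealC, val_sub, hBr, hBr]
      have : (B e (hat x) - B e (hat y)) ^ 2 / 2 = (B d e) ^ 2 / 2 := by
        rw [hx, map_add, h.symm d e]; ring
      rw [this]
      exact s2 e he
  have hrep : ∀ x : Fin 3 → 𝓞 K, F (fun i => Ideal.Quotient.mk _ (x i))
      = (Ideal.Quotient.mk _ (Qr x), Ideal.Quotient.mk _ (Br x)) := by
    intro x
    have := L1 (fun i => Quotient.out (Ideal.Quotient.mk (idealC K) (x i))) x (by
      intro i
      rw [← Ideal.Quotient.eq]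
      exact Quotient.out_eq _)
    exact Prod.ext this.1 this.2
  have hsurj : Function.Surjective F := by
    rintro ⟨α, β⟩
    obtain ⟨a, rfl⟩ := Ideal.Quotient.mk_surjective α
    obtain ⟨b, rfl⟩ := Ideal.Quotient.mk_surjective β
    obtain ⟨M, hM⟩ := exists_shift (a : K)
    obtain ⟨z, hz, hzz⟩ := h.universal ((a : K) + 2 * M)
      (a.isIntegral_coe.add (int_two.mul (int_nat M))) hM
    have iez : IsIntegral ℤ (B e z) := h.integral e he z hz
    set c0 : K := b - B e z with hc0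
    have ic0 : IsIntegral ℤ c0 := b.isIntegral_coe.sub iez
    set z1 : Fin 3 → K := z + c0 • (e + zs) with hz1
    have hz1L : z1 ∈ stdL K :=
      (stdL K).add_mem hz (stdL_smul ic0 ((stdL K).add_mem he hzs))
    let x : Fin 3 → 𝓞 K := fun i => ⟨z1 i, hz1L i⟩
    have hx : hat x = z1 := rfl
    refine ⟨fun i => Ideal.Quotient.mk _ (x i), ?_⟩
    rw [hrep x]
    refine Prod.ext ?_ ?_
    · change Ideal.Quotient.mk (ideal2 K) (Qr x) = Ideal.Quotient.mk (ideal2 K) a
      rw [Ideal.Quotient.eq, mem_ideal2, val_sub, hQr, hx]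
      have : (B z1 z1 - (a : K)) / 2 = M + c0 * (B z e + B z zs) +
          c0 ^ 2 * ((B zs zs - 1) / 2 + 1) := by
        rw [hz1]
        simp only [map_add, map_smul, LinearMap.add_apply, LinearMap.smul_apply, smul_eq_mul]
        rw [hzz, he1, h.symm zs e, hezs, h.symm e z, h.symm zs z]; ring
      rw [this]
      exact ((int_nat M).add (ic0.mul ((h.integral _ hz _ he).add (h.integral _ hz _ hzs)))).add
        ((ic0.pow 2).mul (hzs1.add isIntegral_one))
    · change Ideal.Quotient.mk (idealC K) (Br x) = Ideal.Quotient.mk (idealC K) b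
      have : Br x = b := by
        apply RingOfIntegers.ext
        rw [hBr, hx, hz1]
        simp only [map_add, map_smul, smul_eq_mul]
        rw [he1, hezs, hc0]; ring
      rw [this]
  have hbij : Function.Bijective F := by
    apply hsurj.bijective_of_nat_card_le
    rw [Nat.card_fun, Nat.card_prod]
    have h1 := card_le hn hx2
    have h2 : Nat.card (Fin 3) = 3 := by simp
    rw [h2]
    calc Nat.card (𝓞 K ⧸ idealC K) ^ 3
        = (Nat.card (𝓞 K ⧸ idealC K) * Nat.card (𝓞 K ⧸ idealC K)) * Nat.card (𝓞 K ⧸ idealC K) := by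
          ring
      _ ≤ _ := Nat.mul_le_mul_right _ h1
  let V : Fin 3 → 𝓞 K := fun i => ⟨v i, hv i⟩
  have hV : hat V = v := rfl
  have hFV : F (fun i => Ideal.Quotient.mk _ (V i)) = F (fun i => Ideal.Quotient.mk _ ((0 : Fin 3 → 𝓞 K) i)) := by
    rw [hrep, hrep]
    refine Prod.ext ?_ ?_
    · change Ideal.Quotient.mk (ideal2 K) (Qr V) = Ideal.Quotient.mk (ideal2 K) (Qr 0)
      rw [Ideal.Quotient.eq, mem_ideal2, val_sub, hQr, hQr, hV]
      have : hat 0 = 0 := by ext i; simp [hat]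
      rw [this, map_zero, sub_zero]
      exact hv2
    · change Ideal.Quotient.mk (idealC K) (Br V) = Ideal.Quotient.mk (idealC K) (Br 0)
      have : Br V = Br 0 := by
        apply RingOfIntegers.ext
        rw [hBr, hBr, hV, hev]
        have : hat 0 = 0 := by ext i; simp [hat]
        rw [this, map_zero]
      rw [this]
  have h1 := congrFun (hbij.1 hFV) i
  simp only [Pi.zero_apply, map_zero] at h1
  rw [Ideal.Quotient.eq_zero_iff_mem, mem_idealC] at h1
  exact h1

end Pool.Agent.Work.MP_eae946_nt.Full
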