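import Pool.Agent.Work.MP_eae946_nt.Full.B4b

namespace Pool.Agent.Work.MP_eae946_nt.Full

open NumberField

variable {K : Type*} [Field K] [NumberField K] [IsTotallyReal K]
variable {B : (Fin 3 → K) →ₗ[K] (Fin 3 → K) →ₗ[K] K}

section

variable {M : MQ K} (hB : CaseB K) {x2 : K} {n : ℕ} (hn : Odd n)
  (hx2 : x2 ^ 2 = ((2 * n : ℕ) : K))
include hB hn hx2

theorem lemX (hno2 : ¬ ∃ y : K, y ^ 2 = 2) (hno5 : ¬ ∃ y : K, y ^ 2 = 5) {x α : K} {b : ℝ}
    (hb5 : b ≤ 5) (ix : IsIntegral ℤ x) (hα : ∀ σ : K →+* ℝ, σ α + σ (M.sg 2 α) ≤ 2 * b)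
    (hx : ∀ σ : K →+* ℝ, σ x ^ 2 ≤ σ α) : ∃ z : ℤ, x = z := by
  obtain ⟨g0, ge, i0, ie, f0, fe, he, hg, hg'⟩ := dec2 (M := M) hB hn hx2 ix
  have hb := comp_bound (M := M) hB hn hx2 hg hg' hα hx
  have hge : ge = 0 := xe_zero (M := M) hB hn hx2 hno2 fe he (fun σ => by
    have := hb σ
    nlinarith [sq_nonneg (σ g0)])
  obtain ⟨z, hz⟩ := rigid_sq_five M hB i0 ⟨f0, fun h => absurd h hno5⟩ (fun σ => by
    have := hb σ
    nlinarith [sq_nonneg (σ ge)])
  exact ⟨z, by rw [hg, hge, hz, add_zero]⟩

theorem lemC (hno2 : ¬ ∃ y : K, y ^ 2 = 2) (hno5 : ¬ ∃ y : K, y ^ 2 = 5) {c α : K} {b : ℝ}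
    (hb5 : b ≤ 5) (hb4 : 4 < b → ¬ ∃ y : K, y ^ 2 = 10) (ic : IsIntegral ℤ c)
    (ic2 : IsIntegral ℤ (c ^ 2 / 2)) (hα : ∀ σ : K →+* ℝ, σ α + σ (M.sg 2 α) ≤ 2 * b)
    (hc : ∀ σ : K →+* ℝ, σ c ^ 2 ≤ 2 * σ α) : c ^ 2 = 0 ∨ c ^ 2 = 4 := by
  obtain ⟨c0, ce, i0, ie, f0, fe, he, hcc, hcc'⟩ := dec_c (M := M) hB hn hx2 ic ic2
  have hb := comp_bound (M := M) hB hn hx2 (α := 2 * α) (b := 2 * b) hcc hcc' (fun σ => by
      have := hα σ
      rw [map_mul, map_mul, map_mul, map_ofNat, map_ofNat, map_ofNat]
      linarith) (fun σ => by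
      have := hc σ
      rw [map_mul, map_ofNat]; exact this)
  have fq : M.sg 2 (ce ^ 2 / 2) = ce ^ 2 / 2 := by
    rw [map_div₀, map_pow, fe, map_ofNat]; ring
  have qb : ∀ σ : K →+* ℝ, σ (ce ^ 2 / 2) ≤ b := fun σ => by
    have := hb σ
    rw [map_div₀, map_pow, map_ofNat]
    nlinarith [sq_nonneg (σ (2 * c0))]
  have q0 : ∀ σ : K →+* ℝ, 0 ≤ σ (ce ^ 2 / 2) := fun σ => by
    rw [map_div₀, map_pow, map_ofNat]; positivity
  obtain ⟨σ0⟩ := exists_real K
  have hce : ce = 0 := by
    rcases rigid_five M hB he ⟨fq, fun h => absurd h hno5⟩ q0 (fun σ => (qb σ).trans hb5) with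
      ⟨k, hk⟩ | ⟨p, y, hp, hy, hq⟩
    · have k0 : 0 ≤ k := by
        have := q0 σ0
        rw [hk, map_intCast] at this
        exact_mod_cast this
      have kb : (k : ℝ) ≤ b := by
        have := qb σ0
        rw [hk, map_intCast] at this
        exact this
      have k5 : k ≤ 5 := by
        have : (k : ℝ) ≤ 5 := kb.trans hb5
        exact_mod_cast this
      have hk2 : ce ^ 2 = 2 * k := by linear_combination 2 * hk
      interval_cases k
      · have : ce ^ 2 = 0 := by rw [hk2]; norm_num
        exact pow_eq_zero_iff two_ne_zero |>.mp this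
      · exact absurd ⟨ce, by rw [hk2]; norm_num⟩ hno2
      · have h4 : ce ^ 2 = 2 ^ 2 := by rw [hk2]; norm_num
        have h3 : M.sg 2 ce = ce := by
          rcases pm_of_sq h4 with h4 | h4
          · rw [h4, map_ofNat]
          · rw [h4, map_neg, map_ofNat]
        rw [h3] at fe
        have h5 : (2 : K) * ce = 0 := by linear_combination fe
        exact (mul_eq_zero.mp h5).resolve_left two_ne_zero
      · exact (hB.no_root (T := 6) (p := 3) (by decide +kernel) Nat.prime_three (by norm_num)
          (by norm_num) (by norm_num) ce (by rw [hk2]; norm_num)).elim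
      · exact absurd ⟨ce / 2, by rw [div_pow, hk2]; norm_num⟩ hno2
      · push_cast at kb
        exact absurd ⟨ce, by rw [hk2]; norm_num⟩ (hb4 (by linarith))
    · exfalso
      have hpp : p.Prime := by rcases hp with rfl | rfl <;> norm_num
      have h1 : ce ^ 2 = 5 + y := by linear_combination 2 * hq
      have h2 : (M.sg p ce) ^ 2 = 5 - y := by
        have := congrArg (M.sg p) h1
        rw [map_pow, map_add, map_ofNat, M.sg_neg hpp hpp.squarefree dvd_rfl hy] at this
        rw [this]; ring
      have h3 : (ce * M.sg p ce) ^ 2 = 25 - p := by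
        rw [mul_pow, h1, h2, ← hy]; ring
      rcases hp with rfl | rfl
      · exact hB.no_root (T := 3) (p := 3) Nat.prime_three.squarefree Nat.prime_three (by norm_num)
          (by norm_num) (by norm_num) (ce * M.sg 13 ce / 2) (by rw [div_pow, h3]; norm_num)
      · exact hno2 ⟨ce * M.sg 17 ce / 2, by rw [div_pow, h3]; norm_num⟩
  rw [hce, add_zero] at hcc
  rcases t_le_thirteen_five (i0.pow 2) (fun σ => by rw [map_pow]; exact sq_nonneg _)
    (fun σ => by
      have := hb σ
      rw [map_pow]
      rw [map_mul, map_ofNat] at this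
      nlinarith [sq_nonneg (σ ce)]) with h | h | h
  · left; rw [hcc, mul_pow, h]; ring
  · right; rw [hcc, mul_pow, h]; norm_num
  · exact absurd ⟨c0, h⟩ hno2

theorem comp_bound_fix {γ g0 ge : K} (h1 : γ = g0 + ge) (h2 : M.sg 2 γ = g0 - ge) {α : K}
    (hα : M.sg 2 α = α)
    (h : ∀ σ : K →+* ℝ, σ γ ^ 2 ≤ σ α) (σ : K →+* ℝ) : σ g0 ^ 2 + σ ge ^ 2 ≤ σ α := by
  have e1 := h σ
  have e2 := h (σ.comp (M.sg 2 : K →+* K))
  simp only [RingHom.comp_apply, RingHom.coe_coe] at e2
  rw [h2, hα] at e2
  rw [h1] at e1
  rw [map_add] at e1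
  rw [map_sub] at e2
  nlinarith

theorem caseB4 (M : MQ K) (h : Lat K (Fin 3 → K) B (stdL K)) (hno2 : ¬ ∃ y : K, y ^ 2 = 2) :
    False := by
  obtain ⟨D⟩ := exists_MinD M hB
  obtain ⟨s, hs⟩ : ∃ s : K, s ^ 2 = D.m := ⟨D.s, D.hs⟩
  have hs' : (-s) ^ 2 = (D.m : K) := by rw [neg_sq, hs]
  set A : K := ((D.t : K) + s) / 2 with hA
  set A' : K := ((D.t : K) + -s) / 2 with hA'
  have iA : IsIntegral ℤ A := A_int D hs
  have pA : ∀ σ : K →+* ℝ, 0 < σ A := A_pos D hs
  have iA' : IsIntegral ℤ A' := A_int D hs'
  have pA' : ∀ σ : K →+* ℝ, 0 < σ A' := A_pos D hs'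
  have ix2 : IsIntegral ℤ x2 := int_of_sq (by rw [hx2]; exact int_nat _)
  obtain ⟨σ0⟩ := exists_real K
  -- the bad element
  obtain ⟨N0, hN0⟩ := exists_shift x2
  obtain ⟨z0, hz0, hz0Q⟩ := h.universal (x2 + 2 * N0) (ix2.add (int_two.mul (int_nat N0))) hN0
  have bad : ¬ InS M (B z0 z0) := by
    rw [hz0Q]; exact not_InS hB hn hx2 (int_nat N0)
  obtain ⟨e, he, he1⟩ := h.universal 1 isIntegral_one (fun σ => by simp)
  have e0 : e ≠ 0 := vec_ne_zero he1 one_ne_zero
  obtain ⟨zA, hzA, hzAQ⟩ := h.universal A iA pA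
  obtain ⟨zA', hzA', hzAQ'⟩ := h.universal A' iA' pA'
  obtain ⟨ixA, huL, heu, huQ, hxle⟩ := split_one h he he1 hzA
  obtain ⟨ixA', huL', heu', huQ', hxle'⟩ := split_one h he he1 hzA'
  set xA := B e zA with hxA
  set u := zA - xA • e with hu
  set xA' := B e zA' with hxA'
  set u' := zA' - xA' • e with hu'
  rw [hzAQ] at huQ hxle
  rw [hzAQ'] at huQ' hxle'
  have jA : IsIntegral ℤ (xA ^ 2 / 2) := A_comp hB hn hx2 M D hs ixA hxle
  have jA' : IsIntegral ℤ (xA' ^ 2 / 2) := A_comp hB hn hx2 M D hs' ixA' hxle'
  have hAA : A + A' = D.t := by rw [hA, hA']; ring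
  obtain ⟨tc, htc⟩ := D.hodd
  have htK : (D.t : K) = 2 * tc + 1 := by rw [htc]; push_cast; ring
  by_cases hone : ∃ e2 ∈ stdL K, B e e2 = 0 ∧ B e2 e2 = 1
  · -- `L' ∋ 1`
    obtain ⟨e2, he2, hee, he21⟩ := hone
    have e20 : e2 ≠ 0 := vec_ne_zero he21 one_ne_zero
    obtain ⟨iyA, hrL, her, hrQ, hyle⟩ := split_one h he2 he21 huL
    obtain ⟨iyA', hrL', her', hrQ', hyle'⟩ := split_one h he2 he21 huL'
    set yA := B e2 u with hyA
    set r := u - yA • e2 with hr
    set yA' := B e2 u' with hyA'
    set r' := u' - yA' • e2 with hr'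
    have kA : IsIntegral ℤ (yA ^ 2 / 2) := A_comp hB hn hx2 M D hs iyA (fun σ => by
      have h1 := hyle σ
      have h2 : B u u = A - xA ^ 2 := by linear_combination -huQ
      rw [h2, map_sub, map_pow] at h1
      nlinarith [sq_nonneg (σ xA)])
    have kA' : IsIntegral ℤ (yA' ^ 2 / 2) := A_comp hB hn hx2 M D hs' iyA' (fun σ => by
      have h1 := hyle' σ
      have h2 : B u' u' = A' - xA' ^ 2 := by linear_combination -huQ'
      rw [h2, map_sub, map_pow] at h1
      nlinarith [sq_nonneg (σ xA')])
    have er : B e r = 0 := by rw [hr, map_sub, map_smul, heu, hee]; simp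
    have er' : B e r' = 0 := by rw [hr', map_sub, map_smul, heu', hee]; simp
    set rs := r + r' with hrs
    have hrsL : rs ∈ stdL K := (stdL K).add_mem hrL hrL'
    have ers : B e rs = 0 := by rw [hrs, map_add, er, er', add_zero]
    have e2rs : B e2 rs = 0 := by rw [hrs, map_add, her, her', add_zero]
    have hrsQ : IsIntegral ℤ ((B rs rs - 1) / 2) := by
      have : (B rs rs - 1) / 2 = tc - xA ^ 2 / 2 - xA' ^ 2 / 2 - yA ^ 2 / 2 - yA' ^ 2 / 2
          + B r r' := by
        have h1 : B rs rs = B r r + B r' r' + 2 * B r r' := by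
          rw [hrs]; simp only [map_add, LinearMap.add_apply]; rw [h.symm r' r]; ring
        rw [h1]
        linear_combination (-1 / 2 : K) * (hrQ + hrQ' + huQ + huQ') + hAA / 2 + htK / 2
      rw [this]
      exact (((((int_nat tc).sub jA).sub jA').sub kA).sub kA').add (h.integral _ hrL _ hrL')
    -- the vector `z0`
    obtain ⟨ix, hzL, hez, hzz, -⟩ := split_one h he he1 hz0
    set x := B e z0 with hx
    set z' := z0 - x • e with hz'
    obtain ⟨iy, hzL2, hez2, hzz2, -⟩ := split_one h he2 he21 hzL
    set y := B e2 z' with hy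
    set r0 := z' - y • e2 with hr0
    have er0 : B e r0 = 0 := by rw [hr0, map_sub, map_smul, hez, hee]; simp
    have hpar := par h e0 e20 hee er0 hez2 ers e2rs
    have i1 : IsIntegral ℤ (B r0 r0) := h.integral _ hzL2 _ hzL2
    have i2 : IsIntegral ℤ (B r0 rs) := h.integral _ hzL2 _ hrsL
    have hS : InS M (B r0 r0) := by
      apply InS.of_cong (InS.sq hB hn hx2 i2)
      have : (B r0 r0 - B r0 rs ^ 2) / 2 = -(B r0 r0) * ((B rs rs - 1) / 2) := by
        linear_combination hpar / 2
      rw [this]
      exact i1.neg.mul hrsQ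
    apply bad
    have : B z0 z0 = x ^ 2 + (y ^ 2 + B r0 r0) := by rw [hzz, hzz2]
    rw [this]
    exact (InS.sq hB hn hx2 ix).add ((InS.sq hB hn hx2 iy).add hS)
  · push Not at hone
    -- the vector `v`
    obtain ⟨v, hv, hev, hv2⟩ : ∃ v ∈ stdL K, B e v = 0 ∧ B v v = 2 := by
      obtain ⟨z, hz, hz2⟩ := h.universal 2 int_two (fun σ => by rw [map_ofNat]; norm_num)
      obtain ⟨ix, hzL, hez, hzz, hxle⟩ := split_one h he he1 hz
      rcases t_le_two (ix.pow 2) (fun σ => by rw [map_pow]; exact sq_nonneg _) (fun σ => by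
        have := hxle σ
        rw [hz2, map_ofNat] at this
        rw [map_pow]; exact this) with h1 | h1 | h1
      · exact ⟨_, hzL, hez, by linear_combination hz2 - hzz - h1⟩
      · exact absurd (by linear_combination hz2 - hzz - h1) (hone _ hzL hez)
      · exact absurd ⟨_, h1⟩ hno2
    have v0 : v ≠ 0 := vec_ne_zero hv2 two_ne_zero
    set zs := u + u' with hzs
    have hzsL : zs ∈ stdL K := (stdL K).add_mem huL huL'
    have ezs : B e zs = 0 := by rw [hzs, map_add, heu, heu', add_zero]
    have hzsQ : IsIntegral ℤ ((B zs zs - 1) / 2) := by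
      have : (B zs zs - 1) / 2 = tc - xA ^ 2 / 2 - xA' ^ 2 / 2 + B u u' := by
        have h1 : B zs zs = B u u + B u' u' + 2 * B u u' := by
          rw [hzs]; simp only [map_add, LinearMap.add_apply]; rw [h.symm u' u]; ring
        rw [h1]
        linear_combination (-1 / 2 : K) * (huQ + huQ') + hAA / 2 + htK / 2
      rw [this]
      exact (((int_nat tc).sub jA).sub jA').add (h.integral _ huL _ huL')
    have hvc : ∀ i, IsIntegral ℤ ((v i) ^ 2 / 2) := fun i =>
      coords_mem h hn hx2 he he1 hzsL ezs hzsQ hv hev (by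
        rw [hv2]
        have : (2 : K) / 2 = 1 := by norm_num
        rw [this]; exact isIntegral_one) i
    obtain ⟨-, hvB⟩ := small_vec h hv hvc
    -- the decomposition
    have hdec : ∀ z ∈ stdL K, IsIntegral ℤ (B e z) ∧ IsIntegral ℤ (B v z) ∧
        IsIntegral ℤ ((B v z) ^ 2 / 2) ∧
        ∃ r ∈ stdL K, B e r = 0 ∧ B v r = 0 ∧ B z z = B e z ^ 2 + (B v z) ^ 2 / 2 + B r r ∧
        (∀ σ : K →+* ℝ, σ (B e z) ^ 2 ≤ σ (B z z)) ∧
        (∀ σ : K →+* ℝ, σ (B v z) ^ 2 ≤ 2 * σ (B z z)) := by
      intro z hz
      have ix : IsIntegral ℤ (B e z) := h.integral _ he _ hz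
      have ic : IsIntegral ℤ (B v z) := h.integral _ hv _ hz
      have ic2 := hvB z hz
      set x := B e z with hx
      set c := B v z with hc
      have hcv : (c / 2) • v ∈ stdL K := by
        intro i
        apply int_of_sq
        have : (((c / 2) • v) i) ^ 2 = (c ^ 2 / 2) * ((v i) ^ 2 / 2) := by
          rw [Pi.smul_apply, smul_eq_mul]; ring
        rw [this]
        exact ic2.mul (hvc i)
      refine ⟨ix, ic, ic2, z - x • e - (c / 2) • v,
        (stdL K).sub_mem ((stdL K).sub_mem hz (stdL_smul ix he)) hcv, ?_, ?_, ?_, ?_, ?_⟩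
      · rw [map_sub, map_sub, map_smul, map_smul, he1, hev, ← hx, smul_eq_mul, smul_eq_mul]; ring
      · rw [map_sub, map_sub, map_smul, map_smul, h.symm v e, hev, hv2, ← hc, smul_eq_mul,
          smul_eq_mul]; ring
      · simp only [map_sub, map_smul, LinearMap.sub_apply, LinearMap.smul_apply, smul_eq_mul]
        rw [h.symm z e, h.symm z v, ← hx, ← hc, he1, hev, h.symm v e, hev, hv2]; ring
      · intro σ
        have := h.cs e z σ
        rw [he1, one_mul] at this
        exact this
      · intro σ
        have := h.cs v z σ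
        rw [hv2, map_mul, map_ofNat] at this
        exact this
    -- the final argument
    have fin : ∀ r1 ∈ stdL K, B e r1 = 0 → B v r1 = 0 →
        (∀ q g : K, IsIntegral ℤ q → IsIntegral ℤ g → q * B r1 r1 = g ^ 2 → InS M q) → False := by
      intro r1 hr1 her1 hvr1 hprop
      obtain ⟨ix, ic, ic2, r, hr, her, hvr, hQ, -, -⟩ := hdec z0 hz0
      apply bad
      rw [hQ]
      have hpar := par h e0 v0 hev her hvr her1 hvr1
      exact ((InS.sq hB hn hx2 ix).add (InS.half_sq hB hn hx2 ic ic2)).add
        (hprop _ _ (h.integral _ hr _ hr) (h.integral _ hr _ hr1) hpar)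
    by_cases h5 : ∃ y : K, y ^ 2 = 5
    · -- `√5 ∈ K`
      obtain ⟨y, hy⟩ := h5
      have hsy : M.sg 5 y = -y := M.sg_neg Nat.prime_five Nat.prime_five.squarefree dvd_rfl
        (by rw [hy]; norm_num)
      have hsy2 : M.sg 2 y = y := M.sg_fix Nat.prime_two (by norm_num : (5 : ℕ) ≠ 0) (by norm_num)
        (by rw [hy]; norm_num)
      set p : K := (1 + y) / 2 with hp
      have hpp : p ^ 2 = p + 1 := by rw [hp]; linear_combination hy / 4
      have hsp : M.sg 5 p = 1 - p := by
        rw [hp, map_div₀, map_add, map_one, hsy, map_ofNat]; ring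
      have hsp2 : M.sg 2 p = p := by
        rw [hp, map_div₀, map_add, map_one, hsy2, map_ofNat]
      clear_value p
      have y0 : y ≠ 0 := by rintro rfl; norm_num at hy
      have ip : IsIntegral ℤ p := golden_int hpp
      have σp2 : ∀ σ : K →+* ℝ, σ p ^ 2 = σ p + 1 := golden_real hpp
      have pη : ∀ σ : K →+* ℝ, 0 < σ (2 + p) := by
        intro σ
        rw [map_add, map_ofNat]
        have := σp2 σ
        nlinarith
      -- `k ^ 2 * 5` norm argument
      have normy : ∀ (g k : K), M.sg 5 k = k → k ≠ 0 → (g * M.sg 5 g) ^ 2 = (k * y) ^ 2 → False := by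
        intro g k hk hk0 hgk
        have h4 : M.sg 5 (g * M.sg 5 g) = g * M.sg 5 g := by rw [map_mul, M.invol]; ring
        have h5 : M.sg 5 (k * y) = -(k * y) := by rw [map_mul, hsy, hk]; ring
        have h6 : M.sg 5 (k * y) = k * y := by
          rcases pm_of_sq hgk with h7 | h7
          · rw [← h7, h4]
          · have : k * y = -(g * M.sg 5 g) := by rw [h7]; ring
            rw [this, map_neg, h4]
        rw [h6] at h5
        have h8 : (2 : K) * (k * y) = 0 := by linear_combination h5
        exact (mul_ne_zero hk0 y0) ((mul_eq_zero.mp h8).resolve_left two_ne_zero)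
      have hη5 : ∀ g : K, g ^ 2 = 2 + p → False := by
        intro g hg
        refine normy g 1 (map_one _) one_ne_zero ?_
        have h2 : (M.sg 5 g) ^ 2 = 3 - p := by
          have := congrArg (M.sg 5) hg
          rw [map_pow, map_add, map_ofNat, hsp] at this
          rw [this]; ring
        rw [mul_pow, hg, h2, one_mul, hy]; linear_combination -hpp
      have h2η5 : ∀ g : K, g ^ 2 = 2 * (2 + p) → False := by
        intro g hg
        refine normy g 2 (map_ofNat _ _) two_ne_zero ?_
        have h2 : (M.sg 5 g) ^ 2 = 2 * (3 - p) := by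
          have := congrArg (M.sg 5) hg
          rw [map_pow, map_mul, map_add, map_ofNat, hsp] at this
          rw [this]; ring
        rw [mul_pow, hg, h2, mul_pow, hy]; linear_combination -4 * hpp
      obtain ⟨z, hz, hzη⟩ := h.universal (2 + p) (int_two.add ip) pη
      obtain ⟨ix, ic, ic2, r1, hr1, her1, hvr1, hQ, hxb, hcb⟩ := hdec z hz
      rw [hzη] at hQ hxb hcb
      have hsη : M.sg 2 (2 + p) = 2 + p := by rw [map_add, map_ofNat, hsp2]
      -- non-integrality
      have ni1 : ¬ IsIntegral ℤ ((1 : K) / 2) := by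
        intro hi
        obtain ⟨w, hw⟩ := int_of_rat_integral (x := (1 : K) / 2) (q := 1 / 2) (by norm_num) hi
        have : (1 : ℤ) = 2 * w := by
          have : (1 : ℚ) = 2 * w := by rw [← hw]; norm_num
          exact_mod_cast this
        omega
      have nip : ¬ IsIntegral ℤ (p ^ 2 / 2) := by
        intro hi
        apply ni1
        have : (1 : K) / 2 = (p - 1) ^ 2 * (p ^ 2 / 2) := by
          linear_combination (-1 / 2 : K) * (p * (p - 1) + 1) * hpp
        rw [this]
        exact ((ip.sub isIntegral_one).pow 2).mul hi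
      have niη : ¬ IsIntegral ℤ ((2 + p) / 2) := by
        intro hi
        apply ni1
        have : (1 : K) / 2 = (3 - p) * ((2 + p) / 2) - 2 := by
          linear_combination (1 / 2 : K) * hpp
        rw [this]
        exact (((int_ofNat 3).sub ip).mul hi).sub int_two
      -- classification of elements with `t / 2` integral below `2 + p`
      have tz : ∀ t : K, IsIntegral ℤ t → IsIntegral ℤ (t / 2) → (∀ σ : K →+* ℝ, 0 ≤ σ t) →
          (∀ σ : K →+* ℝ, σ t ≤ σ (2 + p)) → t = 0 := by
        intro t it it2 h0 h1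
        rcases t_le_eta hpp it h0 h1 with h | h | h | h
        · exact h
        · rw [h] at it2; exact absurd it2 ni1
        · rw [h] at it2; exact absurd it2 nip
        · rw [h] at it2; exact absurd it2 niη
      have hx : B e z ^ 2 = 0 ∨ B e z ^ 2 = 1 ∨ B e z ^ 2 = p ^ 2 := by
        set x := B e z with hx
        obtain ⟨g0, ge, i0, ie, f0, fe, hge, hg, hg'⟩ := dec2 (M := M) hB hn hx2 ix
        have hb := comp_bound_fix (M := M) hB hn hx2 hg hg' hsη hxb
        have hge0 : ge = 0 := by
          have := tz (ge ^ 2) (ie.pow 2) hge (fun σ => by rw [map_pow]; exact sq_nonneg _)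
            (fun σ => by
              have := hb σ
              rw [map_pow]
              nlinarith [sq_nonneg (σ g0)])
          exact pow_eq_zero_iff two_ne_zero |>.mp this
        rw [hge0, add_zero] at hg
        rw [hg]
        rcases golden_class hpp i0 (fun σ => by
          have := hb σ
          nlinarith [sq_nonneg (σ ge)]) with h | h | h | h
        · exact Or.inl h
        · exact Or.inr (Or.inl h)
        · exact Or.inr (Or.inr h)
        · exact (hη5 _ h).elim
      have hc : B v z = 0 := by
        set c := B v z with hc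
        obtain ⟨c0, ce, i0, ie, f0, fe, he, hcc, hcc'⟩ := dec_c (M := M) hB hn hx2 ic ic2
        have hb := comp_bound_fix (M := M) hB hn hx2 hcc hcc' (α := 2 * (2 + p))
          (by rw [map_mul, hsη, map_ofNat]) (fun σ => by
            rw [map_mul, map_ofNat]; exact hcb σ)
        have hc0 : c0 = 0 := by
          have := tz (2 * c0 ^ 2) (int_two.mul (i0.pow 2)) (by
            have : 2 * c0 ^ 2 / 2 = c0 ^ 2 := by ring
            rw [this]; exact i0.pow 2) (fun σ => by
              rw [map_mul, map_pow, map_ofNat]; positivity)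
            (fun σ => by
              have := hb σ
              rw [map_mul, map_mul, map_ofNat] at this
              rw [map_mul, map_pow, map_ofNat]
              nlinarith [sq_nonneg (σ ce)])
          have h2 := (mul_eq_zero.mp this).resolve_left two_ne_zero
          exact pow_eq_zero_iff two_ne_zero |>.mp h2
        have hce : ce = 0 := by
          rcases t_le_eta hpp he (fun σ => by
            rw [map_div₀, map_pow, map_ofNat]; positivity) (fun σ => by
              have := hb σ
              rw [map_mul σ 2 (2 + p), map_ofNat] at this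
              rw [map_div₀, map_pow, map_ofNat]
              nlinarith [sq_nonneg (σ (2 * c0))]) with h | h | h | h
          · have : ce ^ 2 = 0 := by linear_combination 2 * h
            exact pow_eq_zero_iff two_ne_zero |>.mp this
          · exact absurd ⟨ce, by linear_combination 2 * h⟩ hno2
          · refine absurd ⟨ce * (p - 1), ?_⟩ hno2
            have h3 : (p - 1) ^ 2 * p ^ 2 = 1 := by
              linear_combination (p * (p - 1) + 1) * hpp
            linear_combination 2 * (p - 1) ^ 2 * h + 2 * h3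
          · exact (h2η5 ce (by linear_combination 2 * h)).elim
        rw [hcc, hc0, hce]; ring
      rw [hc] at hQ
      rcases hx with hx | hx | hx
      · refine fin r1 hr1 her1 hvr1 ?_
        intro q g iq ig hqg
        have h1 : B r1 r1 = 2 + p := by linear_combination -hQ - hx
        rw [h1] at hqg
        have h3p : InS M (3 - p) := InS.of_fix ((int_ofNat 3).sub ip) (by
          rw [map_sub, map_ofNat, hsp2])
        apply InS.of_cong (h3p.mul (InS.sq hB hn hx2 ig))
        have : (q - (3 - p) * g ^ 2) / 2 = -(2 * q) := by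
          linear_combination ((3 - p) / 2) * hqg + (q / 2) * hpp
        rw [this]
        exact (int_two.mul iq).neg
      · refine fin r1 hr1 her1 hvr1 ?_
        intro q g iq ig hqg
        have h1 : B r1 r1 = p ^ 2 := by linear_combination -hQ - hx - hpp
        rw [h1] at hqg
        have : q = ((p - 1) * g) ^ 2 := by
          have h3 : (p - 1) ^ 2 * p ^ 2 = 1 := by
            linear_combination (p * (p - 1) + 1) * hpp
          linear_combination (p - 1) ^ 2 * hqg - q * h3
        rw [this]
        exact InS.sq hB hn hx2 ((ip.sub isIntegral_one).mul ig)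
      · refine fin r1 hr1 her1 hvr1 ?_
        intro q g iq ig hqg
        have h1 : B r1 r1 = 1 := by linear_combination -hQ - hx - hpp
        rw [h1, mul_one] at hqg
        rw [hqg]
        exact InS.sq hB hn hx2 ig
    · by_cases h10 : ∃ y : K, y ^ 2 = 10
      · -- `√10 ∈ K`
        have key : ∀ y : K, y ^ 2 = 10 → ∃ r ∈ stdL K, B e r = 0 ∧ B v r = 0 ∧
            B r r = 4 + y := by
          intro y hy
          have hsy : M.sg 2 y = -y := M.sg_neg (T := 10) Nat.prime_two (by decide +kernel)
            (by norm_num) (by rw [hy]; norm_num)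
          have iy : IsIntegral ℤ y := int_of_sq (by rw [hy]; exact int_ofNat 10)
          have σy : ∀ σ : K →+* ℝ, σ y ^ 2 = 10 := fun σ => by rw [← map_pow, hy, map_ofNat]
          obtain ⟨σn, hσn⟩ : ∃ σ : K →+* ℝ, σ y < 0 := by
            rcases le_or_gt 0 (σ0 y) with h | h
            · refine ⟨σ0.comp (M.sg 2 : K →+* K), ?_⟩
              simp only [RingHom.comp_apply, RingHom.coe_coe]
              rw [hsy, map_neg]
              have := σy σ0
              nlinarith
            · exact ⟨σ0, h⟩
          have hσn' : σn y < -3.1 := by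
            have := σy σn
            nlinarith
          obtain ⟨z, hz, hzQ⟩ := h.universal (4 + y) ((int_ofNat 4).add iy) (fun σ => by
            rw [map_add, map_ofNat]
            have := σy σ
            nlinarith)
          obtain ⟨ix, ic, ic2, r1, hr1, her1, hvr1, hQ, hxb, hcb⟩ := hdec z hz
          rw [hzQ] at hQ hxb hcb
          have hα : ∀ σ : K →+* ℝ, σ (4 + y) + σ (M.sg 2 (4 + y)) ≤ 2 * 4 := fun σ => by
            simp only [map_add, hsy, map_neg, map_ofNat]; linarith
          obtain ⟨k, hk⟩ := lemX (M := M) hB hn hx2 hno2 h5 (b := 4) (by norm_num) ix hα hxb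
          have hk0 : k = 0 := by
            have h1 := hxb σn
            rw [hk, map_intCast, map_add, map_ofNat] at h1
            have h2 : (k : ℝ) ^ 2 < 1 := by linarith
            have h3 : k ^ 2 < 1 := by exact_mod_cast h2
            nlinarith [sq_nonneg k]
          have hc := lemC (M := M) hB hn hx2 hno2 h5 (b := 4) (by norm_num)
            (fun h => absurd h (lt_irrefl _)) ic ic2 hα hcb
          have hc0 : B v z ^ 2 = 0 := by
            rcases hc with h1 | h1
            · exact h1
            · exfalso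
              have h2 := hcb σn
              rw [← map_pow, h1] at h2
              simp only [map_add, map_ofNat] at h2
              linarith
          refine ⟨r1, hr1, her1, hvr1, ?_⟩
          rw [hk, hk0, hc0] at hQ
          push_cast at hQ
          linear_combination -hQ
        obtain ⟨y, hy⟩ := h10
        obtain ⟨r1, hr1, her1, hvr1, hQ1⟩ := key y hy
        obtain ⟨r2, hr2, her2, hvr2, hQ2⟩ := key (-y) (by rw [neg_sq, hy])
        have hpar := par h e0 v0 hev her1 hvr1 her2 hvr2
        rw [hQ1, hQ2] at hpar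
        exact hB.no_root (T := 6) (p := 3) (by decide +kernel) Nat.prime_three (by norm_num)
          (by norm_num) (by norm_num) (B r1 r2) (by
            rw [← hpar]; push_cast; linear_combination -hy)
      · -- the generic case
        obtain ⟨z, hz, hzQ⟩ := h.universal 5 (int_ofNat 5) (fun σ => by rw [map_ofNat]; norm_num)
        obtain ⟨ix, ic, ic2, r1, hr1, her1, hvr1, hQ, hxb, hcb⟩ := hdec z hz
        rw [hzQ] at hQ hxb hcb
        have hα : ∀ σ : K →+* ℝ, σ 5 + σ (M.sg 2 5) ≤ 2 * 5 := fun σ => by
          simp only [map_ofNat]; norm_num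
        obtain ⟨k, hk⟩ := lemX (M := M) hB hn hx2 hno2 h5 (b := 5) (by norm_num) ix hα hxb
        have hc := lemC (M := M) hB hn hx2 hno2 h5 (b := 5) (by norm_num)
            (fun _ => h10) ic ic2 hα hcb
        have hk2 : k ^ 2 ≤ 5 := by
          have h1 := hxb σ0
          rw [hk, map_intCast, map_ofNat] at h1
          exact_mod_cast h1
        have hkk : k ≤ 2 ∧ -2 ≤ k := by constructor <;> nlinarith
        have hkc : k ^ 2 = 0 ∨ k ^ 2 = 1 ∨ k ^ 2 = 4 := by
          obtain ⟨h1, h2⟩ := hkk
          interval_cases k <;> simp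
        have hkK : ∀ j : ℤ, k ^ 2 = j → (B e z) ^ 2 = j := fun j hj => by
          rw [hk]; exact_mod_cast congrArg (Int.cast : ℤ → K) hj
        have odd_case : ∀ j : ℤ, B r1 r1 = 2 * j + 1 → False := by
          intro j hj
          refine fin r1 hr1 her1 hvr1 ?_
          intro q g iq ig hqg
          rw [hj] at hqg
          apply InS.of_cong (InS.sq hB hn hx2 ig)
          have : (q - g ^ 2) / 2 = -(j * q) := by linear_combination hqg / 2
          rw [this]
          exact ((int_int j).mul iq).neg
        have four_case : B r1 r1 = 4 → False := by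
          intro hj
          refine fin r1 hr1 her1 hvr1 ?_
          intro q g iq ig hqg
          rw [hj] at hqg
          have h1 : (g / 2) ^ 2 = q := by linear_combination -hqg / 4
          rw [← h1]
          exact InS.sq hB hn hx2 (int_of_sq (by rw [h1]; exact iq))
        have two_case : B r1 r1 = 2 → False := by
          intro hj
          refine fin r1 hr1 her1 hvr1 ?_
          intro q g iq ig hqg
          rw [hj] at hqg
          have h1 : g ^ 2 / 2 = q := by linear_combination -hqg / 2
          rw [← h1]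
          exact InS.half_sq hB hn hx2 ig (by rw [h1]; exact iq)
        rcases hkc with h1 | h1 | h1 <;> rcases hc with h2 | h2 <;>
          rw [hkK _ h1, h2] at hQ <;> push_cast at hQ
        · exact odd_case 2 (by push_cast; linear_combination -hQ)
        · exact odd_case 1 (by push_cast; linear_combination -hQ)
        · exact four_case (by linear_combination -hQ)
        · exact two_case (by linear_combination -hQ)
        · exact odd_case 0 (by push_cast; linear_combination -hQ)
        · have h3 : B r1 r1 = -1 := by linear_combination -hQ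
          have h4 := h.nonneg r1 σ0
          rw [h3, map_neg, map_one] at h4
          norm_num at h4

end

end Pool.Agent.Work.MP_eae946_nt.Full
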