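import Pool.Agent.Work.MP_eae946_nt.Full.UnitsA
import Pool.Agent.Work.MP_eae946_nt.Full.B4b

namespace Pool.Agent.Work.MP_eae946_nt.Full

open NumberField NumberField.Units

variable {K : Type*} [Field K] [NumberField K]
variable {B : (Fin 3 → K) →ₗ[K] (Fin 3 → K) →ₗ[K] K}

/-- totally positive -/
def TP (x : K) : Prop := ∀ σ : K →+* ℝ, 0 < σ x

theorem TP.add {x y : K} (hx : TP x) (hy : TP y) : TP (x + y) := fun σ => by
  rw [map_add]; exact add_pos (hx σ) (hy σ)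

theorem TP.mul {x y : K} (hx : TP x) (hy : TP y) : TP (x * y) := fun σ => by
  rw [map_mul]; exact mul_pos (hx σ) (hy σ)

theorem TP.sq {x : K} (hx : x ≠ 0) : TP (x ^ 2) := fun σ => by
  rw [map_pow]
  have : σ x ≠ 0 := fun h => hx ((map_eq_zero σ).mp h)
  positivity

theorem TP.aut {x : K} (hx : TP x) (ρ : K ≃ₐ[ℚ] K) : TP (ρ x) := fun σ =>
  hx (σ.comp (ρ : K →+* K))

/-- indecomposable totally positive integer -/
def Indec (β : K) : Prop := ∀ a b : K, IsIntegral ℤ a → IsIntegral ℤ b → TP a → TP b → β ≠ a + b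

theorem Indec.mul {β ε η : K} (h : Indec β) (iη : IsIntegral ℤ η) (pη : TP η) (hεη : ε * η = 1) :
    Indec (ε * β) := by
  intro a b ia ib pa pb hab
  refine h (η * a) (η * b) (iη.mul ia) (iη.mul ib) (pη.mul pa) (pη.mul pb) ?_
  linear_combination η * hab - β * hεη

section

variable [IsTotallyReal K]

theorem TP.ne_zero {x : K} (hx : TP x) : x ≠ 0 := pos_ne_zero' hx
where
  pos_ne_zero' {x : K} (h : ∀ σ : K →+* ℝ, 0 < σ x) : x ≠ 0 := by
    rintro rfl
    obtain ⟨σ⟩ := exists_real K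
    have := h σ
    rw [map_zero] at this
    exact lt_irrefl _ this

theorem one_le_Nm (M : MQ K) {a : K} (ia : IsIntegral ℤ a) (pa : TP a) (σ0 : K →+* ℝ) :
    1 ≤ σ0 (Nm a) := by
  obtain ⟨n, hn⟩ := Nm_intval M ia
  have h1 : 0 < σ0 (Nm a) := by
    unfold Nm
    rw [map_prod]
    exact Finset.prod_pos fun ρ _ => pa.aut ρ σ0
  rw [hn, map_intCast] at h1 ⊢
  have : 0 < n := by exact_mod_cast h1
  have : 1 ≤ n := this
  exact_mod_cast this

/-- elements of small norm are indecomposable -/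
theorem indec_of_norm (M : MQ K) (σ0 : K →+* ℝ) {β : K}
    (hN : σ0 (Nm β) ^ 2 < 4 ^ Fintype.card (K ≃ₐ[ℚ] K)) : Indec β := by
  intro a b ia ib pa pb hab
  have h1 : (4 : ℝ) ^ Fintype.card (K ≃ₐ[ℚ] K) * (σ0 (Nm a) * σ0 (Nm b)) ≤ σ0 (Nm β) ^ 2 := by
    unfold Nm
    rw [map_prod, map_prod, map_prod, ← Finset.prod_mul_distrib, ← Finset.prod_pow,
      ← Finset.card_univ, ← Finset.prod_const, ← Finset.prod_mul_distrib]
    apply Finset.prod_le_prod
    · intro ρ _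
      have := pa.aut ρ σ0
      have := pb.aut ρ σ0
      positivity
    · intro ρ _
      rw [hab, map_add, map_add]
      nlinarith [sq_nonneg (σ0 (ρ a) - σ0 (ρ b))]
  have h2 := one_le_Nm M ia pa σ0
  have h3 := one_le_Nm M ib pb σ0
  have h4 : (0 : ℝ) < 4 ^ Fintype.card (K ≃ₐ[ℚ] K) := by positivity
  have h5 : 1 ≤ σ0 (Nm a) * σ0 (Nm b) := one_le_mul_of_one_le_of_one_le h2 h3
  nlinarith

end

theorem Nm_aut (M : MQ K) (x : K) (ρ : K ≃ₐ[ℚ] K) : Nm (ρ x) = Nm x := by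
  have : Nm (ρ x) = ρ (Nm x) := by
    unfold Nm
    rw [map_prod]
    exact Finset.prod_congr rfl fun ρ' _ => M.comm _ _ _
  rw [this, Nm_fix]

/-- `Nm β ^ 2 = n ^ d` if `β * ρ β = n`. -/
theorem Nm_of_mul (M : MQ K) {β : K} {ρ : K ≃ₐ[ℚ] K} {n : ℕ} (h : β * ρ β = n) :
    Nm β ^ 2 = (n : K) ^ Fintype.card (K ≃ₐ[ℚ] K) := by
  rw [← Nm_natCast, ← h, Nm_mul, Nm_aut M]; ring

theorem half_not : ¬ IsIntegral ℤ ((1 : K) / 2) := by
  intro hi
  obtain ⟨w, hw⟩ := int_of_rat_integral (x := (1 : K) / 2) (q := 1 / 2) (by norm_num) hi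
  have : (1 : ℤ) = 2 * w := by
    have : (1 : ℚ) = 2 * w := by rw [← hw]; norm_num
    exact_mod_cast this
  omega

/-- the data of case A -/
structure DatA (M : MQ K) (B : (Fin 3 → K) →ₗ[K] (Fin 3 → K) →ₗ[K] K) where
  ε : K
  η : K
  iε : IsIntegral ℤ ε
  iη : IsIntegral ℤ η
  hεη : ε * η = 1
  pε : TP ε
  hns : ∀ c : K, c ^ 2 ≠ ε
  e : Fin 3 → K
  w : Fin 3 → K
  he : e ∈ stdL K
  hw : w ∈ stdL K
  hee : B e e = 1
  hww : B w w = ε
  hew : B e w = 0

variable [IsTotallyReal K]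

theorem exists_DatA (M : MQ K) (hPN : PN K) (h : Lat K (Fin 3 → K) B (stdL K)) :
    ∃ D : DatA M B, ∃ u : (𝓞 K)ˣ, D.ε = ((u : 𝓞 K) : K) := by
  obtain ⟨u, hu, huns⟩ := exists_eps M hPN
  set ε : K := ((u : 𝓞 K) : K) with hε
  set η : K := (((u⁻¹ : (𝓞 K)ˣ) : 𝓞 K) : K) with hη
  have iε : IsIntegral ℤ ε := (u : 𝓞 K).isIntegral_coe
  have iη : IsIntegral ℤ η := (u⁻¹ : (𝓞 K)ˣ).val.isIntegral_coe
  have hεη : ε * η = 1 := unit_mul_inv u
  have hns : ∀ c : K, c ^ 2 ≠ ε := by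
    intro c hc
    have ic : IsIntegral ℤ c := int_of_sq (by rw [hc]; exact iε)
    have h1 : c * (c * η) = 1 := by rw [← hεη, ← hc]; ring
    let w : (𝓞 K)ˣ := ⟨⟨c, ic⟩, ⟨c * η, ic.mul iη⟩, by
      apply RingOfIntegers.ext; exact h1, by
      apply RingOfIntegers.ext
      have : (c * η) * c = 1 := by rw [mul_comm]; exact h1
      exact this⟩
    apply huns w
    apply Units.ext
    apply RingOfIntegers.ext
    exact hc.symm
  have PPε : PP ε := by
    intro γ iγ hγ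
    have iy : IsIntegral ℤ (γ ^ 2 * η) := (iγ.pow 2).mul iη
    have h1 : ∀ σ : K →+* ℝ, 0 ≤ σ (γ ^ 2 * η) ∧ σ (γ ^ 2 * η) ≤ 1 := by
      intro σ
      have e1 := hγ σ
      have e2 : σ ε * σ η = 1 := by rw [← map_mul, hεη, map_one]
      have e3 := hu σ
      have e4 : 0 < σ η := by
        by_contra h
        push Not at h
        nlinarith [mul_nonneg e3.le (neg_nonneg.mpr h)]
      rw [map_mul, map_pow]
      constructor
      · positivity
      · calc σ γ ^ 2 * σ η ≤ σ ε * σ η := mul_le_mul_of_nonneg_right e1 e4.le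
          _ = 1 := e2
    have e0 : η ≠ 0 := by rintro h; rw [h, mul_zero] at hεη; exact zero_ne_one hεη
    rcases kronecker iy (fun σ => by
      rw [map_one]
      nlinarith [(h1 σ).1, (h1 σ).2]) with h | h | h
    · have := (mul_eq_zero.mp h).resolve_right e0
      exact pow_eq_zero_iff two_ne_zero |>.mp this
    · exfalso
      apply hns γ
      linear_combination ε * h - γ ^ 2 * hεη
    · exfalso
      obtain ⟨σ⟩ := exists_real K
      have := (h1 σ).1
      rw [h, map_neg, map_one] at this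
      norm_num at this
  obtain ⟨e, he, he1⟩ := h.universal 1 isIntegral_one (fun σ => by simp)
  obtain ⟨w, hw, hwε⟩ := h.universal ε iε hu
  have hew : B e w = 0 := h.orth he hw (by rw [he1, hwε, one_mul]; exact PPε)
  exact ⟨⟨ε, η, iε, iη, hεη, hu, hns, e, w, he, hw, he1, hwε, hew⟩, u, rfl⟩

namespace DatA

variable {M : MQ K} (D : DatA M B) (h : Lat K (Fin 3 → K) B (stdL K))

theorem pη : TP D.η := by
  intro σ
  have e2 : σ D.ε * σ D.η = 1 := by rw [← map_mul, D.hεη, map_one]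
  have e3 := D.pε σ
  by_contra h
  push Not at h
  nlinarith [mul_nonneg e3.le (neg_nonneg.mpr h)]

theorem e0 : D.e ≠ 0 := vec_ne_zero D.hee one_ne_zero
theorem w0 : D.w ≠ 0 := vec_ne_zero D.hww D.pε.ne_zero

include h

theorem repr {β : K} (iβ : IsIntegral ℤ β) (pβ : TP β) : ∃ (x y : K) (r : Fin 3 → K),
    IsIntegral ℤ x ∧ IsIntegral ℤ y ∧ r ∈ stdL K ∧ B D.e r = 0 ∧ B D.w r = 0 ∧
    β = x ^ 2 + D.ε * y ^ 2 + B r r := by
  obtain ⟨z, hz, hzβ⟩ := h.universal β iβ pβ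
  have ix : IsIntegral ℤ (B D.e z) := h.integral _ D.he _ hz
  have iy : IsIntegral ℤ (B D.w z * D.η) := (h.integral _ D.hw _ hz).mul D.iη
  refine ⟨B D.e z, B D.w z * D.η, z - B D.e z • D.e - (B D.w z * D.η) • D.w, ix, iy,
    (stdL K).sub_mem ((stdL K).sub_mem hz (stdL_smul ix D.he)) (stdL_smul iy D.hw), ?_, ?_, ?_⟩
  · simp only [map_sub, map_smul, smul_eq_mul]
    rw [D.hee, D.hew]; ring
  · simp only [map_sub, map_smul, smul_eq_mul]
    rw [h.symm D.w D.e, D.hew, D.hww]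
    linear_combination -(B D.w z) * D.hεη
  · simp only [map_sub, map_smul, LinearMap.sub_apply, LinearMap.smul_apply, smul_eq_mul]
    rw [h.symm z D.e, h.symm z D.w, D.hee, D.hww, h.symm D.w D.e, D.hew, ← hzβ]
    linear_combination (-2 * (B D.w z) ^ 2 * D.η) * D.hεη

theorem parr {r r' : Fin 3 → K} (h1 : B D.e r = 0) (h2 : B D.w r = 0) (h3 : B D.e r' = 0)
    (h4 : B D.w r' = 0) : B r r * B r' r' = B r r' ^ 2 :=
  par h D.e0 D.w0 D.hew h1 h2 h3 h4

/-- the basic dichotomy for indecomposables -/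
theorem indec_cases {β : K} (iβ : IsIntegral ℤ β) (pβ : TP β) (hβ : Indec β) :
    (∃ x : K, IsIntegral ℤ x ∧ β = x ^ 2) ∨ (∃ x : K, IsIntegral ℤ x ∧ β = D.ε * x ^ 2) ∨
    ∃ r ∈ stdL K, B D.e r = 0 ∧ B D.w r = 0 ∧ β = B r r := by
  obtain ⟨x, y, r, ix, iy, hr, hr1, hr2, hβr⟩ := D.repr h iβ pβ
  have pr : r ≠ 0 → TP (B r r) := fun hr0 σ => h.pos r hr0 σ
  have ir : IsIntegral ℤ (B r r) := h.integral _ hr _ hr
  have iεy : IsIntegral ℤ (D.ε * y ^ 2) := D.iε.mul (iy.pow 2)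
  by_cases hx : x = 0
  · by_cases hy : y = 0
    · right; right
      exact ⟨r, hr, hr1, hr2, by rw [hβr, hx, hy]; ring⟩
    · have py : TP (D.ε * y ^ 2) := D.pε.mul (TP.sq hy)
      by_cases hr0 : r = 0
      · right; left
        exact ⟨y, iy, by rw [hβr, hx, hr0]; simp⟩
      · exact absurd (by rw [hβr, hx]; ring) (hβ _ _ iεy ir py (pr hr0))
  · have px : TP (x ^ 2) := TP.sq hx
    by_cases hy : y = 0
    · by_cases hr0 : r = 0
      · left
        exact ⟨x, ix, by rw [hβr, hy, hr0]; simp⟩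
      · exact absurd (by rw [hβr, hy]; ring) (hβ _ _ (ix.pow 2) ir px (pr hr0))
    · have py : TP (D.ε * y ^ 2) := D.pε.mul (TP.sq hy)
      by_cases hr0 : r = 0
      · exact absurd (by rw [hβr, hr0]; simp) (hβ _ _ (ix.pow 2) iεy px py)
      · exact absurd (by rw [hβr]; ring) (hβ _ _ (ix.pow 2) (iεy.add ir) px (py.add (pr hr0)))

/-- A.2 -/
theorem indec_sq {β : K} (iβ : IsIntegral ℤ β) (pβ : TP β) (hβ : Indec β) :
    (∃ x : K, IsIntegral ℤ x ∧ β = x ^ 2) ∨ (∃ x : K, IsIntegral ℤ x ∧ β = D.ε * x ^ 2) := by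
  rcases D.indec_cases h iβ pβ hβ with h1 | h1 | ⟨r, hr, hr1, hr2, hβr⟩
  · exact Or.inl h1
  · exact Or.inr h1
  rcases D.indec_cases h (D.iε.mul iβ) (D.pε.mul pβ) (hβ.mul D.iη D.pη D.hεη) with
    ⟨x, ix, hx⟩ | ⟨x, ix, hx⟩ | ⟨r', hr', hr1', hr2', hβr'⟩
  · right
    refine ⟨D.η * x, D.iη.mul ix, ?_⟩
    linear_combination D.η * (D.ε * D.η) * hx - (β * D.ε * D.η + β) * D.hεη
  · left
    refine ⟨x, ix, ?_⟩
    linear_combination D.η * hx + (x ^ 2 - β) * D.hεη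
  · exfalso
    have hp := D.parr h hr1 hr2 hr1' hr2'
    rw [← hβr, ← hβr'] at hp
    apply D.hns (B r r' / β)
    rw [div_pow, ← hp]
    have := pβ.ne_zero
    field_simp

/-- A.4 -/
theorem two_cases : (∃ c : K, c ^ 2 = 2) ∨ (∃ c : K, D.ε * c ^ 2 = 2) := by
  by_contra hcon
  push Not at hcon
  obtain ⟨hn1, hn2⟩ := hcon
  have ε0 := D.pε.ne_zero
  have η0 := D.pη.ne_zero
  have hns := D.hns
  -- `α = 2`
  obtain ⟨x, y, r, ix, iy, hr, hr1, hr2, h2⟩ := D.repr h int_two (fun σ => by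
    rw [map_ofNat]; norm_num)
  obtain ⟨x', y', r', ix', iy', hr', hr1', hr2', h2'⟩ := D.repr h (D.iε.mul int_two)
    (D.pε.mul (fun σ => by rw [map_ofNat]; norm_num))
  have ir : IsIntegral ℤ (B r r) := h.integral _ hr _ hr
  have ir' : IsIntegral ℤ (B r' r') := h.integral _ hr' _ hr'
  have bd : ∀ (X Y Z : K), IsIntegral ℤ X → X + Y + Z = 2 → (∀ σ : K →+* ℝ, 0 ≤ σ X) →
      (∀ σ : K →+* ℝ, 0 ≤ σ Y) → (∀ σ : K →+* ℝ, 0 ≤ σ Z) → X = 0 ∨ X = 1 ∨ X = 2 := by
    intro X Y Z iX hs p1 p2 p3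
    apply t_le_two iX p1
    intro σ
    have := congrArg σ hs
    rw [map_add, map_add, map_ofNat] at this
    linarith [p2 σ, p3 σ]
  have n1 : ∀ σ : K →+* ℝ, 0 ≤ σ (x ^ 2) := fun σ => by rw [map_pow]; positivity
  have n2 : ∀ σ : K →+* ℝ, 0 ≤ σ (D.ε * y ^ 2) := fun σ => by
    rw [map_mul, map_pow]; exact mul_nonneg (D.pε σ).le (sq_nonneg _)
  have n3 : ∀ σ : K →+* ℝ, 0 ≤ σ (B r r) := fun σ => h.nonneg r σ
  have n1' : ∀ σ : K →+* ℝ, 0 ≤ σ (D.η * x' ^ 2) := fun σ => by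
    rw [map_mul, map_pow]; exact mul_nonneg (D.pη σ).le (sq_nonneg _)
  have n2' : ∀ σ : K →+* ℝ, 0 ≤ σ (y' ^ 2) := fun σ => by rw [map_pow]; positivity
  have n3' : ∀ σ : K →+* ℝ, 0 ≤ σ (D.η * B r' r') := fun σ => by
    rw [map_mul]; exact mul_nonneg (D.pη σ).le (h.nonneg r' σ)
  have hY : D.ε * y ^ 2 = 0 := by
    rcases bd (D.ε * y ^ 2) (x ^ 2) (B r r) (D.iε.mul (iy.pow 2)) (by linear_combination -h2)
      n2 n1 n3 with h | h | h
    · exact h
    · exfalso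
      have y0 : y ≠ 0 := by rintro rfl; simp at h
      apply hns (1 / y)
      field_simp
      linear_combination -h
    · exact absurd h (hn2 y)
  have hZ : B r r = 1 ∨ B r r = 2 := by
    rcases bd (x ^ 2) (D.ε * y ^ 2) (B r r) (ix.pow 2) (by linear_combination -h2)
      n1 n2 n3 with h | h | h
    · right; linear_combination -h2 - hY - h
    · left; linear_combination -h2 - hY - h
    · exact absurd h (hn1 x)
  have hsum : D.η * x' ^ 2 + y' ^ 2 + D.η * B r' r' = 2 := by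
    linear_combination -D.η * h2' + (2 - y' ^ 2) * D.hεη
  have hX' : D.η * x' ^ 2 = 0 := by
    rcases bd (D.η * x' ^ 2) (y' ^ 2) (D.η * B r' r') (D.iη.mul (ix'.pow 2)) hsum
      n1' n2' n3' with h | h | h
    · exact h
    · exfalso
      apply hns x'
      linear_combination D.ε * h - x' ^ 2 * D.hεη
    · exfalso
      apply hn2 (D.η * x')
      linear_combination D.ε * D.η * h + 2 * D.hεη
  have hZ' : D.η * B r' r' = 1 ∨ D.η * B r' r' = 2 := by
    rcases bd (y' ^ 2) (D.η * x' ^ 2) (D.η * B r' r') (iy'.pow 2) (by linear_combination hsum)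
      n2' n1' n3' with h | h | h
    · right; linear_combination hsum - hX' - h
    · left; linear_combination hsum - hX' - h
    · exact absurd h (hn1 y')
  have hp := D.parr h hr1 hr2 hr1' hr2'
  set c := B r r' with hc
  have hr'' : B r' r' = D.ε * (D.η * B r' r') := by linear_combination -(B r' r') * D.hεη
  rw [hr''] at hp
  rcases hZ with h3 | h3 <;> rcases hZ' with h4 | h4 <;> rw [h3, h4] at hp
  · exact hns c (by linear_combination -hp)
  · apply hn2 (D.η * c)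
    linear_combination (-D.ε * D.η ^ 2) * hp + 2 * (D.ε * D.η + 1) * D.hεη
  · apply hn2 (D.η * c)
    linear_combination (-D.ε * D.η ^ 2) * hp + 2 * (D.ε * D.η + 1) * D.hεη
  · exact hns (c / 2) (by linear_combination -hp / 4)

end DatA

end Pool.Agent.Work.MP_eae946_nt.Full
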