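import Pool.Agent.Work.MP_eae946_nt.Full.CaseA

namespace Pool.Agent.Work.MP_eae946_nt.Full

open NumberField NumberField.Units

variable {K : Type*} [Field K] [NumberField K] [IsTotallyReal K]
variable {B : (Fin 3 → K) →ₗ[K] (Fin 3 → K) →ₗ[K] K}

theorem small_norm (M : MQ K) (σ0 : K →+* ℝ) {β : K} {ρ : K ≃ₐ[ℚ] K} {n : ℕ} (hn : n < 4)
    (h : β * ρ β = n) : Indec β := by
  apply indec_of_norm M σ0
  have h1 := Nm_of_mul M h
  rw [← map_pow, h1, map_pow, map_natCast]
  apply pow_lt_pow_left₀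
  · exact_mod_cast hn
  · positivity
  · exact Fintype.card_ne_zero

/-- an antiinvariant square root contradiction -/
theorem anti_sq (M : MQ K) {ρ : K ≃ₐ[ℚ] K} {g k y : K} (hk : ρ k = k) (hk0 : k ≠ 0)
    (hy : ρ y = -y) (hy0 : y ≠ 0) (h : (g * ρ g) ^ 2 = (k * y) ^ 2) : False := by
  have h4 : ρ (g * ρ g) = g * ρ g := by rw [map_mul, M.invol]; ring
  have h5 : ρ (k * y) = -(k * y) := by rw [map_mul, hy, hk]; ring
  have h6 : ρ (k * y) = k * y := by
    rcases pm_of_sq' h with h7 | h7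
    · rw [← h7, h4]
    · have : k * y = -(g * ρ g) := by rw [h7]; ring
      rw [this, map_neg, h4]
  rw [h6] at h5
  have h8 : (2 : K) * (k * y) = 0 := by linear_combination h5
  exact (mul_ne_zero hk0 hy0) ((mul_eq_zero.mp h8).resolve_left two_ne_zero)
where
  pm_of_sq' {g : K} {x : K} (h : g ^ 2 = x ^ 2) : g = x ∨ g = -x :=
    sq_eq_sq_iff_eq_or_eq_neg.mp h

namespace DatA

variable {M : MQ K} (D : DatA M B) (h : Lat K (Fin 3 → K) B (stdL K))
include D h

/-- A.5 : `√2 ∈ K` is impossible -/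
theorem not_sqrt_two {y : K} (hy : y ^ 2 = 2) : False := by
  obtain ⟨σ0⟩ := exists_real K
  have ε0 := D.pε.ne_zero
  have η0 := D.pη.ne_zero
  have hns := D.hns
  have y0 : y ≠ 0 := by rintro rfl; norm_num at hy
  have iy : IsIntegral ℤ y := int_of_sq (by rw [hy]; exact int_two)
  have hsy : M.sg 2 y = -y := M.sg_neg Nat.prime_two Nat.prime_two.squarefree dvd_rfl
    (by rw [hy]; norm_num)
  have σy : ∀ σ : K →+* ℝ, σ y ^ 2 = 2 := fun σ => by rw [← map_pow, hy, map_ofNat]
  have pl : TP (2 + y) := by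
    intro σ
    rw [map_add, map_ofNat]
    have := σy σ
    nlinarith
  have l0 := pl.ne_zero
  have il : IsIntegral ℤ (2 + y) := int_two.add iy
  have hsl : M.sg 2 (2 + y) = 2 - y := by rw [map_add, hsy, map_ofNat]; ring
  have hll : (2 + y) * (2 - y) = 2 := by linear_combination -hy
  have hind : Indec (2 + y) := small_norm M σ0 (ρ := M.sg 2) (n := 2) (by norm_num) (by
    rw [hsl, hll]; norm_num)
  -- `2 + y = ε x ^ 2`
  obtain ⟨x, ix, hx⟩ : ∃ x : K, IsIntegral ℤ x ∧ 2 + y = D.ε * x ^ 2 := by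
    rcases D.indec_sq h il pl hind with ⟨x, ix, hx⟩ | h1
    · exfalso
      refine anti_sq M (ρ := M.sg 2) (g := x) (k := 1) (map_one _) one_ne_zero hsy y0 ?_
      have h2 : (M.sg 2 x) ^ 2 = 2 - y := by rw [← map_pow, ← hx, hsl]
      rw [mul_pow, ← hx, h2, one_mul, hy, hll]
    · exact h1
  have x0 : x ≠ 0 := by rintro rfl; apply l0; rw [hx]; ring
  -- `α = 3, 3 ε`
  have hthree : (∃ c : K, c ^ 2 = 3) ∨ (∃ c : K, D.ε * c ^ 2 = 3) := by
    by_contra hcon
    push Not at hcon
    obtain ⟨hn1, hn2⟩ := hcon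
    obtain ⟨a, b, r, ia, ib, hr, hr1, hr2, h2⟩ := D.repr h (int_ofNat 3) (fun σ => by
      rw [map_ofNat]; norm_num)
    obtain ⟨a', b', r', ia', ib', hr', hr1', hr2', h2'⟩ := D.repr h (D.iε.mul (int_ofNat 3))
      (D.pε.mul (fun σ => by rw [map_ofNat]; norm_num))
    have ir : IsIntegral ℤ (B r r) := h.integral _ hr _ hr
    have ir' : IsIntegral ℤ (B r' r') := h.integral _ hr' _ hr'
    have bd : ∀ (X Y Z : K), IsIntegral ℤ X → X + Y + Z = 3 → (∀ σ : K →+* ℝ, 0 ≤ σ X) →
        (∀ σ : K →+* ℝ, 0 ≤ σ Y) → (∀ σ : K →+* ℝ, 0 ≤ σ Z) →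
        X = 0 ∨ X = 1 ∨ X = 2 ∨ X = 3 ∨ X ^ 2 - 3 * X + 1 = 0 := by
      intro X Y Z iX hs p1 p2 p3
      apply t_le_three iX p1
      intro σ
      have := congrArg σ hs
      rw [map_add, map_add, map_ofNat] at this
      linarith [p2 σ, p3 σ]
    have n1 : ∀ σ : K →+* ℝ, 0 ≤ σ (a ^ 2) := fun σ => by rw [map_pow]; positivity
    have n2 : ∀ σ : K →+* ℝ, 0 ≤ σ (D.ε * b ^ 2) := fun σ => by
      rw [map_mul, map_pow]; exact mul_nonneg (D.pε σ).le (sq_nonneg _)
    have n3 : ∀ σ : K →+* ℝ, 0 ≤ σ (B r r) := fun σ => h.nonneg r σ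
    have n1' : ∀ σ : K →+* ℝ, 0 ≤ σ (D.η * a' ^ 2) := fun σ => by
      rw [map_mul, map_pow]; exact mul_nonneg (D.pη σ).le (sq_nonneg _)
    have n2' : ∀ σ : K →+* ℝ, 0 ≤ σ (b' ^ 2) := fun σ => by rw [map_pow]; positivity
    have n3' : ∀ σ : K →+* ℝ, 0 ≤ σ (D.η * B r' r') := fun σ => by
      rw [map_mul]; exact mul_nonneg (D.pη σ).le (h.nonneg r' σ)
    -- `ε b ^ 2` nonsquare type: if `ε b ^ 2 = k ^ 2`, `k ≠ 0`, contradiction
    have nosq : ∀ b k : K, D.ε * b ^ 2 = k ^ 2 → k ≠ 0 → False := by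
      intro b k hbk hk
      have b0 : b ≠ 0 := by rintro rfl; apply hk; simpa using hbk.symm
      apply hns (k / b)
      rw [div_pow, ← hbk]; field_simp
    have golden0 : ∀ X : K, X ^ 2 - 3 * X + 1 = 0 → X - 1 ≠ 0 := by
      intro X hX h0
      have : X = 1 := by linear_combination h0
      rw [this] at hX; norm_num at hX
    have hY : D.ε * b ^ 2 = 0 := by
      rcases bd (D.ε * b ^ 2) (a ^ 2) (B r r) (D.iε.mul (ib.pow 2)) (by linear_combination -h2)
        n2 n1 n3 with h | h | h | h | h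
      · exact h
      · exact (nosq b 1 (by rw [h]; ring) one_ne_zero).elim
      · exact (nosq b y (by rw [h, hy]) y0).elim
      · exact absurd h (hn2 b)
      · exact (nosq b (D.ε * b ^ 2 - 1) (by linear_combination -h) (golden0 _ h)).elim
    have hX' : D.η * a' ^ 2 = 0 := by
      have hsum : D.η * a' ^ 2 + b' ^ 2 + D.η * B r' r' = 3 := by
        linear_combination -D.η * h2' + (3 - b' ^ 2) * D.hεη
      rcases bd (D.η * a' ^ 2) (b' ^ 2) (D.η * B r' r') (D.iη.mul (ia'.pow 2)) hsum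
        n1' n2' n3' with h | h | h | h | h
      · exact h
      · exfalso
        apply hns a'
        linear_combination D.ε * h - a' ^ 2 * D.hεη
      · exfalso
        apply hns (a' / y)
        rw [div_pow, hy]
        linear_combination (D.ε * h - a' ^ 2 * D.hεη) / 2
      · exfalso
        apply hn2 (D.η * a')
        linear_combination D.ε * D.η * h + 3 * D.hεη
      · exfalso
        set X := D.η * a' ^ 2 with hX
        have hX1 := golden0 _ h
        apply hns (a' / (X - 1))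
        rw [div_pow]
        rw [div_eq_iff (pow_ne_zero 2 hX1)]
        have : D.ε * X = a' ^ 2 := by rw [hX]; linear_combination a' ^ 2 * D.hεη
        linear_combination -this - D.ε * h
    -- the third components
    have hZ : ∃ k : K, k ≠ 0 ∧ (B r r = 3 ∨ B r r = k ^ 2) := by
      rcases bd (a ^ 2) (D.ε * b ^ 2) (B r r) (ia.pow 2) (by linear_combination -h2)
        n1 n2 n3 with h | h | h | h | h
      · exact ⟨1, one_ne_zero, Or.inl (by linear_combination -h2 - hY - h)⟩
      · exact ⟨y, y0, Or.inr (by linear_combination -h2 - hY - h - hy)⟩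
      · exact ⟨1, one_ne_zero, Or.inr (by linear_combination -h2 - hY - h)⟩
      · exact absurd h (hn1 a)
      · have a0 : a ≠ 0 := by rintro rfl; norm_num at h
        refine ⟨1 / a, one_div_ne_zero a0, Or.inr ?_⟩
        have h3 : B r r = 3 - a ^ 2 := by linear_combination -h2 - hY
        rw [h3]
        field_simp
        linear_combination -h
    have hZ' : ∃ k : K, k ≠ 0 ∧ (D.η * B r' r' = 3 ∨ D.η * B r' r' = k ^ 2) := by
      have hsum : b' ^ 2 + D.η * a' ^ 2 + D.η * B r' r' = 3 := by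
        linear_combination -D.η * h2' + (3 - b' ^ 2) * D.hεη
      rcases bd (b' ^ 2) (D.η * a' ^ 2) (D.η * B r' r') (ib'.pow 2) hsum
        n2' n1' n3' with h | h | h | h | h
      · exact ⟨1, one_ne_zero, Or.inl (by linear_combination hsum - hX' - h)⟩
      · exact ⟨y, y0, Or.inr (by linear_combination hsum - hX' - h - hy)⟩
      · exact ⟨1, one_ne_zero, Or.inr (by linear_combination hsum - hX' - h)⟩
      · exact absurd h (hn1 b')
      · have a0 : b' ≠ 0 := by rintro rfl; norm_num at h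
        refine ⟨1 / b', one_div_ne_zero a0, Or.inr ?_⟩
        have h3 : D.η * B r' r' = 3 - b' ^ 2 := by linear_combination hsum - hX'
        rw [h3]
        field_simp
        linear_combination -h
    have hp := D.parr h hr1 hr2 hr1' hr2'
    set c := B r r' with hc
    have hr'' : B r' r' = D.ε * (D.η * B r' r') := by linear_combination -(B r' r') * D.hεη
    rw [hr''] at hp
    obtain ⟨k, hk, hZ⟩ := hZ
    obtain ⟨k', hk', hZ'⟩ := hZ'
    rcases hZ with h3 | h3 <;> rcases hZ' with h4 | h4 <;> rw [h3, h4] at hp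
    · exact hns (c / 3) (by linear_combination -hp / 9)
    · apply hn2 (D.η * c / k')
      rw [div_pow, mul_pow, ← hp]
      field_simp
      linear_combination (D.ε * D.η + 1) * D.hεη
    · apply hn2 (D.η * c / k)
      rw [div_pow, mul_pow, ← hp]
      field_simp
      linear_combination (D.ε * D.η + 1) * D.hεη
    · apply hns (c / (k * k'))
      rw [div_pow, ← hp]
      field_simp
  rcases hthree with ⟨c, hc⟩ | ⟨c, hc⟩
  · -- `√3 ∈ K`
    have c0 : c ≠ 0 := by rintro rfl; norm_num at hc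
    have hsc : M.sg 3 c = -c := M.sg_neg Nat.prime_three Nat.prime_three.squarefree dvd_rfl
      (by rw [hc]; norm_num)
    have hsy3 : M.sg 3 y = y := M.sg_fix Nat.prime_three (by norm_num : (2 : ℕ) ≠ 0) (by norm_num)
      (by rw [hy]; norm_num)
    have ic : IsIntegral ℤ c := int_of_sq (by rw [hc]; exact int_ofNat 3)
    have h6 : (y * c) ^ 2 = 6 := by rw [mul_pow, hy, hc]; norm_num
    have pβ : TP (3 + y * c) := by
      intro σ
      have : σ (y * c) ^ 2 = 6 := by rw [← map_pow, h6, map_ofNat]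
      rw [map_add, map_ofNat]
      nlinarith
    have iβ : IsIntegral ℤ (3 + y * c) := (int_ofNat 3).add (iy.mul ic)
    have hsβ : M.sg 3 (3 + y * c) = 3 - y * c := by
      rw [map_add, map_mul, hsy3, hsc, map_ofNat]; ring
    have hββ : (3 + y * c) * (3 - y * c) = 3 := by linear_combination -h6
    have hindβ : Indec (3 + y * c) := small_norm M σ0 (ρ := M.sg 3) (n := 3) (by norm_num) (by
      rw [hsβ, hββ]; norm_num)
    rcases D.indec_sq h iβ pβ hindβ with ⟨z, iz, hz⟩ | ⟨z, iz, hz⟩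
    · refine anti_sq M (ρ := M.sg 3) (g := z) (k := 1) (map_one _) one_ne_zero hsc c0 ?_
      have h2 : (M.sg 3 z) ^ 2 = 3 - y * c := by rw [← map_pow, ← hz, hsβ]
      rw [mul_pow, ← hz, h2, one_mul, hc, hββ]
    · -- `β = λ (z / x)^2`
      have hz2 : 3 + y * c = (2 + y) * (z / x) ^ 2 := by
        rw [hz, hx]; field_simp
      set g := z / x with hg
      have hsl3 : M.sg 3 (2 + y) = 2 + y := by rw [map_add, hsy3, map_ofNat]
      have h2 : 3 - y * c = (2 + y) * (M.sg 3 g) ^ 2 := by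
        rw [← hsβ, hz2, map_mul, map_pow, hsl3]
      -- `(λ g ρ g)^2 = 3`
      refine anti_sq M (ρ := M.sg 3) (g := g) (k := 1 / (2 + y)) ?_ (one_div_ne_zero l0) hsc c0 ?_
      · rw [map_div₀, map_one, hsl3]
      · rw [mul_pow, mul_pow, hc]
        field_simp
        linear_combination -(3 - y * c) * hz2 - ((2 + y) * g ^ 2) * h2 + hββ
  · -- `3 λ` is a square
    have hz : 3 * (2 + y) = (D.ε * x * c) ^ 2 := by rw [hx]; linear_combination -D.ε * x ^ 2 * hc
    refine anti_sq M (ρ := M.sg 2) (g := D.ε * x * c) (k := 3) (map_ofNat _ _) (by norm_num)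
      hsy y0 ?_
    have h2 : (M.sg 2 (D.ε * x * c)) ^ 2 = 3 * (2 - y) := by
      rw [← map_pow, ← hz, map_mul, hsl, map_ofNat]
    rw [mul_pow, ← hz, h2, mul_pow, hy]
    linear_combination 9 * hll

end DatA

end Pool.Agent.Work.MP_eae946_nt.Full
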