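import Pool.Agent.Work.MP_eae946_nt.Full.CaseA5
import Pool.Agent.Work.MP_eae946_nt.Full.B4c

namespace Pool.Agent.Work.MP_eae946_nt.Full

open NumberField NumberField.Units

variable {K : Type*} [Field K] [NumberField K]

/-- the trace -/
noncomputable def Tr (y : K) : K := ∑ ρ : K ≃ₐ[ℚ] K, ρ y

theorem Tr_fix (y : K) (ρ : K ≃ₐ[ℚ] K) : ρ (Tr y) = Tr y := by
  unfold Tr
  rw [map_sum]
  exact Fintype.sum_bijective (fun ρ' => ρ * ρ') (Group.mulLeft_bijective ρ) _ _ fun ρ' => rfl

theorem Tr_add (x y : K) : Tr (x + y) = Tr x + Tr y := by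
  unfold Tr
  rw [← Finset.sum_add_distrib]
  exact Finset.sum_congr rfl fun ρ _ => map_add ρ x y

theorem Tr_nat (M : MQ K) (σ0 : K →+* ℝ) {y : K} (hy : IsIntegral ℤ y) (py : TP y) :
    ∃ n : ℕ, 0 < n ∧ Tr y = n := by
  have hi : IsIntegral ℤ (Tr y) := IsIntegral.sum _ fun ρ _ => int_aut hy ρ
  obtain ⟨q, hq⟩ := M.rat (Tr y) (fun p _ => Tr_fix y _)
  obtain ⟨n, hn⟩ := int_of_rat_integral hq hi
  have hn' : Tr y = n := by rw [hq, hn]; simp
  have h1 : 0 < σ0 (Tr y) := by
    unfold Tr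
    rw [map_sum]
    exact Finset.sum_pos (fun ρ _ => py.aut ρ σ0) ⟨1, Finset.mem_univ _⟩
  rw [hn', map_intCast] at h1
  have h2 : 0 < n := by exact_mod_cast h1
  obtain ⟨m, rfl⟩ := Int.eq_ofNat_of_zero_le h2.le
  exact ⟨m, by exact_mod_cast h2, by rw [hn']; simp⟩

/-- induction for totally positive integers -/
theorem tp_induction (M : MQ K) (σ0 : K →+* ℝ) (P : K → Prop)
    (h1 : ∀ α, IsIntegral ℤ α → TP α → Indec α → P α)
    (h2 : ∀ α β, IsIntegral ℤ α → IsIntegral ℤ β → TP α → TP β → P α → P β → P (α + β)) :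
    ∀ α, IsIntegral ℤ α → TP α → P α := by
  have key : ∀ (n : ℕ) (α : K), IsIntegral ℤ α → TP α → Tr α = n → P α := by
    intro n
    induction n using Nat.strong_induction_on with
    | _ n ih =>
      intro α iα pα hα
      by_cases hI : Indec α
      · exact h1 α iα pα hI
      · unfold Indec at hI
        push Not at hI
        obtain ⟨a, b, ia, ib, pa, pb, hab⟩ := hI
        obtain ⟨na, hna, hTa⟩ := Tr_nat M σ0 ia pa
        obtain ⟨nb, hnb, hTb⟩ := Tr_nat M σ0 ib pb
        have hsum : n = na + nb := by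
          have : (n : K) = ((na + nb : ℕ) : K) := by
            rw [← hα, hab, Tr_add, hTa, hTb]; push_cast; ring
          exact_mod_cast this
        rw [hab]
        exact h2 a b ia ib pa pb (ih na (by omega) a ia pa hTa) (ih nb (by omega) b ib pb hTb)
  intro α iα pα
  obtain ⟨n, -, hn⟩ := Tr_nat M σ0 iα pα
  exact key n α iα pα hn

/-- the automorphism with fixed field generated by the roots of the `T ≡ 1` modulo `4` -/
theorem exists_tau (M : MQ K) (P : Finset ℕ) (hP : ∀ p ∈ P, p.Prime) :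
    ∃ τ : K ≃ₐ[ℚ] K, ∀ (x : K) (n : ℕ), n ≠ 0 → x ^ 2 = n →
      τ x = (∏ p ∈ P, (-1 : K) ^ (n.factorization p)) * x := by
  induction P using Finset.induction_on with
  | empty =>
    refine ⟨1, fun x n _ _ => ?_⟩
    simp
  | insert q P hq ih =>
    obtain ⟨τ, hτ⟩ := ih fun p hp => hP p (Finset.mem_insert_of_mem hp)
    refine ⟨M.sg q * τ, fun x n hn hx => ?_⟩
    rw [AlgEquiv.mul_apply, hτ x n hn hx, map_mul,
      M.sg_spec q (hP q (Finset.mem_insert_self _ _)) x n hn hx, Finset.prod_insert hq, map_prod]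
    simp only [map_pow, map_neg, map_one]
    ring

theorem zmod_four_prod {T : ℕ} (hT : Squarefree T) (hodd : Odd T) :
    (T : ZMod 4) = ∏ p ∈ T.primeFactors, (if p % 4 = 3 then -1 else 1 : ZMod 4) := by
  conv_lhs => rw [← Nat.prod_primeFactors_of_squarefree hT]
  rw [Nat.cast_prod]
  refine Finset.prod_congr rfl fun p hp => ?_
  rw [Nat.mem_primeFactors] at hp
  have hpo : p % 2 = 1 := by
    rcases hp.1.eq_two_or_odd with h | h
    · exfalso
      rw [h] at hp
      rw [← Nat.not_even_iff_odd, even_iff_two_dvd] at hodd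
      exact hodd hp.2.1
    · exact h
  have h4 : (p : ZMod 4) = ((p % 4 : ℕ) : ZMod 4) := by simp
  rw [h4]
  have : p % 4 = 1 ∨ p % 4 = 3 := by omega
  rcases this with h | h <;> rw [h] <;> decide

theorem exists_tau' (M : MQ K) (hV : VOdd K) :
    ∃ τ : K ≃ₐ[ℚ] K, ∀ (x : K) (T : ℕ), Squarefree T → x ^ 2 = T → (τ x = x ↔ T % 4 = 1) := by
  classical
  obtain ⟨τ, hτ⟩ := exists_tau M (M.primes.filter fun p => p % 4 = 3) (fun p hp =>
    M.primes_prime p (Finset.mem_filter.mp hp).1)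
  refine ⟨τ, fun x T hT hx => ?_⟩
  have hodd := hV x T hT hx
  have x0 : x ≠ 0 := MQ.root_ne_zero hT.ne_zero hx
  have hsub : T.primeFactors ⊆ M.primes := by
    intro p hp
    rw [Nat.mem_primeFactors] at hp
    by_contra hcon
    have h1 := M.sg_one p hp.1 hcon x
    exact M.not_dvd_of_fix hp.1 hT hx h1 hp.2.1
  have hprod : ∏ p ∈ M.primes.filter (fun p => p % 4 = 3), (-1 : ℤ) ^ (T.factorization p)
      = ∏ p ∈ T.primeFactors, (if p % 4 = 3 then -1 else 1 : ℤ) := by
    rw [Finset.prod_filter]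
    symm
    apply Finset.prod_subset_one_on_sdiff hsub
    · intro p hp
      rw [Finset.mem_sdiff] at hp
      have hnd : ¬ p ∣ T := by
        intro hd
        apply hp.2
        rw [Nat.mem_primeFactors]
        exact ⟨M.primes_prime p hp.1, hd, hT.ne_zero⟩
      split_ifs
      · rw [Nat.factorization_eq_zero_of_not_dvd hnd, pow_zero]
      · rfl
    · intro p hp
      rw [Nat.mem_primeFactors] at hp
      split_ifs
      · rw [fact_eq_one hp.1 hT hp.2.1, pow_one]
      · rfl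
  have hval : τ x = ((∏ p ∈ T.primeFactors, (if p % 4 = 3 then -1 else 1 : ℤ) : ℤ) : K) * x := by
    rw [hτ x T hT.ne_zero hx, ← hprod]
    push_cast
    rfl
  have hz := zmod_four_prod hT hodd
  have hz' : (T : ZMod 4)
      = ((∏ p ∈ T.primeFactors, (if p % 4 = 3 then -1 else 1 : ℤ) : ℤ) : ZMod 4) := by
    rw [hz]; push_cast; rfl
  set s : ℤ := ∏ p ∈ T.primeFactors, (if p % 4 = 3 then -1 else 1 : ℤ) with hs
  have hs1 : s = 1 ∨ s = -1 := by
    rw [← Int.isUnit_iff, hs]
    apply IsUnit.prod_iff.mpr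
    intro p _
    split_ifs <;> simp
  have hT4 : (T : ZMod 4) = ((T % 4 : ℕ) : ZMod 4) := by simp
  rcases hs1 with h | h
  · rw [h] at hval hz'
    rw [hval]
    constructor
    · intro _
      have h2 : ((T : ℕ) : ZMod 4) = ((1 : ℕ) : ZMod 4) := by rw [hz']; simp
      rw [ZMod.natCast_eq_natCast_iff] at h2
      exact h2
    · intro _; push_cast; ring
  · rw [h] at hval hz'
    rw [hval]
    constructor
    · intro h1
      exfalso
      push_cast at h1
      have : (2 : K) * x = 0 := by linear_combination -h1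
      exact x0 ((mul_eq_zero.mp this).resolve_left two_ne_zero)
    · intro h1
      exfalso
      rw [hT4, h1] at hz'
      revert hz'
      decide

/-- the key integrality statement in case (3) -/
theorem fourth_half (M : MQ K) {τ : K ≃ₐ[ℚ] K}
    (hτ : ∀ (x : K) (T : ℕ), Squarefree T → x ^ 2 = T → τ x = x → T % 4 = 1)
    {δ : K} {T : ℕ} (hT : T % 4 = 3) (hδ : δ ^ 2 = T) (hτδ : τ δ = -δ)
    {a : K} (ha : IsIntegral ℤ a) (h4 : IsIntegral ℤ (a ^ 4 / 2)) : IsIntegral ℤ (a ^ 2 / 2) := by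
  have δ0 : δ ≠ 0 := by
    rintro rfl
    have : (T : K) = 0 := by rw [← hδ]; ring
    have : T = 0 := by exact_mod_cast this
    omega
  have ia' : IsIntegral ℤ (τ a) := int_aut ha τ
  have iδ : IsIntegral ℤ δ := int_of_sq (by rw [hδ]; exact int_nat _)
  have red : ∀ {z : K}, IsIntegral ℤ z → τ z = z → IsIntegral ℤ (z ^ 2 / 2) →
      IsIntegral ℤ (z / 2) := fun iz fz hz => M.reduced_two τ hτ iz fz hz
  set P := a + τ a with hP
  set n := a * τ a with hn
  have iP : IsIntegral ℤ P := ha.add ia'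
  have in' : IsIntegral ℤ n := ha.mul ia'
  have fP : τ P = P := by rw [hP, map_add, M.invol]; ring
  have fn : τ n = n := by rw [hn, map_mul, M.invol]; ring
  -- `y = (a - τ a) δ`
  set y := (a - τ a) * δ with hy
  have iy : IsIntegral ℤ y := (ha.sub ia').mul iδ
  have fy : τ y = y := by rw [hy, map_mul, map_sub, M.invol, hτδ]; ring
  have hyy : y ^ 2 = T * (P ^ 2 - 4 * n) := by
    rw [hy, hP, hn, mul_pow, hδ]; ring
  obtain ⟨m, hm⟩ : ∃ m : ℕ, T = 2 * (2 * m + 1) + 1 := ⟨T / 4, by omega⟩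
  have hmK : (T : K) = 2 * (2 * (m : K) + 1) + 1 := by rw [hm]; push_cast; ring
  have im : IsIntegral ℤ (m : K) := int_nat m
  have iT : IsIntegral ℤ (T : K) := int_nat T
  have h1 : IsIntegral ℤ ((y - P) / 2) := by
    apply red (iy.sub iP) (by rw [map_sub, fy, fP])
    have : (y - P) ^ 2 / 2 = (2 * (m : K) + 1) * P ^ 2 + P ^ 2 - 2 * T * n - y * P := by
      linear_combination hyy / 2 + (P ^ 2 / 2) * hmK
    rw [this]
    exact (((((int_two.mul im).add isIntegral_one).mul (iP.pow 2)).add (iP.pow 2)).sub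
      ((int_two.mul iT).mul in')).sub (iy.mul iP)
  set w := (y - P) / 2 with hw
  have hyw : y = P + 2 * w := by rw [hw]; ring
  have h2 : IsIntegral ℤ (P / 2) := by
    apply red iP fP
    -- `(2m+1) P^2 / 2 = P w + w^2 + n T`
    have h3 : P ^ 2 / 2 = P * w + w ^ 2 + n * T - m * P ^ 2 := by
      have e := hyy
      rw [hyw] at e
      linear_combination -e / 4 - (P ^ 2 / 4) * hmK
    rw [h3]
    exact (((iP.mul h1).add (h1.pow 2)).add (in'.mul iT)).sub (im.mul (iP.pow 2))
  have h3 : IsIntegral ℤ ((a ^ 2 - n) / 2) := by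
    have : (a ^ 2 - n) / 2 = a * (P / 2) - n := by rw [hP, hn]; ring
    rw [this]
    exact (ha.mul h2).sub in'
  have h5 : IsIntegral ℤ (n ^ 2 / 2) := by
    have : n ^ 2 / 2 = a ^ 4 / 2 - (a ^ 2 + n) * ((a ^ 2 - n) / 2) := by ring
    rw [this]
    exact h4.sub (((ha.pow 2).add in').mul h3)
  have h6 := red in' fn h5
  have : a ^ 2 / 2 = (a ^ 2 - n) / 2 + n / 2 := by ring
  rw [this]
  exact h3.add h6

end Pool.Agent.Work.MP_eae946_nt.Full
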