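import Pool.Agent.Work.MP_eae946_nt.Full.CaseA6

namespace Pool.Agent.Work.MP_eae946_nt.Full

open NumberField NumberField.Units

variable {K : Type*} [Field K] [NumberField K] [IsTotallyReal K]
variable {B : (Fin 3 → K) →ₗ[K] (Fin 3 → K) →ₗ[K] K}

theorem half_unit_not {a b : K} (ib : IsIntegral ℤ b) (h : a * b = 1) :
    ¬ IsIntegral ℤ (a / 2) := by
  intro hi
  apply half_not (K := K)
  have : (1 : K) / 2 = a / 2 * b := by rw [← h]; ring
  rw [this]
  exact hi.mul ib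

namespace DatA

variable {M : MQ K} (D : DatA M B) (h : Lat K (Fin 3 → K) B (stdL K))
include D h

/-- (1) : there is an even `T` -/
theorem not_even {c0 : K} (hc : D.ε * c0 ^ 2 = 2) {x2 : K} {n : ℕ} (hn : Odd n)
    (hx2 : x2 ^ 2 = ((2 * n : ℕ) : K)) : False := by
  obtain ⟨σ0⟩ := exists_real K
  have c00 : c0 ≠ 0 := by rintro rfl; norm_num at hc
  have hx2' : x2 ^ 2 = 2 * n := by rw [hx2]; push_cast; ring
  obtain ⟨m, hm⟩ := hn
  have hmK : (n : K) = 2 * m + 1 := by rw [hm]; push_cast; ring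
  have im : IsIntegral ℤ (m : K) := int_nat m
  set q0 := x2 / c0 with hq0
  have hq : q0 ^ 2 = n * D.ε := by
    rw [hq0, div_pow, hx2', div_eq_iff (pow_ne_zero 2 c00)]
    linear_combination -(n : K) * hc
  have iq : IsIntegral ℤ q0 := int_of_sq (by rw [hq]; exact (int_nat n).mul D.iε)
  have hsq : ∀ α : K, IsIntegral ℤ α → TP α → ∃ g : K, IsIntegral ℤ g ∧
      IsIntegral ℤ ((α - g ^ 2) / 2) := by
    apply tp_induction M σ0
    · intro α iα pα hα
      rcases D.indec_sq h iα pα hα with ⟨x, ix, hx⟩ | ⟨x, ix, hx⟩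
      · exact ⟨x, ix, by rw [hx]; simpa using isIntegral_zero⟩
      · refine ⟨q0 * x, iq.mul ix, ?_⟩
        have : (α - (q0 * x) ^ 2) / 2 = -(m * D.ε * x ^ 2) := by
          rw [hx, mul_pow, hq, hmK]; ring
        rw [this]
        exact ((im.mul D.iε).mul (ix.pow 2)).neg
    · rintro α β iα iβ _ _ ⟨g, ig, hg⟩ ⟨g', ig', hg'⟩
      refine ⟨g + g', ig.add ig', ?_⟩
      have : (α + β - (g + g') ^ 2) / 2 = (α - g ^ 2) / 2 + (β - g' ^ 2) / 2 - g * g' := by ring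
      rw [this]
      exact (hg.add hg').sub (ig.mul ig')
  let f : 𝓞 K ⧸ ideal2 K → 𝓞 K ⧸ ideal2 K := fun x => x ^ 2
  have hf : Function.Surjective f := by
    intro α
    obtain ⟨a, rfl⟩ := Ideal.Quotient.mk_surjective α
    obtain ⟨N, hN⟩ := exists_shift (a : K)
    obtain ⟨g, ig, hg⟩ := hsq ((a : K) + 2 * N)
      (a.isIntegral_coe.add (int_two.mul (int_nat N))) hN
    let G : 𝓞 K := ⟨g, ig⟩
    have hG : (G : K) = g := rfl
    refine ⟨Ideal.Quotient.mk _ G, ?_⟩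
    change (Ideal.Quotient.mk _ G) ^ 2 = _
    rw [← map_pow, Ideal.Quotient.eq, mem_ideal2, val_sub]
    have h1 : ((G ^ 2 : 𝓞 K) : K) = g ^ 2 := by rw [pow_two, val_mul, hG]; ring
    rw [h1]
    have : (g ^ 2 - (a : K)) / 2 = N - ((a : K) + 2 * N - g ^ 2) / 2 := by ring
    rw [this]
    exact (int_nat N).sub hg
  have hinj : Function.Injective f := Finite.injective_iff_surjective.mpr hf
  have ix2 : IsIntegral ℤ x2 := int_of_sq (by rw [hx2]; exact int_nat _)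
  let X : 𝓞 K := ⟨x2, ix2⟩
  have hX : (X : K) = x2 := rfl
  have h1 : f (Ideal.Quotient.mk _ X) = f (Ideal.Quotient.mk _ 0) := by
    change (Ideal.Quotient.mk _ X) ^ 2 = (Ideal.Quotient.mk _ 0) ^ 2
    rw [← map_pow, ← map_pow, Ideal.Quotient.eq, mem_ideal2, val_sub]
    have h2 : ((X ^ 2 : 𝓞 K) : K) = 2 * n := by rw [pow_two, val_mul, hX, ← hx2']; ring
    have h3 : (((0 : 𝓞 K) ^ 2 : 𝓞 K) : K) = 0 := by
      rw [pow_two, mul_zero]; exact map_zero _
    rw [h2, h3]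
    have : (2 * (n : K) - 0) / 2 = n := by ring
    rw [this]
    exact int_nat n
  have h2 := hinj h1
  rw [Ideal.Quotient.eq, mem_ideal2, val_sub, hX] at h2
  have h3 : ((0 : 𝓞 K) : K) = 0 := map_zero _
  rw [h3, sub_zero] at h2
  apply half_not (K := K)
  have : (1 : K) / 2 = (x2 / 2) ^ 2 - m := by
    rw [div_pow, hx2', hmK]; ring
  rw [this]
  exact (h2.pow 2).sub im

/-- (2) : all `T` are `1` modulo `4` -/
theorem not_one_mod_four (hT : ∀ (x : K) (T : ℕ), Squarefree T → x ^ 2 = T → T % 4 = 1) {c0 : K}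
    (hc : D.ε * c0 ^ 2 = 2) : False := by
  have hc2 : c0 ^ 2 = 2 * D.η := by
    linear_combination D.η * hc - c0 ^ 2 * D.hεη
  have ic : IsIntegral ℤ c0 := int_of_sq (by rw [hc2]; exact int_two.mul D.iη)
  have h1 := M.reduced_two 1 (fun x T hT' hx _ => hT x T hT' hx) ic rfl (by
    rw [hc2]
    have : 2 * D.η / 2 = D.η := by ring
    rw [this]; exact D.iη)
  refine half_unit_not D.iε (a := D.η) (by rw [mul_comm]; exact D.hεη) ?_
  have : D.η / 2 = (c0 / 2) ^ 2 := by rw [div_pow, hc2]; ring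
  rw [this]
  exact h1.pow 2

theorem all_units (hPN : PN K) {u0 : (𝓞 K)ˣ} (hu0 : D.ε = ((u0 : 𝓞 K) : K)) (u : (𝓞 K)ˣ)
    (hu : ∀ σ : K →+* ℝ, 0 < σ ((u : 𝓞 K) : K)) : ∃ w : (𝓞 K)ˣ, u = w ^ 2 ∨ u = u0 * w ^ 2 := by
  obtain ⟨σ0⟩ := exists_real K
  set v : K := (((u⁻¹ : (𝓞 K)ˣ) : 𝓞 K) : K) with hv
  have iv : IsIntegral ℤ v := (u⁻¹ : (𝓞 K)ˣ).val.isIntegral_coe
  have huv : ((u : 𝓞 K) : K) * v = 1 := unit_mul_inv u
  have hI : Indec ((u : 𝓞 K) : K) := by
    apply indec_of_norm M σ0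
    rw [unit_Nm M hPN, map_one, one_pow]
    exact one_lt_pow₀ (by norm_num) Fintype.card_ne_zero
  rcases D.indec_sq h (u : 𝓞 K).isIntegral_coe hu hI with ⟨x, ix, hx⟩ | ⟨x, ix, hx⟩
  · have hx' : ((u : 𝓞 K) : K) = x ^ 2 := hx
    have h1 : x * (x * v) = 1 := by linear_combination huv - v * hx'
    have h2 : (x * v) * x = 1 := by rw [mul_comm]; exact h1
    let w : (𝓞 K)ˣ := ⟨⟨x, ix⟩, ⟨x * v, ix.mul iv⟩, RingOfIntegers.ext h1, RingOfIntegers.ext h2⟩
    refine ⟨w, Or.inl ?_⟩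
    apply Units.ext
    apply RingOfIntegers.ext
    exact hx
  · have hx' : ((u : 𝓞 K) : K) = D.ε * x ^ 2 := hx
    have h1 : x * (x * v * D.ε) = 1 := by linear_combination huv - v * hx'
    have h2 : (x * v * D.ε) * x = 1 := by rw [mul_comm]; exact h1
    let w : (𝓞 K)ˣ := ⟨⟨x, ix⟩, ⟨x * v * D.ε, (ix.mul iv).mul D.iε⟩, RingOfIntegers.ext h1,
      RingOfIntegers.ext h2⟩
    refine ⟨w, Or.inr ?_⟩
    apply Units.ext
    apply RingOfIntegers.ext
    rw [hu0] at hx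
    exact hx

/-- (3) -/
theorem not_three (hV : VOdd K) (hPN : PN K) {u0 : (𝓞 K)ˣ} (hu0 : D.ε = ((u0 : 𝓞 K) : K))
    {δ : K} {T : ℕ} (hTs : Squarefree T) (hT : T % 4 = 3) (hδ : δ ^ 2 = T) {c0 : K}
    (hc : D.ε * c0 ^ 2 = 2) : False := by
  obtain ⟨σ0⟩ := exists_real K
  obtain ⟨τ, hτ⟩ := exists_tau' M hV
  have hτδ : τ δ = -δ := by
    apply MQ.neg_of_ne hδ
    intro h1
    have := (hτ δ T hTs hδ).mp h1
    omega
  have I' : ∀ {a : K}, IsIntegral ℤ a → IsIntegral ℤ (a ^ 4 / 2) → IsIntegral ℤ (a ^ 2 / 2) :=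
    fun ia h4 => fourth_half M (fun x T hT hx hf => (hτ x T hT hx).mp hf) hT hδ hτδ ia h4
  have c00 : c0 ≠ 0 := by rintro rfl; norm_num at hc
  have hc2 : c0 ^ 2 = 2 * D.η := by
    linear_combination D.η * hc - c0 ^ 2 * D.hεη
  have ic : IsIntegral ℤ c0 := int_of_sq (by rw [hc2]; exact int_two.mul D.iη)
  have hNε : Nm D.ε = 1 := by rw [hu0]; exact unit_Nm M hPN u0
  have hNη : Nm D.η = 1 := by
    have := Nm_mul D.ε D.η
    rw [D.hεη, Nm_one, hNε, one_mul] at this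
    exact this.symm
  -- the degree
  obtain ⟨k, hk, hdeg⟩ := M.deg
  have hG := M.galois
  have hcard : Fintype.card (K ≃ₐ[ℚ] K) = 2 ^ k := by
    rw [← hdeg, ← Nat.card_eq_fintype_card, IsGalois.card_aut_eq_finrank]
  obtain ⟨m, hm⟩ : ∃ m : ℕ, 2 ^ k = 4 * m := ⟨2 ^ (k - 2), by
    obtain ⟨j, rfl⟩ : ∃ j, k = j + 2 := ⟨k - 2, by omega⟩
    rw [Nat.add_sub_cancel, pow_add]; ring⟩
  have hN2 : Nm c0 ^ 2 = ((2 : K) ^ (2 * m)) ^ 2 := by
    have h1 : Nm (c0 ^ 2) = Nm c0 ^ 2 := by rw [pow_two, Nm_mul]; ring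
    rw [← h1, hc2, Nm_mul, hNη, mul_one]
    have h2 := Nm_natCast (K := K) 2
    rw [hcard, hm] at h2
    push_cast at h2
    rw [h2, ← pow_mul]
    congr 1
    ring
  have hNc : Nm c0 = (2 : K) ^ (2 * m) := by
    rcases pm_of_sq hN2 with h1 | h1
    · exact h1
    · exfalso
      apply hPN c0 (2 ^ m) (by positivity)
      rw [h1]
      push_cast
      ring
  obtain ⟨u, hu⟩ := exists_sig M hPN (ε := u0) (D.all_units h hPN hu0) σ0 c00 (by
    rw [hNc, map_pow, map_ofNat]; positivity)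
  set U : K := ((u : 𝓞 K) : K) with hU
  set v : K := (((u⁻¹ : (𝓞 K)ˣ) : 𝓞 K) : K) with hv
  have iU : IsIntegral ℤ U := (u : 𝓞 K).isIntegral_coe
  have iv : IsIntegral ℤ v := (u⁻¹ : (𝓞 K)ˣ).val.isIntegral_coe
  have huv : U * v = 1 := unit_mul_inv u
  set β := U * c0 with hβ
  have iβ : IsIntegral ℤ β := iU.mul ic
  have hββ : β ^ 2 = 2 * (D.η * U ^ 2) := by rw [hβ, mul_pow, hc2]; ring
  have hI : Indec β := by
    apply indec_of_norm M σ0
    rw [hβ, Nm_mul, unit_Nm M hPN, one_mul, hNc, hcard, hm, map_pow, map_ofNat, ← pow_mul]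
    have : 2 * m * 2 = 4 * m := by ring
    rw [this]
    apply pow_lt_pow_left₀ (by norm_num) (by norm_num)
    have : 0 < 2 ^ k := by positivity
    omega
  -- `β / 2` is not integral
  have hnot : ¬ IsIntegral ℤ (β / 2) := by
    intro hi
    refine half_unit_not (a := D.η * U ^ 2) (b := D.ε * v ^ 2) (D.iε.mul (iv.pow 2)) ?_ ?_
    · linear_combination (U * v) ^ 2 * D.hεη + (U * v + 1) * huv
    · have : D.η * U ^ 2 / 2 = (β / 2) ^ 2 := by rw [div_pow, hββ]; ring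
      rw [this]
      exact hi.pow 2
  rcases D.indec_sq h iβ hu hI with ⟨x, ix, hx⟩ | ⟨x, ix, hx⟩
  · apply hnot
    rw [hx]
    apply I' ix
    have : x ^ 4 / 2 = D.η * U ^ 2 := by
      have : x ^ 4 = β ^ 2 := by rw [hx]; ring
      rw [this, hββ]; ring
    rw [this]
    exact D.iη.mul (iU.pow 2)
  · apply hnot
    have h1 : IsIntegral ℤ (x ^ 2 / 2) := by
      apply I' ix
      have h2 : x ^ 2 = D.η * β := by rw [hx]; linear_combination -x ^ 2 * D.hεη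
      have : x ^ 4 / 2 = D.η ^ 3 * U ^ 2 := by
        have : x ^ 4 = D.η ^ 2 * β ^ 2 := by
          have : x ^ 4 = (x ^ 2) ^ 2 := by ring
          rw [this, h2]; ring
        rw [this, hββ]; ring
      rw [this]
      exact (D.iη.pow 3).mul (iU.pow 2)
    have : β / 2 = D.ε * (x ^ 2 / 2) := by rw [hx]; ring
    rw [this]
    exact D.iε.mul h1

end DatA

/-- Case A -/
theorem caseA (M : MQ K) (h : Lat K (Fin 3 → K) B (stdL K)) {x : K} {T q : ℕ}
    (hT : Squarefree T) (hx : x ^ 2 = T) (hq : q.Prime) (hq3 : q % 4 = 3) (hqT : q ∣ T) :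
    False := by
  have hPN : PN K := fun y r hr hy => posnorm M hT hx hq hq3 hqT hr hy
  obtain ⟨D, u0, hu0⟩ := exists_DatA M hPN h
  rcases D.two_cases h with ⟨c, hc⟩ | ⟨c, hc⟩
  · exact D.not_sqrt_two h hc
  by_cases hV : VOdd K
  · by_cases h1 : ∀ (x : K) (T : ℕ), Squarefree T → x ^ 2 = T → T % 4 = 1
    · exact D.not_one_mod_four h h1 hc
    · push Not at h1
      obtain ⟨δ, T', hT', hδ, h4⟩ := h1
      have hodd := hV δ T' hT' hδ
      obtain ⟨j, hj⟩ := hodd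
      exact D.not_three h hV hPN hu0 hT' (by omega) hδ hc
  · unfold VOdd at hV
    push Not at hV
    obtain ⟨x2, T', hT', hx2, hodd⟩ := hV
    rw [Nat.not_odd_iff_even] at hodd
    obtain ⟨n, hn⟩ := hodd
    have hn' : T' = 2 * n := by omega
    subst hn'
    have hnodd : Odd n := by
      rw [← Nat.not_even_iff_odd]
      rintro ⟨m, hm⟩
      have : 2 * 2 ∣ 2 * n := ⟨m, by omega⟩
      have := hT' 2 this
      rw [Nat.isUnit_iff] at this
      omega
    exact D.not_even h hc hnodd hx2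

end Pool.Agent.Work.MP_eae946_nt.Full
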