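import Pool.Agent.Work.MP_eae946_nt.Full.Max
import Pool.Agent.Work.MP_eae946_nt.Full.Arith

namespace Pool.Agent.Work.MP_eae946_nt.Full

open NumberField

variable {K : Type*} [Field K] [NumberField K]

/-- Case B: all odd primes dividing some `T` with `√T ∈ K` are `1` modulo `4`. -/
def CaseB (K : Type*) [Field K] : Prop :=
  ∀ (x : K) (T : ℕ), Squarefree T → x ^ 2 = T → ∀ p, p.Prime → p ∣ T → p = 2 ∨ p % 4 = 1

/-- the odd squarefree `T` with `√T ∈ K`, prime to `5` if `√5 ∈ K`. -/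
structure V0 (K : Type*) [Field K] (T : ℕ) : Prop where
  sqf : Squarefree T
  odd : Odd T
  root : ∃ x : K, x ^ 2 = T
  five : (∃ y : K, y ^ 2 = 5) → ¬ 5 ∣ T

/-- the smallest element and the associated numbers. -/
structure MinD (K : Type*) [Field K] where
  m : ℕ
  t : ℕ
  N : ℕ
  s : K
  hm : V0 K m
  hm1 : m ≠ 1
  hmin : ∀ T, V0 K T → T ≠ 1 → m ≤ T
  hs : s ^ 2 = m
  h13 : 13 ≤ m
  ht : 5 ≤ t
  hodd : Odd t
  hN : m + 4 * N = t ^ 2
  hN2 : N + 2 ≤ t
  hN1 : 1 ≤ N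
  hlow : (t - 2) ^ 2 < m

theorem mod_four_of_primes {T : ℕ} (hT : Squarefree T) (h : ∀ p, p.Prime → p ∣ T → p % 4 = 1) :
    T % 4 = 1 := by
  rw [← Nat.prod_primeFactors_of_squarefree hT]
  have key : ∀ P : Finset ℕ, (∀ p ∈ P, p % 4 = 1) → (∏ p ∈ P, p) % 4 = 1 := by
    intro P
    induction P using Finset.induction_on with
    | empty => intro _; simp
    | insert q P hq ih =>
      intro hP
      rw [Finset.prod_insert hq, Nat.mul_mod, hP q (Finset.mem_insert_self _ _),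
        ih fun p hp => hP p (Finset.mem_insert_of_mem hp)]
  exact key _ fun p hp => by
    rw [Nat.mem_primeFactors] at hp
    exact h p hp.1 hp.2.1

theorem CaseB.odd_primes (hB : CaseB K) {x : K} {T : ℕ} (hT : Squarefree T) (hx : x ^ 2 = T)
    (hodd : Odd T) : ∀ p, p.Prime → p ∣ T → p % 4 = 1 := by
  intro p hp hpT
  refine (hB x T hT hx p hp hpT).resolve_left ?_
  rintro rfl
  rw [← Nat.not_even_iff_odd] at hodd
  exact hodd (even_iff_two_dvd.mpr hpT)

theorem CaseB.mod_four (hB : CaseB K) {x : K} {T : ℕ} (hT : Squarefree T) (hx : x ^ 2 = T)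
    (hodd : Odd T) : T % 4 = 1 :=
  mod_four_of_primes hT (hB.odd_primes hT hx hodd)

theorem exists_MinD (M : MQ K) (hB : CaseB K) : Nonempty (MinD K) := by
  classical
  have hex : ∃ T, V0 K T ∧ T ≠ 1 := by
    obtain ⟨x, T, hT, hT1, hx, h2, h5⟩ := M.three (M.sg 2) (M.sg 5)
    refine ⟨T, ⟨hT, ?_, ⟨x, hx⟩, fun _ => ?_⟩, hT1⟩
    · rw [← Nat.not_even_iff_odd, even_iff_two_dvd]
      exact M.not_dvd_of_fix Nat.prime_two hT hx h2
    · exact M.not_dvd_of_fix Nat.prime_five hT hx h5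
  set m := Nat.find hex with hmdef
  obtain ⟨hm, hm1⟩ := Nat.find_spec hex
  rw [← hmdef] at hm hm1
  have hmin : ∀ T, V0 K T → T ≠ 1 → m ≤ T := fun T h1 h2 => Nat.find_min' hex ⟨h1, h2⟩
  obtain ⟨s, hs⟩ := hm.root
  have hm4 : m % 4 = 1 := hB.mod_four hm.sqf hs hm.odd
  have hm0 : m ≠ 0 := hm.sqf.ne_zero
  have hnsq : ∀ a : ℕ, a ^ 2 ≠ m := by
    intro a ha
    have h1 : a * a ∣ m := by rw [← ha, sq]
    have h2 := Nat.isUnit_iff.mp (hm.sqf a h1)
    rw [h2] at ha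
    exact hm1 (by rw [← ha]; norm_num)
  have h13 : 13 ≤ m := by
    by_contra hcon
    push Not at hcon
    have : m = 5 ∨ m = 9 := by omega
    rcases this with h | h
    · apply hm.five
      · refine ⟨s, ?_⟩
        rw [hs, h]; norm_num
      · rw [h]
    · exact hnsq 3 (by rw [h]; norm_num)
  set r := Nat.sqrt m with hr
  have hr1 : r ^ 2 < m := by
    have h1 : r * r ≤ m := Nat.sqrt_le m
    exact lt_of_le_of_ne (by rw [sq]; exact h1) (hnsq r)
  have hr2 : m < (r + 1) ^ 2 := by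
    have := Nat.lt_succ_sqrt m
    rw [sq]; exact this
  have hr3 : 3 ≤ r := by
    by_contra hcon
    push Not at hcon
    have : (r + 1) ^ 2 ≤ 3 ^ 2 := Nat.pow_le_pow_left (by omega) 2
    omega
  obtain ⟨t, ht1, ht2, ht3, ht4⟩ : ∃ t : ℕ, Odd t ∧ m < t ^ 2 ∧ (t - 2) ^ 2 < m ∧ 4 ≤ t := by
    rcases Nat.even_or_odd r with h | h
    · refine ⟨r + 1, h.add_one, hr2, ?_, by omega⟩
      have : (r + 1 - 2) ^ 2 ≤ r ^ 2 := Nat.pow_le_pow_left (by omega) 2
      omega
    · refine ⟨r + 2, h.add_even even_two, ?_, ?_, by omega⟩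
      · have : (r + 1) ^ 2 ≤ (r + 2) ^ 2 := Nat.pow_le_pow_left (by omega) 2
        omega
      · simpa using hr1
  obtain ⟨c, hc⟩ := ht1
  have ht5 : 5 ≤ t := by omega
  obtain ⟨u, hu⟩ : ∃ u : ℕ, t = u + 2 := ⟨t - 2, by omega⟩
  have h6 : t ^ 2 % 4 = 1 := by
    rw [hc]; ring_nf; omega
  have h7 : m + 4 * ((t ^ 2 - m) / 4) = t ^ 2 := by omega
  refine ⟨⟨m, t, (t ^ 2 - m) / 4, s, hm, hm1, hmin, hs, h13, ht5, ⟨c, hc⟩, h7, ?_, ?_, ht3⟩⟩
  · have h8 : t ^ 2 = (t - 2) ^ 2 + 4 * t - 4 := by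
      rw [hu]; simp; ring_nf; omega
    omega
  · omega

/-- the relevant subfield -/
def Fx (M : MQ K) (γ : K) : Prop := M.sg 2 γ = γ ∧ ((∃ y : K, y ^ 2 = 5) → M.sg 5 γ = γ)

theorem Fx.sub {M : MQ K} {a b : K} (ha : Fx M a) (hb : Fx M b) : Fx M (a - b) :=
  ⟨by rw [map_sub, ha.1, hb.1], fun h => by rw [map_sub, ha.2 h, hb.2 h]⟩

theorem Fx.add {M : MQ K} {a b : K} (ha : Fx M a) (hb : Fx M b) : Fx M (a + b) :=
  ⟨by rw [map_add, ha.1, hb.1], fun h => by rw [map_add, ha.2 h, hb.2 h]⟩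

theorem Fx.mul {M : MQ K} {a b : K} (ha : Fx M a) (hb : Fx M b) : Fx M (a * b) :=
  ⟨by rw [map_mul, ha.1, hb.1], fun h => by rw [map_mul, ha.2 h, hb.2 h]⟩

theorem Fx.aut {M : MQ K} {a : K} (ha : Fx M a) (ρ : K ≃ₐ[ℚ] K) : Fx M (ρ a) :=
  ⟨by rw [M.comm, ha.1], fun h => by rw [M.comm, ha.2 h]⟩

/-- if a common eigenvector is in the subfield, then its class is in `V0` -/
theorem V0_of_max {M : MQ K} {P : Finset ℕ} {h y : K} {q : ℕ} (hh : h ≠ 0) (hF : Fx M h)
    (hq : q ≠ 0) (hy : h = q * y) (hy2 : y ^ 2 = ((∏ p ∈ P, p : ℕ) : K))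
    (hsq : Squarefree (∏ p ∈ P, p)) : V0 K (∏ p ∈ P, p) := by
  have hq' : (q : K) ≠ 0 := by exact_mod_cast hq
  have key : ∀ ρ : K ≃ₐ[ℚ] K, ρ h = h → ρ y = y := by
    intro ρ hρ
    rw [hy, map_mul, map_natCast] at hρ
    exact mul_left_cancel₀ hq' hρ
  refine ⟨hsq, ?_, ⟨y, hy2⟩, fun h5 => ?_⟩
  · rw [← Nat.not_even_iff_odd, even_iff_two_dvd]
    exact M.not_dvd_of_fix Nat.prime_two hsq hy2 (key _ hF.1)
  · exact M.not_dvd_of_fix Nat.prime_five hsq hy2 (key _ (hF.2 h5))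

theorem real_diff_sq {x y B u v : ℝ} (hB : 0 ≤ B) (hu : 0 ≤ u) (hv : 0 ≤ v)
    (hx : x ^ 2 ≤ B * u) (hy : y ^ 2 ≤ B * v) :
    (x - y) ^ 2 ≤ B * (u + v + 2 * Real.sqrt (u * v)) := by
  set w := Real.sqrt (u * v) with hw
  have hw2 : w ^ 2 = u * v := Real.sq_sqrt (mul_nonneg hu hv)
  have hw0 : 0 ≤ w := Real.sqrt_nonneg _
  have h1 : |x * y| ≤ B * w := by
    apply abs_le_of_sq_le_sq _ (mul_nonneg hB hw0)
    calc (x * y) ^ 2 = x ^ 2 * y ^ 2 := by ring
      _ ≤ (B * u) * (B * v) := mul_le_mul hx hy (sq_nonneg _) (mul_nonneg hB hu)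
      _ = (B * w) ^ 2 := by rw [mul_pow, hw2]; ring
  have h2 := neg_abs_le (x * y)
  nlinarith

variable [IsTotallyReal K]

theorem PP0 (M : MQ K) (hB : CaseB K) (D : MinD K) {s : K} (hs : s ^ 2 = D.m) {γ : K}
    (hγ : IsIntegral ℤ γ) (hF : Fx M γ) (hd : Dom γ ((D.t + s) / 2)) : γ = 0 := by
  classical
  by_contra hγ0
  obtain ⟨m, t, N, s0, hm, hm1, hmin, hs0, h13, ht, hodd, hN, hN2, hN1, hlow⟩ := D
  simp only at hs hd
  set A : K := (t + s) / 2 with hA
  have hmR : (m : ℝ) + 4 * N = t ^ 2 := by exact_mod_cast hN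
  have hlowR : ((t : ℝ) - 2) ^ 2 < m := by
    have : (((t - 2 : ℕ) : ℝ)) ^ 2 < m := by exact_mod_cast hlow
    rwa [Nat.cast_sub (by omega)] at this
  have htR : (5 : ℝ) ≤ t := by exact_mod_cast ht
  have hN1R : (1 : ℝ) ≤ N := by exact_mod_cast hN1
  -- real values of `s`
  have hσs : ∀ σ : K →+* ℝ, σ s ^ 2 = m := fun σ => by rw [← map_pow, hs, map_natCast]
  have hσA : ∀ σ : K →+* ℝ, σ A = (t + σ s) / 2 := fun σ => by
    rw [hA, map_div₀, map_add, map_natCast, map_ofNat]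
  have hApos : ∀ σ : K →+* ℝ, 0 < σ A := by
    intro σ
    rw [hσA]
    have h1 := hσs σ
    nlinarith
  have hflip : ∀ p, p.Prime → p ∣ m → M.sg p s = -s := fun p hp hpm => M.sg_neg hp hm.sqf hpm hs
  have hnofl : ∀ p, p.Prime → ¬ p ∣ m → M.sg p s = s :=
    fun p hp hpm => M.sg_fix hp hm.sqf.ne_zero hpm hs
  set n : ℝ := Real.sqrt N with hn
  have hn2 : n ^ 2 = N := Real.sq_sqrt (by positivity)
  have hn0 : 0 ≤ n := Real.sqrt_nonneg _
  let I : Finset ℕ → K → Prop := fun P h => IsIntegral ℤ h ∧ Fx M h ∧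
    ((∃ p ∈ P, p ∣ m) → ∀ σ : K →+* ℝ, 4 * (σ h) ^ 2 ≤ 4 ^ P.card * (t + 2 * n)) ∧
    ((∀ p ∈ P, ¬ p ∣ m) → ∀ σ : K →+* ℝ, (σ h) ^ 2 ≤ 4 ^ P.card * σ A)
  obtain ⟨P, h, -, ⟨-, hF', hI1, hI2⟩, hh, hprime, -, -, -, q, y, hq, hy, hy2, hsq⟩ :=
    M.exists_max I (P0 := ∅) (by simp) (by
      rintro P h p hp hpP - ⟨i1, i2, i3, i4⟩ -
      have hcard : (insert p P).card = P.card + 1 := Finset.card_insert_of_notMem hpP
      refine ⟨i1.sub (int_aut i1 _), i2.sub (i2.aut _), ?_, ?_⟩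
      · intro hex σ
        rw [hcard, show (4 : ℝ) ^ (P.card + 1) = 4 ^ P.card * 4 from pow_succ _ _, map_sub]
        have hB0 : (0 : ℝ) ≤ 4 ^ P.card := by positivity
        by_cases hP : ∃ p ∈ P, p ∣ m
        · have e1 := i3 hP σ
          have e2 := i3 hP (σ.comp (M.sg p : K →+* K))
          simp only [RingHom.comp_apply, RingHom.coe_coe] at e2
          nlinarith [sq_nonneg (σ h + σ (M.sg p h))]
        · push Not at hP
          have hpm : p ∣ m := by
            obtain ⟨p', hp', hp'm⟩ := hex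
            rcases Finset.mem_insert.mp hp' with rfl | hp'
            · exact hp'm
            · exact absurd hp'm (hP p' hp')
          have e1 := i4 hP σ
          have e2 := i4 hP (σ.comp (M.sg p : K →+* K))
          simp only [RingHom.comp_apply, RingHom.coe_coe] at e2
          have e3 := real_diff_sq hB0 (hApos σ).le
            (hApos (σ.comp (M.sg p : K →+* K))).le e1 (by
              simpa only [RingHom.comp_apply, RingHom.coe_coe] using e2)
          have e4 : σ A * (σ.comp (M.sg p : K →+* K)) A = N := by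
            simp only [RingHom.comp_apply, RingHom.coe_coe]
            have : σ (M.sg p A) = (t - σ s) / 2 := by
              rw [hA, map_div₀, map_add, map_natCast, map_ofNat, hflip p hp hpm, map_div₀,
                map_add, map_natCast, map_ofNat, map_neg]; ring
            rw [this, hσA]
            have h1 := hσs σ
            nlinarith
          have e5 : σ A + (σ.comp (M.sg p : K →+* K)) A = t := by
            simp only [RingHom.comp_apply, RingHom.coe_coe]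
            have : σ (M.sg p A) = (t - σ s) / 2 := by
              rw [hA, map_div₀, map_add, map_natCast, map_ofNat, hflip p hp hpm, map_div₀,
                map_add, map_natCast, map_ofNat, map_neg]; ring
            rw [this, hσA]; ring
          rw [e4, e5] at e3
          linarith
      · intro hall σ
        have hpm : ¬ p ∣ m := hall p (Finset.mem_insert_self _ _)
        have hP : ∀ p ∈ P, ¬ p ∣ m := fun p' hp' => hall p' (Finset.mem_insert_of_mem hp')
        rw [hcard, show (4 : ℝ) ^ (P.card + 1) = 4 ^ P.card * 4 from pow_succ _ _, map_sub]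
        have e1 := i4 hP σ
        have e2 := i4 hP (σ.comp (M.sg p : K →+* K))
        simp only [RingHom.comp_apply, RingHom.coe_coe] at e2
        have e3 : M.sg p A = A := by
          rw [hA, map_div₀, map_add, map_natCast, map_ofNat, hnofl p hp hpm]
        rw [e3] at e2
        nlinarith [sq_nonneg (σ h + σ (M.sg p h))]) (fun P h hI => hI.1) hγ0
      ⟨hγ, hF, by simp, fun _ σ => by simpa using hd σ⟩ (by simp)
  have hV : V0 K (∏ p ∈ P, p) := V0_of_max hh hF' hq hy hy2 hsq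
  have hPmod : ∀ p ∈ P, p.Prime ∧ p % 4 = 1 := fun p hp =>
    ⟨hprime p hp, hB.odd_primes hsq hy2 hV.odd p (hprime p hp) (Finset.dvd_prod_of_mem _ hp)⟩
  set T := ∏ p ∈ P, p with hT
  have hqR : (1 : ℝ) ≤ q := by exact_mod_cast Nat.one_le_iff_ne_zero.mpr hq
  have hhsq : ∀ σ : K →+* ℝ, (T : ℝ) ≤ σ h ^ 2 := by
    intro σ
    have h1 : σ h ^ 2 = q ^ 2 * T := by
      rw [← map_pow, hy, mul_pow, hy2, map_mul, map_pow, map_natCast, map_natCast]
    rw [h1]
    have h2 : (0 : ℝ) ≤ T := by positivity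
    have h3 : (1 : ℝ) ≤ (q : ℝ) ^ 2 := by nlinarith
    nlinarith
  obtain ⟨σ0⟩ := exists_real K
  by_cases hex : ∃ p ∈ P, p ∣ m
  · obtain ⟨p0, hp0, hp0m⟩ := hex
    have hT1 : T ≠ 1 := by
      intro h1
      have := (hprime p0 hp0).two_le
      have h2 : p0 ∣ T := Finset.dvd_prod_of_mem _ hp0
      rw [h1] at h2
      have := Nat.le_of_dvd (by norm_num) h2
      omega
    have hmT := hmin T hV hT1
    have e1 := arith_main P hPmod h13 hmT hp0 hp0m ht hodd hN hN2 hlow hn2 hn0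
    have e2 := hI1 ⟨p0, hp0, hp0m⟩ σ0
    have e3 := hhsq σ0
    linarith
  · push Not at hex
    -- an embedding with `σ s < 0`
    obtain ⟨σ, hσ⟩ : ∃ σ : K →+* ℝ, σ s < 0 := by
      have hs0' : s ≠ 0 := MQ.root_ne_zero hm.sqf.ne_zero hs
      rcases lt_or_gt_of_ne (fun h => hs0' ((map_eq_zero σ0).mp h) : σ0 s ≠ 0) with h | h
      · exact ⟨σ0, h⟩
      · obtain ⟨p, hp, hpm⟩ := Nat.exists_prime_and_dvd hm1
        refine ⟨σ0.comp (M.sg p : K →+* K), ?_⟩
        simp only [RingHom.comp_apply, RingHom.coe_coe]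
        rw [hflip p hp hpm, map_neg]; linarith
    have e1 := hI2 hex σ
    have e2 := hhsq σ
    have e3 : (4 : ℝ) ^ P.card ≤ T := by exact_mod_cast prod_ge_four P hPmod
    have e4 : σ A < 1 := by
      rw [hσA]
      have h1 := hσs σ
      nlinarith
    have e5 : (0 : ℝ) < 4 ^ P.card := by positivity
    nlinarith

end Pool.Agent.Work.MP_eae946_nt.Full
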