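import Pool.Agent.Work.MP_eae946_nt.Full.Reduced

namespace Pool.Agent.Work.MP_eae946_nt.Full

open NumberField

variable {K : Type*} [Field K] [NumberField K]

theorem fact_eq_one {p T : ℕ} (hp : p.Prime) (hT : Squarefree T) (h : p ∣ T) :
    T.factorization p = 1 :=
  le_antisymm (hT.natFactorization_le_one p)
    ((hp.dvd_iff_one_le_factorization hT.ne_zero).mp h)

namespace MQ

variable (M : MQ K)

theorem sg_neg {p T : ℕ} (hp : p.Prime) (hT : Squarefree T) (h : p ∣ T) {x : K}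
    (hx : x ^ 2 = T) : M.sg p x = -x := by
  rw [M.sg_spec p hp x T hT.ne_zero hx, fact_eq_one hp hT h]; ring

theorem sg_fix {p T : ℕ} (hp : p.Prime) (hT : T ≠ 0) (h : ¬ p ∣ T) {x : K}
    (hx : x ^ 2 = T) : M.sg p x = x := by
  rw [M.sg_spec p hp x T hT hx, Nat.factorization_eq_zero_of_not_dvd h]; ring

omit [NumberField K] in
theorem root_ne_zero [CharZero K] {x : K} {T : ℕ} (hT : T ≠ 0) (hx : x ^ 2 = T) : x ≠ 0 := by
  rintro rfl
  apply hT
  have : (T : K) = 0 := by rw [← hx]; ring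
  exact_mod_cast this

theorem not_dvd_of_fix {p T : ℕ} (hp : p.Prime) (hT : Squarefree T) {x : K}
    (hx : x ^ 2 = T) (h : M.sg p x = x) : ¬ p ∣ T := by
  intro hd
  rw [M.sg_neg hp hT hd hx] at h
  have h2 : (2 : K) * x = 0 := by linear_combination -h
  exact root_ne_zero hT.ne_zero hx ((mul_eq_zero.mp h2).resolve_left two_ne_zero)

/-- the fixed field of `sg p` is `p`-reduced, `p` odd. -/
theorem fixed_odd {p : ℕ} (hp : p.Prime) (hp2 : p ≠ 2) {a : K} (ha : IsIntegral ℤ a)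
    (hfix : M.sg p a = a) (h : IsIntegral ℤ (a ^ 2 / p)) : IsIntegral ℤ (a / p) :=
  M.reduced_odd hp hp2 (M.sg p) (fun _ _ hT hx hf => M.not_dvd_of_fix hp hT hx hf) ha hfix h

include M in
theorem unram_odd {p : ℕ} (hp : p.Prime) (hp2 : p ≠ 2)
    (hram : ∀ (x : K) (T : ℕ), Squarefree T → x ^ 2 = T → ¬ p ∣ T)
    {a : K} (ha : IsIntegral ℤ a) (h : IsIntegral ℤ (a ^ 2 / p)) : IsIntegral ℤ (a / p) :=
  M.reduced_odd hp hp2 1 (fun x T hT hx _ => hram x T hT hx) ha rfl h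

/-- the fixed field of `sg 2` is `2`-reduced when all the odd `T` are `1` modulo `4`. -/
theorem fixed_two (h1 : ∀ (x : K) (T : ℕ), Squarefree T → x ^ 2 = T → Odd T → T % 4 = 1)
    {a : K} (ha : IsIntegral ℤ a)
    (hfix : M.sg 2 a = a) (h : IsIntegral ℤ (a ^ 2 / 2)) : IsIntegral ℤ (a / 2) :=
  M.reduced_two (M.sg 2) (fun x T hT hx hf => h1 x T hT hx (by
    have := M.not_dvd_of_fix Nat.prime_two hT hx hf
    rw [← Nat.not_even_iff_odd, even_iff_two_dvd]; exact this)) ha hfix h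

theorem diff_odd {p : ℕ} (hp : p.Prime) (hp2 : p ≠ 2) {γ : K} (hγ : IsIntegral ℤ γ) :
    IsIntegral ℤ ((γ - M.sg p γ) ^ 2 / p) := by
  by_cases hmem : p ∈ M.primes
  swap
  · rw [M.sg_one p hp hmem]
    simpa using isIntegral_zero
  obtain ⟨x, T, hT, hx, T', rfl⟩ := M.primes_spec p hmem
  have hpK : (p : K) ≠ 0 := by exact_mod_cast hp.ne_zero
  have hsx := M.sg_neg hp hT (Dvd.intro _ rfl) hx
  have hiσ : IsIntegral ℤ (M.sg p γ) := int_aut hγ _
  set δ := γ - M.sg p γ with hδ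
  have iδ : IsIntegral ℤ δ := hγ.sub hiσ
  have ix : IsIntegral ℤ x := int_of_sq (by rw [hx]; exact int_nat _)
  have hδσ : M.sg p δ = -δ := by rw [hδ, map_sub, M.invol]; ring
  have he : IsIntegral ℤ (x * δ / p) := by
    apply M.fixed_odd hp hp2 (ix.mul iδ)
    · rw [map_mul, hsx, hδσ]; ring
    · have : (x * δ) ^ 2 / p = T' * δ ^ 2 := by
        rw [mul_pow, hx]; push_cast; field_simp
      rw [this]
      exact (int_nat _).mul (iδ.pow 2)
  have h3 : IsIntegral ℤ (((T' : ℕ) : ℤ) * δ ^ 2 / p) := by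
    have : (((T' : ℕ) : ℤ) * δ ^ 2 / p : K) = (x * δ / p) ^ 2 := by
      rw [div_pow, mul_pow, hx]; push_cast; field_simp
    rw [this]; exact he.pow 2
  refine int_div_of_coprime ?_ hpK (iδ.pow 2) h3
  rw [Nat.isCoprime_iff_coprime]
  refine (Nat.Coprime.symm ((Nat.Prime.coprime_iff_not_dvd hp).mpr ?_))
  intro hd
  have h4 : p * p ∣ p * T' := Nat.mul_dvd_mul_left p hd
  have := hT p h4
  exact hp.one_lt.ne' (Nat.isUnit_iff.mp this)

/-- `γ = γ₀ + γ₁` with `γ₀` fixed by `sg 2` and `γ₁` negated by `sg 2`, `γ₁ ^ 2 / 2` integral. -/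
theorem diff_two (h1 : ∀ (x : K) (T : ℕ), Squarefree T → x ^ 2 = T → Odd T → T % 4 = 1)
    {x : K} {n : ℕ} (hn : Odd n) (hx : x ^ 2 = ((2 * n : ℕ) : K)) {γ : K} (hγ : IsIntegral ℤ γ) :
    IsIntegral ℤ ((γ - M.sg 2 γ) ^ 2 / 8) ∧ IsIntegral ℤ ((γ + M.sg 2 γ) / 2) := by
  have hn0 : n ≠ 0 := by rintro rfl; exact absurd hn (by decide)
  have h2n : ¬ 2 ∣ n := by
    rw [← even_iff_two_dvd, Nat.not_even_iff_odd]; exact hn
  have hsx : M.sg 2 x = -x := by
    rw [M.sg_spec 2 Nat.prime_two x (2 * n) (by omega) hx,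
      Nat.factorization_mul (by norm_num) hn0]
    simp [Nat.factorization_eq_zero_of_not_dvd h2n, Nat.prime_two.factorization]
  have iσ : IsIntegral ℤ (M.sg 2 γ) := int_aut hγ _
  set δ := γ - M.sg 2 γ with hδ
  set P := γ + M.sg 2 γ with hP
  set N := γ * M.sg 2 γ with hN
  have iδ : IsIntegral ℤ δ := hγ.sub iσ
  have iP : IsIntegral ℤ P := hγ.add iσ
  have iN : IsIntegral ℤ N := hγ.mul iσ
  have hPN : δ ^ 2 = P ^ 2 - 4 * N := by rw [hδ, hP, hN]; ring
  have ix : IsIntegral ℤ x := int_of_sq (by rw [hx]; exact int_nat _)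
  have hδσ : M.sg 2 δ = -δ := by rw [hδ, map_sub, M.invol]; ring
  have hPσ : M.sg 2 P = P := by rw [hP, map_add, M.invol]; ring
  have hx' : x ^ 2 = 2 * n := by rw [hx]; push_cast; ring
  have hcop : IsCoprime (n : ℤ) ((2 : ℕ) : ℤ) := by
    rw [Nat.isCoprime_iff_coprime]
    exact (Nat.Coprime.symm ((Nat.Prime.coprime_iff_not_dvd Nat.prime_two).mpr h2n))
  have hdiv : ∀ y : K, IsIntegral ℤ y → IsIntegral ℤ (n * y / 2) → IsIntegral ℤ (y / 2) := by
    intro y hy h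
    have := int_div_of_coprime (p := 2) hcop (by norm_num : ((2 : ℕ) : K) ≠ 0) hy
      (by push_cast; exact h)
    exact_mod_cast this
  -- first step
  have he1 : IsIntegral ℤ (x * δ / 2) := by
    apply M.fixed_two h1 (ix.mul iδ)
    · rw [map_mul, hsx, hδσ]; ring
    · have : (x * δ) ^ 2 / 2 = n * δ ^ 2 := by rw [mul_pow, hx']; ring
      rw [this]
      exact (int_nat _).mul (iδ.pow 2)
  have hδ2 : IsIntegral ℤ (δ ^ 2 / 2) := by
    apply hdiv _ (iδ.pow 2)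
    have : n * δ ^ 2 / 2 = (x * δ / 2) ^ 2 := by rw [div_pow, mul_pow, hx']; ring
    rw [this]; exact he1.pow 2
  have hP2 : IsIntegral ℤ (P / 2) := by
    apply M.fixed_two h1 iP hPσ
    have : P ^ 2 / 2 = δ ^ 2 / 2 + 2 * N := by rw [hPN]; ring
    rw [this]
    exact hδ2.add (int_two.mul iN)
  -- second step
  have he2 : IsIntegral ℤ ((x * δ / 2) / 2) := by
    apply M.fixed_two h1 he1
    · rw [map_div₀, map_mul, hsx, hδσ, map_ofNat]; ring
    · have : (x * δ / 2) ^ 2 / 2 = n * ((P / 2) ^ 2 - N) := by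
        rw [div_pow, mul_pow, hx', hPN]; ring
      rw [this]
      exact (int_nat _).mul ((hP2.pow 2).sub iN)
  refine ⟨?_, hP2⟩
  have h3 : IsIntegral ℤ (((P / 2) ^ 2 - N) / 2) := by
    apply hdiv _ ((hP2.pow 2).sub iN)
    have : n * ((P / 2) ^ 2 - N) / 2 = ((x * δ / 2) / 2) ^ 2 := by
      linear_combination (-(δ ^ 2) / 16) * hx' - (n / 8 : K) * hPN
    rw [this]; exact he2.pow 2
  have : δ ^ 2 / 8 = ((P / 2) ^ 2 - N) / 2 := by rw [hPN]; ring
  rw [this]; exact h3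

end MQ

end Pool.Agent.Work.MP_eae946_nt.Full
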