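import Pool.Agent.Work.MP_eae946_nt.Integral
import Pool.Agent.Work.MP_eae946_nt.Basic

namespace Pool.Agent.Work.MP_eae946_nt.Full

open NumberField

variable {K : Type*} [Field K] [NumberField K]

/-- greedy choice of a common eigenvector. -/
theorem greedy (comm : ∀ (ρ ρ' : K ≃ₐ[ℚ] K) (x : K), ρ (ρ' x) = ρ' (ρ x))
    (invol : ∀ (ρ : K ≃ₐ[ℚ] K) (x : K), ρ (ρ x) = x)
    {ι : Type*} [DecidableEq ι] (f : ι → (K ≃ₐ[ℚ] K)) (I : Finset ι → K → Prop)
    (Q : Finset ι) (hstep : ∀ (P : Finset ι) (h : K) (i : ι), i ∈ Q → i ∉ P → P ⊆ Q → I P h →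
      f i h ≠ h → I (insert i P) (h - f i h)) {a : K} (ha : a ≠ 0) (h0 : I ∅ a) :
    ∃ (P : Finset ι) (h : K), P ⊆ Q ∧ I P h ∧ h ≠ 0 ∧ (∀ i ∈ P, f i h = -h) ∧
      (∀ i ∈ Q, i ∉ P → f i h = h) := by
  suffices H : ∀ R : Finset ι, R ⊆ Q → ∃ (P : Finset ι) (h : K), P ⊆ R ∧ I P h ∧ h ≠ 0 ∧
      (∀ i ∈ P, f i h = -h) ∧ (∀ i ∈ R, i ∉ P → f i h = h) from H Q subset_rfl
  intro R
  induction R using Finset.induction_on with
  | empty =>
    intro _
    exact ⟨∅, a, subset_rfl, h0, ha, by simp, by simp⟩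
  | insert j R hj ih =>
    intro hR
    obtain ⟨P, h, hP, hI, hh, h1, h2⟩ := ih ((Finset.subset_insert _ _).trans hR)
    by_cases hfix : f j h = h
    · refine ⟨P, h, hP.trans (Finset.subset_insert _ _), hI, hh, h1, ?_⟩
      intro i hi hiP
      rcases Finset.mem_insert.mp hi with rfl | hi
      · exact hfix
      · exact h2 i hi hiP
    · have hjP : j ∉ P := fun hjP => hj (hP hjP)
      refine ⟨insert j P, h - f j h, Finset.insert_subset_insert _ hP,
        hstep P h j (hR (Finset.mem_insert_self _ _)) hjP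
          (hP.trans ((Finset.subset_insert _ _).trans hR)) hI hfix, ?_, ?_, ?_⟩
      · intro hz
        exact hfix (by linear_combination -hz)
      · intro i hi
        rcases Finset.mem_insert.mp hi with rfl | hi
        · rw [map_sub, invol]; ring
        · rw [map_sub, comm, h1 i hi, map_neg]; ring
      · intro i hi hiP
        have hij : i ≠ j := fun h => hiP (h ▸ Finset.mem_insert_self _ _)
        have hi' : i ∈ R := (Finset.mem_insert.mp hi).resolve_left hij
        have hiP' : i ∉ P := fun h => hiP (Finset.mem_insert_of_mem h)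
        rw [map_sub, comm, h2 i hi' hiP']

/-- greedy choice of a common eigenvector, starting from a partial one. -/
theorem greedy' (comm : ∀ (ρ ρ' : K ≃ₐ[ℚ] K) (x : K), ρ (ρ' x) = ρ' (ρ x))
    (invol : ∀ (ρ : K ≃ₐ[ℚ] K) (x : K), ρ (ρ x) = x)
    {ι : Type*} [DecidableEq ι] (f : ι → (K ≃ₐ[ℚ] K)) (I : Finset ι → K → Prop)
    (Q : Finset ι) {P0 : Finset ι} (hstep : ∀ (P : Finset ι) (h : K) (i : ι), i ∈ Q → i ∉ P →
      P0 ⊆ P → I P h → f i h ≠ h → I (insert i P) (h - f i h)) {a : K} (ha : a ≠ 0)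
    (h0 : I P0 a) (hP0 : ∀ i ∈ P0, f i a = -a) :
    ∃ (P : Finset ι) (h : K), P0 ⊆ P ∧ P ⊆ P0 ∪ Q ∧ I P h ∧ h ≠ 0 ∧ (∀ i ∈ P, f i h = -h) ∧
      (∀ i ∈ Q, i ∉ P → f i h = h) ∧ (P = P0 → h = a) := by
  suffices H : ∀ R : Finset ι, R ⊆ Q → ∃ (P : Finset ι) (h : K), P0 ⊆ P ∧ P ⊆ P0 ∪ R ∧
      I P h ∧ h ≠ 0 ∧ (∀ i ∈ P, f i h = -h) ∧ (∀ i ∈ R, i ∉ P → f i h = h) ∧
      (P = P0 → h = a) from H Q subset_rfl
  intro R
  induction R using Finset.induction_on with
  | empty =>
    intro _
    exact ⟨P0, a, subset_rfl, by simp, h0, ha, hP0, by simp, fun _ => rfl⟩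
  | insert j R hj ih =>
    intro hR
    obtain ⟨P, h, hPP, hP, hI, hh, h1, h2, h3⟩ := ih ((Finset.subset_insert _ _).trans hR)
    by_cases hfix : f j h = h ∨ j ∈ P
    · refine ⟨P, h, hPP, hP.trans (Finset.union_subset_union subset_rfl
        (Finset.subset_insert _ _)), hI, hh, h1, ?_, h3⟩
      intro i hi hiP
      rcases Finset.mem_insert.mp hi with rfl | hi
      · exact hfix.resolve_right hiP
      · exact h2 i hi hiP
    · push Not at hfix
      obtain ⟨hfix, hjP⟩ := hfix
      refine ⟨insert j P, h - f j h, hPP.trans (Finset.subset_insert _ _), ?_,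
        hstep P h j (hR (Finset.mem_insert_self _ _)) hjP hPP hI hfix, ?_, ?_, ?_, ?_⟩
      · intro x hx
        rcases Finset.mem_insert.mp hx with rfl | hx
        · exact Finset.mem_union_right _ (Finset.mem_insert_self _ _)
        · rcases Finset.mem_union.mp (hP hx) with hx | hx
          · exact Finset.mem_union_left _ hx
          · exact Finset.mem_union_right _ (Finset.mem_insert_of_mem hx)
      · intro hz
        exact hfix (by linear_combination -hz)
      · intro i hi
        rcases Finset.mem_insert.mp hi with rfl | hi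
        · rw [map_sub, invol]; ring
        · rw [map_sub, comm, h1 i hi, map_neg]; ring
      · intro i hi hiP
        have hij : i ≠ j := fun h => hiP (h ▸ Finset.mem_insert_self _ _)
        have hi' : i ∈ R := (Finset.mem_insert.mp hi).resolve_left hij
        have hiP' : i ∉ P := fun h => hiP (Finset.mem_insert_of_mem h)
        rw [map_sub, comm, h2 i hi' hiP']
      · intro hEq
        exfalso
        apply hjP
        apply hPP
        rw [← hEq]
        exact Finset.mem_insert_self _ _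

end Pool.Agent.Work.MP_eae946_nt.Full
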