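import Pool.Agent.Work.MP_eae946_nt.Full.TLem

namespace Pool.Agent.Work.MP_eae946_nt.Full

open NumberField

variable {K : Type*} [Field K] [NumberField K]

/-- the lattice of integral vectors -/
def stdL (K : Type*) [Field K] : AddSubgroup (Fin 3 → K) where
  carrier := {v | ∀ i, IsIntegral ℤ (v i)}
  zero_mem' := fun i => by simpa using isIntegral_zero
  add_mem' := fun {a b} ha hb i => (ha i).add (hb i)
  neg_mem' := fun {a} ha i => (ha i).neg

omit [NumberField K] in
theorem stdL_smul {c : K} (hc : IsIntegral ℤ c) {v : Fin 3 → K} (hv : v ∈ stdL K) :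
    c • v ∈ stdL K := fun i => hc.mul (hv i)

theorem lat_of_gram' {A : Matrix (Fin 3) (Fin 3) (𝓞 K)} (hA : IsUniversalClassicalTernary K A) :
    ∃ (B : (Fin 3 → K) →ₗ[K] (Fin 3 → K) →ₗ[K] K), Lat K (Fin 3 → K) B (stdL K) := by
  let A' : Matrix (Fin 3) (Fin 3) K := A.map (algebraMap (𝓞 K) K)
  let B : (Fin 3 → K) →ₗ[K] (Fin 3 → K) →ₗ[K] K := Matrix.toLinearMap₂' K A'
  have hB : ∀ v w, B v w = ∑ i, ∑ j, (A i j : K) * v i * w j := by
    intro v w
    simp only [B, Matrix.toLinearMap₂'_apply, A', Matrix.map_apply, smul_eq_mul]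
    refine Finset.sum_congr rfl fun i _ => Finset.sum_congr rfl fun j _ => ?_
    ring
  refine ⟨B, ?_, ?_, ?_, ?_, ?_⟩
  · intro v w
    rw [hB, hB, Finset.sum_comm]
    refine Finset.sum_congr rfl fun i _ => Finset.sum_congr rfl fun j _ => ?_
    rw [hA.symm.apply i j]
    ring
  · intro v hv σ
    rw [hB]
    exact hA.posDef v hv σ
  · intro v hv w hw
    rw [hB]
    refine IsIntegral.sum _ fun i _ => IsIntegral.sum _ fun j _ => ?_
    exact ((A i j).isIntegral_coe.mul (hv i)).mul (hw j)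
  · intro α hα hpos
    obtain ⟨v, hv⟩ := hA.universal ⟨α, hα⟩ hpos
    refine ⟨fun i => (v i : K), fun i => (v i).isIntegral_coe, ?_⟩
    rw [hB]
    have := congrArg (algebraMap (𝓞 K) K) hv
    simp only [map_sum, map_mul] at this
    exact this
  · simp

variable {B : (Fin 3 → K) →ₗ[K] (Fin 3 → K) →ₗ[K] K}

/-- splitting off a vector of norm one -/
theorem split_one (h : Lat K (Fin 3 → K) B (stdL K)) {e z : Fin 3 → K} (he : e ∈ stdL K)
    (he1 : B e e = 1) (hz : z ∈ stdL K) :
    IsIntegral ℤ (B e z) ∧ z - B e z • e ∈ stdL K ∧ B e (z - B e z • e) = 0 ∧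
      B z z = B e z ^ 2 + B (z - B e z • e) (z - B e z • e) ∧
      (∀ σ : K →+* ℝ, σ (B e z) ^ 2 ≤ σ (B z z)) := by
  have hi := h.integral e he z hz
  have h1 : B e (z - B e z • e) = 0 := by
    rw [map_sub, map_smul, he1, smul_eq_mul]; ring
  refine ⟨hi, (stdL K).sub_mem hz (stdL_smul hi he), h1, ?_, ?_⟩
  · simp only [map_sub, map_smul, LinearMap.sub_apply, LinearMap.smul_apply, smul_eq_mul]
    rw [h.symm z e, he1]; ring
  · intro σ
    have := h.cs e z σ
    rw [he1, one_mul] at this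
    exact this

variable [IsTotallyReal K]

theorem vec_ne_zero {v : Fin 3 → K} {α : K} (h : B v v = α) (hα : α ≠ 0) : v ≠ 0 := by
  rintro rfl
  rw [map_zero] at h
  exact hα h.symm

/-- two vectors in the orthogonal complement of a plane are parallel -/
theorem par (h : Lat K (Fin 3 → K) B (stdL K)) {u1 u2 x y : Fin 3 → K} (h1 : u1 ≠ 0)
    (h2 : u2 ≠ 0) (h12 : B u1 u2 = 0) (hx1 : B u1 x = 0) (hx2 : B u2 x = 0) (hy1 : B u1 y = 0)
    (hy2 : B u2 y = 0) : B x x * B y y = B x y ^ 2 := by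
  by_cases hy : y = 0
  · subst hy; simp
  set w : Fin 3 → K := B y y • x - B x y • y with hw
  have ow1 : B u1 w = 0 := by rw [hw, map_sub, map_smul, map_smul, hx1, hy1]; simp
  have ow2 : B u2 w = 0 := by rw [hw, map_sub, map_smul, map_smul, hx2, hy2]; simp
  have owy : B y w = 0 := by
    rw [hw, map_sub, map_smul, map_smul, h.symm y x, smul_eq_mul, smul_eq_mul]; ring
  have hw0 : w = 0 := by
    by_contra hw0
    obtain ⟨σ⟩ := exists_real K
    have : Nonempty (K →+* ℝ) := ⟨σ⟩
    refine h.no_four ![u1, u2, y, w] ?_ ?_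
    · intro i
      fin_cases i
      · exact h1
      · exact h2
      · exact hy
      · exact hw0
    · intro i j hij
      fin_cases i <;> fin_cases j
      · exact absurd rfl hij
      · exact h12
      · exact hy1
      · exact ow1
      · exact (h.symm _ _).trans h12
      · exact absurd rfl hij
      · exact hy2
      · exact ow2
      · exact (h.symm _ _).trans hy1
      · exact (h.symm _ _).trans hy2
      · exact absurd rfl hij
      · exact owy
      · exact (h.symm _ _).trans ow1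
      · exact (h.symm _ _).trans ow2
      · exact (h.symm _ _).trans owy
      · exact absurd rfl hij
  have : B x w = 0 := by rw [hw0]; simp
  rw [hw, map_sub, map_smul, map_smul, smul_eq_mul, smul_eq_mul] at this
  linear_combination this

/-- the vanishing of the Gram determinant of three vectors orthogonal to `e`. -/
theorem gram3 (h : Lat K (Fin 3 → K) B (stdL K)) {e v w u : Fin 3 → K} (he : e ≠ 0)
    (hv : v ≠ 0) (hev : B e v = 0) (hew : B e w = 0) (heu : B e u = 0) :
    (B v v * B w w - B v w ^ 2) * (B v v * B u u - B v u ^ 2)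
      = (B v v * B w u - B v w * B v u) ^ 2 := by
  have hvv : B v v ≠ 0 := by
    intro h0
    obtain ⟨σ⟩ := exists_real K
    have := h.pos v hv σ
    rw [h0, map_zero] at this
    exact lt_irrefl _ this
  have hp := par h (x := B v v • w - B v w • v) (y := B v v • u - B v u • v) he hv hev
    (by rw [map_sub, map_smul, map_smul, hev, hew]; simp)
    (by rw [map_sub, map_smul, map_smul, smul_eq_mul, smul_eq_mul]; ring)
    (by rw [map_sub, map_smul, map_smul, hev, heu]; simp)
    (by rw [map_sub, map_smul, map_smul, smul_eq_mul, smul_eq_mul]; ring)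
  simp only [map_sub, map_smul, LinearMap.sub_apply, LinearMap.smul_apply, smul_eq_mul] at hp
  rw [h.symm w v, h.symm u v] at hp
  have h1 : B v v ^ 2 * ((B v v * B w w - B v w ^ 2) * (B v v * B u u - B v u ^ 2))
      = B v v ^ 2 * (B v v * B w u - B v w * B v u) ^ 2 := by
    linear_combination hp
  exact mul_left_cancel₀ (pow_ne_zero 2 hvv) h1

/-- if `A` satisfies `PP` and is positive it is not represented as `c ^ 2 / n`, etc. -/
theorem PP.ne_sq {A : K} (hP : PP A) (hA : ∀ σ : K →+* ℝ, 0 < σ A) {γ : K}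
    (hγ : IsIntegral ℤ γ) (hle : ∀ σ : K →+* ℝ, σ γ ^ 2 ≤ σ A) (hne : γ ≠ 0) : False :=
  hne (hP γ hγ hle)

/-- the index pieces -/
noncomputable def idx5 (M : MQ K) (y : K) (hy : y ^ 2 = 5) : Idx K where
  τ := (M.sg 5).toRingEquiv
  w := (1 + y) / 2
  t := 1
  c := 1
  hττ := fun x => M.invol _ _
  hw := by push_cast; linear_combination hy / 4
  hτw := by
    change M.sg 5 ((1 + y) / 2) = _
    have h1 : M.sg 5 y = -y := M.sg_neg Nat.prime_five Nat.prime_five.squarefree dvd_rfl
      (by rw [hy]; norm_num)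
    rw [map_div₀, map_add, map_one, h1, map_ofNat]; push_cast; ring
  hc := le_rfl
  hct := le_rfl
  hint := by
    intro γ hγ
    have h1 : M.sg 5 y = -y := M.sg_neg Nat.prime_five Nat.prime_five.squarefree dvd_rfl
      (by rw [hy]; norm_num)
    change IsIntegral ℤ ((γ - M.sg 5 γ) / ((1 + y) / 2 - M.sg 5 ((1 + y) / 2)))
    rw [map_div₀, map_add, map_one, h1, map_ofNat]
    apply int_of_sq
    have h2 := M.diff_odd Nat.prime_five (by norm_num) hγ
    have h3 : ((γ - M.sg 5 γ) / ((1 + y) / 2 - (1 + -y) / 2)) ^ 2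
        = (γ - M.sg 5 γ) ^ 2 / ((5 : ℕ) : K) := by
      have : ((1 + y) / 2 - (1 + -y) / 2) = y := by ring
      rw [this, div_pow, hy]; norm_num
    rw [h3]; exact h2

noncomputable def idx2 (M : MQ K) (hB : CaseB K) (y : K) (hy : y ^ 2 = 2) : Idx K where
  τ := (M.sg 2).toRingEquiv
  w := 1 + y
  t := 2
  c := 1
  hττ := fun x => M.invol _ _
  hw := by push_cast; linear_combination hy
  hτw := by
    change M.sg 2 (1 + y) = _
    have h1 : M.sg 2 y = -y := M.sg_neg Nat.prime_two Nat.prime_two.squarefree dvd_rfl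
      (by rw [hy]; norm_num)
    rw [map_add, map_one, h1]; push_cast; ring
  hc := le_rfl
  hct := by norm_num
  hint := by
    intro γ hγ
    have h1 : M.sg 2 y = -y := M.sg_neg Nat.prime_two Nat.prime_two.squarefree dvd_rfl
      (by rw [hy]; norm_num)
    change IsIntegral ℤ ((γ - M.sg 2 γ) / ((1 + y) - M.sg 2 (1 + y)))
    rw [map_add, map_one, h1]
    apply int_of_sq
    have h2 := (M.diff_two (fun x T hT hx hodd => hB.mod_four hT hx hodd) (x := y) (n := 1)
      (by decide) (by rw [hy]; norm_num) hγ).1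
    have h3 : ((γ - M.sg 2 γ) / (1 + y - (1 + -y))) ^ 2 = (γ - M.sg 2 γ) ^ 2 / 8 := by
      have : (1 + y - (1 + -y)) = 2 * y := by ring
      rw [this, div_pow, mul_pow, hy]; norm_num
    rw [h3]; exact h2

omit [IsTotallyReal K] in
theorem Idx.unique (I : Idx K) {a b : K} (ha : I.τ a = a) (hb : I.τ b = b)
    (h : a + b * I.w = 0) : a = 0 ∧ b = 0 := by
  have h1 := congrArg I.τ h
  rw [map_add, map_mul, ha, hb, map_zero] at h1
  have h2 : b * (I.w - I.τ I.w) = 0 := by linear_combination h - h1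
  have h3 := (mul_eq_zero.mp h2).resolve_right I.D_ne
  rw [h3] at h
  exact ⟨by linear_combination h, h3⟩

/-- decomposition respecting another automorphism -/
theorem Idx.decomp_fix (I : Idx K) {ρ : K ≃ₐ[ℚ] K} (hcomm : ∀ x, ρ (I.τ x) = I.τ (ρ x))
    (hw : ρ I.w = I.w) {γ : K} (hγ : IsIntegral ℤ γ) (hρ : ρ γ = γ) :
    ∃ g0 g1 : K, IsIntegral ℤ g0 ∧ IsIntegral ℤ g1 ∧ I.τ g0 = g0 ∧ I.τ g1 = g1 ∧
      ρ g0 = g0 ∧ ρ g1 = g1 ∧ γ = g0 + g1 * I.w := by
  obtain ⟨g0, g1, i0, i1, f0, f1, hg⟩ := I.decomp γ hγ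
  have h1 : (ρ g0 - g0) + (ρ g1 - g1) * I.w = 0 := by
    have h2 : ρ γ = ρ g0 + ρ g1 * I.w := by rw [hg, map_add, map_mul, hw]
    rw [hρ] at h2
    linear_combination hg - h2
  obtain ⟨h3, h4⟩ := Idx.unique I (by rw [map_sub, ← hcomm, f0]) (by rw [map_sub, ← hcomm, f1]) h1
  exact ⟨g0, g1, i0, i1, f0, f1, by linear_combination h3, by linear_combination h4, hg⟩

/-- `PP` on the subfield fixed by `sg 2`. -/
theorem PP1 (M : MQ K) (hB : CaseB K) (D : MinD K) {s : K} (hs : s ^ 2 = D.m) {γ : K}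
    (hγ : IsIntegral ℤ γ) (hF : M.sg 2 γ = γ) (hd : Dom γ ((D.t + s) / 2)) : γ = 0 := by
  by_cases h5 : ∃ y : K, y ^ 2 = 5
  · obtain ⟨y, hy⟩ := h5
    have h5m : ¬ 5 ∣ D.m := D.hm.five ⟨y, hy⟩
    have hs5 : M.sg 5 s = s := M.sg_fix Nat.prime_five D.hm.sqf.ne_zero h5m hs
    have hy2 : M.sg 2 y = y := M.sg_fix Nat.prime_two (by norm_num : (5 : ℕ) ≠ 0) (by norm_num)
      (by rw [hy]; norm_num)
    set I := idx5 M y hy with hI
    obtain ⟨g0, g1, i0, i1, f0, f1, r0, r1, hg⟩ := Idx.decomp_fix I (ρ := M.sg 2)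
      (fun x => M.comm _ _ _) (by
        change M.sg 2 ((1 + y) / 2) = (1 + y) / 2
        rw [map_div₀, map_add, map_one, hy2, map_ofNat]) hγ hF
    have hτA : I.τ ((D.t + s) / 2) = (D.t + s) / 2 := by
      change M.sg 5 ((D.t + s) / 2) = (D.t + s) / 2
      rw [map_div₀, map_add, map_natCast, hs5, map_ofNat]
    have hred := fun σ => I.reduce (A := (D.t + s) / 2) hτA f0 f1 (r := 0) (by
      rw [← hg]; simpa using hd) σ
    have z0 : g0 = 0 := PP0 M hB D hs i0 ⟨r0, fun _ => f0⟩ fun σ => by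
      have := hred σ
      have hc : (0 : ℝ) ≤ I.c := I.c_pos_real.le
      nlinarith [mul_nonneg hc (sq_nonneg (σ g1))]
    have z1 : g1 = 0 := PP0 M hB D hs i1 ⟨r1, fun _ => f1⟩ fun σ => by
      have := hred σ
      have hc : (I.c : ℝ) = 1 := by rw [hI]; simp [idx5]
      rw [hc] at this
      nlinarith [sq_nonneg (σ g0)]
    rw [hg, z0, z1]; ring
  · exact PP0 M hB D hs hγ ⟨hF, fun h => absurd h h5⟩ hd

end Pool.Agent.Work.MP_eae946_nt.Full
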