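import Pool.Agent.Work.MP_eae946_nt.Integral
import Pool.Agent.Work.MP_eae946_nt.Basic

/-! The structure of a totally real multiquadratic field. -/

namespace Pool.Agent.Work.MP_eae946_nt.Full

open NumberField

/-- what we need to know about a real multiquadratic field of degree at least `8`. -/
structure MQ (K : Type*) [Field K] [NumberField K] where
  /-- `sg p` negates exactly the square roots of the integers with odd `p`-adic valuation -/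
  sg : ℕ → (K ≃ₐ[ℚ] K)
  comm : ∀ (ρ ρ' : K ≃ₐ[ℚ] K) (x : K), ρ (ρ' x) = ρ' (ρ x)
  invol : ∀ (ρ : K ≃ₐ[ℚ] K) (x : K), ρ (ρ x) = x
  sg_spec : ∀ p : ℕ, p.Prime → ∀ (x : K) (n : ℕ), n ≠ 0 → x ^ 2 = n →
    sg p x = (-1) ^ (n.factorization p) * x
  /-- the primes dividing one of the `T` with `√T ∈ K` -/
  primes : Finset ℕ
  primes_prime : ∀ p ∈ primes, p.Prime
  sg_one : ∀ p, p.Prime → p ∉ primes → ∀ x, sg p x = x
  primes_spec : ∀ p ∈ primes, ∃ (x : K) (T : ℕ), Squarefree T ∧ x ^ 2 = T ∧ p ∣ T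
  rat : ∀ x : K, (∀ p, p.Prime → sg p x = x) → ∃ q : ℚ, x = q
  sgen : ∀ σ0 : K ≃ₐ[ℚ] K, ∃ S : Finset K,
    (∀ x ∈ S, σ0 x = x ∧ ∃ T : ℕ, Squarefree T ∧ x ^ 2 = T) ∧
    ∀ ρ : K ≃ₐ[ℚ] K, (∀ x ∈ S, ρ x = x) → ρ = 1 ∨ ρ = σ0
  three : ∀ ρ ρ' : K ≃ₐ[ℚ] K, ∃ (x : K) (T : ℕ), Squarefree T ∧ T ≠ 1 ∧ x ^ 2 = T ∧
    ρ x = x ∧ ρ' x = x
  galois : IsGalois ℚ K
  deg : ∃ k, 3 ≤ k ∧ Module.finrank ℚ K = 2 ^ k

end Pool.Agent.Work.MP_eae946_nt.Full
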