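import Pool.Agent.Work.MP_eae946_nt.Full.MQ
import Pool.Agent.Work.MP_eae946_nt.Full.Greedy

namespace Pool.Agent.Work.MP_eae946_nt.Full

open NumberField

variable {K : Type*} [Field K] [NumberField K] {k : ℕ}

section gens

variable {s : Fin k → K} {d : Fin k → ℤ} (hs : ∀ i, s i ^ 2 = d i)
    (hgen : IntermediateField.adjoin ℚ (Set.range s) = ⊤)

include hs hgen

theorem exists_aut' (hdeg : Module.finrank ℚ K = 2 ^ k) (ε : Fin k → ℤˣ) :
    ∃ τ : K ≃ₐ[ℚ] K, ∀ i, (ε i = 1 → τ (s i) = s i) ∧ (ε i = -1 → τ (s i) ≠ s i) := by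
  classical
  have hG := isGalois_of_sq hs hgen
  let f : (K ≃ₐ[ℚ] K) → (Fin k → ℤˣ) := fun τ i => if τ (s i) = s i then 1 else -1
  have hf : Function.Injective f := by
    intro τ τ' h
    apply aut_eq_of_gen hgen
    intro i
    have h1 := congrFun h i
    simp only [f] at h1
    by_cases h2 : τ (s i) = s i <;> by_cases h3 : τ' (s i) = s i
    · rw [h2, h3]
    · rw [if_pos h2, if_neg h3] at h1; exact absurd h1 (by decide)
    · rw [if_neg h2, if_pos h3] at h1; exact absurd h1 (by decide)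
    · rw [(aut_sq (hs i) τ).resolve_left h2, (aut_sq (hs i) τ').resolve_left h3]
  have hcard : Nat.card (K ≃ₐ[ℚ] K) = Nat.card (Fin k → ℤˣ) := by
    have : Nat.card ℤˣ = 2 := by simp
    rw [IsGalois.card_aut_eq_finrank, hdeg, Nat.card_fun, this, Nat.card_fin]
  have hbij : Function.Bijective f :=
    (Nat.bijective_iff_injective_and_card f).mpr ⟨hf, hcard⟩
  obtain ⟨τ, hτ⟩ := hbij.2 ε
  refine ⟨τ, fun i => ?_⟩
  have h1 := congrFun hτ i
  simp only [f] at h1
  constructor
  · intro h3
    by_contra h2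
    rw [if_neg h2, h3] at h1
    exact absurd h1 (by decide)
  · intro h3 h2
    rw [if_pos h2, h3] at h1
    exact absurd h1 (by decide)

theorem gen_ne_zero (hdeg : Module.finrank ℚ K = 2 ^ k) (i : Fin k) : s i ≠ 0 := by
  intro h
  obtain ⟨τ, hτ⟩ := exists_aut' hs hgen hdeg (fun _ => -1)
  exact (hτ i).2 rfl (by rw [h, map_zero])

theorem exists_flip (hdeg : Module.finrank ℚ K = 2 ^ k) (i : Fin k) :
    ∃ τ : K ≃ₐ[ℚ] K, τ (s i) = -s i ∧ ∀ l, l ≠ i → τ (s l) = s l := by
  obtain ⟨τ, hτ⟩ := exists_aut hs hgen hdeg (Function.update 1 i (-1))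
  exact ⟨τ, by rw [hτ]; simp, fun l hl => by rw [hτ]; simp [hl]⟩

/-- fixed by all the flips implies rational. -/
theorem rat_of_flips {τ : Fin k → (K ≃ₐ[ℚ] K)} (h1 : ∀ i, τ i (s i) = -s i)
    (h2 : ∀ i l, l ≠ i → τ i (s l) = s l) {x : K} (hx : ∀ i, τ i x = x) :
    ∃ q : ℚ, x = q := by
  apply fix_rat hs hgen
  have key : ∀ F : Finset (Fin k), ∀ ρ : K ≃ₐ[ℚ] K, (∀ i, i ∉ F → ρ (s i) = s i) → ρ x = x := by
    intro F
    induction F using Finset.induction_on with
    | empty =>
      intro ρ hρ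
      have : ρ = 1 := aut_eq_of_gen hgen (fun i => by rw [hρ i (by simp)]; rfl)
      rw [this]; rfl
    | insert j F _ ih =>
      intro ρ hρ
      rcases aut_sq (hs j) ρ with h | h
      · apply ih
        intro i hi
        by_cases hij : i = j
        · rw [hij]; exact h
        · exact hρ i (by simp [hij, hi])
      · have h3 := ih (ρ * τ j) (by
          intro i hi
          rw [AlgEquiv.mul_apply]
          by_cases hij : i = j
          · rw [hij, h1, map_neg, h, neg_neg]
          · rw [h2 j i hij]; exact hρ i (by simp [hij, hi]))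
        rw [AlgEquiv.mul_apply, hx] at h3
        exact h3
  intro ρ
  exact key Finset.univ ρ (by simp)

/-- Kummer theory -/
theorem kummer {τ : Fin k → (K ≃ₐ[ℚ] K)} (h1 : ∀ i, τ i (s i) = -s i)
    (h2 : ∀ i l, l ≠ i → τ i (s l) = s l) {x : K} (hx : ∀ i, τ i x = x ∨ τ i x = -x) :
    ∃ (A : Finset (Fin k)) (q : ℚ), x * ∏ i ∈ A, s i = q := by
  classical
  refine ⟨Finset.univ.filter fun i => τ i x = -x, ?_⟩
  apply rat_of_flips hs hgen h1 h2
  intro i
  have hfixprod : ∀ A : Finset (Fin k), i ∉ A → τ i (∏ l ∈ A, s l) = ∏ l ∈ A, s l := by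
    intro A hA
    rw [map_prod]
    exact Finset.prod_congr rfl fun l hl => h2 i l fun h => hA (h ▸ hl)
  by_cases h : τ i x = -x
  · have hmem : i ∈ Finset.univ.filter fun i => τ i x = -x := by simp [h]
    rw [← Finset.mul_prod_erase _ _ hmem, map_mul, map_mul, h, h1,
      hfixprod _ (Finset.notMem_erase _ _)]
    ring
  · have hmem : i ∉ Finset.univ.filter fun i => τ i x = -x := by simp [h]
    rw [map_mul, (hx i).resolve_right h, hfixprod _ hmem]

end gens

omit [NumberField K] in
theorem int_sq_cast {x : K} {n : ℕ} (h : x ^ 2 = n) : x ^ 2 = ((n : ℤ) : K) := by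
  rw [h]; simp

/-- normalise a square root to the square root of a squarefree number -/
theorem normalize {x : K} {n : ℕ} (hn : n ≠ 0) (h : x ^ 2 = n) :
    ∃ b T : ℕ, b ≠ 0 ∧ Squarefree T ∧ n = b ^ 2 * T ∧ (x / b) ^ 2 = T := by
  obtain ⟨T, b, hT, hb⟩ := Nat.sq_mul_squarefree n
  have hb0 : b ≠ 0 := by
    rintro rfl
    apply hn
    rw [← hT]; ring
  refine ⟨b, T, hb0, hb, hT.symm, ?_⟩
  have : (b : K) ≠ 0 := by exact_mod_cast hb0
  rw [div_pow, h, ← hT]
  push_cast
  field_simp

theorem sq_pos_of_real [IsTotallyReal K] {x : K} {d : ℤ} (h0 : x ≠ 0) (h : x ^ 2 = d) :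
    0 < d := by
  obtain ⟨σ⟩ := exists_real K
  have h1 : σ x ^ 2 = d := by rw [← map_pow, h, map_intCast]
  have h2 : σ x ≠ 0 := fun h => h0 ((map_eq_zero σ).mp h)
  have h3 : (0 : ℝ) < d := by rw [← h1]; positivity
  exact_mod_cast h3

theorem factorization_even_sq {z : ℕ} (p : ℕ) :
    (z ^ 2).factorization p = 2 * z.factorization p := by
  rw [Nat.factorization_pow]; simp

/-- construction of the structure -/
theorem exists_MQ [IsTotallyReal K] {s : Fin k → K} {d : Fin k → ℤ}
    (hs : ∀ i, s i ^ 2 = d i)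
    (hgen : IntermediateField.adjoin ℚ (Set.range s) = ⊤)
    (hdeg : Module.finrank ℚ K = 2 ^ k) (hk : 3 ≤ k) : Nonempty (MQ K) := by
  classical
  have hs0 : ∀ i, s i ≠ 0 := gen_ne_zero hs hgen hdeg
  have hdpos : ∀ i, 0 < d i := fun i => sq_pos_of_real (hs0 i) (hs i)
  obtain ⟨D, hD⟩ : ∃ D : Fin k → ℕ, ∀ i, (D i : ℤ) = d i :=
    ⟨fun i => (d i).toNat, fun i => Int.toNat_of_nonneg (hdpos i).le⟩
  have hsD : ∀ i, s i ^ 2 = (D i : K) := by
    intro i
    rw [hs i, ← hD i]; simp
  have hD0 : ∀ i, D i ≠ 0 := by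
    intro i h
    have := hdpos i
    rw [← hD i, h] at this
    simp at this
  have comm : ∀ (ρ ρ' : K ≃ₐ[ℚ] K) (x : K), ρ (ρ' x) = ρ' (ρ x) :=
    fun ρ ρ' x => aut_comm hs hgen ρ ρ' x
  have invol : ∀ (ρ : K ≃ₐ[ℚ] K) (x : K), ρ (ρ x) = x := fun ρ x => aut_invol hs hgen ρ x
  choose τ hτ1 hτ2 using exists_flip hs hgen hdeg
  -- the automorphisms `sg`
  choose sg hsg using fun p : ℕ => exists_aut hs hgen hdeg
    (fun i => (-1) ^ ((D i).factorization p))
  have hsg' : ∀ p i, sg p (s i) = (-1) ^ ((D i).factorization p) * s i := by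
    intro p i
    rw [hsg p i]; push_cast; rfl
  have sgn : ∀ (x : K) (n : ℕ), x ^ 2 = n → ∀ ρ : K ≃ₐ[ℚ] K, ρ x = x ∨ ρ x = -x :=
    fun x n h ρ => aut_sq (int_sq_cast h) ρ
  have spec : ∀ p : ℕ, p.Prime → ∀ (x : K) (n : ℕ), n ≠ 0 → x ^ 2 = n →
      sg p x = (-1) ^ (n.factorization p) * x := by
    intro p hp x n hn hx
    obtain ⟨A, q, hq⟩ := kummer hs hgen hτ1 hτ2 (fun i => sgn x n hx (τ i))
    have hprod0 : ∏ i ∈ A, s i ≠ 0 := Finset.prod_ne_zero_iff.mpr fun i _ => hs0 i
    have hsq : ((n * ∏ i ∈ A, D i : ℕ) : ℚ) = q ^ 2 := by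
      have : ((n * ∏ i ∈ A, D i : ℕ) : K) = (q : K) ^ 2 := by
        rw [← hq, mul_pow, hx, ← Finset.prod_pow]
        push_cast
        rw [Finset.prod_congr rfl fun i _ => hsD i]
      exact_mod_cast this
    obtain ⟨z, hz⟩ : ∃ z : ℤ, q = z := by
      apply int_of_rat_integral (K := ℚ) (x := q) (by simp)
      apply IsIntegral.of_pow (n := 2) (by norm_num)
      rw [← hsq]
      exact isIntegral_algebraMap (R := ℤ) (x := ((n * ∏ i ∈ A, D i : ℕ) : ℤ))
    have hz2 : n * ∏ i ∈ A, D i = z.natAbs ^ 2 := by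
      have h3 : ((n * ∏ i ∈ A, D i : ℕ) : ℤ) = z ^ 2 := by
        rw [hz] at hsq
        exact_mod_cast hsq
      zify
      rw [sq_abs]
      exact_mod_cast h3
    have hprodD : ∏ i ∈ A, D i ≠ 0 := Finset.prod_ne_zero_iff.mpr fun i _ => hD0 i
    have hz0 : z.natAbs ≠ 0 := by
      intro h
      rw [h] at hz2
      exact mul_ne_zero hn hprodD (by rw [hz2]; norm_num)
    have hfac : n.factorization p + ∑ i ∈ A, (D i).factorization p
        = 2 * z.natAbs.factorization p := by
      have h3 : (n * ∏ i ∈ A, D i).factorization p = (z.natAbs ^ 2).factorization p := by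
        rw [hz2]
      rw [factorization_even_sq, Nat.factorization_mul hn hprodD,
        Nat.factorization_prod (fun i _ => hD0 i)] at h3
      simpa using h3
    have h4 : sg p (x * ∏ i ∈ A, s i) = x * ∏ i ∈ A, s i := by
      rw [hq]; simp
    rw [map_mul, map_prod, Finset.prod_congr rfl (fun i _ => hsg' p i),
      Finset.prod_mul_distrib, Finset.prod_pow_eq_pow_sum] at h4
    have h5 : (-1 : K) ^ (n.factorization p) * (-1 : K) ^ (∑ i ∈ A, (D i).factorization p) = 1 := by
      rw [← pow_add, hfac, pow_mul]; simp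
    have h6 : sg p x * (-1 : K) ^ (∑ i ∈ A, (D i).factorization p) = x := by
      apply mul_right_cancel₀ hprod0
      rw [← h4]; ring
    have h7 : ((-1 : K) ^ (n.factorization p)) * ((-1 : K) ^ (n.factorization p)) = 1 := by
      rw [← mul_pow]; simp
    have h8 : (-1 : K) ^ (∑ i ∈ A, (D i).factorization p) = (-1 : K) ^ (n.factorization p) := by
      calc (-1 : K) ^ (∑ i ∈ A, (D i).factorization p)
          = ((-1 : K) ^ (n.factorization p)) * ((-1 : K) ^ (n.factorization p)) *
              (-1 : K) ^ (∑ i ∈ A, (D i).factorization p) := by rw [h7, one_mul]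
        _ = ((-1 : K) ^ (n.factorization p)) * ((-1 : K) ^ (n.factorization p) *
              (-1 : K) ^ (∑ i ∈ A, (D i).factorization p)) := by ring
        _ = _ := by rw [h5, mul_one]
    rw [h8] at h6
    calc sg p x = sg p x * (((-1 : K) ^ (n.factorization p)) * ((-1 : K) ^ (n.factorization p))) := by
          rw [h7, mul_one]
      _ = (sg p x * (-1 : K) ^ (n.factorization p)) * (-1 : K) ^ (n.factorization p) := by ring
      _ = _ := by rw [h6]; ring
  -- rational elements
  have key_rat : ∀ (h : K), h ≠ 0 → (∀ ρ : K ≃ₐ[ℚ] K, ρ h = h ∨ ρ h = -h) →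
      ∃ (c n : ℕ), c ≠ 0 ∧ n ≠ 0 ∧ (c * h) ^ 2 = (n : K) := by
    intro h hh hρ
    obtain ⟨q, hq⟩ := fix_rat hs hgen (x := h ^ 2) (by
      intro ρ
      rw [map_pow]
      rcases hρ ρ with h1 | h1 <;> rw [h1]; ring)
    have hqpos : 0 < q := by
      obtain ⟨σ⟩ := exists_real K
      have h1 : σ h ^ 2 = q := by rw [← map_pow, hq, map_ratCast]
      have h2 : σ h ≠ 0 := fun h3 => hh ((map_eq_zero σ).mp h3)
      have h3 : (0 : ℝ) < q := by rw [← h1]; positivity
      exact_mod_cast h3
    refine ⟨q.den, q.num.toNat * q.den, q.den_nz, ?_, ?_⟩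
    · have : 0 < q.num := Rat.num_pos.mpr hqpos
      have h2 : 0 < q.num.toNat := by omega
      exact mul_ne_zero h2.ne' q.den_nz
    · rw [mul_pow, hq]
      have h2 : (q.num.toNat : ℤ) = q.num := Int.toNat_of_nonneg (Rat.num_pos.mpr hqpos).le
      have h3 : ((q.num.toNat : ℤ) : ℚ) = q * q.den := by
        rw [h2, Rat.mul_den_eq_num]
      have h4 : (q.den : ℚ) ^ 2 * q = ((q.num.toNat * q.den : ℕ) : ℚ) := by
        push_cast
        push_cast at h3
        rw [h3]; ring
      exact_mod_cast congrArg (Rat.cast : ℚ → K) h4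
  have rat : ∀ x : K, (∀ p, p.Prime → sg p x = x) → ∃ q : ℚ, x = q := by
    intro x hx
    by_cases hx0 : x = 0
    · exact ⟨0, by rw [hx0]; simp⟩
    obtain ⟨P, h, -, ⟨hI1, hI2⟩, hh, hP1, hP2⟩ := greedy comm invol τ
      (fun P h => (∀ p, p.Prime → sg p h = h) ∧ (P = ∅ → h = x)) Finset.univ (by
        rintro P h i - - - ⟨h3, h4⟩ -
        refine ⟨fun p hp => ?_, fun h => absurd h (Finset.insert_ne_empty _ _)⟩
        rw [map_sub, comm, h3 p hp]) hx0 ⟨hx, fun _ => rfl⟩
    have hall : ∀ ρ : K ≃ₐ[ℚ] K, ρ h = h ∨ ρ h = -h := by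
      have hsq : ∃ q : ℚ, h ^ 2 = q := rat_of_flips hs hgen hτ1 hτ2 (by
        intro i
        by_cases hi : i ∈ P
        · rw [map_pow, hP1 i hi]; ring
        · rw [map_pow, hP2 i (Finset.mem_univ _) hi])
      obtain ⟨q, hq⟩ := hsq
      intro ρ
      have : ρ h ^ 2 = h ^ 2 := by rw [← map_pow, hq, map_ratCast]
      exact sq_eq_sq_iff_eq_or_eq_neg.mp this
    obtain ⟨c, n, hc, hn, hcn⟩ := key_rat h hh hall
    obtain ⟨b, T, hb, hT, hnb, hxT⟩ := normalize hn hcn
    have hy0 : (c * h / b : K) ≠ 0 := by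
      have h1 : (c : K) ≠ 0 := by exact_mod_cast hc
      have h2 : (b : K) ≠ 0 := by exact_mod_cast hb
      exact div_ne_zero (mul_ne_zero h1 hh) h2
    have hT1 : T = 1 := by
      by_contra hT1
      obtain ⟨p, hp, hpT⟩ := Nat.exists_prime_and_dvd hT1
      have hv : T.factorization p = 1 := by
        apply le_antisymm (hT.natFactorization_le_one p)
        exact (hp.dvd_iff_one_le_factorization hT.ne_zero).mp hpT
      have h3 := spec p hp _ T hT.ne_zero hxT
      have h4 : sg p (c * h / b) = c * h / b := by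
        rw [map_div₀, map_mul, map_natCast, map_natCast, hI1 p hp]
      rw [h4, hv, pow_one, neg_one_mul] at h3
      have h5 : (2 : K) * (c * h / b) = 0 := by linear_combination h3
      exact hy0 ((mul_eq_zero.mp h5).resolve_left two_ne_zero)
    have hrat : ∃ q : ℚ, h = q := by
      rw [hT1] at hxT
      have hc' : (c : K) ≠ 0 := by exact_mod_cast hc
      have hb' : (b : K) ≠ 0 := by exact_mod_cast hb
      have : (c * h / b : K) = 1 ∨ (c * h / b : K) = -1 := by
        apply sq_eq_sq_iff_eq_or_eq_neg.mp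
        rw [hxT]; simp
      rcases this with h3 | h3
      · refine ⟨b / c, ?_⟩
        push_cast
        field_simp at h3 ⊢
        linear_combination h3
      · refine ⟨-(b / c), ?_⟩
        push_cast
        field_simp at h3 ⊢
        linear_combination h3
    obtain ⟨q, hq⟩ := hrat
    have hPe : P = ∅ := by
      by_contra hne
      obtain ⟨i, hi⟩ := Finset.nonempty_iff_ne_empty.mpr hne
      have h3 := hP1 i hi
      rw [hq, map_ratCast, ← hq] at h3
      have h5 : (2 : K) * h = 0 := by linear_combination h3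
      exact hh ((mul_eq_zero.mp h5).resolve_left two_ne_zero)
    exact ⟨q, by rw [← hI2 hPe, hq]⟩
  -- normalised square roots
  have hnorm1 : ∀ i, ∃ y : K, ∃ b T : ℕ, b ≠ 0 ∧ Squarefree T ∧ D i = b ^ 2 * T ∧ y ^ 2 = T ∧
      s i = b * y := by
    intro i
    obtain ⟨b, T, hb, hT, h1, h2⟩ := normalize (hD0 i) (hsD i)
    refine ⟨s i / b, b, T, hb, hT, h1, h2, ?_⟩
    have hb' : (b : K) ≠ 0 := by exact_mod_cast hb
    field_simp
  have hnorm2 : ∀ i j, ∃ y : K, ∃ b T : ℕ, b ≠ 0 ∧ Squarefree T ∧ y ^ 2 = T ∧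
      s i * s j = b * y := by
    intro i j
    obtain ⟨b, T, hb, hT, h1, h2⟩ := normalize (x := s i * s j) (n := D i * D j)
      (mul_ne_zero (hD0 i) (hD0 j)) (by rw [mul_pow, hsD, hsD]; push_cast; ring)
    refine ⟨s i * s j / b, b, T, hb, hT, h2, ?_⟩
    have hb' : (b : K) ≠ 0 := by exact_mod_cast hb
    field_simp
  choose y1 b1 T1 hb1 hT1 hDb1 hy1 hsy1 using hnorm1
  choose y2 b2 T2 hb2 hT2 hy2 hsy2 using hnorm2
  have sgen : ∀ σ0 : K ≃ₐ[ℚ] K, ∃ S : Finset K,
      (∀ x ∈ S, σ0 x = x ∧ ∃ T : ℕ, Squarefree T ∧ x ^ 2 = T) ∧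
      ∀ ρ : K ≃ₐ[ℚ] K, (∀ x ∈ S, ρ x = x) → ρ = 1 ∨ ρ = σ0 := by
    intro σ0
    refine ⟨((Finset.univ.image y1) ∪ (Finset.univ.image fun p : Fin k × Fin k => y2 p.1 p.2)).filter
      (fun x => σ0 x = x), ?_, ?_⟩
    · intro x hx
      rw [Finset.mem_filter, Finset.mem_union, Finset.mem_image, Finset.mem_image] at hx
      refine ⟨hx.2, ?_⟩
      rcases hx.1 with ⟨i, -, rfl⟩ | ⟨p, -, rfl⟩
      · exact ⟨T1 i, hT1 i, hy1 i⟩
      · exact ⟨T2 _ _, hT2 _ _, hy2 _ _⟩
    · intro ρ hρ
      have f1 : ∀ i, σ0 (s i) = s i → ρ (s i) = s i := by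
        intro i hi
        have hb' : (b1 i : K) ≠ 0 := by exact_mod_cast hb1 i
        have h3 : σ0 (y1 i) = y1 i := by
          rw [hsy1 i, map_mul, map_natCast] at hi
          exact mul_left_cancel₀ hb' hi
        have h4 := hρ (y1 i) (by
          rw [Finset.mem_filter, Finset.mem_union]
          exact ⟨Or.inl (Finset.mem_image_of_mem _ (Finset.mem_univ _)), h3⟩)
        rw [hsy1 i, map_mul, map_natCast, h4]
      have f2 : ∀ i j, σ0 (s i * s j) = s i * s j → ρ (s i * s j) = s i * s j := by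
        intro i j hi
        have hb' : (b2 i j : K) ≠ 0 := by exact_mod_cast hb2 i j
        have h3 : σ0 (y2 i j) = y2 i j := by
          rw [hsy2 i j, map_mul, map_natCast] at hi
          exact mul_left_cancel₀ hb' hi
        have h4 := hρ (y2 i j) (by
          rw [Finset.mem_filter, Finset.mem_union]
          exact ⟨Or.inr (Finset.mem_image.mpr ⟨(i, j), Finset.mem_univ _, rfl⟩), h3⟩)
        rw [hsy2 i j, map_mul, map_natCast, h4]
      by_cases h1 : ρ = 1
      · exact Or.inl h1
      right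
      have : ∃ i, ρ (s i) ≠ s i := by
        by_contra hcon
        push Not at hcon
        exact h1 (aut_eq_of_gen hgen fun i => by rw [hcon i]; rfl)
      obtain ⟨i, hi⟩ := this
      have hρi : ρ (s i) = -s i := (aut_sq (hs i) ρ).resolve_left hi
      have hσi : σ0 (s i) = -s i := (aut_sq (hs i) σ0).resolve_left fun h => hi (f1 i h)
      apply aut_eq_of_gen hgen
      intro j
      rcases aut_sq (hs j) σ0 with h | h
      · rw [h, f1 j h]
      · rw [h]
        have h3 := f2 i j (by rw [map_mul, hσi, h]; ring)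
        rw [map_mul, hρi] at h3
        have h4 : s i * (ρ (s j) + s j) = 0 := by linear_combination -h3
        have h5 := (mul_eq_zero.mp h4).resolve_left (hs0 i)
        linear_combination h5
  refine ⟨{ sg := sg, comm := comm, invol := invol, sg_spec := spec,
            primes := (∏ i, D i).primeFactors.filter fun p => ∃ i, Odd ((D i).factorization p),
            primes_prime := ?_, sg_one := ?_, primes_spec := ?_, rat := rat, sgen := sgen,
            three := ?_, galois := isGalois_of_sq hs hgen, deg := ⟨k, hk, hdeg⟩ }⟩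
  · intro p hp
    exact Nat.prime_of_mem_primeFactors (Finset.mem_of_mem_filter _ hp)
  · intro p hp hnot x
    have : sg p = 1 := by
      apply aut_eq_of_gen hgen
      intro i
      rw [hsg']
      have hev : Even ((D i).factorization p) := by
        by_contra hodd
        rw [Nat.not_even_iff_odd] at hodd
        apply hnot
        rw [Finset.mem_filter]
        refine ⟨?_, i, hodd⟩
        rw [Nat.mem_primeFactors]
        refine ⟨hp, ?_, Finset.prod_ne_zero_iff.mpr fun i _ => hD0 i⟩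
        refine dvd_trans ?_ (Finset.dvd_prod_of_mem D (Finset.mem_univ i))
        by_contra hnd
        rw [Nat.factorization_eq_zero_of_not_dvd hnd] at hodd
        exact absurd hodd (by decide)
      rw [hev.neg_one_pow, one_mul]; rfl
    rw [this]; rfl
  · intro p hp
    obtain ⟨hpf, i, hodd⟩ := Finset.mem_filter.mp hp
    have hpp := Nat.prime_of_mem_primeFactors hpf
    refine ⟨y1 i, T1 i, hT1 i, hy1 i, ?_⟩
    by_contra hnd
    have h3 : (D i).factorization p = 2 * (b1 i).factorization p := by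
      have h4 : (T1 i).factorization p = 0 := Nat.factorization_eq_zero_of_not_dvd hnd
      rw [hDb1 i, Nat.factorization_mul (pow_ne_zero _ (hb1 i)) (hT1 i).ne_zero,
        Nat.factorization_pow]
      simp [h4]
    rw [h3] at hodd
    exact (Nat.not_odd_iff_even.mpr (even_two_mul _)) hodd
  · -- `three`
    intro ρ ρ'
    let c : Fin 3 → Fin k := Fin.castLE hk
    have hc : Function.Injective c := Fin.castLE_injective hk
    let pr : Finset (Fin 3) → K := fun A => ∏ i ∈ A, s (c i)
    let g : Finset (Fin 3) → Prop × Prop := fun A => (ρ (pr A) = pr A, ρ' (pr A) = pr A)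
    have hcard : Fintype.card (Bool × Bool) < Fintype.card (Finset (Fin 3)) := by decide
    obtain ⟨A, B, hAB, hgAB⟩ := Fintype.exists_ne_map_eq_of_card_lt
      (fun A : Finset (Fin 3) => ((decide (ρ (pr A) = pr A), decide (ρ' (pr A) = pr A)) : Bool × Bool))
      hcard
    have hprsq : ∀ A, pr A ^ 2 = ((∏ i ∈ A, D (c i) : ℕ) : K) := by
      intro A
      simp only [pr]
      rw [← Finset.prod_pow]
      push_cast
      exact Finset.prod_congr rfl fun i _ => hsD _
    have hpr0 : ∀ A, pr A ≠ 0 := fun A => Finset.prod_ne_zero_iff.mpr fun i _ => hs0 _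
    simp only [Prod.mk.injEq, decide_eq_decide] at hgAB
    have hmulfix : ∀ ρ : K ≃ₐ[ℚ] K, (ρ (pr A) = pr A ↔ ρ (pr B) = pr B) →
        ρ (pr A * pr B) = pr A * pr B := by
      intro ρ h
      by_cases hA : ρ (pr A) = pr A
      · rw [map_mul, hA, h.mp hA]
      · have hB : ρ (pr B) ≠ pr B := fun hB => hA (h.mpr hB)
        rw [map_mul, (sgn _ _ (hprsq A) ρ).resolve_left hA,
          (sgn _ _ (hprsq B) ρ).resolve_left hB]
        ring
    -- an index in the symmetric difference
    have hflipA : ∀ (A : Finset (Fin 3)) (i : Fin 3), i ∉ A → τ (c i) (pr A) = pr A := by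
      intro A i hi
      simp only [pr]
      rw [map_prod]
      exact Finset.prod_congr rfl fun l hl => hτ2 _ _ fun h => hi (hc h ▸ hl)
    have hflipA' : ∀ (A : Finset (Fin 3)) (i : Fin 3), i ∈ A → τ (c i) (pr A) = -pr A := by
      intro A i hi
      have h3 := hflipA (A.erase i) i (Finset.notMem_erase _ _)
      simp only [pr] at h3 ⊢
      rw [← Finset.mul_prod_erase _ _ hi, map_mul, h3, hτ1]
      ring
    obtain ⟨i, hi⟩ : ∃ i, τ (c i) (pr A * pr B) = -(pr A * pr B) := by
      by_contra hcon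
      push Not at hcon
      apply hAB
      ext i
      by_cases hA : i ∈ A <;> by_cases hB : i ∈ B
      · simp [hA, hB]
      · exfalso
        apply hcon i
        rw [map_mul, hflipA' A i hA, hflipA B i hB]; ring
      · exfalso
        apply hcon i
        rw [map_mul, hflipA A i hA, hflipA' B i hB]; ring
      · simp [hA, hB]
    obtain ⟨b, T, hb, hT, -, hx⟩ := normalize (x := pr A * pr B)
      (n := (∏ i ∈ A, D (c i)) * ∏ i ∈ B, D (c i))
      (mul_ne_zero (Finset.prod_ne_zero_iff.mpr fun i _ => hD0 _)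
        (Finset.prod_ne_zero_iff.mpr fun i _ => hD0 _))
      (by rw [mul_pow, hprsq, hprsq]; push_cast; ring)
    have hb' : (b : K) ≠ 0 := by exact_mod_cast hb
    refine ⟨pr A * pr B / b, T, hT, ?_, hx, ?_, ?_⟩
    · rintro rfl
      have h3 : τ (c i) (pr A * pr B / b) = -(pr A * pr B / b) := by
        rw [map_div₀, hi, map_natCast]; ring
      have h4 : (pr A * pr B / b : K) = 1 ∨ (pr A * pr B / b : K) = -1 := by
        apply sq_eq_sq_iff_eq_or_eq_neg.mp
        rw [hx]; simp
      have h5 : pr A * pr B / b ≠ (0 : K) := div_ne_zero (mul_ne_zero (hpr0 A) (hpr0 B)) hb'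
      have h6 : τ (c i) (pr A * pr B / b) = pr A * pr B / b := by
        rcases h4 with h4 | h4
        · rw [h4, map_one]
        · rw [h4, map_neg, map_one]
      rw [h6] at h3
      have h7 : (2 : K) * (pr A * pr B / b) = 0 := by linear_combination h3
      exact h5 ((mul_eq_zero.mp h7).resolve_left two_ne_zero)
    · rw [map_div₀, hmulfix ρ hgAB.1, map_natCast]
    · rw [map_div₀, hmulfix ρ' hgAB.2, map_natCast]

end Pool.Agent.Work.MP_eae946_nt.Full
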