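import Pool.Agent.Work.MP_eae946_nt.Full.CaseA7
import Pool.Agent.Work.MP_eae946_nt.Full.B3

namespace Pool.Agent.Work.MP_eae946_nt.Full

open NumberField

variable {K : Type*} [Field K] [NumberField K] [IsTotallyReal K]
variable {B : (Fin 3 → K) →ₗ[K] (Fin 3 → K) →ₗ[K] K}

/-- the main theorem in terms of lattices -/
theorem main_lat (M : MQ K) (h : Lat K (Fin 3 → K) B (stdL K)) : False := by
  by_cases hB : CaseB K
  · by_cases h2 : ∃ y : K, y ^ 2 = 2
    · exact caseB1 M hB h h2
    · by_cases hV : VOdd K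
      · by_cases h5 : ∃ y : K, y ^ 2 = 5
        · exact caseB2 M hB hV h h5
        · exact caseB3 M hB hV h h5
      · unfold VOdd at hV
        push Not at hV
        obtain ⟨x2, T, hT, hx2, hodd⟩ := hV
        rw [Nat.not_odd_iff_even] at hodd
        obtain ⟨n, hn⟩ := hodd
        have hn' : T = 2 * n := by omega
        subst hn'
        have hnodd : Odd n := by
          rw [← Nat.not_even_iff_odd]
          rintro ⟨m, hm⟩
          have : 2 * 2 ∣ 2 * n := ⟨m, by omega⟩
          have := hT 2 this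
          rw [Nat.isUnit_iff] at this
          omega
        exact caseB4 hB hnodd hx2 M h h2
  · unfold CaseB at hB
    push Not at hB
    obtain ⟨x, T, hT, hx, p, hp, hpT, hp2, hp4⟩ := hB
    have hp3 : p % 4 = 3 := by
      have := hp.eq_two_or_odd.resolve_left hp2
      omega
    exact caseA M h hT hx hp hp3 hpT

theorem main {k : ℕ} (hk : 3 ≤ k) (d : Fin k → ℤ) (s : Fin k → K)
    (hs : ∀ i, s i ^ 2 = (d i : K))
    (hgen : IntermediateField.adjoin ℚ (Set.range s) = ⊤)
    (hdeg : Module.finrank ℚ K = 2 ^ k) :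
    ¬ ∃ A : Matrix (Fin 3) (Fin 3) (𝓞 K), IsUniversalClassicalTernary K A := by
  rintro ⟨A, hA⟩
  obtain ⟨M⟩ := exists_MQ hs hgen hdeg hk
  obtain ⟨B, hB⟩ := lat_of_gram' hA
  exact main_lat M hB

end Pool.Agent.Work.MP_eae946_nt.Full
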