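import Pool.Agent.Work.MP_eae946_nt.Full.Diff
import Pool.Agent.Work.MP_eae946_nt.Full.Greedy
import Pool.Agent.Work.MP_eae946_nt.Full.MQBuild

namespace Pool.Agent.Work.MP_eae946_nt.Full

open NumberField

variable {K : Type*} [Field K] [NumberField K]

namespace MQ

variable (M : MQ K)

theorem nat_of_fixed [IsTotallyReal K] {h : K} (hi : IsIntegral ℤ h) (hh : h ≠ 0)
    (hfix : ∀ p, p.Prime → M.sg p h = h ∨ M.sg p h = -h) : ∃ n : ℕ, n ≠ 0 ∧ h ^ 2 = n := by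
  obtain ⟨q, hq⟩ := M.rat (h ^ 2) (by
    intro p hp
    rw [map_pow]
    rcases hfix p hp with h1 | h1 <;> rw [h1]; ring)
  obtain ⟨z, hz⟩ := int_of_rat_integral hq (hi.pow 2)
  have hz' : h ^ 2 = z := by rw [hq, hz]; simp
  have hpos := sq_pos_of_real hh hz'
  refine ⟨z.toNat, by omega, ?_⟩
  rw [hz']
  have : ((z.toNat : ℤ) : K) = z := by rw [Int.toNat_of_nonneg hpos.le]
  exact_mod_cast this.symm

/-- the maximal set of primes. -/
theorem exists_max [IsTotallyReal K] (I : Finset ℕ → K → Prop) {P0 : Finset ℕ}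
    (hP0p : ∀ p ∈ P0, p.Prime)
    (hstep : ∀ (P : Finset ℕ) (h : K) (p : ℕ), p.Prime → p ∉ P → P0 ⊆ P → I P h →
      M.sg p h ≠ h → I (insert p P) (h - M.sg p h))
    (hint : ∀ P h, I P h → IsIntegral ℤ h)
    {a : K} (ha : a ≠ 0) (h0 : I P0 a) (hP0 : ∀ p ∈ P0, M.sg p a = -a) :
    ∃ (P : Finset ℕ) (h : K), P0 ⊆ P ∧ I P h ∧ h ≠ 0 ∧ (∀ p ∈ P, p.Prime) ∧
      (∀ p ∈ P, M.sg p h = -h) ∧ (∀ p, p.Prime → p ∉ P → M.sg p h = h) ∧ (P = P0 → h = a) ∧
      ∃ (q : ℕ) (y : K), q ≠ 0 ∧ h = q * y ∧ y ^ 2 = ((∏ p ∈ P, p : ℕ) : K) ∧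
        Squarefree (∏ p ∈ P, p) := by
  obtain ⟨P, h, hPP, hPQ, hI, hh, h1, h2, h3⟩ := greedy' M.comm M.invol M.sg I M.primes
    (P0 := P0) (fun P h p hp => hstep P h p (M.primes_prime p hp)) ha h0 hP0
  have hprime : ∀ p ∈ P, p.Prime := by
    intro p hp
    rcases Finset.mem_union.mp (hPQ hp) with hp | hp
    · exact hP0p p hp
    · exact M.primes_prime p hp
  have hfix : ∀ p, p.Prime → p ∉ P → M.sg p h = h := by
    intro p hp hpP
    by_cases hpQ : p ∈ M.primes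
    · exact h2 p hpQ hpP
    · exact M.sg_one p hp hpQ h
  obtain ⟨n, hn, hhn⟩ := M.nat_of_fixed (hint P h hI) hh (by
    intro p hp
    by_cases hpP : p ∈ P
    · exact Or.inr (h1 p hpP)
    · exact Or.inl (hfix p hp hpP))
  obtain ⟨b, T, hb, hT, hnb, hy⟩ := normalize hn hhn
  have hb' : (b : K) ≠ 0 := by exact_mod_cast hb
  have hTP : ∏ p ∈ P, p = T := by
    rw [← Nat.prod_primeFactors_of_squarefree hT]
    apply Finset.prod_congr ?_ (fun _ _ => rfl)
    ext p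
    rw [Nat.mem_primeFactors]
    constructor
    · intro hp
      refine ⟨hprime p hp, ?_, hT.ne_zero⟩
      by_contra hnd
      have h4 := M.sg_fix (hprime p hp) hT.ne_zero hnd hy
      rw [map_div₀, map_natCast, h1 p hp] at h4
      field_simp at h4
      norm_num at h4
    · rintro ⟨hp, hpT, -⟩
      by_contra hnP
      have h4 := M.sg_neg hp hT hpT hy
      rw [map_div₀, map_natCast, hfix p hp hnP] at h4
      field_simp at h4
      norm_num at h4
  refine ⟨P, h, hPP, hI, hh, hprime, h1, hfix, h3, b, h / b, hb, ?_, ?_, ?_⟩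
  · field_simp
  · rw [hTP, hy]
  · rw [hTP]; exact hT

end MQ

end Pool.Agent.Work.MP_eae946_nt.Full
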