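import Pool.Agent.Work.MP_eae946_nt.Full.LatLem

namespace Pool.Agent.Work.MP_eae946_nt.Full

open NumberField

/-- the arithmetic of `a ^ 2 + r ^ 2 = T b ^ 2` over the integers -/
theorem no_norm_int {T q : ℕ} (hT : Squarefree T) (hq : q.Prime) (hq3 : q % 4 = 3)
    (hqT : q ∣ T) {a b r : ℤ} (hr : r ≠ 0) (h : a ^ 2 + r ^ 2 = T * b ^ 2) : False := by
  have h1 : a.natAbs ^ 2 + r.natAbs ^ 2 = T * b.natAbs ^ 2 := by
    zify
    rw [sq_abs, sq_abs, sq_abs]
    exact h
  have hr' : r.natAbs ≠ 0 := by omega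
  have hb : b.natAbs ≠ 0 := by
    intro hb
    rw [hb] at h1
    have : 0 < r.natAbs ^ 2 := by positivity
    omega
  have h2 := Nat.eq_sq_add_sq_iff.mp ⟨a.natAbs, r.natAbs, h1.symm⟩ q (by
    rw [Nat.mem_primeFactors]
    exact ⟨hq, hqT.mul_right _, mul_ne_zero hT.ne_zero (pow_ne_zero 2 hb)⟩) hq3
  have := Fact.mk hq
  have h3 : padicValNat q T = 1 := by
    rw [← Nat.factorization_def T hq]
    exact fact_eq_one hq hT hqT
  rw [padicValNat.mul hT.ne_zero (pow_ne_zero 2 hb), h3, padicValNat.pow] at h2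
  rw [Nat.even_add'] at h2
  simp at h2
  exact absurd h2 (by rw [Nat.not_odd_iff_even]; exact even_two_mul _)

theorem no_norm_rat {T q : ℕ} (hT : Squarefree T) (hq : q.Prime) (hq3 : q % 4 = 3)
    (hqT : q ∣ T) {a b r : ℚ} (hr : r ≠ 0) (h : a ^ 2 + r ^ 2 = T * b ^ 2) : False := by
  refine no_norm_int hT hq hq3 hqT (a := a.num * r.den * b.den) (b := b.num * a.den * r.den)
    (r := r.num * a.den * b.den) ?_ ?_
  · have h1 : r.num ≠ 0 := Rat.num_ne_zero.mpr hr
    have h2 : (a.den : ℤ) ≠ 0 := by exact_mod_cast a.den_nz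
    have h3 : (b.den : ℤ) ≠ 0 := by exact_mod_cast b.den_nz
    exact mul_ne_zero (mul_ne_zero h1 h2) h3
  · have ha : (a.num : ℚ) = a * a.den := (Rat.mul_den_eq_num a).symm
    have hb : (b.num : ℚ) = b * b.den := (Rat.mul_den_eq_num b).symm
    have hr : (r.num : ℚ) = r * r.den := (Rat.mul_den_eq_num r).symm
    have : ((a.num * r.den * b.den : ℤ) : ℚ) ^ 2 + ((r.num * a.den * b.den : ℤ) : ℚ) ^ 2
        = T * ((b.num * a.den * r.den : ℤ) : ℚ) ^ 2 := by
      push_cast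
      rw [ha, hb, hr]
      linear_combination ((a.den : ℚ) * b.den * r.den) ^ 2 * h
    exact_mod_cast this

variable {K : Type*} [Field K] [NumberField K]

/-- the norm as a product over the Galois group -/
noncomputable def Nm (y : K) : K := ∏ ρ : K ≃ₐ[ℚ] K, ρ y

theorem Nm_mul (x y : K) : Nm (x * y) = Nm x * Nm y := by
  unfold Nm
  rw [← Finset.prod_mul_distrib]
  exact Finset.prod_congr rfl fun ρ _ => map_mul ρ x y

theorem Nm_one : Nm (1 : K) = 1 := by
  unfold Nm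
  exact Finset.prod_eq_one fun ρ _ => map_one ρ

theorem Nm_ne_zero {y : K} (hy : y ≠ 0) : Nm y ≠ 0 :=
  Finset.prod_ne_zero_iff.mpr fun ρ _ h => hy ((map_eq_zero ρ).mp h)

theorem Nm_int {y : K} (hy : IsIntegral ℤ y) : IsIntegral ℤ (Nm y) :=
  IsIntegral.prod _ fun ρ _ => int_aut hy ρ

theorem Nm_fix (y : K) (ρ : K ≃ₐ[ℚ] K) : ρ (Nm y) = Nm y := by
  unfold Nm
  rw [map_prod]
  exact Fintype.prod_bijective (fun ρ' => ρ * ρ') (Group.mulLeft_bijective ρ) _ _ fun ρ' => rfl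

theorem Nm_natCast (n : ℕ) : Nm (n : K) = (n : K) ^ Fintype.card (K ≃ₐ[ℚ] K) := by
  unfold Nm
  rw [Finset.prod_congr rfl (fun ρ _ => map_natCast ρ n), Finset.prod_const, Finset.card_univ]

theorem Nm_intval (M : MQ K) {y : K} (hy : IsIntegral ℤ y) : ∃ n : ℤ, Nm y = n := by
  obtain ⟨q, hq⟩ := M.rat (Nm y) (fun p _ => Nm_fix y _)
  obtain ⟨n, hn⟩ := int_of_rat_integral hq (Nm_int hy)
  exact ⟨n, by rw [hq, hn]; simp⟩

/-- the norm of a unit -/
theorem Nm_unit (M : MQ K) {y y' : K} (hy : IsIntegral ℤ y) (hy' : IsIntegral ℤ y')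
    (h : y * y' = 1) : Nm y = 1 ∨ Nm y = -1 := by
  obtain ⟨n, hn⟩ := Nm_intval M hy
  obtain ⟨n', hn'⟩ := Nm_intval M hy'
  have h1 : n * n' = 1 := by
    have : (n : K) * n' = 1 := by rw [← hn, ← hn', ← Nm_mul, h, Nm_one]
    exact_mod_cast this
  rcases Int.eq_one_or_neg_one_of_mul_eq_one h1 with h2 | h2
  · left; rw [hn, h2]; simp
  · right; rw [hn, h2]; simp

/-- the sign of the norm -/
theorem posnorm (M : MQ K) {T q : ℕ} (hT : Squarefree T) {s0 : K} (hs : s0 ^ 2 = T)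
    (hq : q.Prime) (hq3 : q % 4 = 3) (hqT : q ∣ T) {y : K} {r : ℚ} (hr : r ≠ 0)
    (h : Nm y = ((-r ^ 2 : ℚ) : K)) : False := by
  classical
  set τ := M.sg q with hτ
  have hτs : τ s0 = -s0 := M.sg_neg hq hT hqT hs
  have s00 : s0 ≠ 0 := MQ.root_ne_zero hT.ne_zero hs
  have hns : ∀ x : K, x ≠ 0 → -x ≠ x := by
    intro x hx h
    have : (2 : K) * x = 0 := by linear_combination -h
    exact hx ((mul_eq_zero.mp this).resolve_left two_ne_zero)
  set H : Finset (K ≃ₐ[ℚ] K) := Finset.univ.filter fun ρ => ρ s0 = s0 with hH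
  set z : K := ∏ ρ ∈ H, ρ y with hz
  have hNz : Nm y = z * τ z := by
    unfold Nm
    rw [← Finset.prod_filter_mul_prod_filter_not Finset.univ (fun ρ : K ≃ₐ[ℚ] K => ρ s0 = s0)]
    congr 1
    rw [hz, map_prod]
    symm
    refine Finset.prod_bij (fun ρ _ => τ * ρ) ?_ ?_ ?_ ?_
    · intro ρ hρ
      rw [hH, Finset.mem_filter] at hρ
      rw [Finset.mem_filter]
      refine ⟨Finset.mem_univ _, ?_⟩
      rw [AlgEquiv.mul_apply, hρ.2, hτs]
      exact hns _ s00
    · intro ρ _ ρ' _ h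
      exact mul_left_cancel h
    · intro ρ hρ
      rw [Finset.mem_filter] at hρ
      refine ⟨τ * ρ, ?_, ?_⟩
      · rw [hH, Finset.mem_filter]
        refine ⟨Finset.mem_univ _, ?_⟩
        rw [AlgEquiv.mul_apply, MQ.neg_of_ne hs hρ.2, map_neg, hτs, neg_neg]
      · ext x
        rw [AlgEquiv.mul_apply, AlgEquiv.mul_apply, M.invol]
    · intro ρ _; rfl
  -- the behaviour of `z`
  have hzfix : ∀ ρ : K ≃ₐ[ℚ] K, ρ s0 = s0 → ρ z = z := by
    intro ρ hρ
    rw [hz, map_prod]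
    refine Finset.prod_bij (fun ρ' _ => ρ * ρ') ?_ ?_ ?_ ?_
    · intro ρ' hρ'
      rw [hH, Finset.mem_filter] at hρ' ⊢
      exact ⟨Finset.mem_univ _, by rw [AlgEquiv.mul_apply, hρ'.2, hρ]⟩
    · intro ρ' _ ρ'' _ h
      exact mul_left_cancel h
    · intro ρ' hρ'
      rw [hH, Finset.mem_filter] at hρ'
      refine ⟨ρ * ρ', ?_, ?_⟩
      · rw [hH, Finset.mem_filter]
        exact ⟨Finset.mem_univ _, by rw [AlgEquiv.mul_apply, hρ'.2, hρ]⟩
      · ext x
        rw [AlgEquiv.mul_apply, AlgEquiv.mul_apply, M.invol]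
    · intro ρ' _; rfl
  have hzneg : ∀ ρ : K ≃ₐ[ℚ] K, ρ s0 ≠ s0 → ρ z = τ z := by
    intro ρ hρ
    have h1 := hzfix (τ * ρ) (by
      rw [AlgEquiv.mul_apply, MQ.neg_of_ne hs hρ, map_neg, hτs, neg_neg])
    rw [AlgEquiv.mul_apply] at h1
    have h2 := congrArg τ h1
    rw [M.invol] at h2
    exact h2
  obtain ⟨a, ha⟩ := M.rat ((z + τ z) / 2) (by
    intro p _
    by_cases hp : M.sg p s0 = s0
    · rw [map_div₀, map_add, M.comm, hzfix _ hp, map_ofNat]
    · rw [map_div₀, map_add, M.comm, hzneg _ hp, M.invol, map_ofNat]; ring)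
  obtain ⟨b, hb⟩ := M.rat ((z - τ z) / (2 * s0)) (by
    intro p _
    by_cases hp : M.sg p s0 = s0
    · rw [map_div₀, map_sub, M.comm, hzfix _ hp, map_mul, map_ofNat, hp]
    · rw [map_div₀, map_sub, M.comm, hzneg _ hp, M.invol, map_mul, map_ofNat,
        MQ.neg_of_ne hs hp]
      field_simp
      ring)
  have hzz : z * τ z = (a : K) ^ 2 - T * (b : K) ^ 2 := by
    rw [← ha, ← hb, ← hs]
    field_simp
    ring
  refine no_norm_rat hT hq hq3 hqT (a := a) (b := b) (r := r) hr ?_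
  have h2 : (a : K) ^ 2 + (r : K) ^ 2 = T * (b : K) ^ 2 := by
    rw [hNz, hzz] at h
    push_cast at h
    linear_combination h
  exact_mod_cast h2

variable [IsTotallyReal K]

/-- all real embeddings are conjugate -/
theorem emb_conj (M : MQ K) (σ0 σ : K →+* ℝ) : ∃ ρ : K ≃ₐ[ℚ] K, ∀ x, σ x = σ0 (ρ x) := by
  classical
  have hG := M.galois
  let f : (K ≃ₐ[ℚ] K) → (K →+* ℂ) := fun ρ => (Complex.ofRealHom.comp σ0).comp (ρ : K →+* K)
  have hf : Function.Injective f := by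
    intro ρ ρ' h
    ext x
    have := DFunLike.congr_fun h x
    simp only [f, RingHom.comp_apply, RingHom.coe_coe] at this
    exact (Complex.ofRealHom.comp σ0).injective this
  have hcard : Fintype.card (K →+* ℂ) ≤ Fintype.card (K ≃ₐ[ℚ] K) := by
    rw [Embeddings.card, ← Nat.card_eq_fintype_card, IsGalois.card_aut_eq_finrank]
  have hsurj : Function.Surjective f := by
    have : Function.Bijective f := by
      rw [Fintype.bijective_iff_injective_and_card]
      exact ⟨hf, le_antisymm (Fintype.card_le_of_injective f hf) hcard⟩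
    exact this.2
  obtain ⟨ρ, hρ⟩ := hsurj (Complex.ofRealHom.comp σ)
  refine ⟨ρ, fun x => ?_⟩
  have := DFunLike.congr_fun hρ x
  simp only [f, RingHom.comp_apply, RingHom.coe_coe] at this
  exact Complex.ofRealHom.injective this.symm

theorem card_G (M : MQ K) : Fintype.card (K ≃ₐ[ℚ] K) = Units.rank K + 1 := by
  classical
  have hG := M.galois
  rw [← Nat.card_eq_fintype_card, IsGalois.card_aut_eq_finrank, IsTotallyReal.finrank]
  have h1 : Fintype.card (InfinitePlace K) = InfinitePlace.nrRealPlaces K := by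
    rw [InfinitePlace.card_eq_nrRealPlaces_add_nrComplexPlaces,
      IsTotallyReal.nrComplexPlaces_eq_zero, add_zero]
  have h2 : 0 < Fintype.card (InfinitePlace K) := Fintype.card_pos
  unfold Units.rank
  omega

end Pool.Agent.Work.MP_eae946_nt.Full
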