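import Pool.Agent.Work.MP_eae946_nt.Full.MQ
import Pool.Agent.Work.MP_eae946_nt.Index

namespace Pool.Agent.Work.MP_eae946_nt.Full

open NumberField

variable {K : Type*} [Field K] [NumberField K]

theorem int_aut {x : K} (hx : IsIntegral ℤ x) (ρ : K ≃ₐ[ℚ] K) : IsIntegral ℤ (ρ x) :=
  hx.map (ρ.toAlgHom.restrictScalars ℤ)

omit [NumberField K] in
theorem int_nat (n : ℕ) : IsIntegral ℤ (n : K) := by
  have := isIntegral_algebraMap (R := ℤ) (A := K) (x := (n : ℤ))
  simpa using this

omit [NumberField K] in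
theorem int_int (n : ℤ) : IsIntegral ℤ (n : K) := isIntegral_algebraMap (R := ℤ) (A := K) (x := n)

omit [NumberField K] in
theorem int_of_sq {x : K} (h : IsIntegral ℤ (x ^ 2)) : IsIntegral ℤ x :=
  IsIntegral.of_pow (n := 2) (by norm_num) h

omit [NumberField K] in
theorem int_two : IsIntegral ℤ (2 : K) := by simpa using int_nat (K := K) 2

omit [NumberField K] in
theorem int_ofNat (n : ℕ) [n.AtLeastTwo] : IsIntegral ℤ (OfNat.ofNat n : K) := by
  have := int_nat (K := K) (OfNat.ofNat n)
  rwa [Nat.cast_ofNat] at this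

/-- if `c a / p` is integral and `c` is prime to `p` then `a / p` is integral. -/
theorem int_div_of_coprime {a : K} {p : ℕ} {c : ℤ} (hc : IsCoprime c (p : ℤ)) (hp : (p : K) ≠ 0)
    (ha : IsIntegral ℤ a) (h : IsIntegral ℤ (c * a / p)) : IsIntegral ℤ (a / p) := by
  obtain ⟨u, v, huv⟩ := hc
  have h1 : a / p = u * (c * a / p) + v * a := by
    have h2 : (u : K) * c + v * p = 1 := by exact_mod_cast congrArg (Int.cast : ℤ → K) huv
    field_simp
    linear_combination -a * h2
  rw [h1]
  exact ((int_int u).mul h).add ((int_int v).mul ha)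

theorem base_reduced {p : ℕ} (hp : p.Prime) {a : K} {q : ℚ} (hq : a = q) (ha : IsIntegral ℤ a)
    (h : IsIntegral ℤ (a ^ 2 / p)) : IsIntegral ℤ (a / p) := by
  obtain ⟨z, hz⟩ := int_of_rat_integral hq ha
  have haz : a = z := by rw [hq, hz]; simp
  obtain ⟨y, hy⟩ := int_of_rat_integral (x := a ^ 2 / p) (q := (z : ℚ) ^ 2 / p)
    (by rw [haz]; push_cast; ring) h
  have hp0 : (p : ℚ) ≠ 0 := by exact_mod_cast hp.ne_zero
  have h1 : z ^ 2 = y * p := by
    have : (z : ℚ) ^ 2 = y * p := by rw [← hy]; field_simp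
    exact_mod_cast this
  have h2 : (p : ℤ) ∣ z := by
    have : (p : ℤ) ∣ z ^ 2 := Dvd.intro_left y h1.symm
    exact Int.Prime.dvd_pow' hp this
  obtain ⟨w, hw⟩ := h2
  have hpK : (p : K) ≠ 0 := by exact_mod_cast hp.ne_zero
  have : a / p = w := by
    rw [haz, hw]; push_cast; field_simp
  rw [this]; exact int_int w

namespace MQ

variable (M : MQ K)

omit M in
theorem neg_of_ne {x : K} {T : ℕ} (hx : x ^ 2 = T) {ρ : K ≃ₐ[ℚ] K} (h : ρ x ≠ x) : ρ x = -x :=
  (aut_sq (x := x) (a := (T : ℤ)) (by rw [hx]; simp) ρ).resolve_left h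

include M in
theorem reduced_odd {p : ℕ} (hp : p.Prime) (hp2 : p ≠ 2) (σ0 : K ≃ₐ[ℚ] K)
    (hS : ∀ (x : K) (T : ℕ), Squarefree T → x ^ 2 = T → σ0 x = x → ¬ p ∣ T)
    {a : K} (ha : IsIntegral ℤ a) (hfix : σ0 a = a) (h : IsIntegral ℤ (a ^ 2 / p)) :
    IsIntegral ℤ (a / p) := by
  classical
  obtain ⟨S, hS1, hS2⟩ := M.sgen σ0
  have hpK : (p : K) ≠ 0 := by exact_mod_cast hp.ne_zero
  have key : ∀ R : Finset K, (∀ x ∈ R, ∃ T : ℕ, x ^ 2 = T ∧ ¬ p ∣ T) → ∀ a : K,
      (∀ ρ : K ≃ₐ[ℚ] K, (∀ x ∈ R, ρ x = x) → ρ a = a) → IsIntegral ℤ a →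
      IsIntegral ℤ (a ^ 2 / p) → IsIntegral ℤ (a / p) := by
    intro R
    induction R using Finset.induction_on with
    | empty =>
      intro _ a ha1 ha2 ha3
      obtain ⟨q, hq⟩ := M.rat a (fun p _ => ha1 _ (by simp))
      exact base_reduced hp hq ha2 ha3
    | insert x R hxR ih =>
      intro hR a ha1 ha2 ha3
      have hR' : ∀ y ∈ R, ∃ T : ℕ, y ^ 2 = T ∧ ¬ p ∣ T :=
        fun y hy => hR y (Finset.mem_insert_of_mem hy)
      obtain ⟨T, hT, hpT⟩ := hR x (Finset.mem_insert_self _ _)
      by_cases hex : ∃ τ : K ≃ₐ[ℚ] K, (∀ y ∈ R, τ y = y) ∧ τ x ≠ x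
      · obtain ⟨τ, hτ1, hτ2⟩ := hex
        have hτx := neg_of_ne hT hτ2
        -- the behaviour of automorphisms on `a`
        have hact : ∀ ρ : K ≃ₐ[ℚ] K, (∀ y ∈ R, ρ y = y) →
            (ρ x = x ∧ ρ a = a) ∨ (ρ x = -x ∧ ρ a = τ a) := by
          intro ρ hρ
          by_cases hρx : ρ x = x
          · left
            refine ⟨hρx, ha1 ρ ?_⟩
            intro y hy
            rcases Finset.mem_insert.mp hy with rfl | hy
            · exact hρx
            · exact hρ y hy
          · right
            have hρx' := neg_of_ne hT hρx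
            refine ⟨hρx', ?_⟩
            have h3 := ha1 (ρ * τ) (by
              intro y hy
              rw [AlgEquiv.mul_apply]
              rcases Finset.mem_insert.mp hy with rfl | hy
              · rw [hτx, map_neg, hρx', neg_neg]
              · rw [hτ1 y hy, hρ y hy])
            rw [AlgEquiv.mul_apply] at h3
            have h4 := congrArg ρ h3
            rw [M.invol] at h4
            exact h4.symm
        have iτa : IsIntegral ℤ (τ a) := int_aut ha2 τ
        have hττ : τ (τ a) = a := M.invol _ _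
        set n := a * τ a with hn
        set P := a + τ a with hP
        set e := (a - τ a) * x with he
        have in_ : IsIntegral ℤ n := ha2.mul iτa
        have iP : IsIntegral ℤ P := ha2.add iτa
        have ix : IsIntegral ℤ x := int_of_sq (by rw [hT]; exact int_nat T)
        have ie : IsIntegral ℤ e := (ha2.sub iτa).mul ix
        have i2 : IsIntegral ℤ (τ a ^ 2 / p) := by
          have := int_aut ha3 τ
          rwa [map_div₀, map_pow, map_natCast] at this
        -- n / p integral
        have hn1 : IsIntegral ℤ (n / p) := by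
          apply int_of_sq
          have : (n / p) ^ 2 = (a ^ 2 / p) * (τ a ^ 2 / p) := by rw [hn]; field_simp
          rw [this]
          exact ha3.mul i2
        have hPfix : ∀ ρ : K ≃ₐ[ℚ] K, (∀ y ∈ R, ρ y = y) → ρ P = P := by
          intro ρ hρ
          rcases hact ρ hρ with ⟨-, h2⟩ | ⟨-, h2⟩
          · rw [hP, map_add, M.comm, h2]
          · rw [hP, map_add, M.comm, h2, hττ]; ring
        have hefix : ∀ ρ : K ≃ₐ[ℚ] K, (∀ y ∈ R, ρ y = y) → ρ e = e := by
          intro ρ hρ
          rcases hact ρ hρ with ⟨h1, h2⟩ | ⟨h1, h2⟩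
          · rw [he, map_mul, map_sub, M.comm, h2, h1]
          · rw [he, map_mul, map_sub, M.comm, h2, hττ, h1]; ring
        have hP1 : IsIntegral ℤ (P ^ 2 / p) := by
          have : P ^ 2 / p = a ^ 2 / p + τ a ^ 2 / p + 2 * (n / p) := by
            rw [hP, hn]; field_simp; ring
          rw [this]
          exact (ha3.add i2).add (int_two.mul hn1)
        have hP2 := ih hR' P hPfix iP hP1
        have he1 : IsIntegral ℤ (e ^ 2 / p) := by
          have : e ^ 2 / p = T * (P ^ 2 / p - 4 * (n / p)) := by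
            rw [he, mul_pow, hT, hP, hn]; field_simp; ring
          rw [this]
          exact (int_nat T).mul (hP1.sub ((int_ofNat 4).mul hn1))
        have he2 := ih hR' e hefix ie he1
        apply int_div_of_coprime (c := ((2 * T : ℕ) : ℤ)) ?_ hpK ha2
        · have : ((2 * T : ℕ) : ℤ) * a / p = T * (P / p) + (e / p) * x := by
            rw [he, hP]; push_cast; field_simp; rw [hT]; ring
          rw [this]
          exact ((int_nat T).mul hP2).add (he2.mul ix)
        · rw [Nat.isCoprime_iff_coprime]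
          apply Nat.Coprime.mul_left
          · exact (Nat.coprime_primes Nat.prime_two hp).mpr (Ne.symm hp2)
          · exact ((Nat.Prime.coprime_iff_not_dvd hp).mpr hpT).symm
      · push Not at hex
        refine ih hR' a (fun ρ hρ => ha1 ρ ?_) ha2 ha3
        intro y hy
        rcases Finset.mem_insert.mp hy with rfl | hy
        · exact hex ρ hρ
        · exact hρ y hy
  refine key S (fun x hx => ?_) a (fun ρ hρ => ?_) ha h
  · obtain ⟨h1, T, h2, h3⟩ := hS1 x hx
    exact ⟨T, h3, hS x T h2 h3 h1⟩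
  · rcases hS2 ρ hρ with h1 | h1
    · rw [h1]; rfl
    · rw [h1]; exact hfix

include M in
theorem reduced_two (σ0 : K ≃ₐ[ℚ] K)
    (hS : ∀ (x : K) (T : ℕ), Squarefree T → x ^ 2 = T → σ0 x = x → T % 4 = 1)
    {a : K} (ha : IsIntegral ℤ a) (hfix : σ0 a = a) (h : IsIntegral ℤ (a ^ 2 / 2)) :
    IsIntegral ℤ (a / 2) := by
  classical
  obtain ⟨S, hS1, hS2⟩ := M.sgen σ0
  have key : ∀ R : Finset K, (∀ x ∈ R, ∃ T : ℕ, x ^ 2 = T ∧ T % 4 = 1) → ∀ a : K,
      (∀ ρ : K ≃ₐ[ℚ] K, (∀ x ∈ R, ρ x = x) → ρ a = a) → IsIntegral ℤ a →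
      IsIntegral ℤ (a ^ 2 / 2) → IsIntegral ℤ (a / 2) := by
    intro R
    induction R using Finset.induction_on with
    | empty =>
      intro _ a ha1 ha2 ha3
      obtain ⟨q, hq⟩ := M.rat a (fun p _ => ha1 _ (by simp))
      have := base_reduced Nat.prime_two hq ha2 (by exact_mod_cast ha3)
      exact_mod_cast this
    | insert x R hxR ih =>
      intro hR a ha1 ha2 ha3
      have hR' : ∀ y ∈ R, ∃ T : ℕ, y ^ 2 = T ∧ T % 4 = 1 :=
        fun y hy => hR y (Finset.mem_insert_of_mem hy)
      obtain ⟨T, hT, hpT⟩ := hR x (Finset.mem_insert_self _ _)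
      by_cases hex : ∃ τ : K ≃ₐ[ℚ] K, (∀ y ∈ R, τ y = y) ∧ τ x ≠ x
      · obtain ⟨τ, hτ1, hτ2⟩ := hex
        have hτx := neg_of_ne hT hτ2
        have hact : ∀ ρ : K ≃ₐ[ℚ] K, (∀ y ∈ R, ρ y = y) →
            (ρ x = x ∧ ρ a = a) ∨ (ρ x = -x ∧ ρ a = τ a) := by
          intro ρ hρ
          by_cases hρx : ρ x = x
          · left
            refine ⟨hρx, ha1 ρ ?_⟩
            intro y hy
            rcases Finset.mem_insert.mp hy with rfl | hy
            · exact hρx
            · exact hρ y hy
          · right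
            have hρx' := neg_of_ne hT hρx
            refine ⟨hρx', ?_⟩
            have h3 := ha1 (ρ * τ) (by
              intro y hy
              rw [AlgEquiv.mul_apply]
              rcases Finset.mem_insert.mp hy with rfl | hy
              · rw [hτx, map_neg, hρx', neg_neg]
              · rw [hτ1 y hy, hρ y hy])
            rw [AlgEquiv.mul_apply] at h3
            have h4 := congrArg ρ h3
            rw [M.invol] at h4
            exact h4.symm
        have iτa : IsIntegral ℤ (τ a) := int_aut ha2 τ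
        have hττ : τ (τ a) = a := M.invol _ _
        set n := a * τ a with hn
        set P := a + τ a with hP
        set e := (a - τ a) * x with he
        have in_ : IsIntegral ℤ n := ha2.mul iτa
        have iP : IsIntegral ℤ P := ha2.add iτa
        have ix : IsIntegral ℤ x := int_of_sq (by rw [hT]; exact int_nat T)
        have ie : IsIntegral ℤ e := (ha2.sub iτa).mul ix
        have i2 : IsIntegral ℤ (τ a ^ 2 / 2) := by
          have := int_aut ha3 τ
          rwa [map_div₀, map_pow, map_ofNat] at this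
        have hn1 : IsIntegral ℤ (n / 2) := by
          apply int_of_sq
          have : (n / 2) ^ 2 = (a ^ 2 / 2) * (τ a ^ 2 / 2) := by rw [hn]; field_simp
          rw [this]
          exact ha3.mul i2
        have hPfix : ∀ ρ : K ≃ₐ[ℚ] K, (∀ y ∈ R, ρ y = y) → ρ P = P := by
          intro ρ hρ
          rcases hact ρ hρ with ⟨-, h2⟩ | ⟨-, h2⟩
          · rw [hP, map_add, M.comm, h2]
          · rw [hP, map_add, M.comm, h2, hττ]; ring
        have hefix : ∀ ρ : K ≃ₐ[ℚ] K, (∀ y ∈ R, ρ y = y) → ρ e = e := by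
          intro ρ hρ
          rcases hact ρ hρ with ⟨h1, h2⟩ | ⟨h1, h2⟩
          · rw [he, map_mul, map_sub, M.comm, h2, h1]
          · rw [he, map_mul, map_sub, M.comm, h2, hττ, h1]; ring
        have hP1 : IsIntegral ℤ (P ^ 2 / 2) := by
          have : P ^ 2 / 2 = a ^ 2 / 2 + τ a ^ 2 / 2 + 2 * (n / 2) := by
            rw [hP, hn]; field_simp; ring
          rw [this]
          exact (ha3.add i2).add (int_two.mul hn1)
        have hP2 := ih hR' P hPfix iP hP1
        -- `e = 2 e₁`
        have hE : e ^ 2 = T * (P ^ 2 - 4 * n) := by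
          rw [he, mul_pow, hT, hP, hn]; ring
        have he2 : IsIntegral ℤ (e / 2) := by
          apply int_of_sq
          have : (e / 2) ^ 2 = T * ((P / 2) ^ 2 - n) := by
            rw [div_pow, hE]; ring
          rw [this]
          exact (int_nat T).mul ((hP2.pow 2).sub in_)
        -- `(e₁ - p₁)^2 / 2` integral
        obtain ⟨u, hu⟩ : ∃ u : ℕ, T = 4 * u + 1 := ⟨T / 4, by omega⟩
        have hd1 : IsIntegral ℤ ((e / 2 - P / 2) ^ 2 / 2) := by
          have : (e / 2 - P / 2) ^ 2 / 2
              = (P / 2) ^ 2 + 2 * u * (P / 2) ^ 2 - T * (n / 2) - (e / 2) * (P / 2) := by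
            have h5 : (T : K) = 4 * u + 1 := by rw [hu]; push_cast; ring
            rw [h5] at hE ⊢
            linear_combination hE / 8
          rw [this]
          exact (((hP2.pow 2).add ((int_two.mul (int_nat u)).mul (hP2.pow 2))).sub
            ((int_nat T).mul hn1)).sub (he2.mul hP2)
        have hdfix : ∀ ρ : K ≃ₐ[ℚ] K, (∀ y ∈ R, ρ y = y) →
            ρ (e / 2 - P / 2) = e / 2 - P / 2 := by
          intro ρ hρ
          rw [map_sub, map_div₀, map_div₀, hefix ρ hρ, hPfix ρ hρ, map_ofNat]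
        have hd2 := ih hR' (e / 2 - P / 2) hdfix (he2.sub hP2) hd1
        -- `(T + x) / 2` is integral
        have hTx : IsIntegral ℤ ((T + x) / 2) := by
          refine int_of_quadratic (a := (T : ℤ)) (b := -(T * u : ℤ)) ?_
          have h5 : (T : K) = 4 * u + 1 := by rw [hu]; push_cast; ring
          push_cast
          rw [div_pow]
          have h6 : x ^ 2 = 4 * u + 1 := by rw [hT, h5]
          rw [h5]
          linear_combination h6 / 4
        -- conclusion
        have h7 : IsIntegral ℤ (((T : ℕ) : ℤ) * a / ((2 : ℕ) : K)) := by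
          have : ((T : ℕ) : ℤ) * a / ((2 : ℕ) : K)
              = (P / 2) * ((T + x) / 2) + ((e / 2 - P / 2) / 2) * x := by
            have h8 : e * x = T * (a - τ a) := by rw [he, mul_assoc, ← sq, hT]; ring
            push_cast
            linear_combination (1 / 4 : K) * (hP : P = a + τ a) * (T : K) - h8 / 4 + 0 * hn
          rw [this]
          exact (hP2.mul hTx).add (hd2.mul ix)
        have h9 := int_div_of_coprime (p := 2) (c := ((T : ℕ) : ℤ)) ?_ (by norm_num) ha2 h7
        · exact_mod_cast h9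
        · rw [Nat.isCoprime_iff_coprime, Nat.coprime_comm,
            Nat.Prime.coprime_iff_not_dvd Nat.prime_two]
          omega
      · push Not at hex
        refine ih hR' a (fun ρ hρ => ha1 ρ ?_) ha2 ha3
        intro y hy
        rcases Finset.mem_insert.mp hy with rfl | hy
        · exact hex ρ hρ
        · exact hρ y hy
  refine key S (fun x hx => ?_) a (fun ρ hρ => ?_) ha h
  · obtain ⟨h1, T, h2, h3⟩ := hS1 x hx
    exact ⟨T, h3, hS x T h2 h3 h1⟩
  · rcases hS2 ρ hρ with h1 | h1
    · rw [h1]; rfl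
    · rw [h1]; exact hfix

end MQ

end Pool.Agent.Work.MP_eae946_nt.Full
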