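import Pool.Agent.Work.MP_eae946_nt.Full.CaseB

namespace Pool.Agent.Work.MP_eae946_nt.Full

open NumberField

theorem list_class (P : Finset ℕ) (hP : ∀ p ∈ P, p.Prime ∧ p % 4 = 1) (hne : P.Nonempty)
    (h : ∏ p ∈ P, p ≤ 10 * 4 ^ P.card) :
    P = {5} ∨ P = {13} ∨ P = {17} ∨ P = {29} ∨ P = {37} ∨ P = {5, 13} ∨ P = {5, 17} ∨
      P = {5, 29} := by
  classical
  have h65 := arith65 P hP
  have hcard : P.card ≤ 2 := by
    by_contra hcon
    push Not at hcon
    have h1 : (16 : ℕ) ^ P.card = 4 ^ P.card * 4 ^ P.card := by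
      rw [← mul_pow]; norm_num
    have h2 : 4 ^ 3 ≤ 4 ^ P.card := Nat.pow_le_pow_right (by norm_num) hcon
    rw [h1] at h65
    nlinarith
  have hpos : 0 < P.card := Finset.card_pos.mpr hne
  have hc : P.card = 1 ∨ P.card = 2 := by omega
  -- classification of the small primes
  have small : ∀ p, p.Prime → p % 4 = 1 → p ≤ 40 → p = 5 ∨ p = 13 ∨ p = 17 ∨ p = 29 ∨ p = 37 := by
    intro p hp h4 h40
    interval_cases p <;> first | omega | (exfalso; revert hp; norm_num)
  rcases hc with hc | hc
  · obtain ⟨p, rfl⟩ := Finset.card_eq_one.mp hc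
    have hp := hP p (by simp)
    rw [hc] at h
    simp only [Finset.prod_singleton] at h
    rcases small p hp.1 hp.2 (by omega) with rfl | rfl | rfl | rfl | rfl <;> simp
  · obtain ⟨p, q, hpq, rfl⟩ := Finset.card_eq_two.mp hc
    have hp := hP p (by simp)
    have hq := hP q (by simp)
    rw [hc, Finset.prod_pair hpq] at h
    have p5 := prime_ge_five hp.1 hp.2
    have q5 := prime_ge_five hq.1 hq.2
    have p40 : p ≤ 40 := by nlinarith
    have q40 : q ≤ 40 := by nlinarith
    rcases small p hp.1 hp.2 p40 with rfl | rfl | rfl | rfl | rfl <;>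
      rcases small q hq.1 hq.2 q40 with rfl | rfl | rfl | rfl | rfl <;>
      first
        | (exfalso; exact hpq rfl)
        | (exfalso; omega)
        | (simp; done)
        | (simp [Finset.pair_comm]; done)

variable {K : Type*} [Field K] [NumberField K]

/-- the bookkeeping for `g = Δ_P t` -/
structure J (M : MQ K) (t : K) (c : ℝ) (P : Finset ℕ) (g : K) : Prop where
  int : IsIntegral ℤ g
  fx : Fx M g
  neg : ∀ p ∈ P, M.sg p g = -g
  bd : ∀ σ : K →+* ℝ, 4 * (σ g) ^ 2 ≤ 4 ^ P.card * c
  tr : ∀ q, M.sg q t = t → M.sg q g = g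

theorem J.step {M : MQ K} {t : K} {c : ℝ} {P : Finset ℕ} {g : K} (h : J M t c P g) {p : ℕ}
    (hp : p ∉ P) : J M t c (insert p P) (g - M.sg p g) := by
  refine ⟨h.int.sub (int_aut h.int _), h.fx.sub (h.fx.aut _), ?_, ?_, ?_⟩
  · intro q hq
    rcases Finset.mem_insert.mp hq with rfl | hq
    · rw [map_sub, M.invol]; ring
    · rw [map_sub, M.comm, h.neg q hq, map_neg]; ring
  · intro σ
    have e1 := h.bd σ
    have e2 := h.bd (σ.comp (M.sg p : K →+* K))
    simp only [RingHom.comp_apply, RingHom.coe_coe] at e2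
    rw [Finset.card_insert_of_notMem hp, show (4 : ℝ) ^ (P.card + 1) = 4 ^ P.card * 4 from
      pow_succ _ _, map_sub]
    nlinarith [sq_nonneg (σ g + σ (M.sg p g))]
  · intro q hq
    rw [map_sub, M.comm, h.tr q hq]

theorem J.start {M : MQ K} {t : K} {c : ℝ} (hi : IsIntegral ℤ t) (hF : Fx M t)
    (hc : ∀ (ρ : K ≃ₐ[ℚ] K) (σ : K →+* ℝ), (σ (t - ρ t)) ^ 2 ≤ c) (p : ℕ) :
    J M t c {p} (t - M.sg p t) := by
  refine ⟨hi.sub (int_aut hi _), hF.sub (hF.aut _), ?_, ?_, ?_⟩
  · intro q hq
    rw [Finset.mem_singleton] at hq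
    subst hq
    rw [map_sub, M.invol]; ring
  · intro σ
    have := hc (M.sg p) σ
    rw [Finset.card_singleton]
    linarith
  · intro q hq
    rw [map_sub, M.comm, hq]

variable [IsTotallyReal K]

theorem J.list {M : MQ K} (hB : CaseB K) {t : K} {c : ℝ} (hc : c ≤ 40) {P : Finset ℕ} {g : K}
    (h : J M t c P g) (hg : g ≠ 0) (hP : ∀ p ∈ P, p.Prime) (hne : P.Nonempty) :
    ∃ P' : Finset ℕ, P ⊆ P' ∧ V0 K (∏ p ∈ P', p) ∧ (∀ p ∈ P', p.Prime ∧ M.sg p t ≠ t) ∧
      (P' = {13} ∨ P' = {17} ∨ P' = {29} ∨ P' = {37} ∨ P' = {5, 13} ∨ P' = {5, 17} ∨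
      P' = {5, 29}) ∧
      (P' = P → ∃ (q : ℕ) (y : K), q ≠ 0 ∧ g = q * y ∧ y ^ 2 = ((∏ p ∈ P, p : ℕ) : K)) := by
  obtain ⟨P', h', hPP, hJ, hh, hprime, hneg, -, heq, q, y, hq, hy, hy2, hsq⟩ :=
    M.exists_max (J M t c) (P0 := P) hP (fun P h p hp hpP _ hJ _ => hJ.step hpP)
      (fun P h hJ => hJ.int) hg h h.neg
  have hV : V0 K (∏ p ∈ P', p) := V0_of_max hh hJ.fx hq hy hy2 hsq
  have hPmod : ∀ p ∈ P', p.Prime ∧ p % 4 = 1 := fun p hp =>
    ⟨hprime p hp, hB.odd_primes hsq hy2 hV.odd p (hprime p hp) (Finset.dvd_prod_of_mem _ hp)⟩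
  obtain ⟨σ⟩ := exists_real K
  have hbd : ∏ p ∈ P', p ≤ 10 * 4 ^ P'.card := by
    have h1 := hJ.bd σ
    have h2 : σ h' ^ 2 = q ^ 2 * ((∏ p ∈ P', p : ℕ) : ℝ) := by
      rw [← map_pow, hy, mul_pow, hy2, map_mul, map_pow, map_natCast, map_natCast]
    have h3 : (1 : ℝ) ≤ (q : ℝ) ^ 2 := by
      have : (1 : ℝ) ≤ q := by exact_mod_cast Nat.one_le_iff_ne_zero.mpr hq
      nlinarith
    have h4 : (0 : ℝ) ≤ ((∏ p ∈ P', p : ℕ) : ℝ) := by positivity
    have h5 : (0 : ℝ) < 4 ^ P'.card := by positivity
    have h6 : ((∏ p ∈ P', p : ℕ) : ℝ) ≤ 10 * 4 ^ P'.card := by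
      rw [h2] at h1
      nlinarith
    exact_mod_cast h6
  have hcl := list_class P' hPmod (hne.mono hPP) hbd
  refine ⟨P', hPP, hV, fun p hp => ⟨hprime p hp, fun hfix => ?_⟩, ?_, ?_⟩
  · have h1 := hJ.tr p hfix
    rw [hneg p hp] at h1
    have h2 : (2 : K) * h' = 0 := by linear_combination -h1
    exact hh ((mul_eq_zero.mp h2).resolve_left two_ne_zero)
  · rcases hcl with rfl | h1
    · exfalso
      simp only [Finset.prod_singleton] at hV hy2
      exact hV.five ⟨y, by rw [hy2]; norm_num⟩ dvd_rfl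
    · exact h1
  · intro hE
    refine ⟨q, y, hq, ?_, ?_⟩
    · rw [← heq hE]; exact hy
    · rw [← hE]; exact hy2

/-- the differences are trivial or square roots of small primes. -/
theorem diff_class (M : MQ K) (hB : CaseB K) {t : K} {c : ℝ} (hc : c ≤ 40)
    (hi : IsIntegral ℤ t) (hF : Fx M t)
    (hsp : ∀ (ρ : K ≃ₐ[ℚ] K) (σ : K →+* ℝ), (σ (t - ρ t)) ^ 2 ≤ c) {p : ℕ} (hp : p.Prime)
    (hpt : M.sg p t ≠ t) :
    (p = 13 ∨ p = 17 ∨ p = 29 ∨ p = 37) ∧ (t - M.sg p t) ^ 2 = p := by
  classical
  -- first the case `p ≠ 5`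
  have main : ∀ p, p.Prime → p ≠ 5 → M.sg p t ≠ t →
      (p = 13 ∨ p = 17 ∨ p = 29 ∨ p = 37) ∧ (t - M.sg p t) ^ 2 = p := by
    intro p hp hp5 hpt
    set δ := t - M.sg p t with hδ
    have hδ0 : δ ≠ 0 := fun h => hpt (by rw [hδ] at h; linear_combination -h)
    have hJ : J M t c {p} δ := J.start hi hF hsp p
    have hδneg : M.sg p δ = -δ := hJ.neg p (by simp)
    obtain ⟨σ0⟩ := exists_real K
    have hδbd : ∀ σ : K →+* ℝ, (σ δ) ^ 2 ≤ 40 := fun σ => (hsp _ σ).trans hc
    obtain ⟨P', hPP, hV, hP', hcl, heq⟩ := hJ.list hB hc hδ0 (by simpa using hp) (by simp)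
    have hpP' : p ∈ P' := hPP (by simp)
    by_cases hE : P' = {p}
    · obtain ⟨q, y, hq, hy, hy2⟩ := heq hE
      simp only [Finset.prod_singleton] at hy2
      have hp13 : p = 13 ∨ p = 17 ∨ p = 29 ∨ p = 37 := by
        rcases hcl with h | h | h | h | h | h | h
        · left; rw [h] at hpP'; simpa using hpP'
        · right; left; rw [h] at hpP'; simpa using hpP'
        · right; right; left; rw [h] at hpP'; simpa using hpP'
        · right; right; right; rw [h] at hpP'; simpa using hpP'
        all_goals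
          exfalso
          rw [hE] at h
          have := congrArg Finset.card h
          simp at this
      refine ⟨hp13, ?_⟩
      have hq1 : q = 1 := by
        by_contra hq1
        have hq2 : 2 ≤ q := by omega
        have h1 := hδbd σ0
        have h2 : σ0 δ ^ 2 = q ^ 2 * (p : ℝ) := by
          rw [← map_pow, hy, mul_pow, hy2, map_mul, map_pow, map_natCast, map_natCast]
        have h3 : (4 : ℝ) ≤ (q : ℝ) ^ 2 := by
          have : (2 : ℝ) ≤ q := by exact_mod_cast hq2
          nlinarith
        have h4 : (13 : ℝ) ≤ p := by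
          have : 13 ≤ p := by omega
          exact_mod_cast this
        rw [h2] at h1
        nlinarith
      rw [hy, hq1, Nat.cast_one, one_mul, hy2]
    · exfalso
      -- `P' = {5, p}`
      have hP'5 : P' = {5, p} ∧ (p = 13 ∨ p = 17 ∨ p = 29) := by
        rcases hcl with h | h | h | h | h | h | h <;> rw [h] at hpP' hE
        · exact absurd (by rw [Finset.mem_singleton.mp hpP']) hE
        · exact absurd (by rw [Finset.mem_singleton.mp hpP']) hE
        · exact absurd (by rw [Finset.mem_singleton.mp hpP']) hE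
        · exact absurd (by rw [Finset.mem_singleton.mp hpP']) hE
        all_goals
          rcases Finset.mem_insert.mp hpP' with h1 | h1
          · exact absurd h1 hp5
          · rw [Finset.mem_singleton.mp h1]
            exact ⟨h, by simp⟩
      obtain ⟨hP'e, hp3⟩ := hP'5
      have hprod : ∏ x ∈ P', x = 5 * p := by rw [hP'e, Finset.prod_pair hp5.symm]
      rw [hprod] at hV
      obtain ⟨y5p, hy5p⟩ := hV.root
      have no5 : ¬ ∃ y : K, y ^ 2 = 5 := fun h => hV.five h (Dvd.intro _ rfl)
      have hpK : (p : K) ≠ 0 := by exact_mod_cast hp.ne_zero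
      have nop : ¬ ∃ y : K, y ^ 2 = p := by
        rintro ⟨y, hy⟩
        apply no5
        refine ⟨y5p * y / p, ?_⟩
        rw [div_pow, mul_pow, hy5p, hy]; push_cast; field_simp
      -- lists containing `p`
      have hlist : ∀ P'' : Finset ℕ, p ∈ P'' → (P'' = {13} ∨ P'' = {17} ∨ P'' = {29} ∨
          P'' = {37} ∨ P'' = {5, 13} ∨ P'' = {5, 17} ∨ P'' = {5, 29}) → P'' ⊆ {5, p} := by
        intro P'' hp'' hcl''
        rcases hcl'' with h | h | h | h | h | h | h <;> rw [h] at hp'' ⊢ <;>
          simp only [Finset.mem_insert, Finset.mem_singleton] at hp''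
        · rw [hp'']; simp
        · rw [hp'']; simp
        · rw [hp'']; simp
        · rw [hp'']; simp
        · rw [hp''.resolve_left hp5]
        · rw [hp''.resolve_left hp5]
        · rw [hp''.resolve_left hp5]
      -- `sg 5 δ = - δ`
      have h5δ : M.sg 5 δ = -δ := by
        by_contra hcon
        set g := δ + M.sg 5 δ with hg
        have hg0 : g ≠ 0 := fun h => hcon (by rw [hg] at h; linear_combination h)
        obtain ⟨P, h, hPs, ⟨g', hJ', hh'⟩, hh, hprime, hneg, hfix, -, q, y, hq, hy, hy2, -⟩ :=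
          M.exists_max (fun P h => ∃ g', J M t c P g' ∧ h = g' + M.sg 5 g') (P0 := {p})
            (by simpa using hp) (by
              rintro P h q hq hqP - ⟨g', hJ', rfl⟩ -
              refine ⟨g' - M.sg q g', hJ'.step hqP, ?_⟩
              rw [map_add, map_sub, M.comm (M.sg 5) (M.sg q)]; ring)
            (by
              rintro P h ⟨g', hJ', rfl⟩
              exact hJ'.int.add (int_aut hJ'.int _)) hg0 ⟨δ, hJ, hg⟩ (by
              intro q hq
              rw [Finset.mem_singleton] at hq
              subst hq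
              rw [hg, map_add, M.comm, hδneg, map_neg]; ring)
        have hg'0 : g' ≠ 0 := by
          rintro rfl
          apply hh
          rw [hh', map_zero, add_zero]
        have h5P : 5 ∉ P := by
          intro h5P
          have h1 := hneg 5 h5P
          have h2 : M.sg 5 h = h := by rw [hh', map_add, M.invol]; ring
          rw [h2] at h1
          have h3 : (2 : K) * h = 0 := by linear_combination h1
          exact hh ((mul_eq_zero.mp h3).resolve_left two_ne_zero)
        obtain ⟨P'', hPP'', -, -, hcl'', -⟩ := hJ'.list hB hc hg'0 hprime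
          ⟨p, hPs (by simp)⟩
        have h1 := hlist P'' (hPP'' (hPs (by simp))) hcl''
        have hPe : P = {p} := by
          apply Finset.Subset.antisymm _ hPs
          intro x hx
          have := h1 (hPP'' hx)
          rcases Finset.mem_insert.mp this with rfl | h2
          · exact absurd hx h5P
          · exact h2
        rw [hPe] at hy2
        simp only [Finset.prod_singleton] at hy2
        exact nop ⟨y, hy2⟩
      -- other primes fix `δ`
      have hothers : ∀ q, q.Prime → q ≠ 5 → q ≠ p → M.sg q δ = δ := by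
        intro q hq hq5 hqp
        by_contra hcon
        have hJ2 : J M t c (insert q {p}) (δ - M.sg q δ) := hJ.step (by simpa using hqp)
        have h0 : δ - M.sg q δ ≠ 0 := fun h => hcon (by linear_combination -h)
        obtain ⟨P'', hPP'', -, -, hcl'', -⟩ := hJ2.list hB hc h0 (by
          intro x hx
          rcases Finset.mem_insert.mp hx with rfl | hx
          · exact hq
          · rw [Finset.mem_singleton.mp hx]; exact hp) (by simp)
        have h1 := hlist P'' (hPP'' (by simp)) hcl''
        have h2 := h1 (hPP'' (Finset.mem_insert_self _ _))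
        rcases Finset.mem_insert.mp h2 with h3 | h3
        · exact hq5 h3
        · exact hqp (Finset.mem_singleton.mp h3)
      obtain ⟨P, h, hPs, ⟨hI1, hI2⟩, hh, hprime, hneg, hfix, heq', q, y, hq, hy, hy2, -⟩ :=
        M.exists_max (fun P h => IsIntegral ℤ h ∧
          ∀ q, q.Prime → q ≠ 5 → q ≠ p → M.sg q h = h) (P0 := {5, p})
          (by
            intro x hx
            rcases Finset.mem_insert.mp hx with rfl | hx
            · exact Nat.prime_five
            · rw [Finset.mem_singleton.mp hx]; exact hp) (by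
            rintro P h q hq hqP - ⟨h1, h2⟩ -
            exact ⟨h1.sub (int_aut h1 _), fun r hr hr5 hrp => by
              rw [map_sub, M.comm, h2 r hr hr5 hrp]⟩) (fun P h hI => hI.1) hδ0
          ⟨hJ.int, hothers⟩ (by
            intro x hx
            rcases Finset.mem_insert.mp hx with rfl | hx
            · exact h5δ
            · rw [Finset.mem_singleton.mp hx]; exact hδneg)
      have hPe : P = {5, p} := by
        apply Finset.Subset.antisymm _ hPs
        intro x hx
        by_contra hx'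
        simp only [Finset.mem_insert, Finset.mem_singleton, not_or] at hx'
        have h1 := hI2 x (hprime x hx) hx'.1 hx'.2
        rw [hneg x hx] at h1
        have h3 : (2 : K) * h = 0 := by linear_combination -h1
        exact hh ((mul_eq_zero.mp h3).resolve_left two_ne_zero)
      rw [heq' hPe] at hy
      rw [hPe, Finset.prod_pair hp5.symm] at hy2
      have h1 := hδbd σ0
      have h2 : σ0 δ ^ 2 = q ^ 2 * ((5 * p : ℕ) : ℝ) := by
        rw [← map_pow, hy, mul_pow, hy2, map_mul, map_pow, map_natCast, map_natCast]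
      have h3 : (1 : ℝ) ≤ (q : ℝ) ^ 2 := by
        have : (1 : ℝ) ≤ q := by exact_mod_cast Nat.one_le_iff_ne_zero.mpr hq
        nlinarith
      have h4 : (13 : ℝ) ≤ p := by
        have : 13 ≤ p := by omega
        exact_mod_cast this
      rw [h2] at h1
      push_cast at h1
      nlinarith
  by_cases hp5 : p = 5
  · exfalso
    subst hp5
    set δ := t - M.sg 5 t with hδ
    have hδ0 : δ ≠ 0 := fun h => hpt (by rw [hδ] at h; linear_combination -h)
    have hJ : J M t c {5} δ := J.start hi hF hsp 5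
    obtain ⟨P', hPP, hV, hP', hcl, -⟩ := hJ.list hB hc hδ0 (by simpa using hp) (by simp)
    have h5P' : 5 ∈ P' := hPP (by simp)
    obtain ⟨r, hr5, hr, hrP⟩ : ∃ r, r ≠ 5 ∧ r.Prime ∧ P' = {5, r} := by
      rcases hcl with h | h | h | h | h | h | h
      · rw [h] at h5P'; simp at h5P'
      · rw [h] at h5P'; simp at h5P'
      · rw [h] at h5P'; simp at h5P'
      · rw [h] at h5P'; simp at h5P'
      · exact ⟨13, by norm_num, by norm_num, h⟩
      · exact ⟨17, by norm_num, by norm_num, h⟩
      · exact ⟨29, by norm_num, by norm_num, h⟩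
    have hrt := (hP' r (by rw [hrP]; simp)).2
    obtain ⟨-, hδr⟩ := main r hr hr5 hrt
    have hprod : ∏ x ∈ P', x = 5 * r := by rw [hrP, Finset.prod_pair hr5.symm]
    rw [hprod] at hV
    obtain ⟨y5r, hy5r⟩ := hV.root
    have hrK : (r : K) ≠ 0 := by exact_mod_cast hr.ne_zero
    refine hV.five ⟨y5r * (t - M.sg r t) / r, ?_⟩ (Dvd.intro _ rfl)
    rw [div_pow, mul_pow, hy5r, hδr]; push_cast; field_simp
  · exact main p hp hp5 hpt

/-- Lemma U -/
theorem rigid (M : MQ K) (hB : CaseB K) {t : K} {c : ℝ} (hc : c ≤ 40)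
    (hi : IsIntegral ℤ t) (hF : Fx M t)
    (hsp : ∀ (ρ : K ≃ₐ[ℚ] K) (σ : K →+* ℝ), (σ (t - ρ t)) ^ 2 ≤ c) :
    (∃ z : ℤ, t = z) ∨ ∃ (p : ℕ) (y : K) (a : ℤ), (p = 13 ∨ p = 17 ∨ p = 29 ∨ p = 37) ∧
      y ^ 2 = p ∧ (p : ℝ) ≤ c ∧ Odd a ∧ t = (a + y) / 2 := by
  by_cases hall : ∀ p, p.Prime → M.sg p t = t
  · left
    obtain ⟨q, hq⟩ := M.rat t hall
    obtain ⟨z, hz⟩ := int_of_rat_integral hq hi
    exact ⟨z, by rw [hq, hz]; simp⟩
  · right
    push Not at hall
    obtain ⟨p, hp, hpt⟩ := hall
    obtain ⟨hp4, hy⟩ := diff_class M hB hc hi hF hsp hp hpt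
    set y := t - M.sg p t with hydef
    obtain ⟨σ⟩ := exists_real K
    have hothers : ∀ q, q.Prime → q ≠ p → M.sg q t = t := by
      intro q hq hqp
      by_contra hqt
      obtain ⟨hq4, hy'⟩ := diff_class M hB hc hi hF hsp hq hqt
      set y' := t - M.sg q t with hy'def
      have h1 : M.sg p y' = y' := M.sg_fix hp hq.ne_zero (by
        intro hd
        exact hqp ((Nat.prime_dvd_prime_iff_eq hp hq).mp hd).symm) hy'
      have h1' : M.sg q y = y := M.sg_fix hq hp.ne_zero (by
        intro hd
        exact hqp ((Nat.prime_dvd_prime_iff_eq hq hp).mp hd)) hy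
      have h1'' : M.sg q y' = -y' := by rw [hy'def, map_sub, M.invol]; ring
      have h2 : t - M.sg p (M.sg q t) = y + y' := by
        have : M.sg q t = t - y' := by rw [hy'def]; ring
        rw [this, map_sub, h1, hydef]; ring
      have e1 := hsp (M.sg p * M.sg q) σ
      have e2 := hsp (M.sg p * M.sg q) (σ.comp (M.sg q : K →+* K))
      rw [AlgEquiv.mul_apply, h2] at e1 e2
      simp only [RingHom.comp_apply, RingHom.coe_coe] at e2
      rw [map_add, h1', h1''] at e2
      rw [map_add] at e1 e2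
      rw [map_neg] at e2
      have f1 : σ y ^ 2 = p := by rw [← map_pow, hy, map_natCast]
      have f2 : σ y' ^ 2 = q := by rw [← map_pow, hy', map_natCast]
      have f3 : (221 : ℝ) ≤ p * q := by
        have : 221 ≤ p * q := by
          rcases hp4 with rfl | rfl | rfl | rfl <;> rcases hq4 with rfl | rfl | rfl | rfl <;> omega
        exact_mod_cast this
      have f4 : (σ y * σ y') ^ 2 = p * q := by rw [mul_pow, f1, f2]
      have f5 : (30 : ℝ) ≤ p + q := by
        have : 30 ≤ p + q := by
          rcases hp4 with rfl | rfl | rfl | rfl <;> rcases hq4 with rfl | rfl | rfl | rfl <;> omega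
        exact_mod_cast this
      have f6 : 14 ≤ |σ y * σ y'| := by
        apply le_of_sq_le_sq _ (abs_nonneg _)
        rw [sq_abs, f4]; linarith
      rcases abs_cases (σ y * σ y') with ⟨h5, -⟩ | ⟨h5, -⟩
      · rw [h5] at f6
        nlinarith
      · rw [h5] at f6
        nlinarith
    have hyneg : M.sg p y = -y := by rw [hydef, map_sub, M.invol]; ring
    -- `2 t - y` is rational
    obtain ⟨q, hq⟩ := M.rat (t + M.sg p t) (by
      intro q hq
      by_cases hqp : q = p
      · rw [hqp, map_add, M.invol]; ring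
      · rw [map_add, M.comm, hothers q hq hqp])
    obtain ⟨a, ha⟩ := int_of_rat_integral hq (hi.add (int_aut hi _))
    have ha' : t + M.sg p t = a := by rw [hq, ha]; simp
    have ht : t = (a + y) / 2 := by rw [← ha', hydef]; ring
    refine ⟨p, y, a, hp4, hy, ?_, ?_, ht⟩
    · have := hsp (M.sg p) σ
      rw [← hydef, ← map_pow, hy, map_natCast] at this
      exact this
    · by_contra hev
      rw [Int.not_odd_iff_even] at hev
      obtain ⟨b, hb⟩ := hev
      have h1 : IsIntegral ℤ (y / 2) := by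
        have : y / 2 = t - b := by rw [ht, hb]; push_cast; ring
        rw [this]
        exact hi.sub (int_int b)
      obtain ⟨z, hz⟩ := int_of_rat_integral (x := (y / 2) ^ 2) (q := (p : ℚ) / 4)
        (by rw [div_pow, hy]; push_cast; ring) (h1.pow 2)
      have hz2 : (p : ℤ) = 4 * z := by
        have : (p : ℚ) = 4 * z := by rw [← hz]; ring
        exact_mod_cast this
      rcases hp4 with rfl | rfl | rfl | rfl <;> push_cast at hz2 <;> omega

end Pool.Agent.Work.MP_eae946_nt.Full
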