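import Pool.Agent.Work.MP_eae946_nt.Full.Rigid
import Pool.Agent.Work.MP_eae946_nt.Golden

namespace Pool.Agent.Work.MP_eae946_nt.Full

open NumberField

variable {K : Type*} [Field K] [NumberField K] [IsTotallyReal K]

theorem eq_zero_of_abs_lt {y : K} (hy : IsIntegral ℤ y) (h1 : ∀ σ : K →+* ℝ, |σ y| < 1) :
    y = 0 := by
  have hd : Dom y 1 := by
    intro σ
    rw [map_one]
    have := abs_lt.mp (h1 σ)
    nlinarith
  obtain ⟨σ⟩ := exists_real K
  rcases kronecker hy hd with h | h | h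
  · exact h
  · have := h1 σ; rw [h, map_one] at this; norm_num at this
  · have := h1 σ; rw [h, map_neg, map_one] at this; norm_num at this

theorem t_le_two {t : K} (ht : IsIntegral ℤ t) (h0 : ∀ σ : K →+* ℝ, 0 ≤ σ t)
    (h2 : ∀ σ : K →+* ℝ, σ t ≤ 2) : t = 0 ∨ t = 1 ∨ t = 2 := by
  rcases kronecker (ht.sub isIntegral_one) (fun σ => by
    rw [map_sub, map_one]
    nlinarith [h0 σ, h2 σ]) with h | h | h
  · right; left; linear_combination h
  · right; right; linear_combination h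
  · left; linear_combination h

theorem t_le_nine_four {t : K} (ht : IsIntegral ℤ t) (h0 : ∀ σ : K →+* ℝ, 0 ≤ σ t)
    (h2 : ∀ σ : K →+* ℝ, 4 * σ t ≤ 9) : t = 0 ∨ t = 1 ∨ t = 2 := by
  have h : (t - 1) ^ 3 - (t - 1) = 0 := by
    apply eq_zero_of_abs_lt (((ht.sub isIntegral_one).pow 3).sub (ht.sub isIntegral_one))
    intro σ
    simp only [map_sub, map_pow, map_one]
    have e1 := h0 σ
    have e2 := h2 σ
    set x := σ t - 1 with hx
    have hx1 : -1 ≤ x := by linarith
    have hx2 : x ≤ 5 / 4 := by linarith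
    rw [abs_lt]
    constructor
    · have : 0 < x ^ 3 - x + 1 := by nlinarith [sq_nonneg (x - 1), sq_nonneg (x + 1), mul_nonneg (by linarith : (0:ℝ) ≤ x + 1) (sq_nonneg (x - 1))]
      linarith
    · have : 0 < 1 + x - x ^ 3 := by
        nlinarith [mul_nonneg (by linarith : (0:ℝ) ≤ x + 1) (by linarith : (0:ℝ) ≤ 5/4 - x),
          mul_nonneg (mul_nonneg (by linarith : (0:ℝ) ≤ x + 1) (by linarith : (0:ℝ) ≤ x + 1)) (by linarith : (0:ℝ) ≤ 5/4 - x), sq_nonneg x]
      linarith
  have h1 : t * ((t - 1) * (t - 2)) = 0 := by linear_combination h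
  rcases mul_eq_zero.mp h1 with h1 | h1
  · left; exact h1
  · rcases mul_eq_zero.mp h1 with h1 | h1
    · right; left; linear_combination h1
    · right; right; linear_combination h1

theorem t_le_three {t : K} (ht : IsIntegral ℤ t) (h0 : ∀ σ : K →+* ℝ, 0 ≤ σ t)
    (h2 : ∀ σ : K →+* ℝ, σ t ≤ 3) :
    t = 0 ∨ t = 1 ∨ t = 2 ∨ t = 3 ∨ t ^ 2 - 3 * t + 1 = 0 := by
  have h3 : IsIntegral ℤ (t * (3 - t)) := ht.mul ((int_ofNat 3).sub ht)
  rcases t_le_nine_four h3 (fun σ => by
      rw [map_mul, map_sub, map_ofNat]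
      exact mul_nonneg (h0 σ) (by linarith [h2 σ])) (fun σ => by
      rw [map_mul, map_sub, map_ofNat]
      nlinarith [sq_nonneg (2 * σ t - 3)]) with h | h | h
  · rcases mul_eq_zero.mp h with h | h
    · left; exact h
    · right; right; right; left; linear_combination -h
  · right; right; right; right; linear_combination -h
  · have h1 : (t - 1) * (t - 2) = 0 := by linear_combination -h
    rcases mul_eq_zero.mp h1 with h1 | h1
    · right; left; linear_combination h1
    · right; right; left; linear_combination h1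

theorem t_le_thirteen_five {t : K} (ht : IsIntegral ℤ t) (h0 : ∀ σ : K →+* ℝ, 0 ≤ σ t)
    (h2 : ∀ σ : K →+* ℝ, 5 * σ t ≤ 13) : t = 0 ∨ t = 1 ∨ t = 2 := by
  obtain ⟨σ0⟩ := exists_real K
  rcases t_le_three ht h0 (fun σ => by linarith [h2 σ]) with h | h | h | h | h
  · exact Or.inl h
  · exact Or.inr (Or.inl h)
  · exact Or.inr (Or.inr h)
  · have := h2 σ0
    rw [h, map_ofNat] at this
    norm_num at this
  · exfalso
    have key : ∀ σ : K →+* ℝ, σ t < 1 := by
      intro σ
      have h3 : σ t ^ 2 - 3 * σ t + 1 = 0 := by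
        have := congrArg σ h
        simp only [map_add, map_sub, map_mul, map_pow, map_ofNat, map_one, map_zero] at this
        exact this
      have h4 := h2 σ
      nlinarith
    have h5 := eq_zero_of_lt_one ht h0 key
    rw [h5] at h
    norm_num at h

/-- elements between `0` and `2 + φ` -/
theorem t_le_eta {p t : K} (hp : p ^ 2 = p + 1) (ht : IsIntegral ℤ t)
    (h0 : ∀ σ : K →+* ℝ, 0 ≤ σ t) (h2 : ∀ σ : K →+* ℝ, σ t ≤ σ (2 + p)) :
    t = 0 ∨ t = 1 ∨ t = p ^ 2 ∨ t = 2 + p := by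
  have hpi := golden_int hp
  set q : K := (t - 1) * (t - p ^ 2) * (p - 1) ^ 2 with hq
  have hqi : IsIntegral ℤ q :=
    ((ht.sub isIntegral_one).mul (ht.sub (hpi.pow 2))).mul
      ((hpi.sub isIntegral_one).pow 2)
  have hbd : ∀ σ : K →+* ℝ, -(1 / 4) ≤ σ q ∧ σ q ≤ 1 := by
    intro σ
    have h1 := golden_real hp σ
    have h2 := h2 σ
    have h3 : σ q = (σ t - 1) * (σ t - σ p ^ 2) * (σ p - 1) ^ 2 := by
      rw [hq]; simp
    rw [map_add, map_ofNat] at h2
    set x := σ t with hx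
    set a := σ p with ha
    have hx0 : 0 ≤ x := h0 σ
    have h4 : (x - 1) * (x - a ^ 2) * (a - 1) ^ 2
        = 1 - (x * (2 + a - x)) * (a - 1) ^ 2 := by
      have : (a - 1) ^ 2 * a ^ 2 = 1 := by
        have : (a - 1) * a = 1 := by nlinarith
        rw [← mul_pow, this, one_pow]
      have h5 : a ^ 2 = a + 1 := h1
      linear_combination this + (-x * (a - 1) ^ 2) * h5
    rw [h3, h4]
    have h6 : 0 ≤ (x * (2 + a - x)) * (a - 1) ^ 2 := by
      apply mul_nonneg (mul_nonneg hx0 (by linarith)) (sq_nonneg _)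
    have h7 : (x * (2 + a - x)) * (a - 1) ^ 2 ≤ 5 / 4 := by
      have e1 : (2 + a) ^ 2 * (a - 1) ^ 2 = 5 := by
        have : (2 + a) * (a - 1) = 2 * a - 1 := by linarith
        rw [← mul_pow, this]; nlinarith
      have e2 : x * (2 + a - x) ≤ (2 + a) ^ 2 / 4 := by nlinarith [sq_nonneg (2 * x - (2 + a))]
      calc (x * (2 + a - x)) * (a - 1) ^ 2 ≤ ((2 + a) ^ 2 / 4) * (a - 1) ^ 2 :=
            mul_le_mul_of_nonneg_right e2 (sq_nonneg _)
        _ = 5 / 4 := by rw [div_mul_eq_mul_div, e1]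
    constructor <;> linarith
  have hp0 : p - 1 ≠ 0 := by
    intro h
    have : (p - 1) * p = 1 := by linear_combination hp
    rw [h, zero_mul] at this
    exact zero_ne_one this
  rcases kronecker hqi (fun σ => by
    rw [map_one]
    have := hbd σ
    nlinarith [this.1, this.2]) with h | h | h
  · rw [hq] at h
    rcases mul_eq_zero.mp h with h | h
    · rcases mul_eq_zero.mp h with h | h
      · right; left; linear_combination h
      · right; right; left; linear_combination h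
    · exact absurd (pow_eq_zero_iff two_ne_zero |>.mp h) hp0
  · have h4 : q = 1 - (t * (2 + p - t)) * (p - 1) ^ 2 := by
      rw [hq]
      have : (p - 1) ^ 2 * p ^ 2 = 1 := by
        have : (p - 1) * p = 1 := by linear_combination hp
        rw [← mul_pow, this, one_pow]
      linear_combination this + (-t * (p - 1) ^ 2) * hp
    rw [h] at h4
    have h5 : (t * (2 + p - t)) * (p - 1) ^ 2 = 0 := by linear_combination h4
    rcases mul_eq_zero.mp h5 with h | h
    · rcases mul_eq_zero.mp h with h | h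
      · left; exact h
      · right; right; right; linear_combination -h
    · exact absurd (pow_eq_zero_iff two_ne_zero |>.mp h) hp0
  · obtain ⟨σ⟩ := exists_real K
    have := (hbd σ).1
    rw [h, map_neg, map_one] at this
    norm_num at this

omit [IsTotallyReal K] in
/-- both signs of a square root occur -/
theorem exists_sign (M : MQ K) {p : ℕ} (hp : p.Prime) {y : K} (hy : y ^ 2 = p)
    (σ : K →+* ℝ) : ∃ σ' : K →+* ℝ, σ' y = - σ y ∧ (∀ x, σ' x = σ (M.sg p x)) := by
  refine ⟨σ.comp (M.sg p : K →+* K), ?_, fun x => rfl⟩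
  simp only [RingHom.comp_apply, RingHom.coe_coe]
  rw [M.sg_neg hp hp.squarefree dvd_rfl hy, map_neg]

/-- elements of the subfield with small squares -/
theorem rigid_sq (M : MQ K) (hB : CaseB K) {g : K} {b : ℝ} (hb : b ≤ 10)
    (hi : IsIntegral ℤ g) (hF : Fx M g) (hg : ∀ σ : K →+* ℝ, (σ g) ^ 2 ≤ b) :
    (∃ z : ℤ, g = z) ∨ (∃ y : K, y ^ 2 = 13) ∧ 5 < b ∨ (∃ y : K, y ^ 2 = 17) ∧ 5 < b := by
  rcases rigid M hB (c := 4 * b) (by linarith) hi hF (fun ρ σ => by
    have e1 := hg σ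
    have e2 := hg (σ.comp (ρ : K →+* K))
    simp only [RingHom.comp_apply, RingHom.coe_coe] at e2
    rw [map_sub]
    nlinarith [sq_nonneg (σ g + σ (ρ g))]) with h | ⟨p, y, a, hp, hy, hpc, ha, hga⟩
  · exact Or.inl h
  right
  have hpp : p.Prime := by rcases hp with rfl | rfl | rfl | rfl <;> norm_num
  obtain ⟨σ⟩ := exists_real K
  -- choose the sign such that `a * y ≥ 0`
  obtain ⟨σ1, h1⟩ : ∃ σ1 : K →+* ℝ, 0 ≤ a * σ1 y := by
    rcases le_total 0 ((a : ℝ) * σ y) with h | h
    · exact ⟨σ, h⟩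
    · obtain ⟨σ', hσ', -⟩ := exists_sign M hpp hy σ
      exact ⟨σ', by rw [hσ']; linarith⟩
  have h2 := hg σ1
  have h3 : σ1 y ^ 2 = p := by rw [← map_pow, hy, map_natCast]
  rw [hga, map_div₀, map_add, map_intCast, map_ofNat] at h2
  have h4 : (1 : ℝ) ≤ (a : ℝ) ^ 2 := by
    have : 1 ≤ a ^ 2 := by
      have h0 : a ≠ 0 := by rintro rfl; exact absurd ha (by decide)
      have : 0 < a ^ 2 := by positivity
      omega
    exact_mod_cast this
  have h5 : (a : ℝ) ^ 2 + p + 2 * (a * σ1 y) ≤ 4 * b := by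
    rw [← h3]; nlinarith
  have h6 : (p : ℝ) ≤ (a * σ1 y) ^ 2 := by
    rw [mul_pow, h3]
    have : (0 : ℝ) ≤ p := by positivity
    nlinarith
  rcases hp with rfl | rfl | rfl | rfl
  · left
    refine ⟨⟨y, by rw [hy]; norm_num⟩, ?_⟩
    push_cast at h5 h6
    have : 3.6 ≤ a * σ1 y := by
      apply le_of_sq_le_sq _ h1
      linarith
    linarith
  · right
    refine ⟨⟨y, by rw [hy]; norm_num⟩, ?_⟩
    push_cast at h5 h6
    have : 4.1 ≤ a * σ1 y := by
      apply le_of_sq_le_sq _ h1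
      linarith
    linarith
  · exfalso
    push_cast at h5 h6
    have : 5.38 ≤ a * σ1 y := by
      apply le_of_sq_le_sq _ h1
      linarith
    linarith
  · exfalso
    push_cast at h5 h6
    have : 6.08 ≤ a * σ1 y := by
      apply le_of_sq_le_sq _ h1
      linarith
    linarith

theorem rigid_sq_five (M : MQ K) (hB : CaseB K) {g : K}
    (hi : IsIntegral ℤ g) (hF : Fx M g) (hg : ∀ σ : K →+* ℝ, (σ g) ^ 2 ≤ 5) :
    ∃ z : ℤ, g = z := by
  rcases rigid_sq M hB (b := 5) (by norm_num) hi hF hg with h | ⟨-, h⟩ | ⟨-, h⟩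
  · exact h
  · exact absurd h (lt_irrefl _)
  · exact absurd h (lt_irrefl _)

/-- elements between `0` and `5`. -/
theorem rigid_five (M : MQ K) (hB : CaseB K) {t : K}
    (hi : IsIntegral ℤ t) (hF : Fx M t) (h0 : ∀ σ : K →+* ℝ, 0 ≤ σ t)
    (h5 : ∀ σ : K →+* ℝ, σ t ≤ 5) :
    (∃ z : ℤ, t = z) ∨ ∃ (p : ℕ) (y : K), (p = 13 ∨ p = 17) ∧ y ^ 2 = p ∧ t = (5 + y) / 2 := by
  rcases rigid M hB (c := 25) (by norm_num) hi hF (fun ρ σ => by
    have e1 := h0 σ
    have e1' := h5 σ
    have e2 := h0 (σ.comp (ρ : K →+* K))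
    have e2' := h5 (σ.comp (ρ : K →+* K))
    simp only [RingHom.comp_apply, RingHom.coe_coe] at e2 e2'
    rw [map_sub]
    nlinarith) with h | ⟨p, y, a, hp, hy, hpc, ha, hga⟩
  · exact Or.inl h
  right
  have hpp : p.Prime := by rcases hp with rfl | rfl | rfl | rfl <;> norm_num
  obtain ⟨σ⟩ := exists_real K
  obtain ⟨σ', hσ', -⟩ := exists_sign M hpp hy σ
  have h3 : σ y ^ 2 = p := by rw [← map_pow, hy, map_natCast]
  have k0 := h0 σ
  have k5 := h5 σ
  have k0' := h0 σ'
  have k5' := h5 σ'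
  rw [hga, map_div₀, map_add, map_intCast, map_ofNat] at k0 k5 k0' k5'
  rw [hσ'] at k0' k5'
  have hp' : p = 13 ∨ p = 17 := by
    rcases hp with rfl | rfl | rfl | rfl
    · simp
    · simp
    · push_cast at hpc; norm_num at hpc
    · push_cast at hpc; norm_num at hpc
  have h13 : (13 : ℝ) ≤ p := by
    have : 13 ≤ p := by omega
    exact_mod_cast this
  have h36 : 3.6 ≤ |σ y| := by
    apply le_of_sq_le_sq _ (abs_nonneg _)
    rw [sq_abs, h3]; linarith
  have ha5 : a = 5 := by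
    have l1 : 3 < (a : ℝ) := by
      rcases abs_cases (σ y) with ⟨h, -⟩ | ⟨h, -⟩ <;> rw [h] at h36 <;> linarith
    have l2 : (a : ℝ) < 7 := by
      rcases abs_cases (σ y) with ⟨h, -⟩ | ⟨h, -⟩ <;> rw [h] at h36 <;> linarith
    have l1' : 3 < a := by exact_mod_cast l1
    have l2' : a < 7 := by exact_mod_cast l2
    obtain ⟨b, hb⟩ := ha
    omega
  refine ⟨p, y, hp', hy, ?_⟩
  rw [hga, ha5]; norm_num

end Pool.Agent.Work.MP_eae946_nt.Full
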