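import Pool.Agent.Work.MP_eae946_nt.Full.Norm

namespace Pool.Agent.Work.MP_eae946_nt.Full

open NumberField NumberField.Units

variable {K : Type*} [Field K] [NumberField K]

/-- `-1` is not a norm up to squares -/
def PN (K : Type*) [Field K] [NumberField K] : Prop :=
  ∀ (y : K) (r : ℚ), r ≠ 0 → Nm y ≠ ((-r ^ 2 : ℚ) : K)

theorem unit_mul_inv (u : (𝓞 K)ˣ) : ((u : 𝓞 K) : K) * (((u⁻¹ : (𝓞 K)ˣ) : 𝓞 K) : K) = 1 := by
  have h := u.mul_inv
  have h2 := congrArg (fun x : 𝓞 K => (x : K)) h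
  exact h2

theorem unit_Nm (M : MQ K) (hPN : PN K) (u : (𝓞 K)ˣ) : Nm ((u : 𝓞 K) : K) = 1 := by
  rcases Nm_unit M (u : 𝓞 K).isIntegral_coe (u⁻¹ : (𝓞 K)ˣ).val.isIntegral_coe
    (unit_mul_inv u) with h | h
  · exact h
  · exfalso
    exact hPN _ 1 one_ne_zero (by rw [h]; norm_num)

/-- representatives of units modulo squares -/
noncomputable def UX (x : Bool × (Fin (rank K) → Bool)) : (𝓞 K)ˣ :=
  (if x.1 then -1 else 1) * ∏ i, fundSystem K i ^ (if x.2 i then 1 else 0 : ℤ)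

variable [IsTotallyReal K]

theorem torsion_sq (ζ : torsion K) : (ζ : (𝓞 K)ˣ) ^ 2 = 1 := by
  obtain ⟨σ⟩ := exists_real K
  have h1 : IsOfFinOrder (ζ : (𝓞 K)ˣ) := (CommGroup.mem_torsion _).mp ζ.2
  obtain ⟨n, hn, hζ⟩ := isOfFinOrder_iff_pow_eq_one.mp h1
  have h2 : (((ζ : (𝓞 K)ˣ) : 𝓞 K) : K) ^ n = 1 := by
    have := congrArg (fun x : (𝓞 K)ˣ => ((x : 𝓞 K) : K)) hζ
    simpa using this
  have h3 : σ (((ζ : (𝓞 K)ˣ) : 𝓞 K) : K) ^ n = 1 := by rw [← map_pow, h2, map_one]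
  have h4 : |σ (((ζ : (𝓞 K)ˣ) : 𝓞 K) : K)| = 1 := by
    have : |σ (((ζ : (𝓞 K)ˣ) : 𝓞 K) : K)| ^ n = 1 := by rw [← abs_pow, h3, abs_one]
    exact (pow_eq_one_iff_of_nonneg (abs_nonneg _) hn.ne').mp this
  have h5 : σ (((ζ : (𝓞 K)ˣ) : 𝓞 K) : K) ^ 2 = 1 := by rw [← sq_abs, h4, one_pow]
  have h6 : (((ζ : (𝓞 K)ˣ) : 𝓞 K) : K) ^ 2 = 1 := σ.injective (by rw [map_pow, h5, map_one])
  apply Units.ext
  apply RingOfIntegers.ext
  simpa using h6

theorem UX_sep {x x' : Bool × (Fin (rank K) → Bool)} {w : (𝓞 K)ˣ}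
    (h : UX x = w ^ 2 * UX x') : x = x' := by
  obtain ⟨⟨ζ, e⟩, hw, -⟩ := exist_unique_eq_mul_prod K w
  simp only at hw
  have hm1 : (-1 : (𝓞 K)ˣ) ∈ torsion K := by
    rw [torsion, CommGroup.mem_torsion, isOfFinOrder_iff_pow_eq_one]
    exact ⟨2, by norm_num, by simp⟩
  let z : Bool → torsion K := fun b => if b then ⟨-1, hm1⟩ else 1
  have hz : ∀ b : Bool, ((z b : torsion K) : (𝓞 K)ˣ) = if b then -1 else 1 := by
    intro b
    cases b <;> simp [z]
  have hw2 : w ^ 2 = ∏ i, fundSystem K i ^ (2 * e i) := by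
    rw [hw, mul_pow, torsion_sq, one_mul, ← Finset.prod_pow]
    refine Finset.prod_congr rfl fun i _ => ?_
    rw [← zpow_natCast, ← zpow_mul, mul_comm]
    rfl
  obtain ⟨p, -, huniq⟩ := exist_unique_eq_mul_prod K (UX x)
  have e1 := huniq (z x.1, fun i => if x.2 i then 1 else 0) (by
    simp only [UX]
    rw [hz])
  have e2 := huniq (z x'.1, fun i => 2 * e i + if x'.2 i then 1 else 0) (by
    simp only
    rw [h, hw2, UX, hz]
    rw [mul_left_comm, ← Finset.prod_mul_distrib]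
    congr 1
    refine Finset.prod_congr rfl fun i _ => ?_
    rw [zpow_add])
  rw [← e2, Prod.mk.injEq] at e1
  obtain ⟨f1, f2⟩ := e1
  apply Prod.ext
  · have := congrArg (fun t : torsion K => (t : (𝓞 K)ˣ)) f1
    simp only [hz] at this
    have hne : (-1 : (𝓞 K)ˣ) ≠ 1 := by
      intro h
      have := congrArg (fun x : (𝓞 K)ˣ => ((x : 𝓞 K) : K)) h
      simp at this
      norm_num at this
    cases h1 : x.1 <;> cases h2 : x'.1 <;> rw [h1, h2] at this <;>
      simp only [Bool.false_eq_true, if_false, if_true] at this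
    · exact absurd this.symm hne
    · exact absurd this hne
  · funext i
    have := congrFun f2 i
    cases h1 : x.2 i <;> cases h2 : x'.2 i <;> rw [h1, h2] at this <;>
      simp only [Bool.false_eq_true, if_false, if_true] at this <;> first | rfl | omega

/-- positivity everywhere from positivity away from the identity and of the norm -/
theorem pos_of_norm (M : MQ K) (σ0 : K →+* ℝ) {y : K}
    (h1 : ∀ ρ : K ≃ₐ[ℚ] K, ρ ≠ 1 → 0 < σ0 (ρ y)) (h2 : 0 < σ0 (Nm y)) (σ : K →+* ℝ) :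
    0 < σ y := by
  classical
  have h3 : 0 < σ0 y := by
    have : σ0 (Nm y) = σ0 y * ∏ ρ ∈ Finset.univ.erase (1 : K ≃ₐ[ℚ] K), σ0 (ρ y) := by
      unfold Nm
      rw [map_prod, ← Finset.mul_prod_erase _ _ (Finset.mem_univ (1 : K ≃ₐ[ℚ] K))]
      rfl
    rw [this] at h2
    have h4 : 0 < ∏ ρ ∈ Finset.univ.erase (1 : K ≃ₐ[ℚ] K), σ0 (ρ y) :=
      Finset.prod_pos fun ρ hρ => h1 ρ (Finset.ne_of_mem_erase hρ)
    by_contra h5
    push Not at h5
    have := mul_nonpos_of_nonpos_of_nonneg h5 h4.le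
    linarith
  obtain ⟨ρ, hρ⟩ := emb_conj M σ0 σ
  rw [hρ y]
  by_cases h : ρ = 1
  · rw [h]; exact h3
  · exact h1 ρ h

open Classical in
/-- the signature of a unit away from the identity -/
noncomputable def sgnX (σ0 : K →+* ℝ) (x : Bool × (Fin (rank K) → Bool)) :
    {ρ : K ≃ₐ[ℚ] K // ρ ≠ 1} → Bool :=
  fun ρ => decide (0 < σ0 (ρ.1 ((UX x : 𝓞 K) : K)))

theorem card_sgn (M : MQ K) :
    Nat.card ({ρ : K ≃ₐ[ℚ] K // ρ ≠ 1} → Bool) = 2 ^ rank K := by
  classical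
  rw [Nat.card_eq_fintype_card, Fintype.card_fun, Fintype.card_bool]
  congr 1
  rw [Fintype.card_subtype_compl, card_G M]
  simp

theorem card_X : Fintype.card (Bool × (Fin (rank K) → Bool)) = 2 * 2 ^ rank K := by
  rw [Fintype.card_prod, Fintype.card_bool, Fintype.card_fun, Fintype.card_bool, Fintype.card_fin]

theorem ratio_pos (M : MQ K) (hPN : PN K) (σ0 : K →+* ℝ) {x x' : Bool × (Fin (rank K) → Bool)}
    (h : sgnX σ0 x = sgnX σ0 x') (σ : K →+* ℝ) :
    0 < σ (((UX x * (UX x')⁻¹ : (𝓞 K)ˣ) : 𝓞 K) : K) := by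
  classical
  apply pos_of_norm M σ0
  · intro ρ hρ
    have h1 := congrFun h ⟨ρ, hρ⟩
    simp only [sgnX, decide_eq_decide] at h1
    have h2 : (((UX x * (UX x')⁻¹ : (𝓞 K)ˣ) : 𝓞 K) : K)
        = ((UX x : 𝓞 K) : K) * ((((UX x')⁻¹ : (𝓞 K)ˣ) : 𝓞 K) : K) := by
      simp
    have h3 := congrArg (fun t => σ0 (ρ t)) (unit_mul_inv (UX x'))
    simp only [map_mul, map_one] at h3
    have h4 : σ0 (ρ ((UX x : 𝓞 K) : K)) ≠ 0 := by
      have := congrArg (fun t => σ0 (ρ t)) (unit_mul_inv (UX x))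
      simp only [map_mul, map_one] at this
      intro h0
      rw [h0, zero_mul] at this
      exact zero_ne_one this
    rw [h2, map_mul, map_mul]
    set a := σ0 (ρ ((UX x : 𝓞 K) : K))
    set b := σ0 (ρ ((UX x' : 𝓞 K) : K))
    set c := σ0 (ρ ((((UX x')⁻¹ : (𝓞 K)ˣ) : 𝓞 K) : K))
    by_cases ha : 0 < a
    · have hb := h1.mp ha
      have hc : 0 < c := by
        by_contra hc
        push Not at hc
        nlinarith [mul_nonneg hb.le (neg_nonneg.mpr hc)]
      exact mul_pos ha hc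
    · have hb : ¬ 0 < b := fun hb => ha (h1.mpr hb)
      push Not at ha hb
      have ha' : a < 0 := lt_of_le_of_ne ha h4
      have hc : c < 0 := by
        by_contra hc
        push Not at hc
        nlinarith [mul_nonneg (neg_nonneg.mpr hb) hc]
      exact mul_pos_of_neg_of_neg ha' hc
  · rw [unit_Nm M hPN, map_one]; norm_num

/-- a totally positive unit which is not a square -/
theorem exists_eps (M : MQ K) (hPN : PN K) : ∃ u : (𝓞 K)ˣ,
    (∀ σ : K →+* ℝ, 0 < σ ((u : 𝓞 K) : K)) ∧ ∀ w : (𝓞 K)ˣ, u ≠ w ^ 2 := by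
  classical
  obtain ⟨σ0⟩ := exists_real K
  obtain ⟨x, x', hne, heq⟩ := Fintype.exists_ne_map_eq_of_card_lt (sgnX σ0) (by
    rw [← Nat.card_eq_fintype_card, card_sgn M, card_X]
    have : 0 < 2 ^ rank K := by positivity
    omega)
  refine ⟨UX x * (UX x')⁻¹, ratio_pos M hPN σ0 heq, fun w hw => hne ?_⟩
  apply UX_sep (w := w)
  rw [← hw]; group

/-- units with prescribed signature -/
theorem exists_sig (M : MQ K) (hPN : PN K) {ε : (𝓞 K)ˣ}
    (hall : ∀ u : (𝓞 K)ˣ, (∀ σ : K →+* ℝ, 0 < σ ((u : 𝓞 K) : K)) →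
      ∃ w : (𝓞 K)ˣ, u = w ^ 2 ∨ u = ε * w ^ 2) (σ0 : K →+* ℝ) {y0 : K} (hy0 : y0 ≠ 0)
    (hN : 0 < σ0 (Nm y0)) : ∃ u : (𝓞 K)ˣ, ∀ σ : K →+* ℝ, 0 < σ (((u : 𝓞 K) : K) * y0) := by
  classical
  have hsurj : Function.Surjective (sgnX σ0) := by
    have h1 : (Finset.univ : Finset (Bool × (Fin (rank K) → Bool))).card
        ≤ 2 * (Finset.univ.image (sgnX σ0)).card := by
      apply Finset.card_le_mul_card_image
      intro b _
      by_contra hcon
      push Not at hcon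
      obtain ⟨a, ha, a', ha', a'', ha'', h12, h13, h23⟩ := Finset.two_lt_card.mp hcon
      rw [Finset.mem_filter] at ha ha' ha''
      have p1 := ratio_pos M hPN σ0 (ha.2.trans ha'.2.symm)
      have p2 := ratio_pos M hPN σ0 (ha.2.trans ha''.2.symm)
      obtain ⟨w1, hw1 | hw1⟩ := hall _ p1
      · apply h12
        apply UX_sep (w := w1)
        rw [← hw1]; group
      obtain ⟨w2, hw2 | hw2⟩ := hall _ p2
      · apply h13
        apply UX_sep (w := w2)
        rw [← hw2]; group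
      apply h23
      apply UX_sep (w := w2 * w1⁻¹)
      have e1 : UX a' = UX a * (ε * w1 ^ 2)⁻¹ := by
        rw [← hw1, mul_inv, inv_inv, mul_inv_cancel_left]
      have e2 : UX a'' = UX a * (ε * w2 ^ 2)⁻¹ := by
        rw [← hw2, mul_inv, inv_inv, mul_inv_cancel_left]
      rw [e1, e2]
      simp only [mul_inv, mul_pow, inv_pow]
      have : w2 ^ 2 * (w1 ^ 2)⁻¹ * (UX a * (ε⁻¹ * (w2 ^ 2)⁻¹))
          = UX a * (ε⁻¹ * (w1 ^ 2)⁻¹) * (w2 ^ 2 * (w2 ^ 2)⁻¹) := by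
        simp only [mul_assoc, mul_comm, mul_left_comm]
      rw [this, mul_inv_cancel, mul_one]
    rw [Finset.card_univ, card_X] at h1
    have h2 : Finset.univ.image (sgnX σ0) = Finset.univ := by
      apply Finset.eq_univ_of_card
      apply le_antisymm (Finset.card_le_univ _)
      rw [← Nat.card_eq_fintype_card, card_sgn M]
      omega
    intro b
    have : b ∈ Finset.univ.image (sgnX σ0) := by rw [h2]; exact Finset.mem_univ _
    obtain ⟨x, -, hx⟩ := Finset.mem_image.mp this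
    exact ⟨x, hx⟩
  obtain ⟨x, hx⟩ := hsurj (fun ρ => decide (0 < σ0 (ρ.1 y0)))
  refine ⟨UX x, fun σ => pos_of_norm M σ0 ?_ ?_ σ⟩
  · intro ρ hρ
    have h1 := congrFun hx ⟨ρ, hρ⟩
    simp only [sgnX, decide_eq_decide] at h1
    have h4 : σ0 (ρ ((UX x : 𝓞 K) : K)) ≠ 0 := by
      have := congrArg (fun t => σ0 (ρ t)) (unit_mul_inv (UX x))
      simp only [map_mul, map_one] at this
      intro h0
      rw [h0, zero_mul] at this
      exact zero_ne_one this
    have h5 : σ0 (ρ y0) ≠ 0 := fun h => hy0 (by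
      have := (map_eq_zero σ0).mp h
      exact (map_eq_zero ρ).mp this)
    rw [map_mul, map_mul]
    rcases lt_or_gt_of_ne h4 with h6 | h6
    · have h7 : σ0 (ρ y0) < 0 := by
        rcases lt_or_gt_of_ne h5 with h7 | h7
        · exact h7
        · exact absurd (h1.mpr h7) (by linarith)
      exact mul_pos_of_neg_of_neg h6 h7
    · exact mul_pos h6 (h1.mp h6)
  · rw [Nm_mul, unit_Nm M hPN, one_mul]; exact hN

end Pool.Agent.Work.MP_eae946_nt.Full
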